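import Pool.Agent.Helper77.ST.GEquiv5

/-!
# Balanced q-binomials and nilpotency of the generators
-/

namespace Pool.Agent.Helper77.ST

open Finset
open Pool.Agent.Helper9.Kashaev (Piece Diagram)

variable {F : Type*} [Field F]

/-- balanced q-binomial coefficients -/
noncomputable def qb (P : Par F) : ℕ → ℕ → F
  | _, 0 => 1
  | 0, _ + 1 => 0
  | n + 1, j + 1 => P.v ^ (-((j : ℤ) + 1)) * qb P n (j + 1) + P.v ^ ((n : ℤ) - j) * qb P n j

lemma qb_zero_right (P : Par F) (n : ℕ) : qb P n 0 = 1 := by cases n <;> simp [qb]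

lemma qb_gt {P : Par F} (n : ℕ) : ∀ j, n < j → qb P n j = 0 := by
  induction n with
  | zero =>
    intro j hj
    obtain ⟨i, rfl⟩ : ∃ i, j = i + 1 := ⟨j - 1, by omega⟩
    simp [qb]
  | succ n ih =>
    intro j hj
    obtain ⟨i, rfl⟩ : ∃ i, j = i + 1 := ⟨j - 1, by omega⟩
    simp only [qb]
    rw [ih (i + 1) (by omega), ih i (by omega)]; ring

lemma qb_self (P : Par F) (n : ℕ) : qb P n n = 1 := by
  induction n with
  | zero => simp [qb]
  | succ n ih =>
    simp only [qb]
    rw [qb_gt n (n + 1) (by omega), ih]; simp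

lemma qi_add_mul {P : Par F} (x y : ℤ) :
    P.v ^ (-x) * qi P y + P.v ^ y * qi P x = qi P (x + y) := by
  unfold qi
  have h1 : P.v ^ (-x) * P.v ^ y = P.v ^ y * P.v ^ (-x) := mul_comm _ _
  rw [neg_add, ← vz, ← vz]
  ring

lemma qb_mul {P : Par F} (n : ℕ) : ∀ j ≤ n, qb P n j * (qfac P j * qfac P (n - j)) = qfac P n := by
  induction n with
  | zero =>
    intro j hj
    obtain rfl : j = 0 := by omega
    simp [qb, qfac_zero]
  | succ n ih =>
    intro j hj
    rcases j with _ | j
    · rw [qb_zero_right, qfac_zero, Nat.sub_zero]; ring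
    · simp only [qb]
      rcases Nat.lt_or_ge n (j + 1) with h | h
      · obtain rfl : j = n := by omega
        rw [qb_gt j (j + 1) (by omega), qb_self, Nat.sub_self, qfac_zero]
        simp
      · have h1 := ih (j + 1) h
        have h2 := ih j (by omega)
        have e1 : n + 1 - (j + 1) = n - (j + 1) + 1 := by omega
        have e2 : n - j = n - (j + 1) + 1 := by omega
        rw [e2] at h2
        rw [e1]
        have e3 : (((n - (j + 1) : ℕ) : ℤ) + 1) = (n : ℤ) - j := by
          push_cast [Nat.cast_sub h]; ring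
        have q1 := qfac_succ P (n - (j + 1))
        have q2 := qfac_succ P j
        have q3 := qfac_succ P n
        rw [e3] at q1
        have q4 := qi_add_mul (P := P) ((j : ℤ) + 1) ((n : ℤ) - j)
        rw [show (j : ℤ) + 1 + ((n : ℤ) - j) = (n : ℤ) + 1 by ring] at q4
        rw [q1] at h2
        rw [q2] at h1
        rw [q1, q2, q3]
        linear_combination (P.v ^ (-((j : ℤ) + 1)) * qi P ((n : ℤ) - j)) * h1 +
          (P.v ^ ((n : ℤ) - j) * qi P ((j : ℤ) + 1)) * h2 + qfac P n * q4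

lemma qb_ratio {P : Par F} {n j : ℕ} (hn : n < P.N) (hj : j ≤ n) :
    qb P n (j + 1) * qi P (j + 1) = qb P n j * qi P ((n : ℤ) - j) := by
  rcases Nat.lt_or_ge n (j + 1) with h | h
  · obtain rfl : j = n := by omega
    rw [qb_gt j (j + 1) (by omega), sub_self, qi_zero]; ring
  · have h1 := qb_mul (P := P) n (j + 1) h
    have h2 := qb_mul (P := P) n j hj
    have e2 : n - j = n - (j + 1) + 1 := by omega
    have e3 : (((n - (j + 1) : ℕ) : ℤ) + 1) = (n : ℤ) - j := by
      push_cast [Nat.cast_sub h]; ring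
    have q1 := qfac_succ P (n - (j + 1))
    rw [e3] at q1
    rw [e2, q1] at h2
    rw [qfac_succ] at h1
    have f1 : qfac P j ≠ 0 := qfac_ne (by omega)
    have f2 : qfac P (n - (j + 1)) ≠ 0 := qfac_ne (by omega)
    have := h1.trans h2.symm
    have h3 : (qb P n (j + 1) * qi P (j + 1) - qb P n j * qi P ((n : ℤ) - j)) *
        (qfac P j * qfac P (n - (j + 1))) = 0 := by linear_combination this
    rcases mul_eq_zero.mp h3 with h4 | h4
    · exact sub_eq_zero.mp h4
    · exact absurd h4 (mul_ne_zero f1 f2)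

/-- the other Pascal rule -/
lemma qb_succ' {P : Par F} {n : ℕ} (hn : n < P.N) (j : ℕ) :
    qb P (n + 1) (j + 1) =
      P.v ^ ((j : ℤ) + 1) * qb P n (j + 1) + P.v ^ (-((n : ℤ) - j)) * qb P n j := by
  simp only [qb]
  rcases Nat.lt_or_ge n j with h | h
  · rw [qb_gt n (j + 1) (by omega), qb_gt n j h]; ring
  · have h1 := qb_ratio hn h
    have h2 := qi_mul_vd (P := P) ((j : ℤ) + 1)
    have h3 := qi_mul_vd (P := P) ((n : ℤ) - j)
    linear_combination (-(P.v - (P.v)⁻¹)) * h1 + qb P n (j + 1) * h2 - qb P n j * h3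

/-- both Pascal rules at once -/
lemma qb_pascal {P : Par F} {n : ℕ} (hn : n < P.N) (j : ℕ) {u : F}
    (hu : u = P.v ∨ u = (P.v)⁻¹) :
    qb P (n + 1) (j + 1) =
      u ^ (-((j : ℤ) + 1)) * qb P n (j + 1) + u ^ ((n : ℤ) - j) * qb P n j := by
  rcases hu with rfl | rfl
  · simp only [qb]
  · rw [qb_succ' hn, inv_zpow', inv_zpow', neg_neg]

/-- the noncommutative binomial theorem -/
lemma q_binomial {R : Type*} [Ring R] [Algebra F R] {P : Par F} {u : F}
    (hu : u = P.v ∨ u = (P.v)⁻¹) (AA BB : R) (hQP : BB * AA = u ^ (-2 : ℤ) • (AA * BB)) :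
    ∀ n ≤ P.N, (AA + BB) ^ n = ∑ j ∈ range (n + 1),
      (u ^ (-((j : ℤ) * ((n : ℤ) - j))) * qb P n j) • (AA ^ j * BB ^ (n - j)) := by
  have hu0 : u ≠ 0 := by
    rcases hu with rfl | rfl
    · exact v_ne P
    · exact inv_ne_zero (v_ne P)
  have hQPj : ∀ j : ℕ, BB * AA ^ j = u ^ (-2 * (j : ℤ)) • (AA ^ j * BB) := by
    intro j
    induction j with
    | zero => simp
    | succ j ih =>
      rw [pow_succ, ← mul_assoc, ih, smul_mul_assoc, mul_assoc, hQP, mul_smul_comm, smul_smul,
        ← mul_assoc, ← zpow_add₀ hu0]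
      congr 2
      push_cast; ring
  intro n
  induction n with
  | zero => intro _; simp [qb]
  | succ n ih =>
    intro hn
    rw [pow_succ', ih (by omega), add_mul, mul_sum, mul_sum]
    have e1 : ∑ j ∈ range (n + 1), AA * ((u ^ (-((j : ℤ) * ((n : ℤ) - j))) * qb P n j) •
        (AA ^ j * BB ^ (n - j))) = ∑ j ∈ range (n + 1),
        (u ^ (-((j : ℤ) * ((n : ℤ) - j))) * qb P n j) • (AA ^ (j + 1) * BB ^ (n - j)) := by
      apply sum_congr rfl
      intro j _
      rw [mul_smul_comm, ← mul_assoc, pow_succ']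
    have e2 : ∑ j ∈ range (n + 1), BB * ((u ^ (-((j : ℤ) * ((n : ℤ) - j))) * qb P n j) •
        (AA ^ j * BB ^ (n - j))) = ∑ j ∈ range (n + 1),
        (u ^ (-((j : ℤ) * ((n : ℤ) - j))) * qb P n j * u ^ (-2 * (j : ℤ))) •
          (AA ^ j * BB ^ (n + 1 - j)) := by
      apply sum_congr rfl
      intro j hj
      rw [mem_range] at hj
      rw [mul_smul_comm, ← mul_assoc, hQPj, smul_mul_assoc, smul_smul, mul_assoc (AA ^ j),
        ← pow_succ']
      congr 3
      omega
    have e3 : ∑ j ∈ range (n + 1),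
        (u ^ (-((j : ℤ) * ((n : ℤ) - j))) * qb P n j * u ^ (-2 * (j : ℤ))) •
          (AA ^ j * BB ^ (n + 1 - j)) = ∑ j ∈ range (n + 2),
        (u ^ (-((j : ℤ) * ((n : ℤ) - j))) * qb P n j * u ^ (-2 * (j : ℤ))) •
          (AA ^ j * BB ^ (n + 1 - j)) := by
      rw [sum_range_succ _ (n + 1), qb_gt n (n + 1) (by omega)]
      simp
    rw [e1, e2, e3, sum_range_succ' _ (n + 1), sum_range_succ' _ (n + 1), ← add_assoc,
      ← sum_add_distrib]
    congr 1
    · apply sum_congr rfl
      intro j hj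
      rw [mem_range] at hj
      have e4 : n + 1 - (j + 1) = n - j := by omega
      rw [e4, ← add_smul, qb_pascal (by omega) j hu]
      congr 1
      have z1 : u ^ (-((((j + 1 : ℕ) : ℤ)) * (((n + 1 : ℕ) : ℤ) - ((j + 1 : ℕ) : ℤ)))) *
          u ^ (-((j : ℤ) + 1)) = u ^ (-((((j + 1 : ℕ) : ℤ)) * ((n : ℤ) - ((j + 1 : ℕ) : ℤ)))) *
          u ^ (-2 * ((j + 1 : ℕ) : ℤ)) := by
        rw [← zpow_add₀ hu0, ← zpow_add₀ hu0]; congr 1; push_cast; ring
      have z2 : u ^ (-((((j + 1 : ℕ) : ℤ)) * (((n + 1 : ℕ) : ℤ) - ((j + 1 : ℕ) : ℤ)))) *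
          u ^ ((n : ℤ) - j) = u ^ (-((j : ℤ) * ((n : ℤ) - j))) := by
        rw [← zpow_add₀ hu0]; congr 1; push_cast; ring
      linear_combination (-qb P n (j + 1)) * z1 - (qb P n j) * z2
    · simp [qb_zero_right]

/-- the part of `E` acting on the first letter -/
noncomputable def EP (P : Par F) : (List ℕ → F) →ₗ[F] (List ℕ → F) where
  toFun f := fun w => match w with
    | [] => 0
    | x :: w => ecoef P (x + 1) * P.v ^ (wtl P w) * f ((x + 1) :: w)
  map_add' f g := by
    funext w; rcases w with _ | ⟨x, w⟩ <;> simp [mul_add]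
  map_smul' c f := by
    funext w; rcases w with _ | ⟨x, w⟩
    · simp
    · simp only [Pi.smul_apply, smul_eq_mul, RingHom.id_apply]; ring

/-- the part of `E` acting on the other letters -/
noncomputable def EQ (P : Par F) : (List ℕ → F) →ₗ[F] (List ℕ → F) where
  toFun f := fun w => match w with
    | [] => 0
    | x :: w => Eop P (fun u => f (x :: u)) w
  map_add' f g := by
    funext w; rcases w with _ | ⟨x, w⟩
    · simp
    · exact Eop_add P _ _ w
  map_smul' c f := by
    funext w; rcases w with _ | ⟨x, w⟩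
    · simp
    · exact Eop_smul P c _ w

lemma EL_eq (P : Par F) : EL P = EP P + EQ P := by
  ext f w
  rcases w with _ | ⟨x, w⟩
  · simp [EL, Eop, EP, EQ]
  · simp [EL, Eop, EP, EQ]

lemma EQ_EP {P : Par F} : EQ P * EP P = P.v ^ (-2 : ℤ) • (EP P * EQ P) := by
  ext f w
  rcases w with _ | ⟨x, w⟩
  · simp [EP, EQ]
  · simp only [Module.End.mul_apply, LinearMap.smul_apply, Pi.smul_apply, smul_eq_mul]
    show Eop P (fun u => ecoef P (x + 1) * P.v ^ (wtl P u) * f ((x + 1) :: u)) w =
      P.v ^ (-2 : ℤ) * (ecoef P (x + 1) * P.v ^ (wtl P w) * Eop P (fun u => f ((x + 1) :: u)) w)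
    have h := Eop_wtl (P := P) (fun y => ecoef P (x + 1) * P.v ^ y) (fun u => f ((x + 1) :: u)) w
    rw [h, show wtl P w - 2 = wtl P w + (-2) by ring, ← vz]
    ring

lemma EP_pow {P : Par F} (f : List ℕ → F) (j x : ℕ) (w : List ℕ) :
    (EP P ^ j) f (x :: w) = eta P x j * P.v ^ ((j : ℤ) * wtl P w) * f ((x + j) :: w) := by
  induction j generalizing f with
  | zero => simp [eta_zero]
  | succ j ih =>
    rw [pow_succ, Module.End.mul_apply, ih]
    show eta P x j * P.v ^ ((j : ℤ) * wtl P w) *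
      (ecoef P (x + j + 1) * P.v ^ (wtl P w) * f ((x + j + 1) :: w)) = _
    rw [eta_succ, show x + (j + 1) = x + j + 1 by ring]
    have : P.v ^ (((j + 1 : ℕ) : ℤ) * wtl P w) = P.v ^ ((j : ℤ) * wtl P w) * P.v ^ (wtl P w) := by
      rw [vz]; congr 1; push_cast; ring
    rw [this]; ring

lemma EQ_pow {P : Par F} (f : List ℕ → F) (j x : ℕ) (w : List ℕ) :
    (EQ P ^ j) f (x :: w) = (EL P ^ j) (fun u => f (x :: u)) w := by
  induction j generalizing f with
  | zero => simp
  | succ j ih =>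
    rw [pow_succ, Module.End.mul_apply, ih, pow_succ, Module.End.mul_apply]
    rfl

/-- the part of `F` acting on the first letter -/
noncomputable def FP (P : Par F) : (List ℕ → F) →ₗ[F] (List ℕ → F) where
  toFun f := fun w => match w with
    | [] => 0
    | x :: w => if 1 ≤ x ∧ x < P.N then f ((x - 1) :: w) else 0
  map_add' f g := by
    funext w; rcases w with _ | ⟨x, w⟩
    · simp
    · simp only [Pi.add_apply]; split_ifs <;> ring
  map_smul' c f := by
    funext w; rcases w with _ | ⟨x, w⟩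
    · simp
    · simp only [Pi.smul_apply, smul_eq_mul, RingHom.id_apply]; split_ifs <;> ring

/-- the part of `F` acting on the other letters -/
noncomputable def FQ (P : Par F) : (List ℕ → F) →ₗ[F] (List ℕ → F) where
  toFun f := fun w => match w with
    | [] => 0
    | x :: w => P.v ^ (-wt P x) * Fop P (fun u => f (x :: u)) w
  map_add' f g := by
    funext w; rcases w with _ | ⟨x, w⟩
    · simp
    · show P.v ^ (-wt P x) * Fop P (fun u => f (x :: u) + g (x :: u)) w = _
      rw [Fop_add P (fun u => f (x :: u)) (fun u => g (x :: u))]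
      simp only [Pi.add_apply]; ring
  map_smul' c f := by
    funext w; rcases w with _ | ⟨x, w⟩
    · simp
    · show P.v ^ (-wt P x) * Fop P (fun u => c * f (x :: u)) w = _
      rw [Fop_smul]
      simp only [Pi.smul_apply, smul_eq_mul, RingHom.id_apply]; ring

lemma FL_eq (P : Par F) : FL P = FP P + FQ P := by
  ext f w
  rcases w with _ | ⟨x, w⟩
  · simp [FL, Fop, FP, FQ]
  · simp [FL, Fop, FP, FQ]

lemma FQ_FP {P : Par F} : FQ P * FP P = (P.v)⁻¹ ^ (-2 : ℤ) • (FP P * FQ P) := by
  ext f w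
  rcases w with _ | ⟨x, w⟩
  · simp [FP, FQ]
  · simp only [Module.End.mul_apply, LinearMap.smul_apply, Pi.smul_apply, smul_eq_mul]
    show P.v ^ (-wt P x) * Fop P (fun u => if 1 ≤ x ∧ x < P.N then f ((x - 1) :: u) else 0) w =
      (P.v)⁻¹ ^ (-2 : ℤ) * (if 1 ≤ x ∧ x < P.N then
        P.v ^ (-wt P (x - 1)) * Fop P (fun u => f ((x - 1) :: u)) w else 0)
    split_ifs with h
    · rw [inv_zpow', ← mul_assoc, vz]
      congr 2
      unfold wt; push_cast [Nat.cast_sub h.1]; ring
    · rw [Fop_zero_fun]; ring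

lemma FP_pow {P : Par F} (f : List ℕ → F) (j x : ℕ) (w : List ℕ) :
    (FP P ^ (j + 1)) f (x :: w) = if j + 1 ≤ x ∧ x < P.N then f ((x - (j + 1)) :: w) else 0 := by
  induction j generalizing f with
  | zero =>
    rw [zero_add, pow_one]
    rfl
  | succ j ih =>
    rw [pow_succ, Module.End.mul_apply, ih]
    show (if j + 1 ≤ x ∧ x < P.N then (if 1 ≤ x - (j + 1) ∧ x - (j + 1) < P.N then
      f ((x - (j + 1) - 1) :: w) else 0) else 0) = _
    by_cases h : j + 1 + 1 ≤ x ∧ x < P.N
    · rw [if_pos (by omega), if_pos (by omega), if_pos h]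
      congr 2
    · rw [if_neg h]
      split_ifs <;> first | rfl | omega

lemma FQ_pow {P : Par F} (f : List ℕ → F) (j x : ℕ) (w : List ℕ) :
    (FQ P ^ j) f (x :: w) = P.v ^ (-((j : ℤ) * wt P x)) * (FL P ^ j) (fun u => f (x :: u)) w := by
  induction j generalizing f with
  | zero => simp
  | succ j ih =>
    rw [pow_succ, Module.End.mul_apply, ih, pow_succ, Module.End.mul_apply]
    have : (fun u => (FQ P) f (x :: u)) = P.v ^ (-wt P x) • (FL P (fun u => f (x :: u))) := by
      funext u; rfl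
    rw [this, map_smul, Pi.smul_apply, smul_eq_mul, ← mul_assoc, vz]
    congr 2
    push_cast; ring


end Pool.Agent.Helper77.ST
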