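import Pool.Agent.Helper77.ST.GDefs
import Pool.Agent.Helper77.ST.GQBin

/-!
# Module RAGREE: the two kinds of operators agree
-/

namespace Pool.Agent.Helper77.ST

open Finset
open Pool.Agent.Helper9.Kashaev (Piece Diagram)
open Pool.Agent.Helper9.FA (Item twists)

variable {F : Type*} [Field F]

lemma ragree_zp (P : Par F) (x : ℤ) : zp P.u x = P.v ^ x := by
  unfold zp Par.u
  rw [Units.val_zpow_eq_zpow_val, Units.val_mk0]

lemma ragree_qc (P : Par F) : ∀ n j : ℕ, qc P.u n j = qb P n j := by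
  intro n
  induction n with
  | zero =>
    intro j
    cases j <;> simp [qc, qb]
  | succ n ih =>
    intro j
    cases j with
    | zero => simp [qc, qb]
    | succ j =>
      simp only [qc, qb]
      rw [ih, ih, ragree_zp, ragree_zp]

lemma ragree_br (P : Par F) (x : ℤ) : br P.u x = (P.v - (P.v)⁻¹) * qi P x := by
  unfold br
  rw [ragree_zp, ragree_zp, mul_comm, qi_mul_vd]

lemma ragree_qfac {P : Par F} (i : ℕ) : ∀ m ≤ i,
    qfac P (i - m) * ∏ t ∈ range m, qi P ((i - t : ℕ) : ℤ) = qfac P i := by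
  intro m
  induction m with
  | zero => intro _; simp
  | succ m ih =>
    intro hm
    rw [prod_range_succ, ← ih (by omega)]
    have e : i - m = i - (m + 1) + 1 := by omega
    rw [e, qfac_succ]
    push_cast
    ring

lemma ragree_core {P : Par F} {i m : ℕ} (hm : m ≤ i) (hi : i < P.N) :
    qc P.u i m * ∏ t ∈ range m, br P.u (2 * (P.l : ℤ) + 1 - i + t) =
      ((P.v - (P.v)⁻¹) ^ m / qfac P m) * ∏ t ∈ range m, ecoef P (i - t) := by
  have h1 : ∏ t ∈ range m, br P.u (2 * (P.l : ℤ) + 1 - i + t) =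
      (P.v - (P.v)⁻¹) ^ m * ∏ t ∈ range m, qi P ((P.N - (i - t) : ℕ) : ℤ) := by
    have : ∀ t ∈ range m, br P.u (2 * (P.l : ℤ) + 1 - i + t) =
        (P.v - (P.v)⁻¹) * qi P ((P.N - (i - t) : ℕ) : ℤ) := by
      intro t ht
      rw [mem_range] at ht
      rw [ragree_br]
      congr 2
      have h2 : i - t ≤ P.N := by omega
      have h3 : t ≤ i := by omega
      rw [Nat.cast_sub h2, Nat.cast_sub h3, Par.N_eq]
      push_cast
      ring
    rw [prod_congr rfl this, prod_mul_distrib, prod_const, card_range]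
  have h2 : ∏ t ∈ range m, ecoef P (i - t) =
      (∏ t ∈ range m, qi P ((i - t : ℕ) : ℤ)) * ∏ t ∈ range m, qi P ((P.N - (i - t) : ℕ) : ℤ) := by
    rw [← prod_mul_distrib]
    rfl
  have h3 := ragree_qfac (P := P) i m hm
  have h4 := qb_mul (P := P) i m hm
  have f1 : qfac P m ≠ 0 := qfac_ne (by omega)
  have f2 : qfac P (i - m) ≠ 0 := qfac_ne (by omega)
  have h5 : qb P i m * qfac P m = ∏ t ∈ range m, qi P ((i - t : ℕ) : ℤ) := by
    apply mul_left_cancel₀ f2
    rw [h3, ← h4]
    ring
  rw [h1, h2, ragree_qc, ← h5]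
  field_simp

lemma ragree_pos {P : Par F} {i j m : ℕ} (hm : m ≤ i) (hi : i < P.N) :
    posG P.l P.u i j m = posC P i j m := by
  unfold posG posC
  rw [mul_assoc (zp P.u _ * zp P.u _), ragree_core hm hi, ragree_zp, ragree_zp, zpow_natCast]
  unfold hw
  ring

lemma ragree_neg {P : Par F} {i j m : ℕ} (hm : m ≤ j) (hj : j < P.N) :
    negG P.l P.u i j m = negC P i j m := by
  unfold negG negC
  rw [mul_assoc (zp P.u _ * (-1) ^ m * zp P.u _), ragree_core hm hj, ragree_zp, ragree_zp,
    zpow_neg _ (((m * (m - 1) / 2 : ℕ)) : ℤ), zpow_natCast, inv_pow]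
  unfold hw
  ring

lemma ragree_cup (P : Par F) (i : ℕ) : cupG P.l P.u i = cupC P i := by
  unfold cupG cupC
  rw [ragree_zp, Par.N_eq]
  congr 2
  push_cast
  ring

lemma ragree_cap (P : Par F) (i : ℕ) : capG P.l P.u i = capC P i := by
  unfold capG capC cupC
  rw [ragree_zp, Par.N_eq]
  have e : 2 * P.l + 1 - 1 - i = 2 * P.l - i := by omega
  rw [e, mul_inv, ← zpow_neg]
  congr 1
  · rw [← inv_pow, inv_neg_one]
  · congr 1
    push_cast
    ring

lemma ragree_piece (P : Par F) (p : Piece) (f : List ℕ → F) (w : List ℕ) :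
    pieceG P.l P.u p f w = piece P p f w := by
  have hN : 2 * P.l + 1 = P.N := rfl
  cases p with
  | cup =>
    rcases w with _ | ⟨a, _ | ⟨b, w⟩⟩
    · rfl
    · rfl
    · simp only [pieceG, piece, ragree_cup]
      rfl
  | cap =>
    simp only [pieceG, piece, ragree_cap]
    rfl
  | pos =>
    rcases w with _ | ⟨a, _ | ⟨b, w⟩⟩
    · rfl
    · rfl
    · simp only [pieceG, piece, hN]
      apply sum_congr rfl
      intro m _
      split_ifs with h
      · rw [ragree_pos (by omega) h.2.2]
      · rfl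
  | neg =>
    rcases w with _ | ⟨a, _ | ⟨b, w⟩⟩
    · rfl
    · rfl
    · simp only [pieceG, piece, hN]
      apply sum_congr rfl
      intro m _
      split_ifs with h
      · rw [ragree_neg (by omega) h.2.2]
      · rfl

lemma ragree_slice (P : Par F) (p : Piece) (k : ℕ) (f : List ℕ → F) (w : List ℕ) :
    sliceG P.l P.u p k f w = slice P p k f w := by
  induction k generalizing f w with
  | zero => exact ragree_piece P p f w
  | succ k ih =>
    rcases w with _ | ⟨x, w⟩
    · rfl
    · simp only [sliceG, slice]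
      exact ih _ _

theorem RTG_eq (P : Par F) (D : Diagram) (f : List ℕ → F) (w : List ℕ) :
    RTG P.l P.u D f w = RT P D f w := by
  induction D generalizing f with
  | nil => rfl
  | cons s D ih =>
    simp only [RTG, RT]
    rw [ih]
    congr 1
    funext u
    exact ragree_slice P _ _ _ _

theorem Gv_eq (P : Par F) (D : Diagram) :
    Gv P.l P.u D = RT P D (ket [0]) [0] * RT P.inv D (ket [0]) [0] := by
  have h1 : P.inv.u = P.u⁻¹ := by
    apply Units.ext
    simp [Par.u, Par.inv]
  have h2 : P.inv.l = P.l := rfl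
  have h3 : (ketG F [0] : List ℕ → F) = ket [0] := rfl
  unfold Gv fv
  rw [RTG_eq, ← h1, ← h2, RTG_eq P.inv, h3]

end Pool.Agent.Helper77.ST
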