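import Pool.Agent.Helper77.ST.GDefs

/-!
# Module RNAT: ring homomorphisms
-/

namespace Pool.Agent.Helper77.ST

open Finset
open Pool.Agent.Helper9.Kashaev (Piece Diagram)
open Pool.Agent.Helper9.FA (Item twists)

variable {A B : Type*} [CommRing A] [CommRing B]

lemma map_zp (φ : A →+* B) (v : Aˣ) (x : ℤ) :
    φ (zp v x) = zp (Units.map (φ : A →* B) v) x := by
  unfold zp
  rw [← map_zpow]
  rfl

lemma map_br (φ : A →+* B) (v : Aˣ) (x : ℤ) :
    φ (br v x) = br (Units.map (φ : A →* B) v) x := by
  unfold br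
  rw [map_sub, map_zp, map_zp]

lemma map_qc (φ : A →+* B) (v : Aˣ) (n : ℕ) : ∀ j : ℕ,
    φ (qc v n j) = qc (Units.map (φ : A →* B) v) n j := by
  induction n with
  | zero =>
    intro j
    cases j with
    | zero => simp [qc]
    | succ j => simp [qc]
  | succ n ih =>
    intro j
    cases j with
    | zero => simp [qc]
    | succ j =>
      simp only [qc]
      rw [map_add, map_mul, map_mul, map_zp, map_zp, ih, ih]

lemma map_posG (φ : A →+* B) (l : ℕ) (v : Aˣ) (i j m : ℕ) :
    φ (posG l v i j m) = posG l (Units.map (φ : A →* B) v) i j m := by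
  unfold posG
  rw [map_mul, map_mul, map_mul, map_zp, map_zp, map_qc, map_prod]
  simp only [map_br]

lemma map_negG (φ : A →+* B) (l : ℕ) (v : Aˣ) (i j m : ℕ) :
    φ (negG l v i j m) = negG l (Units.map (φ : A →* B) v) i j m := by
  unfold negG
  rw [map_mul, map_mul, map_mul, map_mul, map_zp, map_zp, map_qc, map_prod, map_pow, map_neg,
    map_one]
  simp only [map_br]

lemma map_cupG (φ : A →+* B) (l : ℕ) (v : Aˣ) (i : ℕ) :
    φ (cupG l v i) = cupG l (Units.map (φ : A →* B) v) i := by
  unfold cupG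
  rw [map_mul, map_zp, map_pow, map_neg, map_one]

lemma map_capG (φ : A →+* B) (l : ℕ) (v : Aˣ) (i : ℕ) :
    φ (capG l v i) = capG l (Units.map (φ : A →* B) v) i := by
  unfold capG
  rw [map_mul, map_zp, map_pow, map_neg, map_one]

lemma map_pieceG (φ : A →+* B) (l : ℕ) (v : Aˣ) (p : Piece) (f : List ℕ → A) (w : List ℕ) :
    φ (pieceG l v p f w) = pieceG l (Units.map (φ : A →* B) v) p (fun u => φ (f u)) w := by
  cases p with
  | cup =>
    rcases w with _ | ⟨a, _ | ⟨b, w⟩⟩
    · simp [pieceG]
    · simp [pieceG]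
    · simp only [pieceG]
      split_ifs
      · rw [map_mul, map_cupG]
      · exact map_zero φ
  | cap =>
    simp only [pieceG]
    rw [map_sum]
    apply sum_congr rfl
    intro a _
    rw [map_mul, map_capG]
  | pos =>
    rcases w with _ | ⟨a, _ | ⟨b, w⟩⟩
    · simp [pieceG]
    · simp [pieceG]
    · simp only [pieceG]
      rw [map_sum]
      apply sum_congr rfl
      intro m _
      split_ifs
      · rw [map_mul, map_posG]
      · exact map_zero φ
  | neg =>
    rcases w with _ | ⟨a, _ | ⟨b, w⟩⟩
    · simp [pieceG]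
    · simp [pieceG]
    · simp only [pieceG]
      rw [map_sum]
      apply sum_congr rfl
      intro m _
      split_ifs
      · rw [map_mul, map_negG]
      · exact map_zero φ

lemma map_sliceG (φ : A →+* B) (l : ℕ) (v : Aˣ) (p : Piece) (k : ℕ) : ∀ (f : List ℕ → A)
    (w : List ℕ), φ (sliceG l v p k f w) =
      sliceG l (Units.map (φ : A →* B) v) p k (fun u => φ (f u)) w := by
  induction k with
  | zero => intro f w; exact map_pieceG φ l v p f w
  | succ k ih =>
    intro f w
    rcases w with _ | ⟨x, w⟩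
    · simp [sliceG]
    · simp only [sliceG]
      exact ih _ _

theorem map_RTG (φ : A →+* B) (l : ℕ) (v : Aˣ) (D : Diagram) (f : List ℕ → A) (w : List ℕ) :
    φ (RTG l v D f w) = RTG l (Units.map (φ : A →* B) v) D (fun u => φ (f u)) w := by
  induction D generalizing f with
  | nil => rfl
  | cons s D ih =>
    simp only [RTG]
    rw [ih]
    congr 1
    funext u
    exact map_sliceG φ l v s.2 s.1 f u

theorem map_fv (φ : A →+* B) (l : ℕ) (v : Aˣ) (D : Diagram) :
    φ (fv l v D) = fv l (Units.map (φ : A →* B) v) D := by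
  unfold fv
  rw [map_RTG]
  congr 1
  funext u
  unfold ketG
  split_ifs
  · exact map_one φ
  · exact map_zero φ

theorem map_Gv (φ : A →+* B) (l : ℕ) (v : Aˣ) (D : Diagram) :
    φ (Gv l v D) = Gv l (Units.map (φ : A →* B) v) D := by
  unfold Gv
  rw [map_mul, map_fv, map_fv, map_inv]

end Pool.Agent.Helper77.ST
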