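import Mathlib
import Pool.Agent.Helper77.ST.RNat
import Pool.Agent.Helper77.ST.RAgree
import Pool.Agent.Helper9.FA.ZDefs

/-!
# Module QROOT: the parameter `exp (π i / N)`
-/

namespace Pool.Agent.Helper77.ST

open Finset
open Pool.Agent.Helper9.Kashaev (Piece Diagram)

/-- the parameter `v = exp (π i / N)` for `N = 2 l + 1` -/
noncomputable def rootPar (l : ℕ) (hl : 1 ≤ l) : Par ℂ where
  l := l
  v := Pool.Agent.Helper9.Kashaev.v (2 * l + 1)
  l1 := hl
  v0 := Pool.Agent.Helper9.Kashaev.v_ne _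
  q0 := by
    intro m h1 h2
    have h := Pool.Agent.Helper9.Kashaev.v_sub_eq (2 * l + 1) (m : ℤ)
    rw [zpow_neg, zpow_natCast, ← inv_pow] at h
    rw [h]
    have h3 := Pool.Agent.Helper9.Kashaev.sn_pos (N := 2 * l + 1) (x := (m : ℤ))
      (by exact_mod_cast h1) (by push_cast; omega)
    exact mul_ne_zero Complex.I_ne_zero (by exact_mod_cast h3.ne')

namespace H6Q

theorem hv (l : ℕ) (hl : 1 ≤ l) : (rootPar l hl).v = Pool.Agent.Helper9.Kashaev.v (2 * l + 1) :=
  rfl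

theorem hN (l : ℕ) (hl : 1 ≤ l) : (rootPar l hl).N = 2 * l + 1 := rfl

theorem qi_root (l : ℕ) (hl : 1 ≤ l) (x : ℤ) :
    qi (rootPar l hl) x = Pool.Agent.Helper9.Kashaev.qi (2 * l + 1) x := rfl

theorem qfac_root (l : ℕ) (hl : 1 ≤ l) (m : ℕ) :
    qfac (rootPar l hl) m = Pool.Agent.Helper9.Kashaev.qfac (2 * l + 1) m := by
  unfold qfac Pool.Agent.Helper9.Kashaev.qfac
  apply prod_congr rfl
  intro t _
  rw [Pool.Agent.Helper9.Kashaev.qint_eq, qi_root]

theorem ecoef_root (l : ℕ) (hl : 1 ≤ l) (m : ℕ) :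
    ecoef (rootPar l hl) m = Pool.Agent.Helper9.Kashaev.ecoef (2 * l + 1) m := by
  unfold ecoef Pool.Agent.Helper9.Kashaev.ecoef
  rw [Pool.Agent.Helper9.Kashaev.qint_eq, Pool.Agent.Helper9.Kashaev.qint_eq, qi_root, qi_root, hN]

theorem phase (l : ℕ) (hl : 1 ≤ l) (a b : ℕ) :
    (rootPar l hl).v ^ (2 * hw (rootPar l hl) a * hw (rootPar l hl) b) =
    Complex.exp (Real.pi * Complex.I *
      (Pool.Agent.Helper9.Kashaev.wt (2 * l + 1) a * Pool.Agent.Helper9.Kashaev.wt (2 * l + 1) b : ℤ)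
        / (2 * (2 * l + 1 : ℕ))) := by
  rw [hv, Pool.Agent.Helper9.Kashaev.v_zpow]
  congr 1
  have h1 : ((2 * l + 1 : ℕ) : ℂ) ≠ 0 := by exact_mod_cast (by omega : 2 * l + 1 ≠ 0)
  have h2 : Pool.Agent.Helper9.Kashaev.wt (2 * l + 1) a = 2 * hw (rootPar l hl) a := by
    unfold Pool.Agent.Helper9.Kashaev.wt hw
    show ((2 * l + 1 : ℕ) : ℤ) - 1 - 2 * a = 2 * ((l : ℤ) - a)
    push_cast; ring
  have h3 : Pool.Agent.Helper9.Kashaev.wt (2 * l + 1) b = 2 * hw (rootPar l hl) b := by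
    unfold Pool.Agent.Helper9.Kashaev.wt hw
    show ((2 * l + 1 : ℕ) : ℤ) - 1 - 2 * b = 2 * ((l : ℤ) - b)
    push_cast; ring
  rw [h2, h3]
  generalize ((2 * l + 1 : ℕ) : ℂ) = M at h1 ⊢
  push_cast
  field_simp

theorem posC_root (l : ℕ) (hl : 1 ≤ l) (i j m : ℕ) :
    posC (rootPar l hl) i j m = Pool.Agent.Helper9.Kashaev.posC (2 * l + 1) i j m := by
  unfold posC Pool.Agent.Helper9.Kashaev.posC
  rw [phase, qfac_root, hv]
  congr 1
  apply prod_congr rfl
  intro t _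
  rw [ecoef_root]

theorem negC_root (l : ℕ) (hl : 1 ≤ l) (i j m : ℕ) :
    negC (rootPar l hl) i j m = Pool.Agent.Helper9.Kashaev.negC (2 * l + 1) i j m := by
  unfold negC Pool.Agent.Helper9.Kashaev.negC
  rw [zpow_neg, phase, qfac_root, hv, Complex.exp_neg]
  congr 1
  apply prod_congr rfl
  intro t _
  rw [ecoef_root]

theorem cupC_root (l : ℕ) (hl : 1 ≤ l) (i : ℕ) :
    cupC (rootPar l hl) i = Pool.Agent.Helper9.Kashaev.cupC (2 * l + 1) i := rfl

theorem capC_root (l : ℕ) (hl : 1 ≤ l) (i : ℕ) :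
    capC (rootPar l hl) i = Pool.Agent.Helper9.Kashaev.capC (2 * l + 1) i := rfl

theorem piece_root (l : ℕ) (hl : 1 ≤ l) (p : Piece) (f : List ℕ → ℂ) (w : List ℕ) :
    piece (rootPar l hl) p f w = Pool.Agent.Helper9.Kashaev.piece (2 * l + 1) p f w := by
  cases p with
  | cup =>
    rcases w with _ | ⟨a, _ | ⟨b, w⟩⟩
    · simp only [piece, Pool.Agent.Helper9.Kashaev.piece]
    · simp only [piece, Pool.Agent.Helper9.Kashaev.piece]
    · simp only [piece, Pool.Agent.Helper9.Kashaev.piece]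
      rw [hN, cupC_root]
  | cap =>
    simp only [piece, Pool.Agent.Helper9.Kashaev.piece]
    rw [hN]
    rfl
  | pos =>
    rcases w with _ | ⟨a, _ | ⟨b, w⟩⟩
    · simp only [piece, Pool.Agent.Helper9.Kashaev.piece]
    · simp only [piece, Pool.Agent.Helper9.Kashaev.piece]
    · simp only [piece, Pool.Agent.Helper9.Kashaev.piece]
      rw [hN]
      apply sum_congr rfl
      intro m _
      rw [posC_root]
  | neg =>
    rcases w with _ | ⟨a, _ | ⟨b, w⟩⟩
    · simp only [piece, Pool.Agent.Helper9.Kashaev.piece]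
    · simp only [piece, Pool.Agent.Helper9.Kashaev.piece]
    · simp only [piece, Pool.Agent.Helper9.Kashaev.piece]
      rw [hN]
      apply sum_congr rfl
      intro m _
      rw [negC_root]

theorem slice_root (l : ℕ) (hl : 1 ≤ l) (p : Piece) (k : ℕ) (f : List ℕ → ℂ) (w : List ℕ) :
    slice (rootPar l hl) p k f w = Pool.Agent.Helper9.Kashaev.slice (2 * l + 1) p k f w := by
  induction k generalizing f w with
  | zero => exact piece_root l hl p f w
  | succ k ih =>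
    rcases w with _ | ⟨x, w⟩
    · simp only [slice, Pool.Agent.Helper9.Kashaev.slice]
    · simp only [slice, Pool.Agent.Helper9.Kashaev.slice]
      exact ih _ _

end H6Q

theorem RT_root (l : ℕ) (hl : 1 ≤ l) (D : Diagram) (f : List ℕ → ℂ) (w : List ℕ) :
    RT (rootPar l hl) D f w = Pool.Agent.Helper9.Kashaev.RT (2 * l + 1) D f w := by
  induction D generalizing f with
  | nil => rfl
  | cons s D ih =>
    simp only [RT, Pool.Agent.Helper9.Kashaev.RT]
    rw [ih]
    congr 1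
    funext u
    exact H6Q.slice_root l hl _ _ _ _

namespace H6Q

theorem conj_v (l : ℕ) : (starRingEnd ℂ) (Pool.Agent.Helper9.Kashaev.v (2 * l + 1)) =
    (Pool.Agent.Helper9.Kashaev.v (2 * l + 1))⁻¹ := by
  unfold Pool.Agent.Helper9.Kashaev.v
  rw [← Complex.exp_conj, ← Complex.exp_neg]
  congr 1
  rw [map_div₀, map_mul, Complex.conj_ofReal, Complex.conj_I, Complex.conj_natCast]
  ring

theorem map_conj_u (l : ℕ) (hl : 1 ≤ l) :
    Units.map ((starRingEnd ℂ : ℂ →+* ℂ) : ℂ →* ℂ) (rootPar l hl).u = ((rootPar l hl).u)⁻¹ := by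
  ext
  rw [Units.coe_map, Units.val_inv_eq_inv_val]
  exact conj_v l

end H6Q

/-- the invariant at the root of unity is the square of the absolute value of the Kashaev
invariant -/
theorem Gv_root (l : ℕ) (hl : 1 ≤ l) (D : Diagram) :
    LaurentPolynomial.eval₂ (algebraMap ℚ ℂ) (rootPar l hl).u (Gv l tU D) =
      ((‖Pool.Agent.Helper9.Kashaev.RT (2 * l + 1) D
        (Pool.Agent.Helper9.Kashaev.ket [0]) [0]‖ ^ 2 : ℝ) : ℂ) := by
  have h0 : LaurentPolynomial.eval₂ (algebraMap ℚ ℂ) (rootPar l hl).u (Gv l tU D) =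
      Gv l (rootPar l hl).u D := by
    rw [map_Gv (LaurentPolynomial.eval₂ (algebraMap ℚ ℂ) (rootPar l hl).u)]
    congr 1
    ext
    rw [Units.coe_map]
    show LaurentPolynomial.eval₂ (algebraMap ℚ ℂ) (rootPar l hl).u (LaurentPolynomial.T 1) = _
    rw [LaurentPolynomial.eval₂_T]
    simp
  have h1 : fv l (rootPar l hl).u D = Pool.Agent.Helper9.Kashaev.RT (2 * l + 1) D
        (Pool.Agent.Helper9.Kashaev.ket [0]) [0] := by
    have h := RTG_eq (rootPar l hl) D (ketG ℂ [0]) [0]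
    rw [RT_root] at h
    exact h
  have h2 : fv l ((rootPar l hl).u)⁻¹ D = (starRingEnd ℂ) (fv l (rootPar l hl).u D) := by
    rw [map_fv (starRingEnd ℂ), H6Q.map_conj_u]
  rw [h0]
  unfold Gv
  rw [h2, h1, Complex.mul_conj, Complex.normSq_eq_norm_sq]

end Pool.Agent.Helper77.ST
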