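import Pool.Agent.Helper77.ST.GDefs

/-!
# Module RLAU: Laurent polynomials
-/

namespace Pool.Agent.Helper77.ST

open Finset
open Pool.Agent.Helper9.Kashaev (Piece Diagram)
open Pool.Agent.Helper9.FA (Item twists)

open Polynomial in
/-- a Laurent polynomial that is mapped to zero by sufficiently many homomorphisms is zero -/
lemma laurent_zero {S : Type*} [CommRing S] (f : ℚ →+* S) (p : LaurentPolynomial ℚ)
    (H : ∀ q : ℚ[X], (∀ x : Sˣ, LaurentPolynomial.eval₂ f x p = 0 →
      q.eval₂ f (x : S) = 0) → q = 0) : p = 0 := by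
  obtain ⟨n, q, hq⟩ := p.exists_T_pow
  have h1 : q = 0 := by
    apply H
    intro x hx
    rw [← LaurentPolynomial.eval₂_toLaurent, hq, map_mul, hx, zero_mul]
  rw [h1, map_zero] at hq
  have h2 : p * LaurentPolynomial.T (n : ℤ) * LaurentPolynomial.T (-(n : ℤ)) = 0 := by
    rw [← hq, zero_mul]
  rw [mul_assoc, ← LaurentPolynomial.T_add, add_neg_cancel, LaurentPolynomial.T_zero, mul_one] at h2
  exact h2

theorem laurent_nat {p q : LaurentPolynomial ℚ}
    (h : ∀ (n : ℕ) (hn : (n : ℚ) ≠ 0), 2 ≤ n →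
      LaurentPolynomial.eval₂ (RingHom.id ℚ) (Units.mk0 (n : ℚ) hn) p =
        LaurentPolynomial.eval₂ (RingHom.id ℚ) (Units.mk0 (n : ℚ) hn) q) : p = q := by
  rw [← sub_eq_zero]
  apply laurent_zero (RingHom.id ℚ)
  intro r hr
  apply Polynomial.eq_zero_of_infinite_isRoot
  apply Set.Infinite.mono (s := (fun n : ℕ => (n : ℚ)) '' {n | 2 ≤ n})
  · rintro _ ⟨n, hn, rfl⟩
    have hn' : (2 : ℕ) ≤ n := hn
    have hn0 : (n : ℚ) ≠ 0 := by
      have : n ≠ 0 := by omega
      exact_mod_cast this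
    have h2 := hr (Units.mk0 (n : ℚ) hn0) (by rw [map_sub, h n hn0 hn', sub_self])
    rw [Units.val_mk0] at h2
    exact h2
  · apply Set.Infinite.image
    · intro a _ b _ hab
      exact Nat.cast_injective (R := ℚ) hab
    · exact Set.Ici_infinite 2

theorem laurent_real {p q : LaurentPolynomial ℚ}
    (h : ∀ (v : ℝ) (hv : v ≠ 0), 1 < v →
      LaurentPolynomial.eval₂ (algebraMap ℚ ℝ) (Units.mk0 v hv) p =
        LaurentPolynomial.eval₂ (algebraMap ℚ ℝ) (Units.mk0 v hv) q) : p = q := by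
  rw [← sub_eq_zero]
  apply laurent_zero (algebraMap ℚ ℝ)
  intro r hr
  have h1 : r.map (algebraMap ℚ ℝ) = 0 := by
    apply Polynomial.eq_zero_of_infinite_isRoot
    apply Set.Infinite.mono (s := Set.Ioi (1 : ℝ))
    · intro v hv
      have hv' : (1 : ℝ) < v := hv
      have hv0 : v ≠ 0 := (zero_lt_one.trans hv').ne'
      have h2 := hr (Units.mk0 v hv0) (by rw [map_sub, h v hv0 hv', sub_self])
      rw [Units.val_mk0] at h2
      show (r.map (algebraMap ℚ ℝ)).IsRoot v
      rw [Polynomial.IsRoot, Polynomial.eval_map]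
      exact h2
    · exact Set.Ioi_infinite 1
  exact (Polynomial.map_eq_zero (algebraMap ℚ ℝ)).mp h1

theorem laurent_ps :
    Function.Injective (LaurentPolynomial.eval₂ (algebraMap ℚ (PowerSeries ℚ)) psU) := by
  rw [injective_iff_map_eq_zero]
  intro p hp
  apply laurent_zero (algebraMap ℚ (PowerSeries ℚ))
  intro r hr
  have h1 := hr psU hp
  have h2 : ((r.comp (1 + Polynomial.X) : Polynomial ℚ) : PowerSeries ℚ) = 0 := by
    rw [← h1]
    have e : ∀ q : Polynomial ℚ, (q : PowerSeries ℚ) =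
        (Polynomial.coeToPowerSeries.ringHom (R := ℚ)) q := fun q => rfl
    rw [e, Polynomial.comp, Polynomial.hom_eval₂]
    congr 1
    · ext x
      simp
    · show _ = ((1 + PowerSeries.X : PowerSeries ℚ))
      rw [map_add, map_one, ← e]
      simp
  have h3 : r.comp (1 + Polynomial.X) = 0 := by
    apply Polynomial.coe_injective ℚ
    rw [h2]; simp
  have h4 := congrArg (fun q => q.comp (Polynomial.X - 1)) h3
  simp only [Polynomial.comp_assoc, Polynomial.add_comp, Polynomial.one_comp, Polynomial.X_comp,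
    Polynomial.zero_comp] at h4
  rwa [show (1 : Polynomial ℚ) + (Polynomial.X - 1) = Polynomial.X by ring, Polynomial.comp_X] at h4

end Pool.Agent.Helper77.ST
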