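import Pool.Agent.Helper77.ST.GDefs

/-!
# Module RVASSA: alternating sums are divisible
-/

namespace Pool.Agent.Helper77.ST

open Finset
open Pool.Agent.Helper9.Kashaev (Piece Diagram)
open Pool.Agent.Helper9.FA (Item twists)

section

variable {A : Type*} [CommRing A] {l : ℕ} {v : Aˣ} {x : A}

private theorem rva_zp (hx : x ∣ (v : A) - 1) (k : ℤ) : x ∣ zp v k - 1 := by
  have hn : ∀ n : ℕ, x ∣ zp v (n : ℤ) - 1 := by
    intro n
    have h := sub_dvd_pow_sub_pow (v : A) 1 n
    rw [one_pow] at h
    refine dvd_trans hx ?_
    simpa [zp] using h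
  obtain ⟨n, rfl | rfl⟩ := k.eq_nat_or_neg
  · exact hn n
  · have e : zp v (-(n : ℤ)) * zp v (n : ℤ) = 1 := by
      unfold zp
      rw [← Units.val_mul, ← zpow_add]
      simp
    have : zp v (-(n : ℤ)) - 1 = -(zp v (-(n : ℤ)) * (zp v (n : ℤ) - 1)) := by
      rw [mul_sub, e]; ring
    rw [this]
    exact (dvd_neg).mpr (Dvd.dvd.mul_left (hn n) _)

private theorem rva_br (hx : x ∣ (v : A) - 1) (k : ℤ) : x ∣ br v k := by
  unfold br
  have := dvd_sub (rva_zp hx k) (rva_zp hx (-k))
  simpa using this

private theorem rva_posG (hx : x ∣ (v : A) - 1) (i j m : ℕ) (hm : m ≠ 0) : x ∣ posG l v i j m := by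
  unfold posG
  obtain ⟨q, rfl⟩ := Nat.exists_eq_succ_of_ne_zero hm
  rw [prod_range_succ]
  exact Dvd.dvd.mul_left (Dvd.dvd.mul_left (rva_br hx _) _) _

private theorem rva_negG (hx : x ∣ (v : A) - 1) (i j m : ℕ) (hm : m ≠ 0) : x ∣ negG l v i j m := by
  unfold negG
  obtain ⟨q, rfl⟩ := Nat.exists_eq_succ_of_ne_zero hm
  rw [prod_range_succ]
  exact Dvd.dvd.mul_left (Dvd.dvd.mul_left (rva_br hx _) _) _

private theorem rva_zero (hx : x ∣ (v : A) - 1) (i j : ℕ) :
    x ∣ posG l v i j 0 - negG l v i j 0 := by
  unfold posG negG
  have hqc : ∀ n, qc v n 0 = 1 := by intro n; cases n <;> simp [qc]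
  have hz : zp v (0 : ℤ) = 1 := by simp [zp]
  simp only [hqc, range_zero, prod_empty, mul_one, pow_zero, Nat.zero_mul, Nat.zero_div,
    Nat.cast_zero, neg_zero, hz]
  have := dvd_sub (rva_zp hx (2 * ((l : ℤ) - (i - 0 : ℕ)) * ((l : ℤ) - (j + 0 : ℕ))))
    (rva_zp hx (-(2 * ((l : ℤ) - i) * ((l : ℤ) - j))))
  simpa using this

/-- the pieces are linear -/
private theorem rva_piece_sub (p : Piece) (f g : List ℕ → A) (w : List ℕ) :
    pieceG l v p (fun u => f u - g u) w = pieceG l v p f w - pieceG l v p g w := by
  cases p with
  | cup =>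
    match w with
    | [] => simp [pieceG]
    | [a] => simp [pieceG]
    | a :: b :: w => simp only [pieceG]; split <;> ring
  | cap =>
    simp only [pieceG]
    rw [← sum_sub_distrib]
    exact sum_congr rfl fun _ _ => by ring
  | pos =>
    match w with
    | [] => simp [pieceG]
    | [a] => simp [pieceG]
    | a :: b :: w =>
      simp only [pieceG]
      rw [← sum_sub_distrib]
      exact sum_congr rfl fun _ _ => by split <;> ring
  | neg =>
    match w with
    | [] => simp [pieceG]
    | [a] => simp [pieceG]
    | a :: b :: w =>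
      simp only [pieceG]
      rw [← sum_sub_distrib]
      exact sum_congr rfl fun _ _ => by split <;> ring

private theorem rva_piece_mul (p : Piece) (c : A) (f : List ℕ → A) (w : List ℕ) :
    pieceG l v p (fun u => c * f u) w = c * pieceG l v p f w := by
  cases p with
  | cup =>
    match w with
    | [] => simp [pieceG]
    | [a] => simp [pieceG]
    | a :: b :: w => simp only [pieceG]; split <;> ring
  | cap =>
    simp only [pieceG]
    rw [mul_sum]
    exact sum_congr rfl fun _ _ => by ring
  | pos =>
    match w with
    | [] => simp [pieceG]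
    | [a] => simp [pieceG]
    | a :: b :: w =>
      simp only [pieceG]
      rw [mul_sum]
      exact sum_congr rfl fun _ _ => by split <;> ring
  | neg =>
    match w with
    | [] => simp [pieceG]
    | [a] => simp [pieceG]
    | a :: b :: w =>
      simp only [pieceG]
      rw [mul_sum]
      exact sum_congr rfl fun _ _ => by split <;> ring

private theorem rva_slice_sub (p : Piece) (k : ℕ) : ∀ (f g : List ℕ → A) (w : List ℕ),
    sliceG l v p k (fun u => f u - g u) w = sliceG l v p k f w - sliceG l v p k g w := by
  induction k with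
  | zero => intro f g w; simp only [sliceG]; exact rva_piece_sub p f g w
  | succ k IH =>
    intro f g w
    match w with
    | [] => simp [sliceG]
    | a :: w => simp only [sliceG]; exact IH _ _ _

private theorem rva_slice_mul (p : Piece) (k : ℕ) (c : A) : ∀ (f : List ℕ → A) (w : List ℕ),
    sliceG l v p k (fun u => c * f u) w = c * sliceG l v p k f w := by
  induction k with
  | zero => intro f w; simp only [sliceG]; exact rva_piece_mul p c f w
  | succ k IH =>
    intro f w
    match w with
    | [] => simp [sliceG]
    | a :: w => simp only [sliceG]; exact IH _ _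

private theorem rva_piece_diff (hx : x ∣ (v : A) - 1) (f : List ℕ → A) (w : List ℕ) :
    x ∣ pieceG l v .pos f w - pieceG l v .neg f w := by
  match w with
  | [] => simp [pieceG]
  | [a] => simp [pieceG]
  | a :: b :: w =>
    simp only [pieceG]
    rw [← sum_sub_distrib]
    apply dvd_sum
    intro m _
    by_cases hm : m = 0
    · subst hm
      by_cases hab : a < 2 * l + 1 ∧ b < 2 * l + 1
      · rw [if_pos ⟨by omega, by omega, by omega⟩, if_pos ⟨by omega, by omega, by omega⟩]
        simp only [add_zero, Nat.sub_zero]
        rw [← sub_mul]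
        exact Dvd.dvd.mul_right (rva_zero hx b a) _
      · rw [if_neg (fun h => hab ⟨by omega, by omega⟩), if_neg (fun h => hab ⟨by omega, by omega⟩)]
        simp
    · apply dvd_sub
      · split
        · exact Dvd.dvd.mul_right (rva_posG hx _ _ _ hm) _
        · exact dvd_zero _
      · split
        · exact Dvd.dvd.mul_right (rva_negG hx _ _ _ hm) _
        · exact dvd_zero _

private theorem rva_slice_diff (hx : x ∣ (v : A) - 1) (k : ℕ) : ∀ (f : List ℕ → A) (w : List ℕ),
    x ∣ sliceG l v .pos k f w - sliceG l v .neg k f w := by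
  induction k with
  | zero => intro f w; simp only [sliceG]; exact rva_piece_diff hx f w
  | succ k IH =>
    intro f w
    match w with
    | [] => simp [sliceG]
    | a :: w => simp only [sliceG]; exact IH _ _

/-- the operator of a singular diagram -/
private def rvaOp (l : ℕ) (v : Aˣ) : SDiagram → (List ℕ → A) → List ℕ → A
  | [], f => f
  | (k, .reg p) :: S, f => rvaOp l v S (sliceG l v p k f)
  | (k, .dbl) :: S, f => rvaOp l v S (fun w => sliceG l v .pos k f w - sliceG l v .neg k f w)

private theorem rvaOp_sub : ∀ (S : SDiagram) (f g : List ℕ → A),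
    rvaOp l v S (fun u => f u - g u) = fun u => rvaOp l v S f u - rvaOp l v S g u := by
  intro S
  induction S with
  | nil => intro f g; rfl
  | cons s S IH =>
    intro f g
    obtain ⟨k, s⟩ := s
    cases s with
    | reg p =>
      simp only [rvaOp]
      rw [← IH]
      congr 1
      funext w
      exact rva_slice_sub p k f g w
    | dbl =>
      simp only [rvaOp]
      rw [← IH]
      congr 1
      funext w
      rw [rva_slice_sub, rva_slice_sub]
      ring

private theorem rva_append (D E : Diagram) (f : List ℕ → A) :
    RTG l v (D ++ E) f = RTG l v E (RTG l v D f) := by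
  induction D generalizing f with
  | nil => rfl
  | cons s D IH => simp only [List.cons_append, RTG]; exact IH _

private theorem rva_alt (f : List ℕ → A) (w : List ℕ) : ∀ (S : SDiagram) (D : Diagram),
    alt (fun D => RTG l v D f w) D S = rvaOp l v S (RTG l v D f) w := by
  intro S
  induction S with
  | nil => intro D; rfl
  | cons s S IH =>
    intro D
    obtain ⟨k, s⟩ := s
    cases s with
    | reg p =>
      simp only [alt, rvaOp]
      rw [IH, rva_append]
      rfl
    | dbl =>
      simp only [alt, rvaOp]
      rw [IH, IH, rva_append, rva_append]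
      have := congrFun (rvaOp_sub (l := l) (v := v) S (sliceG l v .pos k (RTG l v D f))
        (sliceG l v .neg k (RTG l v D f))) w
      rw [this]
      rfl

private theorem rva_dvd (hx : x ∣ (v : A) - 1) : ∀ (S : SDiagram) (r : ℕ) (f : List ℕ → A),
    (∀ u, x ^ r ∣ f u) → ∀ w, x ^ (r + dbls S) ∣ rvaOp l v S f w := by
  intro S
  induction S with
  | nil => intro r f hf w; simpa [dbls, rvaOp] using hf w
  | cons s S IH =>
    intro r f hf
    choose g hg using hf
    have hfg : f = fun u => x ^ r * g u := funext hg
    obtain ⟨k, s⟩ := s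
    cases s with
    | reg p =>
      simp only [rvaOp, dbls]
      apply IH
      intro u
      rw [hfg, rva_slice_mul]
      exact dvd_mul_right _ _
    | dbl =>
      simp only [rvaOp, dbls]
      intro w
      have := IH (r + 1) (fun w => sliceG l v .pos k f w - sliceG l v .neg k f w) (by
        intro u
        rw [hfg, rva_slice_mul, rva_slice_mul, ← mul_sub, pow_succ]
        exact mul_dvd_mul_left _ (rva_slice_diff hx k g u)) w
      convert this using 2
      omega

end

theorem alt_fv_dvd {A : Type*} [CommRing A] (l : ℕ) (v : Aˣ) (x : A) (hx : x ∣ (v : A) - 1)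
    (D : Diagram) (S : SDiagram) : x ^ dbls S ∣ alt (fun D => fv l v D) D S := by
  have h : alt (fun D => fv l v D) D S = rvaOp l v S (RTG l v D (ketG A [0])) [0] :=
    rva_alt (l := l) (v := v) (ketG A [0]) [0] S D
  rw [h]
  have := rva_dvd (l := l) hx S 0 (RTG l v D (ketG A [0])) (fun u => by simp) [0]
  simpa using this

end Pool.Agent.Helper77.ST
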