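import Pool.Agent.Helper77.ST.GDefs

/-!
# Module RVASSB: products
-/

namespace Pool.Agent.Helper77.ST

open Finset
open Pool.Agent.Helper9.Kashaev (Piece Diagram)
open Pool.Agent.Helper9.FA (Item twists)

private theorem rvb_alt_dbl {A : Type*} [CommRing A] (Φ : Diagram → A) (k : ℕ) (B : SDiagram) :
    ∀ (S : SDiagram) (D : Diagram), alt Φ D (S ++ (k, .dbl) :: B) =
      alt Φ D (S ++ (k, .reg .pos) :: B) - alt Φ D (S ++ (k, .reg .neg) :: B) := by
  intro S
  induction S with
  | nil => intro D; simp only [List.nil_append, alt]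
  | cons s S IH =>
    intro D
    obtain ⟨j, s⟩ := s
    cases s with
    | reg p => simp only [List.cons_append, alt]; exact IH _
    | dbl => simp only [List.cons_append, alt]; rw [IH, IH]; ring

private theorem rvb_dbls_append (S T : SDiagram) : dbls (S ++ T) = dbls S + dbls T := by
  induction S with
  | nil => simp [dbls]
  | cons s S IH =>
    obtain ⟨j, s⟩ := s
    cases s with
    | reg p => simp only [List.cons_append, dbls]; exact IH
    | dbl => simp only [List.cons_append, dbls]; rw [IH]; ring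

/-- products of alternating sums with singular accumulators -/
private def rvbE {A : Type*} [CommRing A] (Φ Ψ : Diagram → A) : SDiagram → SDiagram → SDiagram → A
  | U, V, [] => alt Φ [] U * alt Ψ [] V
  | U, V, (k, .reg p) :: S => rvbE Φ Ψ (U ++ [(k, .reg p)]) (V ++ [(k, .reg p)]) S
  | U, V, (k, .dbl) :: S => rvbE Φ Ψ (U ++ [(k, .reg .pos)]) (V ++ [(k, .reg .pos)]) S -
      rvbE Φ Ψ (U ++ [(k, .reg .neg)]) (V ++ [(k, .reg .neg)]) S

private theorem rvbE_left {A : Type*} [CommRing A] (Φ Ψ : Diagram → A) (k : ℕ) (U : SDiagram) :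
    ∀ (S : SDiagram) (B V : SDiagram), rvbE Φ Ψ (U ++ (k, .dbl) :: B) V S =
      rvbE Φ Ψ (U ++ (k, .reg .pos) :: B) V S - rvbE Φ Ψ (U ++ (k, .reg .neg) :: B) V S := by
  intro S
  induction S with
  | nil =>
    intro B V
    simp only [rvbE]
    rw [rvb_alt_dbl, sub_mul]
  | cons s S IH =>
    intro B V
    obtain ⟨j, s⟩ := s
    cases s with
    | reg p =>
      simp only [rvbE, List.append_assoc, List.cons_append]
      exact IH _ _
    | dbl =>
      simp only [rvbE, List.append_assoc, List.cons_append]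
      rw [IH, IH]; ring

private theorem rvbE_right {A : Type*} [CommRing A] (Φ Ψ : Diagram → A) (k : ℕ) (V : SDiagram) :
    ∀ (S : SDiagram) (B U : SDiagram), rvbE Φ Ψ U (V ++ (k, .dbl) :: B) S =
      rvbE Φ Ψ U (V ++ (k, .reg .pos) :: B) S - rvbE Φ Ψ U (V ++ (k, .reg .neg) :: B) S := by
  intro S
  induction S with
  | nil =>
    intro B U
    simp only [rvbE]
    rw [rvb_alt_dbl, mul_sub]
  | cons s S IH =>
    intro B U
    obtain ⟨j, s⟩ := s
    cases s with
    | reg p =>
      simp only [rvbE, List.append_assoc, List.cons_append]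
      exact IH _ _
    | dbl =>
      simp only [rvbE, List.append_assoc, List.cons_append]
      rw [IH, IH]; ring

private theorem rvbE_dvd {A : Type*} [CommRing A] (x : A) (Φ Ψ : Diagram → A)
    (h1 : ∀ D S, x ^ dbls S ∣ alt Φ D S) (h2 : ∀ D S, x ^ dbls S ∣ alt Ψ D S) :
    ∀ (S U V : SDiagram), x ^ (dbls U + dbls V + dbls S) ∣ rvbE Φ Ψ U V S := by
  intro S
  induction S with
  | nil =>
    intro U V
    simp only [rvbE, dbls, add_zero]
    rw [pow_add]
    exact mul_dvd_mul (h1 _ _) (h2 _ _)
  | cons s S IH =>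
    intro U V
    obtain ⟨j, s⟩ := s
    cases s with
    | reg p =>
      simp only [rvbE, dbls]
      have := IH (U ++ [(j, .reg p)]) (V ++ [(j, .reg p)])
      simpa [rvb_dbls_append, dbls] using this
    | dbl =>
      simp only [rvbE, dbls]
      have e1 := rvbE_left Φ Ψ j U S [] (V ++ [(j, .reg .pos)])
      have e2 := rvbE_right Φ Ψ j V S [] (U ++ [(j, .reg .neg)])
      have e3 : rvbE Φ Ψ (U ++ [(j, .reg .pos)]) (V ++ [(j, .reg .pos)]) S -
          rvbE Φ Ψ (U ++ [(j, .reg .neg)]) (V ++ [(j, .reg .neg)]) S =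
          rvbE Φ Ψ (U ++ [(j, .dbl)]) (V ++ [(j, .reg .pos)]) S +
          rvbE Φ Ψ (U ++ [(j, .reg .neg)]) (V ++ [(j, .dbl)]) S := by
        rw [e1, e2]; ring
      rw [e3]
      apply dvd_add
      · have := IH (U ++ [(j, .dbl)]) (V ++ [(j, .reg .pos)])
        simp only [rvb_dbls_append, dbls] at this
        convert this using 2
        omega
      · have := IH (U ++ [(j, .reg .neg)]) (V ++ [(j, .dbl)])
        simp only [rvb_dbls_append, dbls] at this
        convert this using 2
        omega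

private def rvbReg (D : Diagram) : SDiagram := D.map fun s => (s.1, .reg s.2)

private theorem rvb_alt_reg {A : Type*} [CommRing A] (Φ : Diagram → A) :
    ∀ (D D0 : Diagram), alt Φ D0 (rvbReg D) = Φ (D0 ++ D) := by
  intro D
  induction D with
  | nil => intro D0; simp [rvbReg, alt]
  | cons s D IH =>
    intro D0
    obtain ⟨k, p⟩ := s
    have := IH (D0 ++ [(k, p)])
    simp only [rvbReg, List.map_cons, alt] at this ⊢
    rw [this]
    simp

private theorem rvb_reg_append (D : Diagram) (k : ℕ) (p : Piece) :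
    rvbReg (D ++ [(k, p)]) = rvbReg D ++ [(k, .reg p)] := by
  simp [rvbReg]

private theorem rvbE_reg {A : Type*} [CommRing A] (Φ Ψ : Diagram → A) :
    ∀ (S : SDiagram) (D : Diagram),
      rvbE Φ Ψ (rvbReg D) (rvbReg D) S = alt (fun D => Φ D * Ψ D) D S := by
  intro S
  induction S with
  | nil =>
    intro D
    simp only [rvbE, alt, rvb_alt_reg, List.nil_append]
  | cons s S IH =>
    intro D
    obtain ⟨j, s⟩ := s
    cases s with
    | reg p =>
      simp only [rvbE, alt]
      rw [← rvb_reg_append, IH]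
    | dbl =>
      simp only [rvbE, alt]
      rw [← rvb_reg_append, ← rvb_reg_append, IH, IH]

theorem alt_mul_dvd {A : Type*} [CommRing A] (x : A) (Φ Ψ : Diagram → A)
    (h1 : ∀ D S, x ^ dbls S ∣ alt Φ D S) (h2 : ∀ D S, x ^ dbls S ∣ alt Ψ D S)
    (D : Diagram) (S : SDiagram) : x ^ dbls S ∣ alt (fun D => Φ D * Ψ D) D S := by
  rw [← rvbE_reg]
  have h := rvbE_dvd x Φ Ψ h1 h2 S (rvbReg D) (rvbReg D)
  refine dvd_trans (pow_dvd_pow x ?_) h
  omega

end Pool.Agent.Helper77.ST
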