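import Pool.Agent.Helper77.ST.MInv
import Pool.Agent.Helper77.ST.RNat
import Pool.Agent.Helper77.ST.RAgree
import Pool.Agent.Helper77.ST.RLau
import Pool.Agent.Helper77.ST.RVassA
import Pool.Agent.Helper77.ST.RVassB

/-!
# Module RVASS: Vassiliev invariants
-/

namespace Pool.Agent.Helper77.ST

open Finset
open Pool.Agent.Helper9.Kashaev (Piece Diagram)
open Pool.Agent.Helper9.FA (Item twists)

lemma eval_tU {S : Type*} [CommRing S] (f : ℚ →+* S) (x : Sˣ) :
    Units.map (LaurentPolynomial.eval₂ f x : LaurentPolynomial ℚ →* S) tU = x := by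
  ext
  show LaurentPolynomial.eval₂ f x (LaurentPolynomial.T 1) = x
  rw [LaurentPolynomial.eval₂_T, zpow_one]

lemma Gv_tU_isotopic {l : ℕ} (hl : 1 ≤ l) {D D' : Diagram} (h : Isotopic D D') :
    Gv l tU D = Gv l tU D' := by
  apply laurent_nat
  intro n hn h2
  have h1 : (1 : ℚ) < n := by exact_mod_cast h2
  rw [map_Gv, map_Gv, eval_tU]
  have h3 := isotopic_eq h (gtPar l hl (n : ℚ) h1)
  have e : (gtPar l hl (n : ℚ) h1).u = Units.mk0 (n : ℚ) hn := rfl
  have h4 := Gv_eq (gtPar l hl (n : ℚ) h1) D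
  have h5 := Gv_eq (gtPar l hl (n : ℚ) h1) D'
  rw [e] at h4 h5
  have e2 : (gtPar l hl (n : ℚ) h1).l = l := rfl
  rw [e2] at h4 h5
  rw [h4, h5, h3]

lemma Gv_psU_isotopic {l : ℕ} (hl : 1 ≤ l) {D D' : Diagram} (h : Isotopic D D') :
    Gv l psU D = Gv l psU D' := by
  have h1 := congrArg (LaurentPolynomial.eval₂ (algebraMap ℚ (PowerSeries ℚ)) psU)
    (Gv_tU_isotopic hl h)
  rwa [map_Gv, map_Gv, eval_tU] at h1

lemma alt_coeff (j : ℕ) (Φ : Diagram → PowerSeries ℚ) : ∀ (S : SDiagram) (D : Diagram),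
    alt (fun D => PowerSeries.coeff j (Φ D)) D S = PowerSeries.coeff j (alt Φ D S) := by
  intro S
  induction S with
  | nil => intro D; rfl
  | cons s S ih =>
    obtain ⟨k, p⟩ := s
    intro D
    cases p with
    | reg p => exact ih _
    | dbl =>
      simp only [alt]
      rw [ih, ih, map_sub]

lemma psU_dvd : (PowerSeries.X : PowerSeries ℚ) ∣ ((psU : (PowerSeries ℚ)ˣ) : PowerSeries ℚ) - 1 := by
  show PowerSeries.X ∣ (1 + PowerSeries.X) - 1
  rw [add_sub_cancel_left]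

lemma psU_inv_dvd :
    (PowerSeries.X : PowerSeries ℚ) ∣ ((psU⁻¹ : (PowerSeries ℚ)ˣ) : PowerSeries ℚ) - 1 := by
  have h : ((psU⁻¹ : (PowerSeries ℚ)ˣ) : PowerSeries ℚ) - 1 =
      -(((psU⁻¹ : (PowerSeries ℚ)ˣ) : PowerSeries ℚ) *
        (((psU : (PowerSeries ℚ)ˣ) : PowerSeries ℚ) - 1)) := by
    rw [mul_sub, Units.inv_mul]
    ring
  rw [h]
  exact (dvd_mul_of_dvd_right psU_dvd _).neg_right

theorem isVassiliev (l : ℕ) (hl : 1 ≤ l) (j : ℕ) :
    IsVassiliev j (fun D => PowerSeries.coeff j (Gv l psU D)) where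
  inv := by
    intro D D' _ _ h
    rw [Gv_psU_isotopic hl h]
  fin := by
    intro S _ hS
    rw [alt_coeff]
    have h1 : (PowerSeries.X : PowerSeries ℚ) ^ dbls S ∣ alt (Gv l psU) [] S :=
      alt_mul_dvd PowerSeries.X (fun D => fv l psU D) (fun D => fv l psU⁻¹ D)
        (fun D S => alt_fv_dvd l psU PowerSeries.X psU_dvd D S)
        (fun D S => alt_fv_dvd l psU⁻¹ PowerSeries.X psU_inv_dvd D S) [] S
    exact PowerSeries.X_pow_dvd_iff.mp h1 j hS

theorem exists_vassiliev {l : ℕ} (hl : 1 ≤ l) {D D' : Diagram}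
    (h : Gv l tU D ≠ Gv l tU D') : ∃ d I, IsVassiliev d I ∧ I D ≠ I D' := by
  by_contra hcon
  push Not at hcon
  apply h
  apply laurent_ps
  rw [map_Gv, map_Gv, eval_tU]
  ext j
  exact hcon j _ (isVassiliev l hl j)

end Pool.Agent.Helper77.ST
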