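import Pool.Agent.Helper77.ST.GWf

/-!
# The operators over a commutative ring, and further definitions
-/

namespace Pool.Agent.Helper77.ST

open Finset
open Pool.Agent.Helper9.Kashaev (Piece Diagram)
open Pool.Agent.Helper9.FA (Item twists)

section ring

variable {A : Type*} [CommRing A]

/-- integral powers of a unit -/
def zp (v : Aˣ) (x : ℤ) : A := ((v ^ x : Aˣ) : A)

/-- `v ^ x - v ^ (-x)` -/
def br (v : Aˣ) (x : ℤ) : A := zp v x - zp v (-x)

/-- balanced q-binomial coefficients -/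
def qc (v : Aˣ) : ℕ → ℕ → A
  | _, 0 => 1
  | 0, _ + 1 => 0
  | n + 1, j + 1 => zp v (-((j : ℤ) + 1)) * qc v n (j + 1) + zp v ((n : ℤ) - j) * qc v n j

/-- `posC` without division -/
def posG (l : ℕ) (v : Aˣ) (i j m : ℕ) : A :=
  zp v (2 * ((l : ℤ) - (i - m : ℕ)) * ((l : ℤ) - (j + m : ℕ))) *
    zp v ((m * (m - 1) / 2 : ℕ) : ℤ) * qc v i m * ∏ t ∈ range m, br v (2 * (l : ℤ) + 1 - i + t)

/-- `negC` without division -/
def negG (l : ℕ) (v : Aˣ) (i j m : ℕ) : A :=
  zp v (-(2 * ((l : ℤ) - i) * ((l : ℤ) - j))) * (-1) ^ m *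
    zp v (-((m * (m - 1) / 2 : ℕ) : ℤ)) * qc v j m * ∏ t ∈ range m, br v (2 * (l : ℤ) + 1 - j + t)

/-- `cupC` without division -/
def cupG (l : ℕ) (v : Aˣ) (i : ℕ) : A := (-1) ^ i * zp v ((i : ℤ) * (2 * l - 1 - i))

/-- `capC` without division -/
def capG (l : ℕ) (v : Aˣ) (i : ℕ) : A :=
  (-1) ^ (2 * l - i) * zp v (-(((2 * l - i : ℕ) : ℤ) * (2 * l - 1 - (2 * l - i : ℕ))))

/-- the operator of a piece, as `piece` -/
def pieceG (l : ℕ) (v : Aˣ) : Piece → (List ℕ → A) → List ℕ → A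
  | .cup, f, a :: b :: w => if a + b + 1 = 2 * l + 1 then cupG l v a * f w else 0
  | .cup, _, _ => 0
  | .cap, f, w => ∑ a ∈ range (2 * l + 1), capG l v a * f (a :: (2 * l + 1 - 1 - a) :: w)
  | .pos, f, a :: b :: w => ∑ m ∈ range (2 * l + 1),
      if m ≤ a ∧ a < 2 * l + 1 ∧ b + m < 2 * l + 1 then
        posG l v (b + m) (a - m) m * f ((b + m) :: (a - m) :: w) else 0
  | .pos, _, _ => 0
  | .neg, f, a :: b :: w => ∑ m ∈ range (2 * l + 1),
      if m ≤ b ∧ b < 2 * l + 1 ∧ a + m < 2 * l + 1 then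
        negG l v (b - m) (a + m) m * f ((b - m) :: (a + m) :: w) else 0
  | .neg, _, _ => 0

/-- as `slice` -/
def sliceG (l : ℕ) (v : Aˣ) (p : Piece) : ℕ → (List ℕ → A) → List ℕ → A
  | 0, f, w => pieceG l v p f w
  | _ + 1, _, [] => 0
  | k + 1, f, x :: w => sliceG l v p k (fun u => f (x :: u)) w

/-- as `RT` -/
def RTG (l : ℕ) (v : Aˣ) : Diagram → (List ℕ → A) → List ℕ → A
  | [], f => f
  | s :: D, f => RTG l v D (sliceG l v s.2 s.1 f)

/-- as `ket` -/
def ketG (A : Type*) [CommRing A] (w : List ℕ) : List ℕ → A := fun u => if u = w then 1 else 0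

/-- the value of a diagram -/
def fv (l : ℕ) (v : Aˣ) (D : Diagram) : A := RTG l v D (ketG A [0]) [0]

/-- the product of the values at `v` and `v⁻¹`, an isotopy invariant -/
def Gv (l : ℕ) (v : Aˣ) (D : Diagram) : A := fv l v D * fv l v⁻¹ D

end ring

/-! ### parameters -/

/-- the inverse parameter -/
def Par.inv {F : Type*} [Field F] (P : Par F) : Par F where
  l := P.l
  v := P.v⁻¹
  l1 := P.l1
  v0 := inv_ne_zero P.v0
  q0 := by
    intro m h1 h2
    rw [inv_inv, ← neg_ne_zero, neg_sub]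
    exact P.q0 m h1 h2

/-- the parameter as a unit -/
def Par.u {F : Type*} [Field F] (P : Par F) : Fˣ := Units.mk0 P.v P.v0

/-- the eigenvalues of a crossing -/
noncomputable def mu {F : Type*} [Field F] (P : Par F) (j : ℕ) : F :=
  (-1) ^ j * P.v ^ (2 * (P.l : ℤ) ^ 2 + (j : ℤ) ^ 2 - j - 4 * P.l * j)

/-- a parameter from a number `> 1` of an ordered field -/
def gtPar {F : Type*} [Field F] [LinearOrder F] [IsStrictOrderedRing F] (l : ℕ) (hl : 1 ≤ l)
    (v : F) (hv : 1 < v) : Par F where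
  l := l
  v := v
  l1 := hl
  v0 := (zero_lt_one.trans hv).ne'
  q0 := by
    intro m h1 _
    have h2 : 1 < v ^ m := one_lt_pow₀ hv (by omega)
    have h3 : v⁻¹ ^ m < 1 := by
      rw [inv_pow]
      exact inv_lt_one_of_one_lt₀ h2
    exact (sub_pos.mpr (h3.trans h2)).ne'

/-- the unit `T` -/
noncomputable def tU : (LaurentPolynomial ℚ)ˣ where
  val := LaurentPolynomial.T 1
  inv := LaurentPolynomial.T (-1)
  val_inv := by rw [← LaurentPolynomial.T_add]; simp
  inv_val := by rw [← LaurentPolynomial.T_add]; simp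

/-- the unit `1 + X` -/
noncomputable def psU : (PowerSeries ℚ)ˣ where
  val := 1 + PowerSeries.X
  inv := (1 + PowerSeries.X)⁻¹
  val_inv := PowerSeries.mul_inv_cancel _ (by simp)
  inv_val := PowerSeries.inv_mul_cancel _ (by simp)

/-- The set `Z` is the set of solutions of exponential equations: for all `v > 1` a sum of
exponentials `v ^ (e i · a)` vanishes, with coefficients that depend on `v` and on the parities of
the coordinates of `a`. -/
def ExpSet {n : ℕ} (Z : Set (Fin n → ℤ)) : Prop :=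
  ∃ (ι : Type) (_ : Fintype ι) (e : ι → Fin n → ℤ) (C : ℝ → (Fin n → ℤ) → ι → ℝ),
    (∀ v a b, (∀ i, a i % 2 = b i % 2) → C v a = C v b) ∧
    ∀ a, a ∈ Z ↔ ∀ v : ℝ, 1 < v → ∑ i, C v a i * v ^ (∑ j, e i j * a j) = 0

end Pool.Agent.Helper77.ST
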