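import Mathlib
import Pool.Agent.Helper9.FA.ZDefs
import Pool.Agent.Helper77.ST.GDefs

/-!
# Module PDIFF: differences of a Vassiliev invariant with respect to a twist number
-/

namespace Pool.Agent.Helper77.ST

open Finset
open Pool.Agent.Helper9.Kashaev (Piece Diagram)
open Pool.Agent.Helper9.FA (Item twists wfP labels)

private lemma pd_wf_app {n m l : ℕ} {D D' : Diagram} (h : wf n D m) (h' : wf m D' l) :
    wf n (D ++ D') l := wf_append h h'

/-- words of crossings at position `k` -/
private def pdCr (k : ℕ) (u : Diagram) : Prop := ∀ s ∈ u, s = (k, Piece.pos) ∨ s = (k, Piece.neg)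

private lemma pd_wf_cr {k n : ℕ} (hk : k + 2 ≤ n) : ∀ u : Diagram, pdCr k u → wf n u n := by
  intro u
  induction u with
  | nil => intro _; rfl
  | cons s u ih =>
    intro h
    have h1 := ih (fun t ht => h t (List.mem_cons_of_mem _ ht))
    rcases h s (List.mem_cons_self ..) with rfl | rfl
    · exact ⟨hk, h1⟩
    · exact ⟨hk, h1⟩

private lemma pd_cr_tw (k : ℕ) (x : ℤ) : pdCr k (twists k x) := by
  intro s hs
  unfold twists at hs
  rw [List.mem_replicate] at hs
  rw [hs.2]
  by_cases h : 0 < x
  · left; simp [h]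
  · right; simp [h]

private lemma pd_wf_tw : ∀ (S : List (Item Unit)) (n m : ℕ), wfP n S m → ∀ L : List ℤ,
    wf n (tw S L) m := by
  intro S
  induction S with
  | nil => intro n m h L; exact h
  | cons s S ih =>
    intro n m h L
    cases s with
    | cup k => exact ⟨h.1, ih _ _ h.2 L⟩
    | cap k => exact ⟨h.1, ih _ _ h.2 L⟩
    | box k e =>
      cases L with
      | nil => exact ih _ _ h.2 []
      | cons x L => exact wf_append (pd_wf_cr h.1 _ (pd_cr_tw k x)) (ih _ _ h.2 L)

private lemma pd_split : ∀ (S : List (Item Unit)) (n m : ℕ), wfP n S m → ∀ (L : List ℤ)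
    (_ : L.length = (labels S).length) (i : ℕ) (_ : i < L.length),
    ∃ (A B : Diagram) (k p : ℕ), wf n A p ∧ k + 2 ≤ p ∧ wf p B m ∧
      ∀ x, tw S (L.set i x) = A ++ (twists k x ++ B) := by
  intro S
  induction S with
  | nil =>
    intro n m h L hL i hi
    rw [hL] at hi
    exact absurd hi (Nat.not_lt_zero _)
  | cons s S ih =>
    intro n m h L hL i hi
    cases s with
    | cup k =>
      obtain ⟨A, B, k', p, h1, h2, h3, h4⟩ := ih _ _ h.2 L hL i hi
      refine ⟨(k, .cup) :: A, B, k', p, ⟨h.1, h1⟩, h2, h3, fun x => ?_⟩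
      show (k, Piece.cup) :: tw S (L.set i x) = _
      rw [h4 x]
      rfl
    | cap k =>
      obtain ⟨A, B, k', p, h1, h2, h3, h4⟩ := ih _ _ h.2 L hL i hi
      refine ⟨(k, .cap) :: A, B, k', p, ⟨h.1, h1⟩, h2, h3, fun x => ?_⟩
      show (k, Piece.cap) :: tw S (L.set i x) = _
      rw [h4 x]
      rfl
    | box k e =>
      cases L with
      | nil => exact absurd hi (Nat.not_lt_zero _)
      | cons y L =>
        have hL' : L.length = (labels S).length := by
          have h5 : (labels (Item.box k e :: S)).length = (labels S).length + 1 := rfl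
          rw [h5, List.length_cons] at hL
          omega
        cases i with
        | zero =>
          exact ⟨[], tw S L, k, n, rfl, h.1, pd_wf_tw _ _ _ h.2 L, fun x => rfl⟩
        | succ i =>
          obtain ⟨A, B, k', p, h1, h2, h3, h4⟩ := ih _ _ h.2 L hL' i (by
            rw [List.length_cons] at hi
            omega)
          refine ⟨twists k y ++ A, B, k', p,
            wf_append (pd_wf_cr h.1 _ (pd_cr_tw k y)) h1, h2, h3, fun x => ?_⟩
          show twists k y ++ tw S (L.set i x) = _
          rw [h4 x, List.append_assoc]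

private lemma pd_step {A B a b : Diagram} (h : Move a b) (h1 : wf 1 (A ++ a ++ B) 1)
    (h2 : wf 1 (A ++ b ++ B) 1) : Isotopic (A ++ a ++ B) (A ++ b ++ B) :=
  Relation.EqvGen.rel _ _ (Step.mk A B h h1 h2)

private lemma pd_pos {I : Diagram → ℚ} (hinv : ∀ D D', Isotopic D D' → I D = I D')
    {A B : Diagram} {k p : ℕ} (hA : wf 1 A p) (hk : k + 2 ≤ p) (hB : wf p B 1) (x : ℤ) :
    I (A ++ (twists k x ++ ((k, Piece.pos) :: B))) = I (A ++ (twists k (x + 1) ++ B)) := by
  rcases lt_or_ge x 0 with hx | hx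
  · obtain ⟨m, rfl⟩ : ∃ m : ℕ, x = -((m : ℤ) + 1) := ⟨(-x - 1).toNat, by omega⟩
    have e1 : twists k (-((m : ℤ) + 1)) = List.replicate m (k, Piece.neg) ++ [(k, Piece.neg)] := by
      unfold twists
      rw [if_neg (by omega), show (-((m : ℤ) + 1)).natAbs = m + 1 by omega,
        List.replicate_succ']
    have e2 : twists k (-((m : ℤ) + 1) + 1) = List.replicate m (k, Piece.neg) := by
      unfold twists
      rw [if_neg (by omega), show (-((m : ℤ) + 1) + 1).natAbs = m by omega]
    rw [e1, e2]
    have hw : pdCr k (List.replicate m (k, Piece.neg)) := fun s hs =>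
      Or.inr (List.mem_replicate.1 hs).2
    have w1 : wf 1 (A ++ List.replicate m (k, Piece.neg)) p := wf_append hA (pd_wf_cr hk _ hw)
    have h1 := pd_step (A := A ++ List.replicate m (k, Piece.neg)) (B := B) (Move.r2np k)
      (wf_append (wf_append w1 (by exact ⟨hk, hk, rfl⟩)) hB)
      (by rw [List.append_nil]; exact wf_append w1 hB)
    have h2 := hinv _ _ h1
    simpa using h2
  · obtain ⟨m, rfl⟩ := Int.eq_ofNat_of_zero_le hx
    have e1 : twists k (m : ℤ) = List.replicate m (k, Piece.pos) := by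
      unfold twists
      rcases Nat.eq_zero_or_pos m with rfl | hm
      · rfl
      · rw [if_pos (by exact_mod_cast hm)]; rfl
    have e2 : twists k ((m : ℤ) + 1) = List.replicate m (k, Piece.pos) ++ [(k, Piece.pos)] := by
      unfold twists
      rw [if_pos (by omega), show ((m : ℤ) + 1).natAbs = m + 1 by omega, List.replicate_succ']
    rw [e1, e2, List.append_assoc]
    rfl

private lemma pd_neg {I : Diagram → ℚ} (hinv : ∀ D D', Isotopic D D' → I D = I D')
    {A B : Diagram} {k p : ℕ} (hA : wf 1 A p) (hk : k + 2 ≤ p) (hB : wf p B 1) (x : ℤ) :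
    I (A ++ (twists k x ++ ((k, Piece.neg) :: B))) = I (A ++ (twists k (x - 1) ++ B)) := by
  rcases lt_or_ge 0 x with hx | hx
  · obtain ⟨m, rfl⟩ : ∃ m : ℕ, x = (m : ℤ) + 1 := ⟨(x - 1).toNat, by omega⟩
    have e1 : twists k ((m : ℤ) + 1) = List.replicate m (k, Piece.pos) ++ [(k, Piece.pos)] := by
      unfold twists
      rw [if_pos (by omega), show ((m : ℤ) + 1).natAbs = m + 1 by omega, List.replicate_succ']
    have e2 : twists k ((m : ℤ) + 1 - 1) = List.replicate m (k, Piece.pos) := by
      rw [show (m : ℤ) + 1 - 1 = m by ring]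
      unfold twists
      rcases Nat.eq_zero_or_pos m with rfl | hm
      · rfl
      · rw [if_pos (by exact_mod_cast hm)]; rfl
    rw [e1, e2]
    have hw : pdCr k (List.replicate m (k, Piece.pos)) := fun s hs =>
      Or.inl (List.mem_replicate.1 hs).2
    have w1 : wf 1 (A ++ List.replicate m (k, Piece.pos)) p := wf_append hA (pd_wf_cr hk _ hw)
    have h1 := pd_step (A := A ++ List.replicate m (k, Piece.pos)) (B := B) (Move.r2pn k)
      (wf_append (wf_append w1 (by exact ⟨hk, hk, rfl⟩)) hB)
      (by rw [List.append_nil]; exact wf_append w1 hB)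
    have h2 := hinv _ _ h1
    simpa using h2
  · obtain ⟨m, rfl⟩ : ∃ m : ℕ, x = -(m : ℤ) := ⟨(-x).toNat, by omega⟩
    have e1 : twists k (-(m : ℤ)) = List.replicate m (k, Piece.neg) := by
      unfold twists
      rw [if_neg (by omega), show (-(m : ℤ)).natAbs = m by omega]
    have e2 : twists k (-(m : ℤ) - 1) = List.replicate m (k, Piece.neg) ++ [(k, Piece.neg)] := by
      unfold twists
      rw [if_neg (by omega), show (-(m : ℤ) - 1).natAbs = m + 1 by omega, List.replicate_succ']
    rw [e1, e2, List.append_assoc]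
    rfl

private lemma pd_alt_reg (I : Diagram → ℚ) : ∀ (B A : Diagram),
    alt I A (B.map fun s => (s.1, SPiece.reg s.2)) = I (A ++ B) := by
  intro B
  induction B with
  | nil => intro A; rw [List.append_nil]; rfl
  | cons s B ih =>
    intro A
    have h := ih (A ++ [s])
    rw [List.append_assoc] at h
    exact h

private lemma pd_dbls (k : ℕ) (B : Diagram) : ∀ r : ℕ,
    dbls (List.replicate r (k, SPiece.dbl) ++ B.map fun s => (s.1, SPiece.reg s.2)) = r := by
  intro r
  induction r with
  | zero =>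
    show dbls (B.map fun s => (s.1, SPiece.reg s.2)) = 0
    induction B with
    | nil => rfl
    | cons s B ih => exact ih
  | succ r ih =>
    rw [List.replicate_succ]
    show dbls (List.replicate r (k, SPiece.dbl) ++ B.map fun s => (s.1, SPiece.reg s.2)) + 1 = r + 1
    rw [ih]

/-- iterated differences -/
private def pdF (g : ℤ → ℚ) : ℕ → ℤ → ℚ
  | 0, x => g x
  | r + 1, x => pdF g r (x + 1) - pdF g r (x - 1)

private lemma pdF_eq (g : ℤ → ℚ) : ∀ (r : ℕ) (x : ℤ),
    pdF g r x = ∑ s ∈ range (r + 1), (-1 : ℚ) ^ s * r.choose s * g (x + r - 2 * s) := by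
  intro r
  induction r with
  | zero => intro x; simp [pdF]
  | succ r ih =>
    intro x
    have h0 : pdF g (r + 1) x = pdF g r (x + 1) - pdF g r (x - 1) := rfl
    rw [h0, ih, ih]
    have h1 : ∑ s ∈ range (r + 1 + 1), (-1 : ℚ) ^ s * (r + 1).choose s *
        g (x + ((r + 1 : ℕ) : ℤ) - 2 * s)
        = ∑ s ∈ range (r + 1 + 1), (-1 : ℚ) ^ s * r.choose s * g (x + 1 + r - 2 * s)
          - ∑ s ∈ range (r + 1), (-1 : ℚ) ^ s * r.choose s * g (x - 1 + r - 2 * s) := by
      rw [sum_range_succ' _ (r + 1), sum_range_succ' _ (r + 1)]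
      have h2 : ∑ s ∈ range (r + 1), (-1 : ℚ) ^ (s + 1) * (r + 1).choose (s + 1) *
          g (x + ((r + 1 : ℕ) : ℤ) - 2 * ((s + 1 : ℕ) : ℤ))
          = ∑ s ∈ range (r + 1), (-1 : ℚ) ^ (s + 1) * r.choose (s + 1) *
              g (x + 1 + r - 2 * ((s + 1 : ℕ) : ℤ))
            - ∑ s ∈ range (r + 1), (-1 : ℚ) ^ s * r.choose s * g (x - 1 + r - 2 * s) := by
        rw [← sum_sub_distrib]
        refine sum_congr rfl fun s _ => ?_
        have e1 : x + ((r + 1 : ℕ) : ℤ) - 2 * ((s + 1 : ℕ) : ℤ) = x - 1 + r - 2 * s := by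
          push_cast; ring
        have e2 : x + 1 + (r : ℤ) - 2 * ((s + 1 : ℕ) : ℤ) = x - 1 + r - 2 * s := by
          push_cast; ring
        rw [e1, e2, Nat.choose_succ_succ, pow_succ]
        push_cast
        ring
      rw [h2]
      have e3 : x + ((r + 1 : ℕ) : ℤ) - 2 * ((0 : ℕ) : ℤ) = x + 1 + r - 2 * ((0 : ℕ) : ℤ) := by
        push_cast; ring
      rw [e3]
      simp only [Nat.choose_zero_right]
      ring
    rw [h1, sum_range_succ _ (r + 1)]
    simp

private lemma pd_alt {I : Diagram → ℚ} (hinv : ∀ D D', Isotopic D D' → I D = I D')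
    {A B : Diagram} {k p : ℕ} (hA : wf 1 A p) (hk : k + 2 ≤ p) (hB : wf p B 1) :
    ∀ (r : ℕ) (D : Diagram) (x : ℤ),
      (∀ u, pdCr k u → I (D ++ (u ++ B)) = I (A ++ (twists k x ++ (u ++ B)))) →
      alt I D (List.replicate r (k, SPiece.dbl) ++ B.map fun s => (s.1, SPiece.reg s.2))
        = pdF (fun y => I (A ++ (twists k y ++ B))) r x := by
  intro r
  induction r with
  | zero =>
    intro D x h
    have h1 := h [] (fun s hs => absurd hs (List.not_mem_nil))
    show alt I D (B.map fun s => (s.1, SPiece.reg s.2)) = I (A ++ (twists k x ++ B))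
    rw [pd_alt_reg]
    simpa using h1
  | succ r ih =>
    intro D x h
    rw [List.replicate_succ]
    show alt I (D ++ [(k, Piece.pos)]) (List.replicate r (k, SPiece.dbl) ++ _) -
      alt I (D ++ [(k, Piece.neg)]) (List.replicate r (k, SPiece.dbl) ++ _) = _
    rw [ih (D ++ [(k, Piece.pos)]) (x + 1) ?_, ih (D ++ [(k, Piece.neg)]) (x - 1) ?_]
    · rfl
    · intro u hu
      have h1 : pdCr k ((k, Piece.neg) :: u) := by
        intro s hs
        rcases List.mem_cons.1 hs with rfl | hs
        · exact Or.inr rfl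
        · exact hu s hs
      have h2 := h _ h1
      rw [List.append_assoc]
      show I (D ++ ((k, Piece.neg) :: (u ++ B))) = _
      rw [show (D ++ ((k, Piece.neg) :: (u ++ B))) = D ++ (((k, Piece.neg) :: u) ++ B) from rfl, h2]
      exact pd_neg hinv hA hk (wf_append (pd_wf_cr hk u hu) hB) x
    · intro u hu
      have h1 : pdCr k ((k, Piece.pos) :: u) := by
        intro s hs
        rcases List.mem_cons.1 hs with rfl | hs
        · exact Or.inl rfl
        · exact hu s hs
      have h2 := h _ h1
      rw [List.append_assoc]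
      show I (D ++ ((k, Piece.pos) :: (u ++ B))) = _
      rw [show (D ++ ((k, Piece.pos) :: (u ++ B))) = D ++ (((k, Piece.pos) :: u) ++ B) from rfl, h2]
      exact pd_pos hinv hA hk (wf_append (pd_wf_cr hk u hu) hB) x

private lemma pd_ofFn {n : ℕ} (a : Fin n → ℤ) (i : Fin n) (x : ℤ) :
    List.ofFn (Function.update a i x) = (List.ofFn a).set i x := by
  apply List.ext_getElem
  · simp
  · intro m h1 h2
    rw [List.getElem_ofFn, List.getElem_set]
    by_cases h : (i : ℕ) = m
    · subst h
      simp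
    · rw [if_neg h, List.getElem_ofFn, Function.update_of_ne]
      intro h3
      apply h
      rw [← h3]

/-- a difference of order `j + 1` of a Vassiliev invariant of degree `j` with respect to a twist
number vanishes -/
theorem tw_diff (I : Diagram → ℚ) (j : ℕ) (hinv : ∀ D D', Isotopic D D' → I D = I D')
    (hfin : ∀ (D : Diagram) (S : SDiagram), j < dbls S → alt I D S = 0)
    (S : List (Item Unit)) (hS : wfP 1 S 1) (a : Fin (labels S).length → ℤ)
    (i : Fin (labels S).length) :
    ∑ k ∈ range (j + 2), (-1 : ℚ) ^ k * (j + 1).choose k *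
      I (tw S (List.ofFn (Function.update a i (a i - 2 * k)))) = 0 := by
  obtain ⟨A, B, k, p, hA, hk, hB, htw⟩ := pd_split S 1 1 hS (List.ofFn a) (by simp) i (by simp)
  have h1 := pd_alt hinv hA hk hB (j + 1) (A ++ twists k (a i - (j + 1))) (a i - (j + 1))
    (fun u _ => by rw [List.append_assoc])
  rw [hfin _ _ (by rw [pd_dbls]; exact Nat.lt_succ_self j), pdF_eq] at h1
  rw [h1]
  refine sum_congr rfl fun s _ => ?_
  rw [pd_ofFn, htw]
  have e1 : a i - ((j : ℤ) + 1) + ((j + 1 : ℕ) : ℤ) - 2 * (s : ℤ) = a i - 2 * (s : ℤ) := by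
    push_cast
    ring
  rw [e1]

end Pool.Agent.Helper77.ST
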