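import Mathlib

/-!
# Module PNOE: finitely many equations suffice
-/

namespace Pool.Agent.Helper77.ST

theorem exists_finite_eqs {σ ι : Type*} [Finite σ] (p : ι → MvPolynomial σ ℚ) :
    ∃ F : Finset ι, ∀ x : σ → ℚ, (∀ i ∈ F, MvPolynomial.eval x (p i) = 0) →
      ∀ i, MvPolynomial.eval x (p i) = 0 := by
  classical
  obtain ⟨s, hs⟩ := (IsNoetherian.noetherian (Ideal.span (Set.range p)) :
    (Ideal.span (Set.range p)).FG)
  have h1 : ∀ q ∈ s, ∃ F : Finset ι, q ∈ Ideal.span (p '' (F : Set ι)) := by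
    intro q hq
    have h2 : q ∈ Ideal.span (Set.range p) := by
      rw [← hs]; exact Submodule.subset_span hq
    have h3 := Submodule.mem_span_finite_of_mem_span h2
    obtain ⟨T, hT, hqT⟩ := h3
    obtain ⟨F, hF⟩ := Finset.subset_set_image_iff.mp
      (show (T : Set (MvPolynomial σ ℚ)) ⊆ p '' Set.univ by rwa [Set.image_univ])
    refine ⟨F, Submodule.span_mono ?_ hqT⟩
    rw [← hF.2, Finset.coe_image]
  choose! G hG using h1
  refine ⟨s.biUnion G, fun x hx i => ?_⟩
  have h5 : Ideal.span (Set.range p) ≤ RingHom.ker (MvPolynomial.eval x) := by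
    rw [← hs, Submodule.span_le]
    intro q hq
    have h6 : Ideal.span (p '' ((G q : Finset ι) : Set ι)) ≤ RingHom.ker (MvPolynomial.eval x) := by
      rw [Ideal.span_le]
      rintro _ ⟨k, hk, rfl⟩
      exact hx k (Finset.mem_biUnion.mpr ⟨q, hq, hk⟩)
    exact h6 (hG q hq)
  exact h5 (Ideal.subset_span ⟨i, rfl⟩)

end Pool.Agent.Helper77.ST
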