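import Mathlib

/-!
# Module PPOLY: functions on `ℤ ^ n` with vanishing differences are polynomials
-/

namespace Pool.Agent.Helper77.ST

open Finset

/-- The binomial polynomials. -/
noncomputable def ppB : ℕ → Polynomial ℚ
  | 0 => 1
  | k + 1 => ppB k * (Polynomial.X - Polynomial.C (k : ℚ)) * Polynomial.C ((k + 1 : ℚ)⁻¹)

lemma ppB_eval_succ (k : ℕ) (y : ℚ) :
    (ppB (k + 1)).eval y = (ppB k).eval y * (y - k) / (k + 1) := by
  simp [ppB, div_eq_mul_inv]

lemma ppB_diff (k : ℕ) (y : ℚ) :
    (ppB (k + 1)).eval (y + 1) - (ppB (k + 1)).eval y = (ppB k).eval y := by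
  induction k with
  | zero => simp [ppB]
  | succ k ih =>
    have h1 : ((k + 1 : ℕ) : ℚ) + 1 ≠ 0 := by positivity
    have h2 : (k : ℚ) + 1 ≠ 0 := by positivity
    have e1 := ppB_eval_succ (k + 1) (y + 1)
    have e2 := ppB_eval_succ (k + 1) y
    have e3 := ppB_eval_succ k y
    have e4 : (ppB (k + 1)).eval (y + 1) = (ppB (k + 1)).eval y + (ppB k).eval y := by
      rw [← ih]; ring
    rw [e1, e2, e4]
    rw [eq_div_iff h2] at e3
    rw [← sub_div, div_eq_iff h1]
    push_cast at *
    linear_combination -e3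

lemma ppB_zero (k : ℕ) : (ppB (k + 1)).eval 0 = 0 := by
  induction k with
  | zero => simp [ppB]
  | succ k ih => rw [ppB_eval_succ, ih]; simp

lemma pp_const (g : ℤ → ℚ) (h : ∀ x, g (x + 1) = g x) (y : ℤ) : g y = g 0 := by
  induction y using Int.induction_on with
  | zero => rfl
  | succ n ih => rw [h, ih]
  | pred n ih =>
    rw [← ih]
    have := h (-(n : ℤ) - 1)
    rw [sub_add_cancel] at this
    exact this.symm

lemma pp_newton (d : ℕ) : ∀ g : ℤ → ℚ, (∀ x, (fwdDiff (1 : ℤ))^[d + 1] g x = 0) → ∀ y : ℤ,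
    g y = ∑ k ∈ range (d + 1), (fwdDiff (1 : ℤ))^[k] g 0 * (ppB k).eval (y : ℚ) := by
  induction d with
  | zero =>
    intro g h y
    have h1 : ∀ x, g (x + 1) = g x := by
      intro x
      have := h x
      simp only [zero_add, Function.iterate_one, fwdDiff] at this
      linarith
    simpa [ppB] using pp_const g h1 y
  | succ d ih =>
    intro g h y
    have h1 := ih (fwdDiff (1 : ℤ) g) (by
      intro x
      have := h x
      rwa [Function.iterate_succ_apply] at this)
    set r : ℤ → ℚ := fun y => ∑ k ∈ range (d + 1 + 1), (fwdDiff (1 : ℤ))^[k] g 0 *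
      (ppB k).eval (y : ℚ) with hr
    have h2 : ∀ x, r (x + 1) - r x = fwdDiff (1 : ℤ) g x := by
      intro x
      rw [h1 x, hr]
      simp only
      rw [← sum_sub_distrib, sum_range_succ']
      simp only [Function.iterate_succ_apply]
      rw [show (ppB 0) = 1 from rfl]
      simp only [Polynomial.eval_one, sub_self, add_zero]
      refine sum_congr rfl fun k _ => ?_
      rw [← mul_sub]
      congr 1
      have := ppB_diff k (x : ℚ)
      push_cast
      exact this
    have h3 := pp_const (fun x => g x - r x) (by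
      intro x
      have := h2 x
      simp only [fwdDiff] at this
      linarith) y
    have h4 : r 0 = g 0 := by
      rw [hr]
      simp only
      rw [sum_range_succ', sum_eq_zero]
      · simp [ppB]
      · intro k _
        rw [Int.cast_zero, ppB_zero, mul_zero]
    simp only [h4, sub_self] at h3
    linarith

lemma pp_one (d : ℕ) : ∃ L : ℕ → Polynomial ℚ, ∀ g : ℤ → ℚ,
    (∀ y : ℤ, ∑ k ∈ range (d + 2), (-1 : ℚ) ^ k * (d + 1).choose k * g (y - k) = 0) →
    ∀ y : ℤ, g y = ∑ z ∈ range (d + 1), g z * (L z).eval (y : ℚ) := by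
  refine ⟨fun z => ∑ k ∈ range (d + 1), if z ≤ k then
    Polynomial.C (((-1 : ℚ) ^ (k - z) * k.choose z)) * ppB k else 0, ?_⟩
  intro g hg y
  have h1 : ∀ x, (fwdDiff (1 : ℤ))^[d + 1] g x = 0 := by
    intro x
    rw [fwdDiff_iter_eq_sum_shift]
    have := hg (x + (d + 1))
    rw [← this, ← sum_range_reflect]
    refine sum_congr rfl fun k hk => ?_
    have hk' : k ≤ d + 1 := by
      have := mem_range.1 hk
      omega
    have e1 : d + 1 + 1 - 1 - k = d + 1 - k := by omega
    rw [e1, Nat.choose_symm hk']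
    have e2 : d + 1 - (d + 1 - k) = k := by omega
    rw [e2]
    have e3 : x + (d + 1 - k) • (1 : ℤ) = x + (d + 1) - k := by
      rw [nsmul_eq_mul, mul_one]
      push_cast [hk']
      ring
    rw [e3]
    simp [zsmul_eq_mul]
  rw [pp_newton d g h1 y]
  simp only [Polynomial.eval_finsetSum, mul_sum]
  rw [sum_comm]
  refine sum_congr rfl fun k hk => ?_
  rw [fwdDiff_iter_eq_sum_shift, sum_mul]
  have hk' : k < d + 1 := mem_range.1 hk
  symm
  rw [← sum_subset (range_subset_range.2 (show k + 1 ≤ d + 1 by omega))]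
  · refine sum_congr rfl fun z hz => ?_
    have hz' : z ≤ k := by
      have := mem_range.1 hz
      omega
    rw [if_pos hz']
    simp [zsmul_eq_mul]
    ring
  · intro z _ hz
    have hz' : ¬ z ≤ k := by
      intro h
      exact hz (mem_range.2 (by omega))
    rw [if_neg hz']
    simp

theorem poly_of_diff {n : ℕ} (f : (Fin n → ℤ) → ℚ) (d : ℕ)
    (h : ∀ (y : Fin n → ℤ) (i : Fin n), ∑ k ∈ range (d + 2), (-1 : ℚ) ^ k * (d + 1).choose k *
      f (Function.update y i (y i - k)) = 0) :
    ∃ p : MvPolynomial (Fin n) ℚ, ∀ y : Fin n → ℤ,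
      f y = MvPolynomial.eval (fun i => (y i : ℚ)) p := by
  induction n with
  | zero =>
    refine ⟨MvPolynomial.C (f default), fun y => ?_⟩
    rw [MvPolynomial.eval_C]
    congr 1
    exact Subsingleton.elim _ _
  | succ n ih =>
    obtain ⟨L, hL⟩ := pp_one d
    have h1 : ∀ a : ℤ, ∃ p : MvPolynomial (Fin n) ℚ, ∀ x : Fin n → ℤ,
        f (Fin.cons a x) = MvPolynomial.eval (fun i => (x i : ℚ)) p := by
      intro a
      refine ih (fun x => f (Fin.cons a x)) fun y i => ?_
      have := h (Fin.cons a y) i.succ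
      rw [← this]
      refine sum_congr rfl fun k _ => ?_
      rw [Fin.cons_succ, Fin.cons_update]
    choose p hp using h1
    refine ⟨∑ z ∈ range (d + 1), MvPolynomial.rename Fin.succ (p z) *
      Polynomial.aeval (MvPolynomial.X 0) (L z), fun y => ?_⟩
    have h2 := hL (fun a => f (Fin.cons a (Fin.tail y))) (by
      intro a
      have := h (Fin.cons a (Fin.tail y)) 0
      rw [← this]
      refine sum_congr rfl fun k _ => ?_
      rw [Fin.cons_zero, Fin.update_cons_zero]) (y 0)
    simp only [Fin.cons_self_tail] at h2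
    rw [h2, map_sum]
    refine sum_congr rfl fun z _ => ?_
    rw [map_mul, MvPolynomial.eval_rename, hp]
    congr 1
    rw [Polynomial.aeval_def, Polynomial.hom_eval₂]
    rw [Subsingleton.elim ((MvPolynomial.eval fun i => ((y i : ℤ) : ℚ)).comp
      (algebraMap ℚ (MvPolynomial (Fin (n + 1)) ℚ))) (RingHom.id ℚ), MvPolynomial.eval_X]
    rfl

end Pool.Agent.Helper77.ST
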