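import Mathlib
import Pool.Agent.Helper9.FA.Defs

/-!
# Knot diagrams, isotopy and Vassiliev invariants

Only definitions.  A diagram is a list of pieces (minimum `cup`, maximum `cap`, crossings `pos`,
`neg`), from bottom to top, each with the number of strands to its left
(`Pool.Agent.Helper9.RTDefs`).
-/

namespace Pool.Agent.Helper77.ST

open Pool.Agent.Helper9.Kashaev (Piece Diagram)
open Pool.Agent.Helper9.FA (Item twists)

/-- The diagram `D` goes from `n` strands to `m` strands. -/
def wf : ℕ → Diagram → ℕ → Prop
  | n, [], m => n = m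
  | n, (k, .cup) :: D, m => k ≤ n ∧ wf (n + 2) D m
  | n, (k, .cap) :: D, m => k + 2 ≤ n ∧ wf (n - 2) D m
  | n, (k, .pos) :: D, m => k + 2 ≤ n ∧ wf n D m
  | n, (k, .neg) :: D, m => k + 2 ≤ n ∧ wf n D m

/-- `Arc c L D`: the strands at the bottom of `D` have the labels `L`; strands with the same label
belong to the same arc, and `c` is the next free label.  A minimum starts a new arc, and a maximum
must join two different arcs (their labels are identified), so no component is closed; there is one
strand at the top. -/
def Arc : ℕ → List ℕ → Diagram → Prop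
  | _, L, [] => L.length = 1
  | c, L, (k, .cup) :: D => k ≤ L.length ∧ Arc (c + 1) (L.take k ++ c :: c :: L.drop k) D
  | c, L, (k, .cap) :: D => match L.drop k with
    | x :: y :: R => x ≠ y ∧ Arc c ((L.take k ++ R).map fun z => if z = y then x else z) D
    | _ => False
  | c, L, (k, .pos) :: D => match L.drop k with
    | x :: y :: R => Arc c (L.take k ++ y :: x :: R) D
    | _ => False
  | c, L, (k, .neg) :: D => match L.drop k with
    | x :: y :: R => Arc c (L.take k ++ y :: x :: R) D
    | _ => False

/-- `D` is the diagram of a knot, cut open at one point: it has one strand at the bottom and one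
at the top, and one component. -/
def IsKnot (D : Diagram) : Prop := Arc 1 [0] D

/-- the number of strands of a piece at its bottom -/
def nin : Piece → ℕ
  | .cup => 0
  | .cap => 2
  | .pos => 2
  | .neg => 2

/-- the number of strands of a piece at its top -/
def nout : Piece → ℕ
  | .cup => 2
  | .cap => 0
  | .pos => 2
  | .neg => 2

/-- The moves that generate isotopy of diagrams in Morse position: straightening, the three
Reidemeister moves, a strand passes a maximum or a minimum, and distant pieces change places. -/
inductive Move : Diagram → Diagram → Prop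
  | zig1 (k : ℕ) : Move [(k, .cup), (k + 1, .cap)] []
  | zig2 (k : ℕ) : Move [(k + 1, .cup), (k, .cap)] []
  | cup1p (k : ℕ) : Move [(k, .cup), (k, .pos)] [(k, .cup)]
  | cup1n (k : ℕ) : Move [(k, .cup), (k, .neg)] [(k, .cup)]
  | cap1p (k : ℕ) : Move [(k, .pos), (k, .cap)] [(k, .cap)]
  | cap1n (k : ℕ) : Move [(k, .neg), (k, .cap)] [(k, .cap)]
  | r2pn (k : ℕ) : Move [(k, .pos), (k, .neg)] []
  | r2np (k : ℕ) : Move [(k, .neg), (k, .pos)] []
  | r3 (k : ℕ) : Move [(k, .pos), (k + 1, .pos), (k, .pos)] [(k + 1, .pos), (k, .pos), (k + 1, .pos)]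
  | cup2p (k : ℕ) : Move [(k + 1, .cup), (k, .pos)] [(k, .cup), (k + 1, .neg)]
  | cup2n (k : ℕ) : Move [(k + 1, .cup), (k, .neg)] [(k, .cup), (k + 1, .pos)]
  | cap2p (k : ℕ) : Move [(k, .pos), (k + 1, .cap)] [(k + 1, .neg), (k, .cap)]
  | cap2n (k : ℕ) : Move [(k, .neg), (k + 1, .cap)] [(k + 1, .pos), (k, .cap)]
  | far (k l : ℕ) (p q : Piece) (h : k + nout p ≤ l) :
      Move [(k, p), (l, q)] [(l + nin p - nout p, q), (k, p)]

/-- one move in a larger diagram -/
inductive Step : Diagram → Diagram → Prop
  | mk (A B : Diagram) {a b : Diagram} (h : Move a b) (h1 : wf 1 (A ++ a ++ B) 1)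
      (h2 : wf 1 (A ++ b ++ B) 1) : Step (A ++ a ++ B) (A ++ b ++ B)

/-- two diagrams are isotopic if they are joined by moves -/
def Isotopic (D D' : Diagram) : Prop := Relation.EqvGen Step D D'

/-- the pieces of a singular diagram: the pieces of a diagram, and double points -/
inductive SPiece
  | reg (p : Piece)
  | dbl

/-- a singular diagram -/
abbrev SDiagram := List (ℕ × SPiece)

/-- all double points are replaced by crossings -/
def resolve : SDiagram → Diagram
  | [] => []
  | (k, .reg p) :: S => (k, p) :: resolve S
  | (k, .dbl) :: S => (k, .pos) :: resolve S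

/-- the number of double points -/
def dbls : SDiagram → ℕ
  | [] => 0
  | (_, .reg _) :: S => dbls S
  | (_, .dbl) :: S => dbls S + 1

/-- The alternating sum of the values of `I` over the resolutions of the double points of `S`; the
diagram `A` lies below `S`. -/
def alt {R : Type*} [Ring R] (I : Diagram → R) : Diagram → SDiagram → R
  | A, [] => I A
  | A, (k, .reg p) :: S => alt I (A ++ [(k, p)]) S
  | A, (k, .dbl) :: S => alt I (A ++ [(k, .pos)]) S - alt I (A ++ [(k, .neg)]) S

/-- `I` is a rational Vassiliev invariant of knots of degree at most `d`. -/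
structure IsVassiliev (d : ℕ) (I : Diagram → ℚ) : Prop where
  inv : ∀ D D', IsKnot D → IsKnot D' → Isotopic D D' → I D = I D'
  fin : ∀ S : SDiagram, IsKnot (resolve S) → d < dbls S → alt I [] S = 0

/-- The diagram with pattern `S` and `a i` crossings at the vertex number `i`, positive ones if
`a i` is positive and negative ones if `a i` is negative. -/
def tw : List (Item Unit) → List ℤ → Diagram
  | [], _ => []
  | .cup k :: S, a => (k, .cup) :: tw S a
  | .cap k :: S, a => (k, .cap) :: tw S a
  | .box k _ :: S, x :: a => twists k x ++ tw S a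
  | .box _ _ :: S, [] => tw S []

end Pool.Agent.Helper77.ST
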