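import Pool.Agent.Helper77.ST.LCon

/-!
# Module LLINE: a line of bad labels
-/

namespace Pool.Agent.Helper77.ST

open Finset
open Pool.Agent.Helper9.Kashaev (Piece Diagram)
open Pool.Agent.Helper9.FA (Item twists)

/-- common points in `b + V` with the parities of `b`, unbounded in all coordinates at once -/
def llineP {n : ℕ} {κ : Type} (Z : κ → Set (Fin n → ℤ)) (V : Submodule ℚ (Fin n → ℚ))
    (b : Fin n → ℤ) : Prop :=
  ∀ C : ℕ, ∃ a : Fin n → ℤ, (∀ k, a ∈ Z k) ∧ (∀ i, a i % 2 = b i % 2) ∧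
    (fun i => (a i : ℚ) - b i) ∈ V ∧ ∀ i, C ≤ (a i).natAbs

theorem lline_start {n : ℕ} {κ : Type} (Z : κ → Set (Fin n → ℤ))
    (hB : ∀ C : ℕ, ∃ a : Fin n → ℤ, (∀ k, a ∈ Z k) ∧ ∀ i, C ≤ (a i).natAbs) :
    ∃ b : Fin n → ℤ, llineP Z ⊤ b := by
  classical
  by_contra hne
  push Not at hne
  have h1 : ∀ b : Fin n → Fin 2, ∃ C : ℕ, ∀ a : Fin n → ℤ, (∀ k, a ∈ Z k) →
      (∀ i, a i % 2 = ((b i : ℕ) : ℤ)) → ¬ ∀ i, C ≤ (a i).natAbs := by
    intro b
    have h2 := hne fun i => ((b i : ℕ) : ℤ)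
    unfold llineP at h2
    push Not at h2
    obtain ⟨C, hC⟩ := h2
    refine ⟨C, fun a ha hb hc => ?_⟩
    obtain ⟨i, hi⟩ := hC a ha (fun i => by
      rw [hb i]
      have := (b i).2
      omega) (Submodule.mem_top)
    exact absurd (hc i) (by omega)
  choose C hC using h1
  obtain ⟨a, ha, hb⟩ := hB (∑ b, C b)
  refine hC (fun i => ⟨(a i % 2).toNat, by have := Int.emod_two_eq (a i); omega⟩) a ha ?_ ?_
  · intro i
    have := Int.emod_two_eq (a i)
    simp only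
    omega
  · intro i
    refine le_trans ?_ (hb i)
    exact Finset.single_le_sum (f := C) (fun _ _ => Nat.zero_le _) (Finset.mem_univ _)

theorem lline_vector {n : ℕ} (V : Submodule ℚ (Fin n → ℚ)) (hV : ∀ i, ∃ z ∈ V, z i ≠ 0) :
    ∃ w : Fin n → ℤ, (∀ i, w i ≠ 0) ∧ (fun i => (w i : ℚ)) ∈ V := by
  classical
  have h1 : ∃ z : V, ∀ i, (z : Fin n → ℚ) i ≠ 0 := by
    by_contra hne
    push Not at hne
    obtain ⟨i, hi⟩ := Subspace.exists_eq_top_of_iUnion_eq_univ
      (p := fun i : Fin n => LinearMap.ker ((LinearMap.proj i : (Fin n → ℚ) →ₗ[ℚ] ℚ).comp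
        V.subtype)) (by
      rw [Set.eq_univ_iff_forall]
      intro z
      obtain ⟨i, hi⟩ := hne z
      exact Set.mem_iUnion.2 ⟨i, by simpa using hi⟩)
    obtain ⟨z, hz, hzi⟩ := hV i
    have h2 : (⟨z, hz⟩ : V) ∈ LinearMap.ker ((LinearMap.proj i : (Fin n → ℚ) →ₗ[ℚ] ℚ).comp
        V.subtype) := by rw [hi]; exact Submodule.mem_top
    exact hzi (by simpa using h2)
  obtain ⟨z, hz⟩ := h1
  obtain ⟨d, hd⟩ := IsLocalization.exist_integer_multiples_of_finite (nonZeroDivisors ℤ)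
    (z : Fin n → ℚ)
  choose w hw using hd
  refine ⟨w, ?_, ?_⟩
  · intro i hi
    have h2 := hw i
    rw [hi] at h2
    simp only [map_zero] at h2
    have hd0 : ((d : ℤ) : ℚ) ≠ 0 := by
      exact_mod_cast nonZeroDivisors.ne_zero d.2
    rw [zsmul_eq_mul] at h2
    exact (mul_ne_zero hd0 (hz i)) h2.symm
  · have h3 : (fun i => (w i : ℚ)) = ((d : ℤ) : ℚ) • (z : Fin n → ℚ) := by
      funext i
      have h2 := hw i
      rw [zsmul_eq_mul] at h2
      simpa using h2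
    rw [h3]
    exact V.smul_mem _ z.2

/-- If the common points of exponential sets are unbounded in all coordinates at once, then there
is a line of common points that is parallel to no coordinate hyperplane. -/
theorem exists_line {n : ℕ} {κ : Type} (Z : κ → Set (Fin n → ℤ)) (hZ : ∀ k, ExpSet (Z k))
    (hB : ∀ C : ℕ, ∃ a : Fin n → ℤ, (∀ k, a ∈ Z k) ∧ ∀ i, C ≤ (a i).natAbs) :
    ∃ b w : Fin n → ℤ, (∀ i, w i ≠ 0) ∧ ∀ (m : ℤ) (k : κ), (fun i => b i + 2 * m * w i) ∈ Z k := by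
  classical
  obtain ⟨b0, hb0⟩ := lline_start Z hB
  have hex : ∃ d : ℕ, ∃ V : Submodule ℚ (Fin n → ℚ), ∃ b : Fin n → ℤ,
      Module.finrank ℚ V = d ∧ llineP Z V b := ⟨_, ⊤, b0, rfl, hb0⟩
  obtain ⟨V, b, hd, hP⟩ := Nat.find_spec hex
  have hmin : ∀ (V' : Submodule ℚ (Fin n → ℚ)) (b' : Fin n → ℤ), llineP Z V' b' →
      Module.finrank ℚ V ≤ Module.finrank ℚ V' := by
    intro V' b' h
    rw [hd]
    exact Nat.find_min' hex ⟨V', b', rfl, h⟩
  choose a ha1 ha2 haV haC using hP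
  have hgen : ∀ (ε : Fin n → ℤ) (c : ℤ), (∃ y ∈ V, ∑ i, (ε i : ℚ) * y i ≠ 0) →
      {m | ∑ i, ε i * a m i = c}.Finite := by
    intro ε c hε
    by_contra hinf
    have hinf : {m | ∑ i, ε i * a m i = c}.Infinite := hinf
    obtain ⟨m0, hm0⟩ := hinf.nonempty
    let L : (Fin n → ℚ) →ₗ[ℚ] ℚ := ∑ i, (ε i : ℚ) • LinearMap.proj i
    have hL : ∀ z : Fin n → ℚ, L z = ∑ i, (ε i : ℚ) * z i := by
      intro z
      simp [L]
    have hlt : Module.finrank ℚ (V ⊓ LinearMap.ker L : Submodule ℚ (Fin n → ℚ)) <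
        Module.finrank ℚ V := by
      refine Submodule.finrank_lt_finrank_of_lt (lt_of_le_of_ne inf_le_left ?_)
      intro heq
      obtain ⟨z, hz, hne⟩ := hε
      have h1 : z ∈ V ⊓ LinearMap.ker L := by rw [heq]; exact hz
      exact hne (by rw [← hL]; exact h1.2)
    refine absurd (hmin (V ⊓ LinearMap.ker L) (a m0) ?_) (by omega)
    intro C
    obtain ⟨m, hm, hCm⟩ := hinf.exists_gt C
    refine ⟨a m, ha1 m, fun i => (ha2 m i).trans (ha2 m0 i).symm, ⟨?_, ?_⟩, fun i => ?_⟩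
    · have h1 := V.sub_mem (haV m) (haV m0)
      refine (?_ : (fun i => (a m i : ℚ) - a m0 i) = _) ▸ h1
      funext i
      simp
    · refine LinearMap.mem_ker.2 ?_
      rw [hL]
      have h1 : ((∑ i, ε i * a m i : ℤ) : ℚ) = ((∑ i, ε i * a m0 i : ℤ) : ℚ) := by
        have e1 : ∑ i, ε i * a m i = c := hm
        have e2 : ∑ i, ε i * a m0 i = c := hm0
        rw [e1, e2]
      push_cast at h1
      simp only [mul_sub, Finset.sum_sub_distrib]
      linarith
    · exact le_trans hCm.le (haC m i)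
  have hline : ∀ y : Fin n → ℤ, (∀ i, y i % 2 = b i % 2) → (fun i => (y i : ℚ) - b i) ∈ V →
      ∀ k, y ∈ Z k := by
    intro y hy2 hyV k
    exact expSet_affine (hZ k) V b a (fun m => ha1 m k) ha2 haV hgen y hy2 hyV
  have hV : ∀ i, ∃ z ∈ V, z i ≠ 0 := by
    intro i
    by_contra hne
    push Not at hne
    have h1 : ∀ m, a m i = b i := by
      intro m
      have h2 := hne _ (haV m)
      have h3 : (a m i : ℚ) = b i := by linarith
      exact_mod_cast h3
    have h2 := haC ((b i).natAbs + 1) i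
    rw [h1] at h2
    omega
  obtain ⟨w, hw0, hwV⟩ := lline_vector V hV
  refine ⟨b, w, hw0, fun m k => hline _ (fun i => ?_) ?_ k⟩
  · show (b i + 2 * m * w i) % 2 = b i % 2
    rw [mul_assoc]
    omega
  · have h1 : (fun i => ((b i + 2 * m * w i : ℤ) : ℚ) - b i) =
        (2 * m : ℚ) • (fun i => (w i : ℚ)) := by
      funext i
      push_cast
      simp
    rw [h1]
    exact V.smul_mem _ hwV

end Pool.Agent.Helper77.ST
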