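import Pool.Agent.Helper77.ST.GDefs
import Pool.Agent.Helper77.ST.GQBin

/-!
# Module MR2: the second Reidemeister move
-/

namespace Pool.Agent.Helper77.ST

open Finset
open Pool.Agent.Helper9.Kashaev (Piece Diagram)
open Pool.Agent.Helper9.FA (Item twists)

variable {F : Type*} [Field F]

/-- the alternating sum of q-binomials -/
lemma mr2_alt (P : Par F) (n : ℕ) : ∑ m ∈ range (n + 2),
    (-1 : F) ^ m * P.v ^ (-((m : ℤ) * n)) * qb P (n + 1) m = 0 := by
  rw [sum_range_succ']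
  have h : ∀ m ∈ range (n + 1), (-1 : F) ^ (m + 1) * P.v ^ (-(((m + 1 : ℕ) : ℤ) * n)) *
      qb P (n + 1) (m + 1) =
      (fun m : ℕ => (-1 : F) ^ m * P.v ^ (-((m : ℤ) * (n + 1))) * qb P n m) (m + 1) -
      (fun m : ℕ => (-1 : F) ^ m * P.v ^ (-((m : ℤ) * (n + 1))) * qb P n m) m := by
    intro m _
    simp only [qb]
    have e1 : P.v ^ (-(((m + 1 : ℕ) : ℤ) * n)) * P.v ^ (-((m : ℤ) + 1)) =
        P.v ^ (-(((m + 1 : ℕ) : ℤ) * (n + 1))) := by
      rw [vz]; congr 1; push_cast; ring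
    have e2 : P.v ^ (-(((m + 1 : ℕ) : ℤ) * n)) * P.v ^ ((n : ℤ) - m) =
        P.v ^ (-((m : ℤ) * (n + 1))) := by
      rw [vz]; congr 1; push_cast; ring
    rw [← e1, ← e2, pow_succ]
    ring
  rw [sum_congr rfl h, sum_range_sub
    (fun m : ℕ => (-1 : F) ^ m * P.v ^ (-((m : ℤ) * (n + 1))) * qb P n m) (n + 1)]
  rw [qb_gt n (n + 1) (by omega), qb_zero_right, qb_zero_right]
  simp

/-- `kab` and `kap` are inverse to each other -/
lemma mr2_conv {P : Par F} {s : ℕ} (h1 : 1 ≤ s) (hs : s < P.N) :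
    ∑ m ∈ range (s + 1), kab P m * kap P (s - m) = 0 := by
  obtain ⟨n, rfl⟩ : ∃ n, s = n + 1 := ⟨s - 1, by omega⟩
  have h := mr2_alt P n
  have e : ∀ m ∈ range (n + 1 + 1), kab P m * kap P (n + 1 - m) =
      ((P.v - (P.v)⁻¹) ^ (n + 1) / qfac P (n + 1) * P.v ^ ((((n + 1) * (n + 1 - 1) / 2 : ℕ)) : ℤ)) *
        ((-1 : F) ^ m * P.v ^ (-((m : ℤ) * n)) * qb P (n + 1) m) := by
    intro m hm
    rw [mem_range] at hm
    have hq := qb_mul (P := P) (n + 1) m (by omega)
    have f1 : qfac P m ≠ 0 := qfac_ne (by omega)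
    have f2 : qfac P (n + 1 - m) ≠ 0 := qfac_ne (by omega)
    have f3 : qfac P (n + 1) ≠ 0 := qfac_ne (by omega)
    have hv := v_ne P
    unfold kab kap
    have z1 : (P.v)⁻¹ ^ (m * (m - 1) / 2) = P.v ^ (-(((m * (m - 1) / 2 : ℕ)) : ℤ)) := by
      rw [zpow_neg, zpow_natCast, inv_pow]
    have z2 : P.v ^ ((n + 1 - m) * (n + 1 - m - 1) / 2) =
        P.v ^ ((((n + 1 - m) * (n + 1 - m - 1) / 2 : ℕ)) : ℤ) := by
      rw [zpow_natCast]
    have tri : ∀ k : ℕ, (((k * (k - 1) / 2 : ℕ)) : ℤ) * 2 = (k : ℤ) * (k - 1) := by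
      intro k
      induction k with
      | zero => simp
      | succ k ih =>
        rw [tri_succ]
        push_cast
        push_cast at ih
        linarith
    have z3 : P.v ^ (-(((m * (m - 1) / 2 : ℕ)) : ℤ)) *
        P.v ^ ((((n + 1 - m) * (n + 1 - m - 1) / 2 : ℕ)) : ℤ) =
        P.v ^ ((((n + 1) * (n + 1 - 1) / 2 : ℕ)) : ℤ) * P.v ^ (-((m : ℤ) * n)) := by
      rw [vz, vz]
      congr 1
      have t1 := tri m
      have t2 := tri (n + 1 - m)
      have t3 := tri (n + 1)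
      have c : ((n + 1 - m : ℕ) : ℤ) = (n : ℤ) + 1 - m := by
        push_cast [Nat.cast_sub (show m ≤ n + 1 by omega)]; ring
      rw [c] at t2
      push_cast at t3
      have : 2 * (-(((m * (m - 1) / 2 : ℕ)) : ℤ) +
          ((((n + 1 - m) * (n + 1 - m - 1) / 2 : ℕ)) : ℤ)) =
          2 * (((((n + 1) * (n + 1 - 1) / 2 : ℕ)) : ℤ) + -((m : ℤ) * n)) := by
        push_cast
        push_cast at t1 t2 t3
        nlinarith
      linarith
    have z4 : (P.v - (P.v)⁻¹) ^ m * (P.v - (P.v)⁻¹) ^ (n + 1 - m) = (P.v - (P.v)⁻¹) ^ (n + 1) := by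
      rw [← pow_add]; congr 1; omega
    rw [z1, z2]
    calc (-1 : F) ^ m * P.v ^ (-(((m * (m - 1) / 2 : ℕ)) : ℤ)) *
          ((P.v - (P.v)⁻¹) ^ m / qfac P m) *
          (P.v ^ ((((n + 1 - m) * (n + 1 - m - 1) / 2 : ℕ)) : ℤ) *
            ((P.v - (P.v)⁻¹) ^ (n + 1 - m) / qfac P (n + 1 - m)))
        = (-1 : F) ^ m * (P.v ^ (-(((m * (m - 1) / 2 : ℕ)) : ℤ)) *
          P.v ^ ((((n + 1 - m) * (n + 1 - m - 1) / 2 : ℕ)) : ℤ)) *
          ((P.v - (P.v)⁻¹) ^ m * (P.v - (P.v)⁻¹) ^ (n + 1 - m)) /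
          (qfac P m * qfac P (n + 1 - m)) := by field_simp
      _ = _ := by
          rw [z3, z4, ← hq]
          generalize (P.v - (P.v)⁻¹) ^ (n + 1) = z
          have f4 : qb P (n + 1) m ≠ 0 := by
            intro h0
            rw [h0, zero_mul] at hq
            exact f3 hq.symm
          field_simp
  rw [sum_congr rfl e, ← mul_sum, h, mul_zero]

lemma mr2_conv' {P : Par F} {s : ℕ} (h1 : 1 ≤ s) (hs : s < P.N) :
    ∑ m ∈ range (s + 1), kap P m * kab P (s - m) = 0 := by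
  rw [← mr2_conv h1 hs, ← sum_range_reflect]
  apply sum_congr rfl
  intro m hm
  rw [mem_range] at hm
  rw [show s + 1 - 1 - m = s - m by omega, show s - (s - m) = m by omega]
  ring

lemma mr2_tht (P : Par F) {a b m : ℕ} (h : m ≤ b) :
    tht P (b - m) (a + m) = tht P a b * P.v ^ (-((m : ℤ) * (wt P b - wt P a) + 2 * m ^ 2)) := by
  unfold tht
  rw [vz]
  congr 1
  rw [wt_eq_hw, wt_eq_hw]
  unfold hw
  push_cast [Nat.cast_sub h]
  ring

lemma mr2_eta (P : Par F) (a m j : ℕ) : eta P a m * eta P (a + m) j = eta P a (m + j) := by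
  unfold eta
  rw [prod_range_add]
  congr 1
  apply prod_congr rfl
  intro t _
  congr 1; ring

lemma mr2_nu_rho {P : Par F} {a b m j : ℕ} (h : m ≤ b) :
    nu P a b m * rho P (b - m) (a + m) j = kab P m * kap P j * eta P a (m + j) := by
  unfold nu rho
  rw [mr2_tht P h, ← mr2_eta, zpow_neg]
  have h1 := tht_ne P a b
  have h2 := vz_ne P ((m : ℤ) * (wt P b - wt P a) + 2 * m ^ 2)
  field_simp

lemma mr2_rho_nu {P : Par F} {a b m j : ℕ} (h : m ≤ a) :
    rho P a b m * nu P (b + m) (a - m) j =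
      P.v ^ (((m + j : ℕ) : ℤ) * (wt P a - wt P b) + 2 * ((m + j : ℕ) : ℤ) ^ 2) *
        (kap P m * kab P j * eta P b (m + j)) := by
  unfold nu rho
  rw [tht_symm P (b + m), mr2_tht P h, ← mr2_eta, tht_symm P b a]
  have h1 := tht_ne P a b
  have e : wt P (a - m) - wt P (b + m) = wt P a - wt P b + 4 * m := by
    unfold wt; push_cast [Nat.cast_sub h]; ring
  rw [e, mul_inv, ← zpow_neg, neg_neg]
  have z : P.v ^ ((m : ℤ) * (wt P a - wt P b) + 2 * m ^ 2) *
      P.v ^ ((j : ℤ) * (wt P a - wt P b + 4 * m) + 2 * j ^ 2) =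
      P.v ^ (((m + j : ℕ) : ℤ) * (wt P a - wt P b) + 2 * ((m + j : ℕ) : ℤ) ^ 2) := by
    rw [vz]; congr 1; push_cast; ring
  rw [← z]
  field_simp

theorem r2_pos_neg {P : Par F} {g : List ℕ → F} (hg : Sup P 2 g) :
    RT P [(0, .pos), (0, .neg)] g = g := by
  have hS : Sup P 2 (RT P [(0, .pos), (0, .neg)] g) :=
    RT_Sup (n := 2) (m := 2) (by simp [wf]) hg
  funext w
  by_cases hw : w.length = 2 ∧ ∀ x ∈ w, x < P.N
  swap
  · rw [hS w hw, hg w hw]
  obtain ⟨hl, hN⟩ := hw
  obtain ⟨a, b, rfl⟩ := List.length_eq_two.mp hl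
  have ha : a < P.N := hN a (by simp)
  have hb : b < P.N := hN b (by simp)
  show piece P .neg (piece P .pos g) [a, b] = g [a, b]
  rw [neg_apply ha hb]
  have e1 : ∑ m ∈ range (b + 1), nu P a b m * piece P .pos g [b - m, a + m] =
      ∑ m ∈ range (b + 1), ∑ j ∈ range (b + 1 - m),
        (kab P m * kap P j * eta P a (m + j)) * g [a + m + j, b - m - j] := by
    apply sum_congr rfl
    intro m hm
    rw [mem_range] at hm
    by_cases h : a + m < P.N
    · rw [pos_apply (by omega) h, mul_sum, show b - m + 1 = b + 1 - m by omega]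
      apply sum_congr rfl
      intro j _
      rw [← mul_assoc, mr2_nu_rho (by omega)]
    · have h0 : eta P a m = 0 := eta_eq_zero ha (by omega)
      have h1 : nu P a b m = 0 := by unfold nu; rw [h0]; ring
      rw [h1, zero_mul]
      symm
      apply sum_eq_zero
      intro j _
      rw [← mr2_eta, h0]; ring
  rw [e1, ← sum_range_diag_flip (b + 1)
    (fun m j => (kab P m * kap P j * eta P a (m + j)) * g [a + m + j, b - m - j]),
    sum_range_succ']
  simp only [zero_add, range_one, sum_singleton, Nat.sub_zero, add_zero, kab_zero, kap_zero,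
    eta_zero, one_mul, Nat.sub_self]
  have e2 : ∑ s ∈ range b, ∑ m ∈ range (s + 1 + 1),
      (kab P m * kap P (s + 1 - m) * eta P a (m + (s + 1 - m))) *
        g [a + m + (s + 1 - m), b - m - (s + 1 - m)] = 0 := by
    apply sum_eq_zero
    intro s hs
    rw [mem_range] at hs
    have e3 : ∀ m ∈ range (s + 1 + 1), (kab P m * kap P (s + 1 - m) * eta P a (m + (s + 1 - m))) *
        g [a + m + (s + 1 - m), b - m - (s + 1 - m)] =
        (kab P m * kap P (s + 1 - m)) * (eta P a (s + 1) * g [a + (s + 1), b - (s + 1)]) := by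
      intro m hm
      rw [mem_range] at hm
      rw [show m + (s + 1 - m) = s + 1 by omega, show a + m + (s + 1 - m) = a + (s + 1) by omega,
        show b - m - (s + 1 - m) = b - (s + 1) by omega]
      ring
    rw [sum_congr rfl e3, ← sum_mul, mr2_conv (by omega) (by omega), zero_mul]
  rw [e2]
  simp

theorem r2_neg_pos {P : Par F} {g : List ℕ → F} (hg : Sup P 2 g) :
    RT P [(0, .neg), (0, .pos)] g = g := by
  have hS : Sup P 2 (RT P [(0, .neg), (0, .pos)] g) :=
    RT_Sup (n := 2) (m := 2) (by simp [wf]) hg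
  funext w
  by_cases hw : w.length = 2 ∧ ∀ x ∈ w, x < P.N
  swap
  · rw [hS w hw, hg w hw]
  obtain ⟨hl, hN⟩ := hw
  obtain ⟨a, b, rfl⟩ := List.length_eq_two.mp hl
  have ha : a < P.N := hN a (by simp)
  have hb : b < P.N := hN b (by simp)
  show piece P .pos (piece P .neg g) [a, b] = g [a, b]
  rw [pos_apply ha hb]
  have e1 : ∑ m ∈ range (a + 1), rho P a b m * piece P .neg g [b + m, a - m] =
      ∑ m ∈ range (a + 1), ∑ j ∈ range (a + 1 - m),
        (P.v ^ (((m + j : ℕ) : ℤ) * (wt P a - wt P b) + 2 * ((m + j : ℕ) : ℤ) ^ 2) *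
        (kap P m * kab P j * eta P b (m + j))) * g [a - m - j, b + m + j] := by
    apply sum_congr rfl
    intro m hm
    rw [mem_range] at hm
    by_cases h : b + m < P.N
    · rw [neg_apply h (by omega), mul_sum, show a - m + 1 = a + 1 - m by omega]
      apply sum_congr rfl
      intro j _
      rw [← mul_assoc, mr2_rho_nu (by omega)]
    · have h0 : eta P b m = 0 := eta_eq_zero hb (by omega)
      have h1 : rho P a b m = 0 := by unfold rho; rw [h0]; ring
      rw [h1, zero_mul]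
      symm
      apply sum_eq_zero
      intro j _
      rw [← mr2_eta, h0]; ring
  rw [e1, ← sum_range_diag_flip (a + 1)
    (fun m j => (P.v ^ (((m + j : ℕ) : ℤ) * (wt P a - wt P b) + 2 * ((m + j : ℕ) : ℤ) ^ 2) *
        (kap P m * kab P j * eta P b (m + j))) * g [a - m - j, b + m + j]),
    sum_range_succ']
  simp only [zero_add, range_one, sum_singleton, Nat.sub_zero, add_zero, kab_zero, kap_zero,
    eta_zero, one_mul, Nat.sub_self]
  have e2 : ∑ s ∈ range a, ∑ m ∈ range (s + 1 + 1),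
      (P.v ^ (((m + (s + 1 - m) : ℕ) : ℤ) * (wt P a - wt P b) +
          2 * ((m + (s + 1 - m) : ℕ) : ℤ) ^ 2) *
        (kap P m * kab P (s + 1 - m) * eta P b (m + (s + 1 - m)))) *
        g [a - m - (s + 1 - m), b + m + (s + 1 - m)] = 0 := by
    apply sum_eq_zero
    intro s hs
    rw [mem_range] at hs
    have e3 : ∀ m ∈ range (s + 1 + 1),
        (P.v ^ (((m + (s + 1 - m) : ℕ) : ℤ) * (wt P a - wt P b) +
          2 * ((m + (s + 1 - m) : ℕ) : ℤ) ^ 2) *
        (kap P m * kab P (s + 1 - m) * eta P b (m + (s + 1 - m)))) *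
        g [a - m - (s + 1 - m), b + m + (s + 1 - m)] =
        (kap P m * kab P (s + 1 - m)) *
          (P.v ^ (((s + 1 : ℕ) : ℤ) * (wt P a - wt P b) + 2 * ((s + 1 : ℕ) : ℤ) ^ 2) *
            eta P b (s + 1) * g [a - (s + 1), b + (s + 1)]) := by
      intro m hm
      rw [mem_range] at hm
      rw [show m + (s + 1 - m) = s + 1 by omega, show b + m + (s + 1 - m) = b + (s + 1) by omega,
        show a - m - (s + 1 - m) = a - (s + 1) by omega]
      ring
    rw [sum_congr rfl e3, ← sum_mul, mr2_conv' (by omega) (by omega), zero_mul]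
  rw [e2]
  simp

end Pool.Agent.Helper77.ST
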