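import Pool.Agent.Helper77.ST.QRoot
import Pool.Agent.Helper77.ST.MR2
import Pool.Agent.Helper11.TG.R4

/-!
# Module QR2: positive and negative crossings are inverse at the root of unity
-/

namespace Pool.Agent.Helper77.ST

open Finset
open Pool.Agent.Helper9.Kashaev Pool.Agent.Helper9.TG
open Pool.Agent.Helper9 (TB.AM)

open scoped Matrix

lemma qr2_RT (l : ℕ) (hl : 1 ≤ l) {f : List ℕ → ℂ}
    (hf : Pool.Agent.Helper9.Kashaev.Sup (2 * l + 1) 3 f) :
    Pool.Agent.Helper9.Kashaev.RT (2 * l + 1) [(0, .pos), (0, .neg)] f = f := by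
  have hw : Pool.Agent.Helper9.Kashaev.wf 2 [(0, .pos), (0, .neg)] 2 := by
    simp [Pool.Agent.Helper9.Kashaev.wf]
  have hw3 : Pool.Agent.Helper9.Kashaev.wf 3 [(0, .pos), (0, .neg)] 3 := by
    simp [Pool.Agent.Helper9.Kashaev.wf]
  funext u
  by_cases hu : u.length = 3
  · obtain ⟨x, y, z, rfl⟩ := List.length_eq_three.mp hu
    have h2 := Pool.Agent.Helper9.Kashaev.RT_right (N := 2 * l + 1) hw f [x, y] [z] rfl
    have e1 : [x, y] ++ [z] = [x, y, z] := rfl
    rw [e1] at h2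
    rw [h2, ← RT_root l hl, r2_pos_neg]
    · rfl
    · intro v hv
      apply hf
      rintro ⟨h3, h4⟩
      apply hv
      refine ⟨by simpa using h3, fun x hx => h4 x (by simp [hx])⟩
  · rw [Pool.Agent.Helper9.Kashaev.RT_Sup hw3 hf u (fun h => hu h.1), hf u (fun h => hu h.1)]

lemma qr2_tht (N : ℕ) : (starRingEnd ℂ) (Pool.Agent.Helper9.Kashaev.tht N 0 0) *
    Pool.Agent.Helper9.Kashaev.tht N 0 0 = 1 := by
  unfold Pool.Agent.Helper9.Kashaev.tht
  rw [← Complex.exp_conj, ← Complex.exp_add]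
  have : (starRingEnd ℂ) (↑Real.pi * Complex.I *
      ((Pool.Agent.Helper9.Kashaev.wt N 0 * Pool.Agent.Helper9.Kashaev.wt N 0 : ℤ) : ℂ) /
        (2 * (N : ℂ))) = -(↑Real.pi * Complex.I *
      ((Pool.Agent.Helper9.Kashaev.wt N 0 * Pool.Agent.Helper9.Kashaev.wt N 0 : ℤ) : ℂ) /
        (2 * (N : ℂ))) := by
    simp only [map_div₀, map_mul, Complex.conj_ofReal, Complex.conj_I, map_intCast, map_natCast,
      map_ofNat]
    ring
  rw [this]
  simp

/-- the matrix of a negative crossing is the inverse of the matrix of a positive crossing -/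
theorem AM_conj {N : ℕ} (l : ℕ) (hl : 1 ≤ l) (hN : N = 2 * l + 1) :
    (TB.AM N N).map (starRingEnd ℂ) * TB.AM N N = 1 := by
  have hN2 : 2 ≤ N := by omega
  apply Matrix.ext_of_mulVec_single
  intro i
  obtain ⟨g, hg, hgi⟩ := crd_surj hN2 (Pi.single i (1 : ℂ))
  have hw : Pool.Agent.Helper9.Kashaev.wf 3 [((0 : ℕ), Piece.pos)] 3 := by
    simp [Pool.Agent.Helper9.Kashaev.wf]
  have hg1 := r3_H0_RT hN2 hw hg
  have h1 := r4_pos hN2 1 hg
  have h2 := r4_neg hN2 1 hg1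
  have e1 : List.replicate 1 ((0 : ℕ), Piece.pos) = [(0, .pos)] := rfl
  have e2 : List.replicate 1 ((0 : ℕ), Piece.neg) = [(0, .neg)] := rfl
  rw [e1] at h1
  rw [e2, h1] at h2
  have h3 : Pool.Agent.Helper9.Kashaev.RT N [((0 : ℕ), Piece.neg)]
      (Pool.Agent.Helper9.Kashaev.RT N [((0 : ℕ), Piece.pos)] g) = g := by
    subst hN
    exact qr2_RT l hl hg.sup
  simp only [pow_one] at h2
  rw [h3, hgi, Matrix.mulVec_smul, smul_smul, qr2_tht,
    one_smul, Matrix.mulVec_mulVec] at h2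
  rw [← h2, Matrix.one_mulVec]

end Pool.Agent.Helper77.ST
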