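import Pool.Agent.Helper77.ST.QLim
import Pool.Agent.Helper77.ST.QR2
import Pool.Agent.Helper77.FA.SPECB

/-!
# Module QCOEF: the coefficients of twists in an arithmetic progression
-/

namespace Pool.Agent.Helper77.QCo

open Finset
open Pool.Agent.Helper9.Kashaev Pool.Agent.Helper9.TG
open Pool.Agent.Helper9.FA
open Pool.Agent.Helper9 (TB.AM TB.mu TB.ex TB.ex_add TB.AM_LT TB.AM_comm)
open Pool.Agent.Helper77 (ST.AM_conj ST.qr2_tht ST.AM_pow_two_mul)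
open Pool.Agent.Helper9.FA.Spec77 (Yv LT_Yv mu_max Yv_eq mu_eq thx_eq dl wf_twists norm_dl)
open scoped Matrix

/-! ### integer powers of a matrix -/

lemma qc_pow_succ {N : ℕ} (S : (Matrix (Fin N) (Fin N) ℂ)ˣ) (m : ℤ) (v : Fin N → ℂ) :
    ((S ^ (m + 1) : (Matrix (Fin N) (Fin N) ℂ)ˣ) : Matrix (Fin N) (Fin N) ℂ) *ᵥ v =
      (S : Matrix (Fin N) (Fin N) ℂ) *ᵥ
        (((S ^ m : (Matrix (Fin N) (Fin N) ℂ)ˣ) : Matrix (Fin N) (Fin N) ℂ) *ᵥ v) := by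
  rw [Matrix.mulVec_mulVec, add_comm, zpow_add, zpow_one, Units.val_mul]

lemma qc_pow_pred {N : ℕ} (S : (Matrix (Fin N) (Fin N) ℂ)ˣ) (m : ℤ) (v : Fin N → ℂ) :
    ((S ^ (m - 1) : (Matrix (Fin N) (Fin N) ℂ)ˣ) : Matrix (Fin N) (Fin N) ℂ) *ᵥ v =
      ((S⁻¹ : (Matrix (Fin N) (Fin N) ℂ)ˣ) : Matrix (Fin N) (Fin N) ℂ) *ᵥ
        (((S ^ m : (Matrix (Fin N) (Fin N) ℂ)ˣ) : Matrix (Fin N) (Fin N) ℂ) *ᵥ v) := by
  rw [Matrix.mulVec_mulVec, sub_eq_neg_add, zpow_add, zpow_neg_one, Units.val_mul]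

lemma qc_inv {N : ℕ} (S : (Matrix (Fin N) (Fin N) ℂ)ˣ) (v : Fin N → ℂ) :
    ((S⁻¹ : (Matrix (Fin N) (Fin N) ℂ)ˣ) : Matrix (Fin N) (Fin N) ℂ) *ᵥ
      ((S : Matrix (Fin N) (Fin N) ℂ) *ᵥ v) = v := by
  rw [Matrix.mulVec_mulVec, ← Units.val_mul, inv_mul_cancel, Units.val_one, Matrix.one_mulVec]

lemma qc_eig {N : ℕ} (S : (Matrix (Fin N) (Fin N) ℂ)ˣ) {v : Fin N → ℂ} {c : ℂ} (hc : c ≠ 0)
    (h : (S : Matrix (Fin N) (Fin N) ℂ) *ᵥ v = c • v) (m : ℤ) :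
    ((S ^ m : (Matrix (Fin N) (Fin N) ℂ)ˣ) : Matrix (Fin N) (Fin N) ℂ) *ᵥ v = c ^ m • v := by
  have hinv : ((S⁻¹ : (Matrix (Fin N) (Fin N) ℂ)ˣ) : Matrix (Fin N) (Fin N) ℂ) *ᵥ v =
      c⁻¹ • v := by
    have h1 := qc_inv S v
    rw [h, Matrix.mulVec_smul] at h1
    rw [← h1, smul_smul, inv_mul_cancel₀ hc, one_smul, h1]
  induction m using Int.induction_on with
  | zero => simp
  | succ i ih =>
    rw [qc_pow_succ, ih, Matrix.mulVec_smul, h, smul_smul, zpow_add_one₀ hc]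
  | pred i ih =>
    rw [qc_pow_pred, ih, Matrix.mulVec_smul, hinv, smul_smul, zpow_sub_one₀ hc]

lemma qc_shear {N : ℕ} (S : (Matrix (Fin N) (Fin N) ℂ)ˣ) {v y : Fin N → ℂ}
    (hv : (S : Matrix (Fin N) (Fin N) ℂ) *ᵥ v = v + y)
    (hy : (S : Matrix (Fin N) (Fin N) ℂ) *ᵥ y = y) (m : ℤ) :
    ((S ^ m : (Matrix (Fin N) (Fin N) ℂ)ˣ) : Matrix (Fin N) (Fin N) ℂ) *ᵥ v =
      v + (m : ℂ) • y := by
  have hy' : ((S⁻¹ : (Matrix (Fin N) (Fin N) ℂ)ˣ) : Matrix (Fin N) (Fin N) ℂ) *ᵥ y = y := by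
    have h1 := qc_inv S y
    rwa [hy] at h1
  have hv' : ((S⁻¹ : (Matrix (Fin N) (Fin N) ℂ)ˣ) : Matrix (Fin N) (Fin N) ℂ) *ᵥ v = v - y := by
    have h1 := qc_inv S v
    rw [hv, Matrix.mulVec_add, hy'] at h1
    exact eq_sub_of_add_eq h1
  induction m using Int.induction_on with
  | zero => simp
  | succ i ih =>
    rw [qc_pow_succ, ih, Matrix.mulVec_add, Matrix.mulVec_smul, hv, hy]
    push_cast
    module
  | pred i ih =>
    rw [qc_pow_pred, ih, Matrix.mulVec_add, Matrix.mulVec_smul, hv', hy']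
    push_cast
    module

/-! ### the unit -/

/-- the matrix of a positive crossing as a unit -/
noncomputable def qcU (l : ℕ) (hl : 1 ≤ l) {N : ℕ} (hN : N = 2 * l + 1) :
    (Matrix (Fin N) (Fin N) ℂ)ˣ where
  val := tht N 0 0 • TB.AM N N
  inv := (starRingEnd ℂ) (tht N 0 0) • (TB.AM N N).map (starRingEnd ℂ)
  val_inv := by
    have h := ST.AM_conj l hl hN
    rw [Matrix.smul_mul, Matrix.mul_smul, smul_smul, mul_eq_one_comm.1 h, mul_comm,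
      ST.qr2_tht, one_smul]
  inv_val := by
    have h := ST.AM_conj l hl hN
    rw [Matrix.smul_mul, Matrix.mul_smul, smul_smul, h, ST.qr2_tht, one_smul]

lemma qc_crd (l : ℕ) (hl : 1 ≤ l) {N : ℕ} (hN : N = 2 * l + 1) (a : ℤ) {f : List ℕ → ℂ}
    (hf : H0 N f) : crd N (RT N (twists 0 a) f) =
      ((qcU l hl hN ^ a : (Matrix (Fin N) (Fin N) ℂ)ˣ) : Matrix (Fin N) (Fin N) ℂ) *ᵥ
        crd N f := by
  have hN2 : 2 ≤ N := by omega
  by_cases ha : 0 < a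
  · have : twists 0 a = List.replicate a.natAbs (0, .pos) := by
      unfold twists; rw [if_pos ha]
    rw [this, r4_pos hN2 _ hf]
    have e1 : a = (a.natAbs : ℤ) := by omega
    conv_rhs => rw [e1]
    rw [zpow_natCast, Units.val_pow_eq_pow_val]
    change _ = (tht N 0 0 • TB.AM N N) ^ a.natAbs *ᵥ _
    rw [smul_pow, Matrix.smul_mulVec]
  · have : twists 0 a = List.replicate a.natAbs (0, .neg) := by
      unfold twists; rw [if_neg ha]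
    rw [this, r4_neg hN2 _ hf]
    have e1 : a = -(a.natAbs : ℤ) := by omega
    conv_rhs => rw [e1]
    rw [zpow_neg, zpow_natCast, ← inv_pow, Units.val_pow_eq_pow_val]
    change _ = ((starRingEnd ℂ) (tht N 0 0) • (TB.AM N N).map (starRingEnd ℂ)) ^ a.natAbs *ᵥ _
    have e2 : (TB.AM N N ^ a.natAbs).map (starRingEnd ℂ) =
        ((TB.AM N N).map (starRingEnd ℂ)) ^ a.natAbs := by
      have := map_pow (RingHom.mapMatrix (starRingEnd ℂ) : Matrix (Fin N) (Fin N) ℂ →+* _)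
        (TB.AM N N) a.natAbs
      simpa using this
    rw [smul_pow, Matrix.smul_mulVec, e2]

lemma qc_ex_zpow (x : ℝ) (a : ℤ) : TB.ex x ^ a = TB.ex (a * x) := by
  unfold TB.ex
  rw [← Complex.exp_int_mul]
  congr 1
  push_cast
  ring

lemma qc_ex_two (n : ℤ) : TB.ex (2 * n) = 1 := by
  unfold TB.ex
  rw [show (Real.pi : ℂ) * Complex.I * ((2 * (n : ℝ) : ℝ) : ℂ) = n * (2 * Real.pi * Complex.I) by
    push_cast; ring]
  exact Complex.exp_int_mul_two_pi_mul_I n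

/-- the phase of a twist -/
noncomputable def qcph (N : ℕ) : ℂ := tht N 0 0 * dl N

lemma qc_tht {N : ℕ} (hN : N ≠ 0) : tht N 0 0 = TB.ex (((N : ℝ) - 1) ^ 2 / (2 * N)) := by
  have hN0 : (N : ℂ) ≠ 0 := by exact_mod_cast hN
  unfold tht TB.ex wt
  congr 1
  push_cast
  field_simp
  ring

lemma qcph_eq (l : ℕ) {N : ℕ} (hN : N = 2 * l + 1) : qcph N = TB.ex ((l : ℝ) ^ 2 / N) := by
  have hN0 : (N : ℝ) ≠ 0 := by
    have : N ≠ 0 := by omega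
    exact_mod_cast this
  have h1 := qc_tht (N := N) (by omega)
  unfold qcph dl
  rw [h1, ← TB.ex_add]
  congr 1
  have h2 : (N : ℝ) = 2 * l + 1 := by rw [hN]; push_cast; ring
  have h3 : (2 * (l : ℝ) + 1) ≠ 0 := by positivity
  rw [h2]
  field_simp
  ring

lemma qcph_ne {N : ℕ} : qcph N ≠ 0 := by
  unfold qcph dl tht TB.ex
  exact mul_ne_zero (Complex.exp_ne_zero _) (Complex.exp_ne_zero _)

lemma qc_mu {N : ℕ} (hN : 2 ≤ N) (a : ℤ) (k : ℕ) :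
    (tht N 0 0 * TB.mu N k) ^ a = qcph N ^ a * thx N a k := by
  rw [mu_eq hN, thx_eq]
  have : tht N 0 0 * (TB.ex (((k : ℝ) - (N - 1) / 2) ^ 2 / N) * dl N) =
      qcph N * TB.ex (((k : ℝ) - (N - 1) / 2) ^ 2 / N) := by unfold qcph; ring
  rw [this, mul_zpow, qc_ex_zpow]
  congr 2
  ring


lemma qc_Yv (l : ℕ) (hl : 1 ≤ l) {N : ℕ} (hN : N = 2 * l + 1) {k : ℕ} (hk : k < N) (a : ℤ) :
    ((qcU l hl hN ^ a : (Matrix (Fin N) (Fin N) ℂ)ˣ) : Matrix (Fin N) (Fin N) ℂ) *ᵥ Yv N k =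
      (qcph N ^ a * thx N a k) • Yv N k := by
  have hN2 : 2 ≤ N := by omega
  have hlt : (N : ℝ) < (N : ℝ) + 1 := by linarith
  have h1 : TB.AM N N *ᵥ Yv N k = TB.mu N k • Yv N k := by
    rw [LT_Yv hN2 hk (TB.AM_LT (N := N) (M := N) hlt) (TB.AM_comm hlt), mu_max hN2 hk]
  have h2 : ((qcU l hl hN : (Matrix (Fin N) (Fin N) ℂ)ˣ) : Matrix (Fin N) (Fin N) ℂ) *ᵥ Yv N k =
      (tht N 0 0 * TB.mu N k) • Yv N k := by
    change (tht N 0 0 • TB.AM N N) *ᵥ Yv N k = _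
    rw [Matrix.smul_mulVec, h1, smul_smul]
  have h3 : tht N 0 0 * TB.mu N k ≠ 0 := by
    have h := qc_mu hN2 1 k
    rw [zpow_one, zpow_one] at h
    rw [h]
    refine mul_ne_zero qcph_ne ?_
    unfold thx
    exact Complex.exp_ne_zero _
  rw [qc_eig _ h3 h2, qc_mu hN2]

/-- the direction -/
noncomputable def qcy (N : ℕ) : Fin N → ℂ :=
  (Complex.I / N) • ∑ k ∈ range N, ((betaw N k : ℝ) : ℂ) • Yv N k

lemma qc_period (l : ℕ) {N : ℕ} (hN : N = 2 * l + 1) (k : ℕ) :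
    qcph N ^ (2 * N : ℤ) * thx N (2 * N) k = 1 := by
  have hN0 : (N : ℝ) ≠ 0 := by
    have : N ≠ 0 := by omega
    exact_mod_cast this
  have h2 : (N : ℝ) = 2 * l + 1 := by rw [hN]; push_cast; ring
  rw [qcph_eq l hN, qc_ex_zpow, thx_eq, ← TB.ex_add]
  have h3 : (((2 * N : ℤ) : ℝ) * ((l : ℝ) ^ 2 / N) +
      ((2 * N : ℤ) : ℝ) * ((k : ℝ) - (N - 1) / 2) ^ 2 / N) =
      2 * ((((l : ℤ) ^ 2 + ((k : ℤ) - l) ^ 2 : ℤ)) : ℝ) := by
    have h4 : ((N : ℝ) - 1) / 2 = l := by rw [h2]; ring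
    rw [h4]
    push_cast
    field_simp
  rw [h3, qc_ex_two]

lemma qc_y (l : ℕ) (hl : 1 ≤ l) {N : ℕ} (hN : N = 2 * l + 1) (a : ℤ) :
    ((qcU l hl hN ^ a : (Matrix (Fin N) (Fin N) ℂ)ˣ) : Matrix (Fin N) (Fin N) ℂ) *ᵥ qcy N =
      (Complex.I / N * qcph N ^ a) • ∑ k ∈ range N, (thx N a k * ((betaw N k : ℝ) : ℂ)) •
        Yv N k := by
  unfold qcy
  rw [Matrix.mulVec_smul, Matrix.mulVec_sum, ← smul_smul]
  congr 1
  rw [smul_sum]
  refine sum_congr rfl fun k hk => ?_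
  rw [Matrix.mulVec_smul, qc_Yv l hl hN (mem_range.1 hk), smul_smul, smul_smul]
  congr 1
  ring

lemma qc_step (l : ℕ) (hl : 1 ≤ l) {N : ℕ} (hN : N = 2 * l + 1) (a m : ℤ) :
    ((qcU l hl hN ^ (a + 2 * N * m) : (Matrix (Fin N) (Fin N) ℂ)ˣ) :
        Matrix (Fin N) (Fin N) ℂ) *ᵥ e0 N =
      ((qcU l hl hN ^ a : (Matrix (Fin N) (Fin N) ℂ)ˣ) : Matrix (Fin N) (Fin N) ℂ) *ᵥ e0 N +
      (m : ℂ) • (((qcU l hl hN ^ a : (Matrix (Fin N) (Fin N) ℂ)ˣ) :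
        Matrix (Fin N) (Fin N) ℂ) *ᵥ qcy N) := by
  have hN2 : 2 ≤ N := by omega
  have hy : ((qcU l hl hN ^ (2 * N : ℤ) : (Matrix (Fin N) (Fin N) ℂ)ˣ) :
      Matrix (Fin N) (Fin N) ℂ) *ᵥ qcy N = qcy N := by
    rw [qc_y l hl hN]
    unfold qcy
    rw [← smul_smul]
    congr 1
    rw [smul_sum]
    refine sum_congr rfl fun k _ => ?_
    rw [smul_smul, ← mul_assoc, qc_period l hN, one_mul]
  have ht : tht N 0 0 ^ (2 * N) = 1 := by
    have hN0 : (N : ℝ) ≠ 0 := by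
      have : N ≠ 0 := by omega
      exact_mod_cast this
    have h2 : (N : ℝ) = 2 * l + 1 := by rw [hN]; push_cast; ring
    rw [qc_tht (N := N) (by omega), ← zpow_natCast, qc_ex_zpow]
    have h3 : (((2 * N : ℕ) : ℤ) : ℝ) * (((N : ℝ) - 1) ^ 2 / (2 * N)) =
        2 * (((2 * l ^ 2 : ℤ)) : ℝ) := by
      have h4 : (N : ℝ) - 1 = 2 * l := by rw [h2]; ring
      rw [h4]
      push_cast
      field_simp
    rw [h3, qc_ex_two]
  have he : ((qcU l hl hN ^ (2 * N : ℤ) : (Matrix (Fin N) (Fin N) ℂ)ˣ) :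
      Matrix (Fin N) (Fin N) ℂ) *ᵥ e0 N = e0 N + qcy N := by
    have e1 : (2 * N : ℤ) = ((2 * N : ℕ) : ℤ) := by push_cast; ring
    rw [e1, zpow_natCast, Units.val_pow_eq_pow_val]
    change (tht N 0 0 • TB.AM N N) ^ (2 * N) *ᵥ _ = _
    rw [smul_pow, ht, one_smul, ST.AM_pow_two_mul hN2]
    rfl
  have h1 := qc_shear (qcU l hl hN ^ (2 * N : ℤ)) he hy m
  rw [zpow_add, Units.val_mul, ← Matrix.mulVec_mulVec, zpow_mul, h1, Matrix.mulVec_add,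
    Matrix.mulVec_smul]

end Pool.Agent.Helper77.QCo

namespace Pool.Agent.Helper77.ST

open Finset
open Pool.Agent.Helper9.Kashaev Pool.Agent.Helper9.TG
open Pool.Agent.Helper9.FA
open scoped Matrix

/-- the coefficients of `a + 2 N m` twists are `w + m w'`, and `w'` is a multiple of `GGb N a` -/
theorem coef_progression (l : ℕ) (hl : 1 ≤ l) {N : ℕ} (hN : N = 2 * l + 1) (a : ℤ) :
    ∃ (w : ℕ → ℂ) (c : ℂ), c ≠ 0 ∧ ∀ m : ℤ, Coef N (twists 0 (a + 2 * N * m))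
      (fun j => w j + m * (c * GGb N a (N - 1 - j))) := by
  have hN2 : 2 ≤ N := by omega
  have hN0 : (N : ℂ) ≠ 0 := by
    have : N ≠ 0 := by omega
    exact_mod_cast this
  obtain ⟨κ, hκ, h1⟩ := crd_cup1 hN2
  have hf0 := H0_cup1 hN2
  set w0 : Fin N → ℂ := ((QCo.qcU l hl hN ^ a : (Matrix (Fin N) (Fin N) ℂ)ˣ) :
    Matrix (Fin N) (Fin N) ℂ) *ᵥ e0 N with hw0
  set c : ℂ := Complex.I / N * QCo.qcph N ^ a * ((-1) ^ (N - 1) * (N : ℂ) ^ 2) with hc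
  refine ⟨fun j => if h : j < N then w0 ⟨j, h⟩ else 0, c, ?_, fun m => ?_⟩
  · rw [hc]
    refine mul_ne_zero (mul_ne_zero (div_ne_zero Complex.I_ne_zero hN0)
      (zpow_ne_zero _ QCo.qcph_ne)) (mul_ne_zero (pow_ne_zero _ (by norm_num)) (pow_ne_zero _ hN0))
  have key : crd N (Pool.Agent.Helper9.Kashaev.RT N (twists 0 (a + 2 * N * m))
      (Pool.Agent.Helper9.Kashaev.slice N .cup 1 (Pool.Agent.Helper9.Kashaev.ket [0]))) =
      κ • (fun j : Fin N => w0 j + m * (c * GGb N a (N - 1 - j))) := by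
    rw [QCo.qc_crd l hl hN _ hf0, h1, Matrix.mulVec_smul, QCo.qc_step l hl hN]
    congr 1
    funext t
    rw [Pi.add_apply, Pi.smul_apply, QCo.qc_y l hl hN, Pi.smul_apply, Finset.sum_apply]
    simp only [Pi.smul_apply, smul_eq_mul]
    congr 2
    rw [hc]
    unfold GGb
    rw [mul_sum, mul_sum]
    apply sum_congr rfl
    intro k hk
    rw [Pool.Agent.Helper9.FA.Spec77.Yv_eq hN2 (mem_range.mp hk)]
    push_cast
    ring
  intro f hf x y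
  rw [r3_gen2 hN2 (Pool.Agent.Helper9.FA.Spec77.wf_twists _) h1 key hf x y, r3_L_apply,
    ← Fin.sum_univ_eq_sum_range (fun j => ((if h : j < N then w0 ⟨j, h⟩ else 0) +
      m * (c * GGb N a (N - 1 - j))) * nC N j f [x, y]) N]
  refine sum_congr rfl fun j _ => ?_
  rw [dif_pos j.2]

end Pool.Agent.Helper77.ST
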