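import Pool.Agent.Helper77.ST.QLow
import Pool.Agent.Helper9.FA.Limit

/-!
# Module QLIMIT: the value for the weights `GGb` is not zero for large `N`
-/

namespace Pool.Agent.Helper77.ST

open Finset Filter Topology
open Pool.Agent.Helper9.FA
open Pool.Agent.Helper9.Kashaev Pool.Agent.Helper9.TG
open Pool.Agent.Helper9 (TB.sf TB.sb TB.sf_pos)

/-- the weight of a vertex, with the extra weight -/
noncomputable def kpb (N : ℕ) (a : ℤ) : Ker ℂ := fun n uL uR uB uT =>
  GGb N a n * (Wt N (N - 1 - n) uL uR uB uT : ℝ)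

/-- the same without twists -/
noncomputable def kp0b (N : ℕ) : Ker ℝ := fun n uL uR uB uT =>
  G0b N n * Wt N (N - 1 - n) uL uR uB uT

private theorem ql_Wt_nonneg (N n a b c d : ℕ) : 0 ≤ Wt N (N - 1 - n) a b c d := by
  have hbn : ∀ a b, 0 ≤ bn N a b := by
    intro a b
    unfold bn
    split_ifs with hab
    · have hsf : ∀ m, 0 ≤ TB.sf N m := by
        intro m
        by_cases hm : (m : ℝ) < N
        · exact (TB.sf_pos hm).le
        · unfold TB.sf
          rcases Nat.eq_zero_or_pos N with rfl | hN0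
          · apply Finset.prod_nonneg
            intro j _
            simp [TB.sb]
          · apply le_of_eq
            symm
            apply Finset.prod_eq_zero (i := N - 1)
            · rw [mem_range]
              have : (N : ℝ) ≤ m := not_lt.mp hm
              have : N ≤ m := by exact_mod_cast this
              omega
            · rw [Nat.sub_add_cancel hN0]
              unfold TB.sb
              rw [div_self (by exact_mod_cast hN0.ne')]
              simp
      exact div_nonneg (hsf a) (mul_nonneg (hsf b) (hsf _))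
    · exact le_rfl
  unfold Wt
  exact mul_nonneg (mul_nonneg (mul_nonneg (hbn _ _) (hbn _ _)) (hbn _ _)) (hbn _ _)

private theorem kp0b_nonneg (N n a b c d : ℕ) : 0 ≤ kp0b N n a b c d :=
  mul_nonneg (G0b_nonneg N n) (ql_Wt_nonneg N n a b c d)

private theorem kp0b_le (N n a b c d : ℕ) : kp0b N n a b c d ≤ N * kp0 N n a b c d := by
  unfold kp0b kp0
  rw [← mul_assoc]
  exact mul_le_mul_of_nonneg_right (G0b_le N n) (ql_Wt_nonneg N n a b c d)

private theorem kp0b_ge {K : ℝ} (hK : ∀ N n : ℕ, 2 * n + 2 ≤ N →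
    G0 N n ≤ K * (N : ℝ) ^ 6 * G0b N n) {N n : ℕ} (h : 2 * n + 2 ≤ N) (a b c d : ℕ) :
    kp0 N n a b c d ≤ K * (N : ℝ) ^ 6 * kp0b N n a b c d := by
  unfold kp0b kp0
  rw [← mul_assoc]
  exact mul_le_mul_of_nonneg_right (hK N n h) (ql_Wt_nonneg N n a b c d)

/-- products of smaller weights -/
private theorem ql_prodK_le {V : ℕ} {N : ℕ} : ∀ (κs : List (Ker ℝ)) (ds : List (Cor ℕ)),
    κs.length = V → ds.length = V →
    (∀ κ ∈ κs, ∀ n a b c d, 0 ≤ κ n a b c d ∧ κ n a b c d ≤ N * kp0 N n a b c d) →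
    0 ≤ prodK κs ds ∧ prodK κs ds ≤ (N : ℝ) ^ V * prodK (List.replicate V (kp0 N)) ds := by
  induction V with
  | zero =>
    intro κs ds h1 h2 _
    rw [List.length_eq_zero_iff] at h1 h2
    subst h1 h2
    simp [prodK]
  | succ V ih =>
    intro κs ds h1 h2 h
    cases κs with
    | nil => simp at h1
    | cons κ κs =>
      cases ds with
      | nil => simp at h2
      | cons c ds =>
        obtain ⟨g1, g2⟩ := ih κs ds (by simpa using h1) (by simpa using h2)
          (fun κ hκ => h κ (List.mem_cons_of_mem _ hκ))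
        obtain ⟨k1, k2⟩ := h κ (by simp) c.n c.uL c.uR c.uB c.uT
        rw [List.replicate_succ]
        simp only [prodK]
        refine ⟨mul_nonneg k1 g1, (mul_le_mul k2 g2 g1 (k1.trans k2)).trans (le_of_eq ?_)⟩
        ring

private theorem ql_prodK_ge {K : ℝ} (hK : ∀ N n : ℕ, 2 * n + 2 ≤ N →
    G0 N n ≤ K * (N : ℝ) ^ 6 * G0b N n) {N : ℕ} : ∀ (ds : List (Cor ℕ)) (V : ℕ), ds.length = V →
    (∀ c ∈ ds, 2 * c.n + 2 ≤ N) →
    0 ≤ prodK (List.replicate V (kp0 N)) ds ∧ 0 ≤ prodK (List.replicate V (kp0b N)) ds ∧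
    prodK (List.replicate V (kp0 N)) ds ≤
      (K * (N : ℝ) ^ 6) ^ V * prodK (List.replicate V (kp0b N)) ds := by
  intro ds
  induction ds with
  | nil =>
    intro V hV _
    subst hV
    simp [prodK]
  | cons c ds ih =>
    intro V hV h
    obtain ⟨V, rfl⟩ : ∃ V', V = V' + 1 := ⟨V - 1, by simp at hV; omega⟩
    obtain ⟨h1, h2, h3⟩ := ih V (by simpa using hV) (fun c hc => h c (List.mem_cons_of_mem _ hc))
    have h4 := kp0b_ge hK (h c (by simp)) c.uL c.uR c.uB c.uT
    have h5 := kp0b_nonneg N c.n c.uL c.uR c.uB c.uT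
    have h6 := kp0_nonneg N c.n c.uL c.uR c.uB c.uT
    simp only [List.replicate_succ, prodK]
    refine ⟨mul_nonneg h6 h1, mul_nonneg h5 h2, (mul_le_mul h4 h3 h1 (h6.trans h4)).trans
      (le_of_eq ?_)⟩
    ring

private theorem ql_gap : ∀ cs : List (Cor ℝ), (∀ c ∈ cs, 2 * c.n < Real.pi) →
    ∃ κ : ℝ, 0 < κ ∧ ∀ c ∈ cs, 2 * c.n ≤ Real.pi - κ := by
  intro cs
  induction cs with
  | nil => intro _; exact ⟨1, one_pos, by simp⟩
  | cons c cs ih =>
    intro h
    obtain ⟨κ, h1, h2⟩ := ih (fun c hc => h c (List.mem_cons_of_mem _ hc))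
    have h3 := h c (by simp)
    refine ⟨min κ (Real.pi - 2 * c.n), lt_min h1 (by linarith), fun d hd => ?_⟩
    rcases List.mem_cons.1 hd with rfl | hd
    · have := min_le_right κ (Real.pi - 2 * d.n)
      linarith
    · have := min_le_left κ (Real.pi - 2 * c.n)
      have := h2 d hd
      linarith

/-- the lower bound without phases -/
private theorem ql_lower {α : Type} {P : List (Item α)} {cs cs0 : List (Cor ℝ)} (h : Ang P [0, 0] cs)
    (h0 : Ang P [0, 0] cs0) (hs : ∀ c ∈ cs0, c.Strict) {η : ℝ} (hη : 0 < η) :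
    ∀ᶠ N : ℕ in atTop,
      0 < TrP (N - 1) P (List.replicate (labels P).length (kp0b N)) (del0 : List ℕ → ℝ) [0, 0] ∧
      N / (2 * Real.pi) * (vol cs - η) ≤ Real.log
        (TrP (N - 1) P (List.replicate (labels P).length (kp0b N)) (del0 : List ℕ → ℝ) [0, 0]) := by
  obtain ⟨C, hC0, hC⟩ := kp0_asy
  obtain ⟨K6, hK60, hK6⟩ := G0b_lower
  have hpi := Real.pi_pos
  -- the mixing parameter
  obtain ⟨t, ht0, ht1, ht⟩ : ∃ t : ℝ, 0 < t ∧ t ≤ 1 ∧
      vol cs - η / 4 ≤ (1 - t) * vol cs + t * vol cs0 := by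
    set K := |vol cs - vol cs0| + 1 with hK
    have hK0 : 0 < K := by positivity
    refine ⟨min 1 (η / (4 * K)), by positivity, min_le_left _ _, ?_⟩
    have h1 : min 1 (η / (4 * K)) * K ≤ η / 4 := by
      calc min 1 (η / (4 * K)) * K ≤ η / (4 * K) * K :=
            mul_le_mul_of_nonneg_right (min_le_right _ _) hK0.le
        _ = η / 4 := by field_simp
    have h2 : vol cs - vol cs0 ≤ K := by
      have := le_abs_self (vol cs - vol cs0)
      linarith
    have h3 : 0 ≤ min 1 (η / (4 * K)) := by positivity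
    nlinarith [mul_le_mul_of_nonneg_left h2 h3]
  set ct := List.zipWith (Cor.mix t) cs cs0 with hct
  have hl : cs.length = cs0.length := by rw [Ang_length h, Ang_length h0]
  have hA : Ang P [0, 0] ct := by
    have := Ang_mix h h0 rfl ht0.le ht1
    simpa using this
  have hS : ∀ c ∈ ct, c.Strict := lim_mix_strict ht0 ht1 (Ang_ok h) hs
  have hv : vol cs - η / 4 ≤ vol ct :=
    ht.trans (lim_mix_vol ht0.le ht1 hl (Ang_ok h) (Ang_ok h0))
  obtain ⟨δ, hδ, hcl⟩ := lim_vol_cont_list ct (half_pos (half_pos hη))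
  obtain ⟨p0, hp0⟩ := Ang_round hA hS
  set V := (labels P).length with hV
  have e1 : ∀ᶠ N : ℕ in atTop, 4 / ((N : ℝ) - 1) ≤ δ := by
    have h1 : Tendsto (fun N : ℕ => 4 / ((N : ℝ) - 1)) atTop (𝓝 0) := by
      apply Tendsto.div_atTop tendsto_const_nhds
      exact tendsto_atTop_add_const_right _ _ tendsto_natCast_atTop_atTop
    exact (h1.eventually (gt_mem_nhds hδ)).mono (fun N h => h.le)
  have e2 := lim_log_N (V * (C + (|Real.log K6| + 6))) (show 0 < η / (4 * Real.pi) by positivity)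
  obtain ⟨κ, hκ0, hκ⟩ := ql_gap ct (fun c hc => (hS c hc).n2)
  have e3 : ∀ᶠ N : ℕ in atTop, 8 + Real.pi ≤ κ * ((N : ℝ) - 1) := by
    have h1 : Tendsto (fun N : ℕ => κ * ((N : ℝ) - 1)) atTop atTop :=
      Tendsto.const_mul_atTop hκ0
        (tendsto_atTop_add_const_right _ _ tendsto_natCast_atTop_atTop)
    exact h1.eventually_ge_atTop _
  filter_upwards [e1, e2, e3, eventually_ge_atTop (p0 + 2)] with N hN1 hN2 hN4 hN3
  have hN : 2 ≤ N := by omega
  obtain ⟨ds, hd, hf⟩ := hp0 (N - 1) (by omega)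
  have hcast : ((N - 1 : ℕ) : ℝ) = (N : ℝ) - 1 := by
    rw [Nat.cast_sub (by omega)]; norm_num
  have hsum := lim_AngN_sum hd
  have hlen := lim_AngN_length hd
  have hok : ∀ c ∈ ds, c.uL + c.uR + c.uB + c.uT = N - 1 ∧ c.uB ≤ c.n ∧ c.uT ≤ c.n ∧
      c.uL + c.n ≤ N - 1 ∧ c.uR + c.n ≤ N - 1 ∧ 2 * c.n ≤ N - 1 := by
    intro c hc
    refine ⟨hsum c hc, ?_⟩
    obtain ⟨i, hi, rfl⟩ := List.getElem_of_mem hc
    have := (List.forall₂_iff_get.mp hf).2 i (by rw [(List.forall₂_iff_get.mp hf).1]; exact hi) hi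
    exact this.1
  obtain ⟨g1, g2⟩ := lim_prodK_bound hN (hC N hN) ds V hlen hok
  have hN0 : (0 : ℝ) < N := by exact_mod_cast (by omega : 0 < N)
  have hN10 : (0 : ℝ) < (N : ℝ) - 1 := by
    have : (2 : ℝ) ≤ N := by exact_mod_cast hN
    linarith
  have hstr : ∀ c ∈ ds, 2 * c.n + 2 ≤ N := by
    intro c hc
    obtain ⟨i, hi, rfl⟩ := List.getElem_of_mem hc
    have hi' : i < ct.length := by rw [(List.forall₂_iff_get.mp hf).1]; exact hi
    have h1 := (List.forall₂_iff_get.mp hf).2 i hi' hi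
    have h2 := hκ ct[i] (List.getElem_mem hi')
    have h3 := h1.2.1
    rw [hcast] at h3
    change |ct[i].n - Real.pi * (ds[i].n : ℝ) / ((N - 1 : ℕ) : ℝ)| ≤ _ at h3
    rw [hcast, abs_le] at h3
    have h4 := h3.1
    have h5 : Real.pi * (ds[i].n : ℝ) / ((N : ℝ) - 1) ≤ ct[i].n + 4 / ((N : ℝ) - 1) := by
      linarith
    rw [div_le_iff₀ hN10] at h5
    have h6 : (ct[i].n + 4 / ((N : ℝ) - 1)) * ((N : ℝ) - 1) = ct[i].n * ((N : ℝ) - 1) + 4 := by
      field_simp
    rw [h6] at h5
    have h7 : 2 * ct[i].n * ((N : ℝ) - 1) ≤ (Real.pi - κ) * ((N : ℝ) - 1) :=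
      mul_le_mul_of_nonneg_right h2 hN10.le
    have h8 : Real.pi * (2 * (ds[i].n : ℝ) + 2) ≤ Real.pi * N := by nlinarith
    have h9 : 2 * (ds[i].n : ℝ) + 2 ≤ N := le_of_mul_le_mul_left h8 hpi
    exact_mod_cast h9
  obtain ⟨q1, q2, q3⟩ := ql_prodK_ge hK6 ds V hlen hstr
  have hKN : 0 < (K6 * (N : ℝ) ^ 6) ^ V := by positivity
  have q4 : 0 < prodK (List.replicate V (kp0b N)) ds := by
    by_contra hcon
    have : prodK (List.replicate V (kp0b N)) ds = 0 := le_antisymm (not_lt.1 hcon) q2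
    rw [this, mul_zero] at q3
    linarith
  have hnn : ∀ κ ∈ List.replicate V (kp0b N), ∀ n a b c d, 0 ≤ κ n a b c d := by
    intro κ hκ n a b c d
    rw [List.eq_of_mem_replicate hκ]
    exact kp0b_nonneg N n a b c d
  have hdel : ∀ d, (0 : ℝ) ≤ del0 d := by
    intro d; unfold del0; split_ifs <;> norm_num
  have hlow := TrP_lower (p := N - 1) (P := P) (κs := List.replicate V (kp0b N))
    (by simp [hV]) hnn hdel hd
  have hdel1 : (del0 [0, 0] : ℝ) = 1 := by simp [del0]
  rw [hdel1, mul_one] at hlow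
  refine ⟨lt_of_lt_of_le q4 hlow, ?_⟩
  have hlog0 := Real.log_le_log q4 hlow
  have hlog1 := Real.log_le_log g1 q3
  rw [Real.log_mul hKN.ne' q4.ne', Real.log_pow, Real.log_mul hK60.ne' (by positivity),
    Real.log_pow] at hlog1
  have hlogN : 0 ≤ Real.log N := Real.log_nonneg (by linarith)
  have hlog2 : (V : ℝ) * (Real.log K6 + (6 : ℕ) * Real.log N) ≤
      V * ((|Real.log K6| + 6) * (1 + Real.log N)) := by
    apply mul_le_mul_of_nonneg_left _ (Nat.cast_nonneg _)
    have a1 := le_abs_self (Real.log K6)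
    have a2 := mul_nonneg (abs_nonneg (Real.log K6)) hlogN
    push_cast
    nlinarith
  have hlog : Real.log (prodK (List.replicate V (kp0 N)) ds) -
      V * ((|Real.log K6| + 6) * (1 + Real.log N)) ≤
      Real.log (TrP (N - 1) P (List.replicate V (kp0b N)) (del0 : List ℕ → ℝ) [0, 0]) := by
    linarith
  refine le_trans ?_ hlog
  -- closeness
  have hclose : List.Forall₂ (lim_close δ) ct (ds.map (toR (N - 1))) := by
    rw [List.forall₂_map_right_iff]
    refine hf.imp (fun c d hcd => ?_)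
    obtain ⟨_, a1, a2, a3, a4, a5⟩ := hcd
    rw [hcast] at a1 a2 a3 a4 a5
    exact ⟨a1.trans hN1, a2.trans hN1, a3.trans hN1, a4.trans hN1, a5.trans hN1⟩
  have hvv := hcl _ hclose
  rw [abs_le] at hvv g2
  have h5 : vol cs - η / 2 ≤ vol (ds.map (toR (N - 1))) := by linarith [hvv.1, hvv.2]
  have h6 : (N : ℝ) / (2 * Real.pi) * (vol cs - η / 2) ≤
      N / (2 * Real.pi) * vol (ds.map (toR (N - 1))) := by
    apply mul_le_mul_of_nonneg_left h5 (by positivity)
  have h7 : (N : ℝ) / (2 * Real.pi) * (vol cs - η) =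
      N / (2 * Real.pi) * (vol cs - η / 2) - η / (4 * Real.pi) * N := by
    field_simp; ring
  rw [h7]
  have h8 : V * (C + (|Real.log K6| + 6)) * (1 + Real.log N) =
      V * (C * (1 + Real.log N)) + V * ((|Real.log K6| + 6) * (1 + Real.log N)) := by ring
  rw [h8] at hN2
  linarith [g2.1, g2.2]


private theorem ql_upper {α : Type} {P : List (Item α)} {N : ℕ} (hN : 2 ≤ N) {C : ℝ}
    (hC : ∀ c : Cor ℕ, c.uL + c.uR + c.uB + c.uT = N - 1 → c.uB ≤ c.n → c.uT ≤ c.n →
      c.uL + c.n ≤ N - 1 → c.uR + c.n ≤ N - 1 → 2 * c.n ≤ N - 1 →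
      0 < kp0 N c.n c.uL c.uR c.uB c.uT ∧
      |Real.log (kp0 N c.n c.uL c.uR c.uB c.uT) - N / (2 * Real.pi) * (toR (N - 1) c).vol| ≤
        C * (1 + Real.log N)) {W : ℝ} (κs : List (Ker ℝ)) (hl : (labels P).length = κs.length)
    (hκ : ∀ κ ∈ κs, ∀ n a b c d, 0 ≤ κ n a b c d ∧ κ n a b c d ≤ N * kp0 N n a b c d)
    (hW : ∀ ds : List (Cor ℕ), AngN (N - 1) P [0, 0] ds → prodK κs ds ≠ 0 →
      Ang P [0, 0] (ds.map (toR (N - 1))) → vol (ds.map (toR (N - 1))) ≤ W) :
    TrP (N - 1) P κs (del0 : List ℕ → ℝ) [0, 0] ≤ (N : ℝ) ^ (3 * P.length) *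
      ((N : ℝ) ^ κs.length *
        Real.exp (N / (2 * Real.pi) * W + κs.length * (C * (1 + Real.log N)))) := by
  have hN0 : (0 : ℝ) < N := by exact_mod_cast (by omega : 0 < N)
  have hpi := Real.pi_pos
  set V := κs.length with hV
  have h1 : TrP (N - 1) P (κs.map Ker.toC) (del0 : List ℕ → ℂ) [0, 0] =
      ((TrP (N - 1) P κs (del0 : List ℕ → ℝ) [0, 0] : ℝ) : ℂ) := by
    rw [← TrP_ofReal]
    congr 1
    funext d
    unfold del0
    split_ifs <;> simp
  have h2 := TrP_upper (p := N - 1) (P := P) (κs := κs.map Ker.toC) (by simpa using hl)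
    (g := del0) (B := (N : ℝ) ^ V *
      Real.exp (N / (2 * Real.pi) * W + V * (C * (1 + Real.log N))))
    (by positivity) (by
      intro d ds hd
      by_cases hd0 : d = [0, 0]
      · subst hd0
        have e1 : ‖(del0 [0, 0] : ℂ)‖ = 1 := by simp [del0]
        rw [e1, mul_one, prodK_toC, Complex.norm_real, Real.norm_eq_abs]
        have hlen : ds.length = V := by rw [lim_AngN_length hd, hl]
        obtain ⟨g1, g2⟩ := ql_prodK_le κs ds rfl hlen hκ
        rw [abs_of_nonneg g1]
        by_cases hz : prodK κs ds = 0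
        · rw [hz]; positivity
        have hsum := lim_AngN_sum hd
        have hok : ∀ c ∈ ds, c.uL + c.uR + c.uB + c.uT = N - 1 ∧ c.uB ≤ c.n ∧ c.uT ≤ c.n ∧
            c.uL + c.n ≤ N - 1 ∧ c.uR + c.n ≤ N - 1 ∧ 2 * c.n ≤ N - 1 := by
          intro c hc
          refine ⟨hsum c hc, ?_⟩
          by_contra hcon
          have hk := kp0_zero hN hcon (uL := c.uL) (uR := c.uR) (uB := c.uB) (uT := c.uT)
          obtain ⟨i, hi, rfl⟩ := List.getElem_of_mem hc
          have hiκ : i < κs.length := by omega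
          have h3 := lim_prodK_ne κs ds hz i hiκ hi
          obtain ⟨k1, k2⟩ := hκ (κs[i]) (List.getElem_mem hiκ) ds[i].n ds[i].uL ds[i].uR ds[i].uB
            ds[i].uT
          rw [hk, mul_zero] at k2
          exact h3 (le_antisymm k2 k1)
        have hA := AngN_toR (by omega) hd (fun c hc => (hok c hc).2)
        have hA' : Ang P [0, 0] (ds.map (toR (N - 1))) := by simpa using hA
        have hw := hW ds hd hz hA'
        obtain ⟨b1, b2⟩ := lim_prodK_bound hN hC ds V hlen hok
        refine g2.trans (mul_le_mul_of_nonneg_left ?_ (by positivity))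
        rw [← Real.exp_log b1]
        apply Real.exp_le_exp.mpr
        rw [abs_le] at b2
        have h6 : (N : ℝ) / (2 * Real.pi) * vol (ds.map (toR (N - 1))) ≤ N / (2 * Real.pi) * W :=
          mul_le_mul_of_nonneg_left hw (by positivity)
        linarith [b2.2]
      · have e1 : ‖(del0 d : ℂ)‖ = 0 := by simp [del0, hd0]
        rw [e1, mul_zero]
        positivity)
  rw [h1, Complex.norm_real, Real.norm_eq_abs] at h2
  have h3 : ((N - 1 : ℕ) : ℝ) + 1 = N := by
    rw [Nat.cast_sub (by omega)]; push_cast; ring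
  rw [h3] at h2
  exact (le_abs_self _).trans h2

/-- the window of a vertex -/
private theorem ql_near {a : ℤ} {r : ℝ → ℂ} (hr1 : ContinuousOn r (Set.Ioo 0 (Real.pi / 2)))
    (hr3 : ∀ α β : ℝ, 0 < α → β < Real.pi / 2 → ∀ ε : ℝ, 0 < ε → ∃ N0 : ℕ, ∀ N : ℕ, N0 ≤ N →
      ∀ n : ℕ, α ≤ Real.pi * n / (N - 1) → Real.pi * n / (N - 1) ≤ β →
      ‖GGb N a n - r (Real.pi * n / (N - 1)) * (G0b N n : ℝ)‖ ≤ ε * G0b N n) {τ : ℝ} (h0 : 0 < τ)
    (h1 : τ < Real.pi / 2) {ε : ℝ} (hε : 0 < ε) : ∃ δ : ℝ, 0 < δ ∧ ∀ᶠ N : ℕ in atTop, ∀ n : ℕ,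
      |Real.pi * n / ((N : ℝ) - 1) - τ| ≤ δ → ‖GGb N a n - r τ * (G0b N n : ℝ)‖ ≤ ε * G0b N n := by
  have hc : ContinuousAt r τ := hr1.continuousAt (Ioo_mem_nhds h0 h1)
  obtain ⟨δ1, hδ1, h2⟩ := Metric.continuousAt_iff.mp hc (ε / 2) (half_pos hε)
  set δ := min (δ1 / 2) (min (τ / 2) ((Real.pi / 2 - τ) / 2)) with hδ
  have hδ0 : 0 < δ := by
    refine lt_min (by positivity) (lt_min (by positivity) ?_)
    linarith
  have d1 : δ ≤ δ1 / 2 := min_le_left _ _
  have d2 : δ ≤ τ / 2 := (min_le_right _ _).trans (min_le_left _ _)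
  have d3 : δ ≤ (Real.pi / 2 - τ) / 2 := (min_le_right _ _).trans (min_le_right _ _)
  obtain ⟨N0, hN0⟩ := hr3 (τ - δ) (τ + δ) (by linarith) (by linarith) (ε / 2) (half_pos hε)
  refine ⟨δ, hδ0, ?_⟩
  filter_upwards [eventually_ge_atTop N0] with N hN n hn
  rw [abs_le] at hn
  have h3 := hN0 N hN n (by linarith [hn.1]) (by linarith [hn.2])
  have h4 : ‖r (Real.pi * n / ((N : ℝ) - 1)) - r τ‖ ≤ ε / 2 := by
    have h5 := h2 (x := Real.pi * n / ((N : ℝ) - 1)) (by
      rw [Real.dist_eq, abs_lt]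
      constructor <;> linarith [hn.1, hn.2])
    rw [dist_eq_norm] at h5
    exact h5.le
  have hG : 0 ≤ G0b N n := by
    have := GGb_le N 0 n
    exact (norm_nonneg _).trans this
  calc ‖GGb N a n - r τ * (G0b N n : ℝ)‖
      = ‖(GGb N a n - r (Real.pi * n / ((N : ℝ) - 1)) * (G0b N n : ℝ)) +
        (r (Real.pi * n / ((N : ℝ) - 1)) - r τ) * (G0b N n : ℝ)‖ := by ring_nf
    _ ≤ ‖GGb N a n - r (Real.pi * n / ((N : ℝ) - 1)) * (G0b N n : ℝ)‖ +
        ‖(r (Real.pi * n / ((N : ℝ) - 1)) - r τ) * (G0b N n : ℝ)‖ := norm_add_le _ _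
    _ ≤ ε / 2 * G0b N n + ε / 2 * G0b N n := by
        apply add_le_add h3
        rw [norm_mul, Complex.norm_real, Real.norm_eq_abs, abs_of_nonneg hG]
        exact mul_le_mul_of_nonneg_right h4 hG
    _ = ε * G0b N n := by ring

/-- the main statement, with a lower bound -/
theorem falb_ne {P : List (Item ℤ)} {cs0 : List (Cor ℝ)} (h0 : Ang P [0, 0] cs0)
    (hs : ∀ c ∈ cs0, c.Strict) : ∀ᶠ N : ℕ in atTop,
      TrP (N - 1) P ((labels P).map fun a => kpb N a) del0 [0, 0] ≠ 0 := by
  obtain ⟨cs, h, hmax⟩ := exists_max h0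
  obtain ⟨C, hC0, hC⟩ := kp0_asy
  have hpi := Real.pi_pos
  set V := (labels P).length with hV
  have hlen : cs.length = V := Ang_length h
  have hint := max_inter h hmax h0 hs
  choose r hr1 hr2 hr3 using GGb_ratio
  -- the limits of the ratios
  set rs : List ℂ := List.ofFn (fun i : Fin V =>
    r ((labels P)[i.1]'(by have := i.2; omega)) (cs[i.1]'(by have := i.2; omega)).n) with hrs
  have hrs_len : rs.length = V := by simp [hrs]
  have hrs_get : ∀ i (hi : i < V), rs[i]'(by omega) =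
      r ((labels P)[i]'(by omega)) (cs[i]'(by omega)).n := by
    intro i hi
    simp [hrs]
  have hn : ∀ i (hi : i < V), (cs[i]'(by omega)).n ∈ Set.Ioo 0 (Real.pi / 2) := by
    intro i hi
    obtain ⟨a1, a2⟩ := hint (cs[i]'(by omega)) (List.getElem_mem _)
    exact ⟨a1, by linarith⟩
  have hrs_ne : ∀ x ∈ rs, x ≠ 0 ∧ ‖x‖ ≤ 1 := by
    intro x hx
    obtain ⟨i, hi, rfl⟩ := List.getElem_of_mem hx
    rw [hrs_get i (by omega)]
    exact hr2 _ _ (hn i (by omega))
  set R := ‖rs.prod‖ with hR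
  have hR0 : 0 < R := by
    rw [hR, norm_pos_iff]
    exact List.prod_ne_zero (fun hx => (hrs_ne 0 hx).1 rfl)
  have hR1 : R ≤ 1 := by
    have : ∀ l : List ℂ, (∀ x ∈ l, ‖x‖ ≤ 1) → ‖l.prod‖ ≤ 1 := by
      intro l
      induction l with
      | nil => simp
      | cons x l ih =>
        intro hl
        rw [List.prod_cons, norm_mul]
        exact mul_le_one₀ (hl x (by simp)) (norm_nonneg _)
          (ih (fun y hy => hl y (List.mem_cons_of_mem _ hy)))
    exact this rs (fun x hx => (hrs_ne x hx).2)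
  set ε := R / (4 * (V + 1)) with hε
  have hε0 : 0 < ε := by positivity
  have hεV : ε * V ≤ R / 4 := by
    rw [hε, div_mul_eq_mul_div, div_le_div_iff₀ (by positivity) (by norm_num)]
    nlinarith
  -- the windows
  have hwin : ∀ i : Fin V, ∃ δ : ℝ, 0 < δ ∧ ∀ᶠ N : ℕ in atTop, ∀ n : ℕ,
      |Real.pi * n / ((N : ℝ) - 1) - (cs[i.1]'(by have := i.2; omega)).n| ≤ δ →
      ‖GGb N ((labels P)[i.1]'(by have := i.2; omega)) n -
        r ((labels P)[i.1]'(by have := i.2; omega)) (cs[i.1]'(by have := i.2; omega)).n *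
          (G0b N n : ℝ)‖ ≤ ε * G0b N n := fun i =>
    ql_near (hr1 _) (hr3 _) (hn i.1 i.2).1 (hn i.1 i.2).2 hε0
  choose δ hδ0 hδ using hwin
  set near : ℕ → List (ℕ → Bool) := fun N => List.ofFn (fun (i : Fin V) (n : ℕ) =>
    decide (|Real.pi * n / ((N : ℝ) - 1) - (cs[i.1]'(by have := i.2; omega)).n| ≤ δ i)) with hnear
  set J : ℕ → ℝ := fun N =>
    TrP (N - 1) P (List.replicate V (kp0b N)) (del0 : List ℕ → ℝ) [0, 0] with hJ
  set T : ℕ → ℂ := fun N =>
    TrP (N - 1) P ((labels P).map fun a => kpb N a) del0 [0, 0] with hT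
  set far : ℕ → ℕ → ℝ := fun N i => TrP (N - 1) P ((List.replicate V (kp0b N)).set i
    (fun n a b c d => if (near N).getD i (fun _ => true) n then 0 else
      (List.replicate V (kp0b N)).getD i (fun _ _ _ _ _ => 0) n a b c d))
    (del0 : List ℕ → ℝ) [0, 0] with hfar
  have hdel : ∀ d, (0 : ℝ) ≤ del0 d := by
    intro d; unfold del0; split_ifs <;> norm_num
  have hdelC : ∀ d, ((del0 d : ℝ) : ℂ) = del0 d := by
    intro d; unfold del0; split_ifs <;> simp
  -- the comparison
  have hcomp : ∀ᶠ N : ℕ in atTop, ‖T N - rs.prod * (J N : ℂ)‖ ≤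
      ε * V * J N + 2 * ∑ i ∈ range V, far N i := by
    have hall : ∀ᶠ N : ℕ in atTop, ∀ i : Fin V, ∀ n : ℕ,
      |Real.pi * n / ((N : ℝ) - 1) - (cs[i.1]'(by have := i.2; omega)).n| ≤ δ i →
      ‖GGb N ((labels P)[i.1]'(by have := i.2; omega)) n -
        r ((labels P)[i.1]'(by have := i.2; omega)) (cs[i.1]'(by have := i.2; omega)).n *
          (G0b N n : ℝ)‖ ≤ ε * G0b N n := Filter.eventually_all.mpr hδ
    filter_upwards [hall] with N hN
    have hWt : ∀ n a b c d, 0 ≤ Wt N (N - 1 - n) a b c d := ql_Wt_nonneg N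
    have hcm := TrP_compare (p := N - 1) (P := P) (κs := (labels P).map fun a => kpb N a)
      (κ0s := List.replicate V (kp0b N)) (rs := rs) (near := near N) hε0.le
      (del0 : List ℕ → ℝ) hdel (by simp) (by simp [hV]) (by simp [hrs_len, hV])
      (by simp [hnear, hV]) (fun x hx => (hrs_ne x hx).2)
      (by
        intro κ hκ n a b c d
        rw [List.eq_of_mem_replicate hκ]
        exact kp0b_nonneg N n a b c d)
      (by
        intro i hi n a b c d
        simp only [List.getElem_map, List.getElem_replicate]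
        unfold kpb kp0b
        rw [norm_mul, Complex.norm_real, Real.norm_eq_abs, abs_of_nonneg (hWt _ _ _ _ _)]
        exact mul_le_mul_of_nonneg_right (GGb_le N _ n) (hWt _ _ _ _ _))
      (by
        intro i hi n a b c d hni
        have hiV : i < V := by simpa [hV] using hi
        have h3 : |Real.pi * n / ((N : ℝ) - 1) - (cs[i]'(by omega)).n| ≤ δ ⟨i, hiV⟩ := by
          have : (near N)[i]'(by simp [hnear, hiV]) = fun n : ℕ => decide
              (|Real.pi * n / ((N : ℝ) - 1) - (cs[i]'(by omega)).n| ≤ δ ⟨i, hiV⟩) := by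
            simp [hnear]
          rw [this] at hni
          simpa using hni
        have h4 := hN ⟨i, hiV⟩ n h3
        rw [hrs_get i hiV]
        simp only [List.getElem_map, List.getElem_replicate]
        unfold kpb kp0b
        have e : GGb N (labels P)[i] n * ((Wt N (N - 1 - n) a b c d : ℝ) : ℂ) -
            r ((labels P)[i]) (cs[i]'(by omega)).n *
              ((G0b N n * Wt N (N - 1 - n) a b c d : ℝ) : ℂ) =
            (GGb N (labels P)[i] n - r ((labels P)[i]) (cs[i]'(by omega)).n * (G0b N n : ℝ)) *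
              ((Wt N (N - 1 - n) a b c d : ℝ) : ℂ) := by
          push_cast; ring
        rw [e, norm_mul, Complex.norm_real, Real.norm_eq_abs, abs_of_nonneg (hWt _ _ _ _ _)]
        calc _ ≤ ε * G0b N n * Wt N (N - 1 - n) a b c d :=
              mul_le_mul_of_nonneg_right h4 (hWt _ _ _ _ _)
          _ = _ := by ring)
    have e1 : (fun d => (((del0 d : ℝ)) : ℂ)) = (del0 : List ℕ → ℂ) := funext hdelC
    rw [e1, List.length_map] at hcm
    exact hcm
  -- the far parts
  have hfar_small : ∀ i (hi : i < V), ∀ᶠ N : ℕ in atTop, far N i ≤ R / (8 * (V + 1)) * J N := by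
    intro i hi
    set η := δ ⟨i, hi⟩ ^ 2 / 4 with hη
    have hη0 : 0 < η := by have := hδ0 ⟨i, hi⟩; positivity
    have h1 := ql_lower h h0 hs hη0
    have h2 := lim_small (K := V * C) (L := (3 * P.length + V : ℕ)) (V0 := vol cs) hη0
      (show 0 < R / (8 * (V + 1)) by positivity) (by positivity)
    filter_upwards [h1, h2, eventually_ge_atTop 2] with N hN1 hN2 hN
    obtain ⟨hJ0, hJl⟩ := hN1
    have hN0 : (0 : ℝ) < N := by exact_mod_cast (by omega : 0 < N)
    have hcast : ((N - 1 : ℕ) : ℝ) = (N : ℝ) - 1 := by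
      rw [Nat.cast_sub (by omega)]; norm_num
    have hneari : (near N).getD i (fun _ => true) = fun n : ℕ => decide
        (|Real.pi * n / ((N : ℝ) - 1) - (cs[i]'(by omega)).n| ≤ δ ⟨i, hi⟩) := by
      rw [List.getD_eq_getElem _ _ (by simp [hnear, hi])]
      simp [hnear]
    have hfi : far N i ≤ (N : ℝ) ^ (3 * P.length + V) *
        Real.exp (N / (2 * Real.pi) * (vol cs - 2 * η) + V * (C * (1 + Real.log N))) := by
      have hu := ql_upper hN (P := P) (hC N hN) (W := vol cs - 2 * η)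
        ((List.replicate V (kp0b N)).set i
          (fun n a b c d => if (near N).getD i (fun _ => true) n then 0 else
          (List.replicate V (kp0b N)).getD i (fun _ _ _ _ _ => 0) n a b c d))
        (by simp [hV])
        (by
          intro κ hκ n a b c d
          rcases List.mem_or_eq_of_mem_set hκ with hκ | rfl
          · rw [List.eq_of_mem_replicate hκ]
            exact ⟨kp0b_nonneg N n a b c d, kp0b_le N n a b c d⟩
          · have hg : (List.replicate V (kp0b N)).getD i (fun _ _ _ _ _ => 0) = kp0b N := by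
              rw [List.getD_eq_getElem _ _ (by rw [List.length_replicate]; exact hi),
                List.getElem_replicate]
            simp only [hg]
            split_ifs
            · exact ⟨le_rfl, mul_nonneg (Nat.cast_nonneg _) (kp0_nonneg N n a b c d)⟩
            · exact ⟨kp0b_nonneg N n a b c d, kp0b_le N n a b c d⟩)
        (by
          intro ds hd hz hA
          have hdl : ds.length = V := lim_AngN_length hd
          have h3 := lim_prodK_ne _ ds hz i (by simp [hi]) (by omega)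
          rw [List.getElem_set_self] at h3
          have h4 : ¬ ((near N).getD i (fun _ => true) (ds[i]'(by omega)).n = true) := by
            intro hcon
            apply h3
            rw [if_pos hcon]
          rw [hneari] at h4
          have h5 : δ ⟨i, hi⟩ ≤ |(cs[i]'(by omega)).n -
              ((ds.map (toR (N - 1)))[i]'(by rw [List.length_map]; omega)).n| := by
            rw [List.getElem_map]
            have : ¬ (|Real.pi * (ds[i]'(by omega)).n / ((N : ℝ) - 1) - (cs[i]'(by omega)).n| ≤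
                δ ⟨i, hi⟩) := by simpa using h4
            rw [abs_sub_comm]
            show _ ≤ |Real.pi * (ds[i]'(by omega)).n / ((N - 1 : ℕ) : ℝ) - _|
            rw [hcast]
            exact (not_le.mp this).le
          have h6 := lim_zip_ge (hδ0 ⟨i, hi⟩).le cs (ds.map (toR (N - 1))) i (by omega)
            (by rw [List.length_map]; omega) h5
          have h7 := max_gap h hmax hA
          have h8 : 2 * η = δ ⟨i, hi⟩ ^ 2 / 2 := by rw [hη]; ring
          linarith)
      rw [List.length_set, List.length_replicate, ← mul_assoc, ← pow_add] at hu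
      exact hu
    have e2 : (V : ℝ) * (C * (1 + Real.log N)) = V * C * (1 + Real.log N) := by ring
    rw [e2] at hfi
    rw [Real.rpow_natCast] at hN2
    refine (hfi.trans hN2).trans ?_
    apply mul_le_mul_of_nonneg_left _ (by positivity)
    have hJ0' : 0 < J N := hJ0
    rw [← Real.exp_log hJ0']
    exact Real.exp_le_exp.mpr hJl
  have hsum_small : ∀ᶠ N : ℕ in atTop, 2 * ∑ i ∈ range V, far N i ≤ R / 4 * J N := by
    have hall : ∀ᶠ N : ℕ in atTop, ∀ i : Fin V, far N i.1 ≤ R / (8 * (V + 1)) * J N :=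
      Filter.eventually_all.mpr (fun i => hfar_small i.1 i.2)
    have h1 := ql_lower h h0 hs one_pos
    filter_upwards [hall, h1] with N hN hN1
    have hJ0 : 0 < J N := hN1.1
    calc 2 * ∑ i ∈ range V, far N i ≤ 2 * ∑ i ∈ range V, R / (8 * (V + 1)) * J N := by
          apply mul_le_mul_of_nonneg_left _ (by norm_num)
          exact sum_le_sum (fun i hi => hN ⟨i, mem_range.mp hi⟩)
      _ = R / 4 * J N * (V / (V + 1)) := by
          rw [sum_const, card_range, nsmul_eq_mul]
          field_simp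
          ring
      _ ≤ R / 4 * J N * 1 := by
          apply mul_le_mul_of_nonneg_left _ (by positivity)
          rw [div_le_one (by positivity)]
          linarith
      _ = _ := mul_one _
  -- two sided bounds
  have hmain : ∀ᶠ N : ℕ in atTop, 0 < J N ∧ R / 2 * J N ≤ ‖T N‖ ∧ ‖T N‖ ≤ 2 * J N := by
    have h1 := ql_lower h h0 hs one_pos
    filter_upwards [hcomp, hsum_small, h1] with N h2 h3 h4
    have hJ0 : 0 < J N := h4.1
    have h5 : ‖T N - rs.prod * (J N : ℂ)‖ ≤ R / 2 * J N := by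
      refine h2.trans ?_
      have := mul_le_mul_of_nonneg_right hεV hJ0.le
      linarith
    have h6 : ‖rs.prod * (J N : ℂ)‖ = R * J N := by
      rw [norm_mul, Complex.norm_real, Real.norm_eq_abs, abs_of_pos hJ0]
    have h7 : ‖T N‖ ≤ ‖rs.prod * (J N : ℂ)‖ + ‖T N - rs.prod * (J N : ℂ)‖ := by
      have := norm_add_le (rs.prod * (J N : ℂ)) (T N - rs.prod * (J N : ℂ))
      simpa using this
    have h8 : ‖rs.prod * (J N : ℂ)‖ ≤ ‖T N‖ + ‖T N - rs.prod * (J N : ℂ)‖ := by
      have := norm_sub_le (T N) (T N - rs.prod * (J N : ℂ))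
      simpa using this
    rw [h6] at h7 h8
    refine ⟨hJ0, by linarith, ?_⟩
    have := mul_le_mul_of_nonneg_right hR1 hJ0.le
    linarith
  filter_upwards [hmain] with N hN
  obtain ⟨a1, a2, _⟩ := hN
  have : 0 < ‖T N‖ := lt_of_lt_of_le (by positivity) a2
  exact norm_pos_iff.mp this

end Pool.Agent.Helper77.ST
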