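import Mathlib
import Pool.Agent.Helper9.FA.ZDefs

/-!
# Module QMULTI: the transfer operator is a polynomial if the weights are affine
-/

namespace Pool.Agent.Helper77.ST

open Finset Polynomial
open Pool.Agent.Helper9.FA

section Aux

variable {R S : Type} [CommSemiring R] [CommSemiring S]

private theorem lft_map (φ : R → S) (hφ : φ 0 = 0)
    (op1 : (List ℕ → R) → List ℕ → R) (op2 : (List ℕ → S) → List ℕ → S)
    (h : ∀ g w, φ (op1 g w) = op2 (fun u => φ (g u)) w) (k : ℕ) (g : List ℕ → R) (w : List ℕ) :
    φ (lft op1 k g w) = lft op2 k (fun u => φ (g u)) w := by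
  induction k generalizing g w with
  | zero => simp only [lft]; exact h g w
  | succ k ih =>
    cases w with
    | nil => simp only [lft]; exact hφ
    | cons x w => simp only [lft]; exact ih _ _

private theorem cupT_map (φ : R →+ S) (p : ℕ) (g : List ℕ → R) (w : List ℕ) :
    φ (cupT p g w) = cupT p (fun u => φ (g u)) w := by
  rcases w with _ | ⟨a, _ | ⟨e, _ | ⟨b, r⟩⟩⟩
  · simp [cupT]
  · simp [cupT]
  · simp [cupT]
  · simp only [cupT]
    split_ifs
    · rfl
    · exact map_zero φ

private theorem capT_map (φ : R →+ S) (p : ℕ) (g : List ℕ → R) (w : List ℕ) :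
    φ (capT p g w) = capT p (fun u => φ (g u)) w := by
  rcases w with _ | ⟨a, r⟩
  · simp [capT]
  · simp only [capT, map_sum]

private theorem boxT_map (φ : R →+* S) (p : ℕ) (κ : Ker R) (g : List ℕ → R) (w : List ℕ) :
    φ (boxT p κ g w) = boxT p (fun n a b c d => φ (κ n a b c d)) (fun u => φ (g u)) w := by
  rcases w with _ | ⟨a, _ | ⟨e, _ | ⟨b, r⟩⟩⟩
  · simp [boxT]
  · simp [boxT]
  · simp [boxT]
  · simp only [boxT]
    split_ifs
    · simp only [map_sum, map_mul]
    · exact map_zero φ

private theorem TrP_map {α : Type} (φ : R →+* S) (p : ℕ) (P : List (Item α))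
    (κs : List (Ker R)) (g : List ℕ → R) (w : List ℕ) :
    φ (TrP p P κs g w) = TrP p P (κs.map fun κ n a b c d => φ (κ n a b c d))
      (fun u => φ (g u)) w := by
  induction P generalizing κs g with
  | nil => simp [TrP]
  | cons i P ih =>
    cases i with
    | cup k =>
      simp only [TrP]
      rw [ih]
      congr 1
      funext u
      exact lft_map φ (map_zero φ) _ _ (fun g w => cupT_map (φ : R →+ S) p g w) k g u
    | cap k =>
      simp only [TrP]
      rw [ih]
      congr 1
      funext u
      exact lft_map φ (map_zero φ) _ _ (fun g w => capT_map (φ : R →+ S) p g w) k g u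
    | box k a =>
      cases κs with
      | nil => simp [TrP]
      | cons κ κs =>
        simp only [TrP, List.map_cons]
        rw [ih]
        congr 1
        funext u
        exact lft_map φ (map_zero φ) _ _ (fun g w => boxT_map φ p κ g w) k g u

/-- values of degree at most `d` -/
private def Dg (d : ℕ) (g : List ℕ → ℂ[X]) : Prop := ∀ u, (g u).natDegree ≤ d

private theorem Dg.lft {d e : ℕ} {op : (List ℕ → ℂ[X]) → List ℕ → ℂ[X]}
    (h : ∀ g, Dg d g → Dg e (op g)) (k : ℕ) {g : List ℕ → ℂ[X]} (hg : Dg d g) :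
    Dg e (lft op k g) := by
  intro u
  induction k generalizing g u with
  | zero => simp only [Pool.Agent.Helper9.FA.lft]; exact h g hg u
  | succ k ih =>
    cases u with
    | nil => simp [Pool.Agent.Helper9.FA.lft]
    | cons x w =>
      simp only [Pool.Agent.Helper9.FA.lft]
      exact ih (fun u => hg (x :: u)) w

private theorem Dg.cup {d : ℕ} (p : ℕ) (g : List ℕ → ℂ[X]) (hg : Dg d g) : Dg d (cupT p g) := by
  intro w
  rcases w with _ | ⟨a, _ | ⟨e, _ | ⟨b, r⟩⟩⟩
  · simp [cupT]
  · simp [cupT]
  · simp [cupT]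
  · simp only [cupT]
    split_ifs
    · exact hg _
    · simp

private theorem Dg.cap {d : ℕ} (p : ℕ) (g : List ℕ → ℂ[X]) (hg : Dg d g) : Dg d (capT p g) := by
  intro w
  rcases w with _ | ⟨a, r⟩
  · simp [capT]
  · simp only [capT]
    exact natDegree_sum_le_of_forall_le _ _ fun i _ => hg _

private theorem Dg.box {d : ℕ} (p : ℕ) (κ : Ker ℂ × Ker ℂ) (g : List ℕ → ℂ[X]) (hg : Dg d g) :
    Dg (d + 1) (boxT p (fun n a b c e => C (κ.1 n a b c e) + X * C (κ.2 n a b c e)) g) := by
  intro w
  rcases w with _ | ⟨a, _ | ⟨e, _ | ⟨b, r⟩⟩⟩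
  · simp [boxT]
  · simp [boxT]
  · simp [boxT]
  · simp only [boxT]
    split_ifs
    · refine natDegree_sum_le_of_forall_le _ _ fun n _ => ?_
      refine natDegree_sum_le_of_forall_le _ _ fun uL _ => ?_
      refine natDegree_sum_le_of_forall_le _ _ fun uR _ => ?_
      refine natDegree_mul_le.trans ?_
      rw [add_comm]
      refine add_le_add (hg _) ?_
      refine (natDegree_add_le _ _).trans (max_le (by simp) ?_)
      refine natDegree_mul_le.trans ?_
      simp
    · simp

private theorem lft_map' {R' : Type} [CommSemiring R'] (d : ℕ) (φ : ℂ[X] → R') (ψ : ℂ[X] → R')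
    (hφ : φ 0 = 0)
    (op1 : (List ℕ → ℂ[X]) → List ℕ → ℂ[X]) (op2 : (List ℕ → R') → List ℕ → R')
    (h : ∀ g w, Dg d g → φ (op1 g w) = op2 (fun u => ψ (g u)) w) (k : ℕ) (g : List ℕ → ℂ[X])
    (hg : Dg d g) (w : List ℕ) :
    φ (lft op1 k g w) = lft op2 k (fun u => ψ (g u)) w := by
  induction k generalizing g w with
  | zero => simp only [lft]; exact h g w hg
  | succ k ih =>
    cases w with
    | nil => simp only [lft]; exact hφ
    | cons x w => simp only [lft]; exact ih _ (fun u => hg (x :: u)) _

private theorem coeff_box (d p : ℕ) (κ : Ker ℂ × Ker ℂ) (g : List ℕ → ℂ[X]) (w : List ℕ)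
    (hg : Dg d g) :
    (boxT p (fun n a b c e => C (κ.1 n a b c e) + X * C (κ.2 n a b c e)) g w).coeff (d + 1)
      = boxT p κ.2 (fun u => (g u).coeff d) w := by
  rcases w with _ | ⟨a, _ | ⟨e, _ | ⟨b, r⟩⟩⟩
  · simp [boxT]
  · simp [boxT]
  · simp [boxT]
  · simp only [boxT]
    split_ifs
    · simp only [finsetSum_coeff]
      refine sum_congr rfl fun n _ => sum_congr rfl fun uL _ => sum_congr rfl fun uR _ => ?_
      rw [add_mul, coeff_add, coeff_C_mul, mul_assoc, coeff_X_mul, coeff_C_mul,
        coeff_eq_zero_of_natDegree_lt (Nat.lt_succ_of_le (hg _)), mul_zero, zero_add]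
    · simp

private theorem TrP_deg {α : Type} (p : ℕ) (P : List (Item α)) (κs : List (Ker ℂ × Ker ℂ))
    (hl : (labels P).length = κs.length) (d : ℕ) (g : List ℕ → ℂ[X]) (hg : Dg d g) (w : List ℕ) :
    (TrP p P (κs.map fun κ n a b c e => C (κ.1 n a b c e) + X * C (κ.2 n a b c e)) g w).natDegree
      ≤ d + (labels P).length ∧
    (TrP p P (κs.map fun κ n a b c e => C (κ.1 n a b c e) + X * C (κ.2 n a b c e)) g w).coeff
      (d + (labels P).length) = TrP p P (κs.map Prod.snd) (fun u => (g u).coeff d) w := by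
  induction P generalizing κs g d with
  | nil => 
    simp only [TrP, labels, List.length_nil, add_zero]
    exact ⟨hg w, trivial⟩
  | cons i P ih =>
    cases i with
    | cup k =>
      simp only [TrP, labels] at hl ⊢
      have h1 := ih κs hl d (lft (cupT p) k g) (Dg.lft (fun g hg => Dg.cup p g hg) k hg)
      refine ⟨h1.1, h1.2.trans ?_⟩
      congr 1
      funext u
      exact lft_map (fun q : ℂ[X] => q.coeff d) (by simp) _ _
        (fun g w => cupT_map (lcoeff ℂ d).toAddMonoidHom p g w) k g u
    | cap k =>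
      simp only [TrP, labels] at hl ⊢
      have h1 := ih κs hl d (lft (capT p) k g) (Dg.lft (fun g hg => Dg.cap p g hg) k hg)
      refine ⟨h1.1, h1.2.trans ?_⟩
      congr 1
      funext u
      exact lft_map (fun q : ℂ[X] => q.coeff d) (by simp) _ _
        (fun g w => capT_map (lcoeff ℂ d).toAddMonoidHom p g w) k g u
    | box k a =>
      cases κs with
      | nil => simp [labels] at hl
      | cons κ κs =>
        simp only [TrP, labels, List.map_cons, List.length_cons] at hl ⊢
        have h1 := ih κs (by omega) (d + 1) _ (Dg.lft (fun g hg => Dg.box p κ g hg) k hg)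
        have h2 : d + 1 + (labels P).length = d + ((labels P).length + 1) := by ring
        rw [h2] at h1
        refine ⟨h1.1, h1.2.trans ?_⟩
        congr 1
        funext u
        exact lft_map' d (fun q : ℂ[X] => q.coeff (d + 1)) (fun q : ℂ[X] => q.coeff d)
          (by simp) _ _ (fun g w hg => coeff_box d p κ g w hg) k g hg u

end Aux

/-- If the weights are `κ + s κ'` then the value is a polynomial in `s` whose coefficient of degree
the number of vertices is the value for the weights `κ'`. -/
theorem TrP_poly {α : Type} (p : ℕ) (P : List (Item α)) (κs : List (Ker ℂ × Ker ℂ))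
    (hl : (labels P).length = κs.length) (g : List ℕ → ℂ) (w : List ℕ) :
    ∃ q : ℂ[X], q.natDegree ≤ (labels P).length ∧
      q.coeff (labels P).length = TrP p P (κs.map Prod.snd) g w ∧
      ∀ s : ℂ, TrP p P (κs.map fun κ n a b c d => κ.1 n a b c d + s * κ.2 n a b c d) g w =
        q.eval s := by
  have h1 := TrP_deg p P κs hl 0 (fun u => C (g u)) (fun u => by simp) w
  rw [zero_add] at h1
  refine ⟨_, h1.1, h1.2.trans (by simp only [coeff_C_zero]), fun s => ?_⟩
  have h2 := TrP_map (evalRingHom s) p P
    (κs.map fun κ n a b c e => C (κ.1 n a b c e) + X * C (κ.2 n a b c e)) (fun u => C (g u)) w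
  rw [coe_evalRingHom] at h2
  rw [h2, List.map_map]
  congr 2
  · funext κ n a b c d
    simp only [Function.comp_apply, eval_add, eval_mul, eval_C, eval_X]
  · funext u; simp

/-- a polynomial with constant absolute value on the integers is constant -/
theorem poly_const {q : ℂ[X]} {c : ℝ} (h : ∀ s : ℤ, ‖q.eval (s : ℂ)‖ ^ 2 = c) :
    q.natDegree = 0 := by
  by_cases hq : q = 0
  · simp [hq]
  have h1 : q * q.map (starRingEnd ℂ) - C (c : ℂ) = 0 := by
    refine eq_zero_of_infinite_isRoot _ ?_
    refine Set.Infinite.mono ?_ (Set.infinite_range_of_injective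
      (f := fun s : ℤ => (s : ℂ)) Int.cast_injective)
    rintro _ ⟨s, rfl⟩
    simp only [Set.mem_ofPred_eq, IsRoot.def, eval_sub, eval_mul, eval_C]
    have h2 : (q.map (starRingEnd ℂ)).eval (s : ℂ) = starRingEnd ℂ (q.eval (s : ℂ)) := by
      have h3 := eval_map_apply (starRingEnd ℂ) (p := q) (s : ℂ)
      rw [map_intCast] at h3
      exact h3
    rw [h2, Complex.mul_conj, Complex.normSq_eq_norm_sq, h s]
    simp
  have h2 : (q * q.map (starRingEnd ℂ)).natDegree = 0 := by
    rw [sub_eq_zero.1 h1]; simp
  rw [natDegree_mul hq ((Polynomial.map_ne_zero_iff (starRingEnd ℂ).injective).2 hq)] at h2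
  omega

end Pool.Agent.Helper77.ST
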