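import Pool.Agent.Helper77.ST.GDefs

/-!
# Module SMU: the eigenvalues are different
-/

namespace Pool.Agent.Helper77.ST

open Finset
open Pool.Agent.Helper9.Kashaev (Piece Diagram)
open Pool.Agent.Helper9.FA (Item twists)

private lemma mu_inj_aux (P : Par ℝ) (hv0 : 0 < P.v) (hv1 : P.v ≠ 1) : ∀ i < P.N,
    ∀ j < P.N, mu P i = mu P j → i = j := by
  intro i hi j hj h
  have h1 : |mu P i| = |mu P j| := by rw [h]
  have habs : ∀ k : ℕ, |mu P k| =
      P.v ^ (2 * (P.l : ℤ) ^ 2 + (k : ℤ) ^ 2 - k - 4 * P.l * k) := by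
    intro k
    unfold mu
    rw [abs_mul, abs_pow, abs_neg, abs_one, one_pow, one_mul, abs_of_pos (zpow_pos hv0 _)]
  rw [habs, habs] at h1
  have h2 := zpow_right_injective₀ hv0 hv1 h1
  have hi' : (i : ℤ) ≤ 2 * P.l := by unfold Par.N at hi; omega
  have hj' : (j : ℤ) ≤ 2 * P.l := by unfold Par.N at hj; omega
  have h3 : ((i : ℤ) - j) * ((i : ℤ) + j - 1 - 4 * P.l) = 0 := by
    linear_combination h2
  rcases mul_eq_zero.mp h3 with h4 | h4
  · omega
  · omega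

theorem mu_inj (l : ℕ) (hl : 1 ≤ l) (v : ℝ) (hv : 1 < v) : ∀ i < (gtPar l hl v hv).N,
    ∀ j < (gtPar l hl v hv).N, mu (gtPar l hl v hv) i = mu (gtPar l hl v hv) j → i = j :=
  mu_inj_aux _ (zero_lt_one.trans hv) hv.ne'

theorem mu_inj_inv (l : ℕ) (hl : 1 ≤ l) (v : ℝ) (hv : 1 < v) : ∀ i < (gtPar l hl v hv).inv.N,
    ∀ j < (gtPar l hl v hv).inv.N,
      mu (gtPar l hl v hv).inv i = mu (gtPar l hl v hv).inv j → i = j :=
  mu_inj_aux _ (inv_pos.mpr (zero_lt_one.trans hv)) (inv_ne_one.mpr hv.ne')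

end Pool.Agent.Helper77.ST
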