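import Pool.Agent.Helper77.ST.STw
import Pool.Agent.Helper77.ST.SMu
import Pool.Agent.Helper77.ST.RNat
import Pool.Agent.Helper77.ST.RAgree
import Pool.Agent.Helper77.ST.RLau

/-!
# Module SSET: the bad labels are solutions of exponential equations
-/

namespace Pool.Agent.Helper77.ST

open Finset
open Pool.Agent.Helper9.Kashaev (Piece Diagram)
open Pool.Agent.Helper9.FA (Item twists)

open Pool.Agent.Helper9.FA (wfP labels)

/-- the parity sign -/
private noncomputable def ssS (a : ℤ) : ℝ := if a % 2 = 0 then 1 else -1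

private theorem ssS_eq (a : ℤ) : (-1 : ℝ) ^ a = ssS a := by
  unfold ssS
  split
  · rename_i h
    exact (Int.even_iff.mpr h).neg_one_zpow
  · rename_i h
    exact (Int.odd_iff.mpr (by omega)).neg_one_zpow

private theorem ssS_congr {a b : ℤ} (h : a % 2 = b % 2) : ssS a = ssS b := by
  unfold ssS
  rw [h]

/-- the exponents -/
private def ssE (l j : ℕ) : ℤ := 2 * (l : ℤ) ^ 2 + (j : ℤ) ^ 2 - j - 4 * l * j

private theorem ss_mu (l : ℕ) (hl : 1 ≤ l) (v : ℝ) (hv : 1 < v) (j : ℕ) (a : ℤ) :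
    mu (gtPar l hl v hv) j ^ a = ssS a ^ j * v ^ (ssE l j * a) := by
  unfold mu ssE
  change ((-1 : ℝ) ^ j * v ^ (2 * (l : ℤ) ^ 2 + (j : ℤ) ^ 2 - j - 4 * l * j)) ^ a = _
  rw [mul_zpow, ← zpow_mul, ← ssS_eq, ← zpow_natCast, ← zpow_mul, ← zpow_natCast, ← zpow_mul,
    mul_comm (j : ℤ) a]

private theorem ss_mu_inv (l : ℕ) (hl : 1 ≤ l) (v : ℝ) (hv : 1 < v) (j : ℕ) (a : ℤ) :
    mu (gtPar l hl v hv).inv j ^ a = ssS a ^ j * v ^ (-(ssE l j) * a) := by
  unfold mu ssE
  change ((-1 : ℝ) ^ j * (v⁻¹) ^ (2 * (l : ℤ) ^ 2 + (j : ℤ) ^ 2 - j - 4 * l * j)) ^ a = _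
  rw [mul_zpow, ← zpow_mul, ← ssS_eq, ← zpow_natCast, ← zpow_mul, ← zpow_natCast, ← zpow_mul,
    mul_comm (j : ℤ) a, inv_zpow, ← zpow_neg]
  congr 2
  ring

private theorem ss_prod_zpow {m : ℕ} {v : ℝ} (hv : v ≠ 0) (f : Fin m → ℤ) :
    ∏ i, v ^ f i = v ^ (∑ i, f i) := by
  classical
  have : ∀ s : Finset (Fin m), ∏ i ∈ s, v ^ f i = v ^ (∑ i ∈ s, f i) := by
    intro s
    induction s using Finset.induction_on with
    | empty => simp
    | insert a s ha IH => rw [prod_insert ha, sum_insert ha, IH, zpow_add₀ hv]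
  exact this univ

theorem expSet_Gv (l : ℕ) (hl : 1 ≤ l) (S : List (Item Unit)) (hS : wfP 1 S 1) (K : Diagram) :
    ExpSet {a : Fin (labels S).length → ℤ | Gv l tU (tw S (List.ofFn a)) = Gv l tU K} := by
  set m := (labels S).length with hm
  have hsup : ∀ P : Par ℝ, Sup P 1 (ket [0]) := fun P =>
    Sup_ket (w := [0]) (by intro x hx; have := P.two_le; simp at hx; omega)
  have h1 : ∀ (v : ℝ) (hv : 1 < v), ∃ c : (Fin m → Fin (2 * l + 1)) → ℝ, ∀ a : Fin m → ℤ,
      RT (gtPar l hl v hv) (tw S (List.ofFn a)) (ket [0]) [0] =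
        ∑ x, c x * ∏ i, mu (gtPar l hl v hv) (x i) ^ a i := fun v hv =>
    tw_exp (mu_inj l hl v hv) S hS (hsup _) [0]
  have h2 : ∀ (v : ℝ) (hv : 1 < v), ∃ c : (Fin m → Fin (2 * l + 1)) → ℝ, ∀ a : Fin m → ℤ,
      RT (gtPar l hl v hv).inv (tw S (List.ofFn a)) (ket [0]) [0] =
        ∑ x, c x * ∏ i, mu (gtPar l hl v hv).inv (x i) ^ a i := fun v hv =>
    tw_exp (mu_inj_inv l hl v hv) S hS (hsup _) [0]
  choose c hc using h1
  choose c' hc' using h2
  have heval : ∀ (v : ℝ) (hv : 1 < v) (hv0 : v ≠ 0) (D : Diagram),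
      LaurentPolynomial.eval₂ (algebraMap ℚ ℝ) (Units.mk0 v hv0) (Gv l tU D) =
        RT (gtPar l hl v hv) D (ket [0]) [0] * RT (gtPar l hl v hv).inv D (ket [0]) [0] := by
    intro v hv hv0 D
    rw [map_Gv]
    have hu : Units.map (LaurentPolynomial.eval₂ (algebraMap ℚ ℝ) (Units.mk0 v hv0) :
        LaurentPolynomial ℚ →* ℝ) tU = (gtPar l hl v hv).u := by
      ext
      change LaurentPolynomial.eval₂ (algebraMap ℚ ℝ) (Units.mk0 v hv0) (LaurentPolynomial.T 1) = v
      rw [LaurentPolynomial.eval₂_T]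
      simp
    rw [hu]
    exact Gv_eq (gtPar l hl v hv) D
  refine ⟨Option ((Fin m → Fin (2 * l + 1)) × (Fin m → Fin (2 * l + 1))), inferInstance,
    fun o i => match o with
      | none => 0
      | some (x, y) => ssE l (x i) - ssE l (y i),
    fun v a o => if hv : 1 < v then (match o with
      | none => -(RT (gtPar l hl v hv) K (ket [0]) [0] * RT (gtPar l hl v hv).inv K (ket [0]) [0])
      | some (x, y) => c v hv x * c' v hv y * ∏ i, ssS (a i) ^ ((x i : ℕ) + (y i : ℕ))) else 0,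
    ?_, ?_⟩
  · intro v a b hab
    funext o
    dsimp only
    split
    · cases o with
      | none => rfl
      | some p =>
        obtain ⟨x, y⟩ := p
        simp only
        congr 1
        exact prod_congr rfl fun i _ => by rw [ssS_congr (hab i)]
    · rfl
  · intro a
    have hkey : ∀ (v : ℝ) (hv : 1 < v),
        RT (gtPar l hl v hv) (tw S (List.ofFn a)) (ket [0]) [0] *
          RT (gtPar l hl v hv).inv (tw S (List.ofFn a)) (ket [0]) [0] =
        ∑ x, ∑ y, (c v hv x * c' v hv y * ∏ i, ssS (a i) ^ ((x i : ℕ) + (y i : ℕ))) *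
          v ^ (∑ i, (ssE l (x i) - ssE l (y i)) * a i) := by
      intro v hv
      have hv0 : v ≠ 0 := by positivity
      rw [hc v hv a, hc' v hv a, Finset.sum_mul_sum]
      refine sum_congr rfl fun x _ => sum_congr rfl fun y _ => ?_
      have e : (∏ i, mu (gtPar l hl v hv) (x i) ^ a i) *
          ∏ i, mu (gtPar l hl v hv).inv (y i) ^ a i =
          (∏ i, ssS (a i) ^ ((x i : ℕ) + (y i : ℕ))) *
          v ^ (∑ i, (ssE l (x i) - ssE l (y i)) * a i) := by
        rw [← ss_prod_zpow hv0, ← prod_mul_distrib, ← prod_mul_distrib]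
        refine prod_congr rfl fun i _ => ?_
        rw [ss_mu, ss_mu_inv, pow_add]
        have : (ssE l (x i) - ssE l (y i)) * a i = ssE l (x i) * a i + -(ssE l (y i)) * a i := by
          ring
        rw [this, zpow_add₀ hv0]
        ring
      calc _ = c v hv x * c' v hv y * ((∏ i, mu (gtPar l hl v hv) (x i) ^ a i) *
          ∏ i, mu (gtPar l hl v hv).inv (y i) ^ a i) := by ring
        _ = _ := by rw [e]; ring
    rw [Set.mem_ofPred_eq]
    constructor
    · intro h v hv
      have hv0 : v ≠ 0 := by positivity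
      have e1 := congrArg (LaurentPolynomial.eval₂ (algebraMap ℚ ℝ) (Units.mk0 v hv0)) h
      rw [heval v hv hv0, heval v hv hv0, hkey v hv] at e1
      rw [Fintype.sum_option, Fintype.sum_prod_type]
      simp only [dif_pos hv, zero_mul, sum_const_zero, zpow_zero, mul_one]
      rw [e1]
      ring
    · intro h
      apply laurent_real
      intro v hv0 hv
      rw [heval v hv hv0, heval v hv hv0, hkey v hv]
      have e1 := h v hv
      rw [Fintype.sum_option, Fintype.sum_prod_type] at e1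
      simp only [dif_pos hv, zero_mul, sum_const_zero, zpow_zero, mul_one] at e1
      linarith

end Pool.Agent.Helper77.ST
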