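import Pool.Agent.Helper77.ST.RVass
import Pool.Agent.Helper77.ST.SSet
import Pool.Agent.Helper77.ST.LLine
import Pool.Agent.Helper77.ST.QCoef
import Pool.Agent.Helper77.ST.QMulti
import Pool.Agent.Helper77.ST.QLimit
import Pool.Agent.Helper77.ST.PDiff
import Pool.Agent.Helper77.ST.PPoly
import Pool.Agent.Helper77.ST.PNoe
import Pool.Agent.Helper64.FA.ASSEM
import Pool.Agent.Helper1.FA.Smul

/-!
# Assembly: all sufficiently twisted knots are detected
-/

namespace Pool.Agent.Helper77.ST

open Finset
open Pool.Agent.Helper9.Kashaev (Piece Diagram)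
open Pool.Agent.Helper9.FA

/-! ### patterns with labels -/

/-- the pattern with the labels of a list -/
def fillP {α β : Type} : List (Item α) → List β → List (Item β)
  | [], _ => []
  | .cup k :: S, a => .cup k :: fillP S a
  | .cap k :: S, a => .cap k :: fillP S a
  | .box k _ :: S, x :: a => .box k x :: fillP S a
  | .box _ _ :: S, [] => fillP S []

lemma labels_fillP {α β : Type} : ∀ (S : List (Item α)) (a : List β),
    a.length = (labels S).length → labels (fillP S a) = a := by
  intro S
  induction S with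
  | nil =>
    intro a h
    simp [labels] at h
    simp [fillP, labels, h]
  | cons i S ih =>
    intro a h
    cases i with
    | cup k => exact ih a h
    | cap k => exact ih a h
    | box k x =>
      cases a with
      | nil => simp [labels] at h
      | cons y a =>
        simp only [labels, List.length_cons, add_left_inj] at h
        simp only [fillP, labels, ih a h]

lemma wfP_fillP {α β : Type} : ∀ (S : List (Item α)) (a : List β) (n m : ℕ),
    a.length = (labels S).length → wfP n S m → wfP n (fillP S a) m := by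
  intro S
  induction S with
  | nil => intro a n m _ h; exact h
  | cons i S ih =>
    intro a n m h hw
    cases i with
    | cup k => exact ⟨hw.1, ih a _ _ h hw.2⟩
    | cap k => exact ⟨hw.1, ih a _ _ h hw.2⟩
    | box k x =>
      cases a with
      | nil => simp [labels] at h
      | cons y a =>
        simp only [labels, List.length_cons, add_left_inj] at h
        exact ⟨hw.1, ih a _ _ h hw.2⟩

lemma Ang_fillP {α β : Type} {S : List (Item α)} {d : List ℝ} {cs : List (Cor ℝ)}
    (h : Ang S d cs) : ∀ a : List β, a.length = (labels S).length → Ang (fillP S a) d cs := by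
  induction h with
  | nil => intro a _; exact Ang.nil
  | cup h ih => intro a ha; exact Ang.cup (ih a ha)
  | cap h h1 h2 h3 ih => intro a ha; exact Ang.cap (ih a ha) h1 h2 h3
  | box h hc ih =>
    intro a ha
    cases a with
    | nil => simp [labels] at ha
    | cons y a =>
      simp only [labels, List.length_cons, add_left_inj] at ha
      exact Ang.box (ih a ha) hc

lemma tw_fillP {β : Type} (f : β → ℤ) : ∀ (S : List (Item Unit)) (a : List β),
    a.length = (labels S).length →
    tw S (a.map f) = (fillP S a).flatMap (Item.diagram fun k x =>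
      Pool.Agent.Helper9.Kashaev.sh k (twists 0 (f x))) := by
  intro S
  induction S with
  | nil => intro a _; simp [tw, fillP]
  | cons i S ih =>
    intro a h
    cases i with
    | cup k =>
      simp only [tw, fillP, List.flatMap_cons, Item.diagram, List.singleton_append]
      rw [ih a h]
    | cap k =>
      simp only [tw, fillP, List.flatMap_cons, Item.diagram, List.singleton_append]
      rw [ih a h]
    | box k x =>
      cases a with
      | nil => simp [labels] at h
      | cons y a =>
        simp only [labels, List.length_cons, add_left_inj] at h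
        simp only [List.map_cons, tw, fillP, List.flatMap_cons, Item.diagram]
        rw [ih a h]
        congr 1
        simp [Pool.Agent.Helper9.Kashaev.sh, twists]

lemma TrP_fillP {α β γ : Type} (p : ℕ) : ∀ (S : List (Item α)) (a : List β) (b : List γ),
    a.length = (labels S).length → b.length = (labels S).length →
    ∀ (κs : List (Ker ℂ)) (g : List ℕ → ℂ) (w : List ℕ),
      TrP p (fillP S a) κs g w = TrP p (fillP S b) κs g w := by
  intro S
  induction S with
  | nil => intro a b _ _ κs g w; rfl
  | cons i S ih =>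
    intro a b ha hb κs g w
    cases i with
    | cup k => exact ih a b ha hb κs _ w
    | cap k => exact ih a b ha hb κs _ w
    | box k x =>
      cases a with
      | nil => simp [labels] at ha
      | cons y a =>
        cases b with
        | nil => simp [labels] at hb
        | cons z b =>
          simp only [labels, List.length_cons, add_left_inj] at ha hb
          cases κs with
          | nil => rfl
          | cons κ κs => exact ih a b ha hb κs _ w

lemma TrP_congr_le {α : Type} (p : ℕ) {F G : α → Ker ℂ}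
    (h : ∀ a, ∀ n ≤ p, ∀ b c d e, F a n b c d e = G a n b c d e) :
    ∀ (P : List (Item α)) (g : List ℕ → ℂ) (w : List ℕ),
      TrP p P ((labels P).map F) g w = TrP p P ((labels P).map G) g w := by
  intro P
  induction P with
  | nil => intro g w; rfl
  | cons i P ih =>
    intro g w
    cases i with
    | cup k => exact ih _ _
    | cap k => exact ih _ _
    | box k a =>
      show TrP p P ((labels P).map F) (lft (boxT p (F a)) k g) w =
        TrP p P ((labels P).map G) (lft (boxT p (G a)) k g) w
      have e : boxT p (F a) = boxT p (G a) := by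
        funext g w
        rcases w with _ | ⟨x, _ | ⟨t, _ | ⟨y, r⟩⟩⟩
        · rfl
        · rfl
        · rfl
        · simp only [boxT]
          split_ifs
          · refine Finset.sum_congr rfl fun n hn => Finset.sum_congr rfl fun uL _ =>
              Finset.sum_congr rfl fun uR _ => ?_
            rw [Finset.mem_range] at hn
            rw [h a n (by omega)]
          · rfl
      rw [e]
      exact ih _ _

lemma map_smul_zip {α : Type} (c : α → ℂ) (F : α → Ker ℂ) (l : List α) :
    l.map (fun a n x y z t => c a * F a n x y z t) =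
      List.zipWith (fun (x : ℂ) (κ : Ker ℂ) n a b c d => x * κ n a b c d) (l.map c) (l.map F) := by
  induction l with
  | nil => rfl
  | cons a l ih =>
    rw [List.map_cons, List.map_cons, List.map_cons, List.zipWith_cons_cons, ih]

lemma wf_twists0 (a : ℤ) : Pool.Agent.Helper9.Kashaev.wf 2 (twists 0 a) 2 := by
  unfold twists
  apply Pool.Agent.Helper9.Kashaev.h96_wf_replicate (by omega)
  split_ifs
  · exact Or.inl rfl
  · exact Or.inr rfl

/-! ### a line of labels with constant value -/

/-- if the value has constant absolute value on a line then the value for the weights `GGb`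
vanishes -/
lemma line_zero (S : List (Item Unit)) (hS : wfP 1 S 1) (h1 : 0 < (labels S).length)
    (l : ℕ) (hl : 1 ≤ l) (bw : List (ℤ × ℤ)) (hbw : bw.length = (labels S).length)
    (hw : ∀ x ∈ bw, x.2 ≠ 0) (c : ℝ)
    (hc : ∀ s : ℤ, ‖Pool.Agent.Helper9.Kashaev.RT (2 * l + 1)
      (tw S (bw.map fun x => x.1 + 2 * ((2 * l + 1 : ℕ) * s) * x.2))
        (Pool.Agent.Helper9.Kashaev.ket [0]) [0]‖ ^ 2 = c) :
    TrP (2 * l + 1 - 1) (fillP S (bw.map Prod.fst))
      ((labels (fillP S (bw.map Prod.fst))).map fun a => kpb (2 * l + 1) a) del0 [0, 0] = 0 := by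
  set N := 2 * l + 1 with hN
  have hN2 : 2 ≤ N := by omega
  choose W c0 hc0 hW using fun a : ℤ => coef_progression l hl hN a
  set P := fillP S bw with hP
  have hlab : labels P = bw := labels_fillP S bw hbw
  have hPw : wfP 1 P 1 := wfP_fillP S bw 1 1 hbw hS
  set K1 : ℤ × ℤ → Ker ℂ := fun x => kerW N (W x.1) with hK1
  set K2 : ℤ × ℤ → Ker ℂ := fun x => kerW N (fun j => x.2 * (c0 x.1 * GGb N x.1 (N - 1 - j)))
    with hK2
  obtain ⟨q, hq1, hq2, hq3⟩ := TrP_poly (N - 1) P ((labels P).map fun x => (K1 x, K2 x))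
    (by simp) del0 [0, 0]
  have hval : ∀ s : ℤ, Pool.Agent.Helper9.Kashaev.RT N
      (tw S (bw.map fun x => x.1 + 2 * ((N : ℕ) * s) * x.2))
        (Pool.Agent.Helper9.Kashaev.ket [0]) [0] = q.eval (s : ℂ) := by
    intro s
    rw [← hq3, tw_fillP _ S bw hbw]
    have h := (state_sum hN2 (fun x : ℤ × ℤ => twists 0 (x.1 + 2 * ((N : ℕ) * s) * x.2))
      (fun x => wf_twists0 _)
      (fun x j => W x.1 j + ((s * x.2 : ℤ) : ℂ) * (c0 x.1 * GGb N x.1 (N - 1 - j)))
      (fun x => by
        have h2 := hW x.1 (s * x.2)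
        have e : x.1 + 2 * ((N : ℕ) * s) * x.2 = x.1 + 2 * (N : ℤ) * (s * x.2) := by ring
        rw [e]
        exact h2) P hPw).1
    rw [h, List.map_map]
    congr 1
    apply List.map_congr_left
    intro x _
    funext n uL uR uB uT
    simp only [Function.comp, hK1, hK2, kerW]
    push_cast
    ring
  have hdeg := poly_const (q := q) (c := c) (fun s => by rw [← hval s]; exact hc s)
  have hzero : q.coeff (labels P).length = 0 := by
    apply Polynomial.coeff_eq_zero_of_natDegree_lt
    rw [hdeg, hlab, hbw]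
    exact h1
  rw [hq2, List.map_map] at hzero
  have e1 : (Prod.snd ∘ fun x : ℤ × ℤ => (K1 x, K2 x)) = K2 := rfl
  rw [e1, TrP_congr_le (N - 1) (F := K2)
    (G := fun (x : ℤ × ℤ) n a b c d => (x.2 * c0 x.1 : ℂ) * kpb N x.1 n a b c d) (by
      intro x n hn a b c d
      simp only [hK2, kerW, kpb]
      rw [show N - 1 - (N - 1 - n) = n by omega]
      ring) P del0 [0, 0],
    map_smul_zip (fun x : ℤ × ℤ => (x.2 * c0 x.1 : ℂ)) (fun x => kpb N x.1),
    TrP_smul (N - 1) P _ (by simp) _ (by simp)] at hzero
  rcases mul_eq_zero.mp hzero with h | h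
  · exfalso
    rw [List.prod_eq_zero_iff, List.mem_map] at h
    obtain ⟨x, hx, hx0⟩ := h
    rw [hlab] at hx
    rcases mul_eq_zero.mp hx0 with h3 | h3
    · exact hw x hx (by exact_mod_cast h3)
    · exact hc0 _ h3
  · have hb : (bw.map Prod.fst).length = (labels S).length := by rw [List.length_map]; exact hbw
    rw [labels_fillP S _ hb]
    rw [hlab] at h
    have e2 : bw.map (fun x => kpb N x.1) = (bw.map Prod.fst).map (fun a => kpb N a) := by
      rw [List.map_map]; rfl
    rw [e2] at h
    rw [← h]
    exact TrP_fillP (N - 1) S _ _ hb hbw _ _ _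

/-! ### the theorem -/

theorem exists_level (S : List (Item Unit)) (cs : List (Cor ℝ)) (hA : Ang S [0, 0] cs)
    (hs : ∀ c ∈ cs, c.Strict) (hne : cs ≠ []) (K : Diagram) :
    ∃ C : ℕ, ∀ a : List ℤ, a.length = cs.length → (∀ x ∈ a, C ≤ x.natAbs) →
      ∃ l, 1 ≤ l ∧ Gv l tU (tw S a) ≠ Gv l tU K := by
  by_contra hcon
  push Not at hcon
  have hlen : cs.length = (labels S).length := Ang_length hA
  have hpos : 0 < (labels S).length := by
    rw [← hlen]; exact List.length_pos_iff.mpr hne
  have hwf : wfP 1 S 1 := by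
    have := (Ang_wf hA).2
    simpa using this
  set n := (labels S).length with hn
  have hB : ∀ C : ℕ, ∃ a : Fin n → ℤ,
      (∀ k : {l : ℕ // 1 ≤ l}, a ∈ {a : Fin n → ℤ |
        Gv k.1 tU (tw S (List.ofFn a)) = Gv k.1 tU K}) ∧ ∀ i, C ≤ (a i).natAbs := by
    intro C
    obtain ⟨a, ha1, ha2, ha3⟩ := hcon C
    have hal : a.length = n := by rw [ha1, hlen]
    refine ⟨fun i => a.get (Fin.cast hal.symm i), ?_, ?_⟩
    · intro k
      have e : List.ofFn (fun i => a.get (Fin.cast hal.symm i)) = a := by
        apply List.ext_get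
        · simp [hal]
        · intro i h1 h2
          simp
      show Gv k.1 tU (tw S (List.ofFn _)) = _
      rw [e]
      exact ha3 k.1 k.2
    · intro i
      exact ha2 _ (List.get_mem _ _)
  obtain ⟨b, w, hw, hline⟩ := exists_line
    (fun k : {l : ℕ // 1 ≤ l} => {a : Fin n → ℤ | Gv k.1 tU (tw S (List.ofFn a)) = Gv k.1 tU K})
    (fun k => expSet_Gv k.1 k.2 S hwf K) hB
  set bw : List (ℤ × ℤ) := List.ofFn (fun i => (b i, w i)) with hbw
  have hbwl : bw.length = (labels S).length := by simp [hbw, hn]
  have hzero : ∀ l : ℕ, 1 ≤ l → TrP (2 * l + 1 - 1) (fillP S (bw.map Prod.fst))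
      ((labels (fillP S (bw.map Prod.fst))).map fun a => kpb (2 * l + 1) a) del0 [0, 0] = 0 := by
    intro l hl
    apply line_zero S hwf hpos l hl bw hbwl
      (by
        intro x hx
        rw [hbw, List.mem_ofFn] at hx
        obtain ⟨i, rfl⟩ := hx
        exact hw i)
      (‖Pool.Agent.Helper9.Kashaev.RT (2 * l + 1) K
        (Pool.Agent.Helper9.Kashaev.ket [0]) [0]‖ ^ 2)
    intro s
    have h1 : Gv l tU (tw S (List.ofFn fun i => b i + 2 * ((2 * l + 1 : ℕ) * s) * w i)) =
      Gv l tU K := hline ((2 * l + 1 : ℕ) * s) ⟨l, hl⟩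
    have h2 := congrArg (LaurentPolynomial.eval₂ (algebraMap ℚ ℂ) (rootPar l hl).u) h1
    rw [Gv_root, Gv_root] at h2
    have h3 := Complex.ofReal_injective h2
    rw [← h3]
    congr 5
    rw [hbw, List.map_ofFn]
    rfl
  have hb : (bw.map Prod.fst).length = (labels S).length := by
    rw [List.length_map]; exact hbwl
  have hne' := falb_ne (Ang_fillP hA (bw.map Prod.fst) hb) hs
  obtain ⟨N0, hN0⟩ := Filter.eventually_atTop.mp hne'
  exact hN0 (2 * (N0 + 1) + 1) (by omega) (hzero (N0 + 1) (by omega))

lemma IsVassiliev.mono {d e : ℕ} {I : Diagram → ℚ} (h : IsVassiliev d I) (hde : d ≤ e) :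
    IsVassiliev e I where
  inv := h.inv
  fin := fun S h1 h2 => h.fin S h1 (hde.trans_lt h2)

lemma alt_Gv_zero (l j : ℕ) (D : Diagram) (S : SDiagram) (h : j < dbls S) :
    alt (fun D => PowerSeries.coeff j (Gv l psU D)) D S = 0 := by
  rw [alt_coeff]
  have h1 : (PowerSeries.X : PowerSeries ℚ) ^ dbls S ∣ alt (Gv l psU) D S :=
    alt_mul_dvd PowerSeries.X (fun D => fv l psU D) (fun D => fv l psU⁻¹ D)
      (fun D S => alt_fv_dvd l psU PowerSeries.X psU_dvd D S)
      (fun D S => alt_fv_dvd l psU⁻¹ PowerSeries.X psU_inv_dvd D S) D S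
  exact PowerSeries.X_pow_dvd_iff.mp h1 j h

/-- the coefficients are polynomials in the twist numbers, on each class modulo `2` -/
lemma coeff_poly (l : ℕ) (hl : 1 ≤ l) (j : ℕ) (S : List (Item Unit)) (hS : wfP 1 S 1)
    (b : Fin (labels S).length → ℤ) : ∃ p : MvPolynomial (Fin (labels S).length) ℚ,
      ∀ y : Fin (labels S).length → ℤ,
        PowerSeries.coeff j (Gv l psU (tw S (List.ofFn fun i => b i + 2 * y i))) =
          MvPolynomial.eval (fun i => (y i : ℚ)) p := by
  apply poly_of_diff (fun y : Fin (labels S).length → ℤ =>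
    PowerSeries.coeff j (Gv l psU (tw S (List.ofFn fun i => b i + 2 * y i)))) j
  intro y i
  have h := tw_diff (fun D => PowerSeries.coeff j (Gv l psU D)) j
    (fun D D' h => by rw [Gv_psU_isotopic hl h]) (fun D S => alt_Gv_zero l j D S) S hS
    (fun i => b i + 2 * y i) i
  rw [← h]
  apply sum_congr rfl
  intro k _
  congr 6
  funext i'
  by_cases hi : i' = i
  · subst hi
    simp only [Function.update_self]
    ring
  · simp only [Function.update_of_ne hi]

theorem main (S : List (Item Unit)) (cs : List (Cor ℝ)) (hA : Ang S [0, 0] cs)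
    (hs : ∀ c ∈ cs, c.Strict) (hne : cs ≠ []) (K : Diagram) :
    ∃ C d : ℕ, ∀ a : List ℤ, a.length = cs.length → (∀ x ∈ a, C ≤ x.natAbs) →
      ∃ I, IsVassiliev d I ∧ I (tw S a) ≠ I K := by
  obtain ⟨C, hC⟩ := exists_level S cs hA hs hne K
  have hlen : cs.length = (labels S).length := Ang_length hA
  have hwf : wfP 1 S 1 := by
    have := (Ang_wf hA).2
    simpa using this
  set n := (labels S).length with hn
  -- finitely many equations for each class modulo `2`
  have hF : ∀ σ : Fin n → Fin 2, ∃ F : Finset ({l : ℕ // 1 ≤ l} × ℕ), ∀ y : Fin n → ℤ,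
      (∀ x ∈ F, PowerSeries.coeff x.2 (Gv x.1.1 psU (tw S (List.ofFn fun i =>
        ((σ i : ℕ) : ℤ) + 2 * y i))) = PowerSeries.coeff x.2 (Gv x.1.1 psU K)) →
      ∀ x : {l : ℕ // 1 ≤ l} × ℕ, PowerSeries.coeff x.2 (Gv x.1.1 psU (tw S (List.ofFn fun i =>
        ((σ i : ℕ) : ℤ) + 2 * y i))) = PowerSeries.coeff x.2 (Gv x.1.1 psU K) := by
    intro σ
    choose p hp using fun x : {l : ℕ // 1 ≤ l} × ℕ =>
      coeff_poly x.1.1 x.1.2 x.2 S hwf (fun i => ((σ i : ℕ) : ℤ))
    obtain ⟨F, hF⟩ := exists_finite_eqs (fun x : {l : ℕ // 1 ≤ l} × ℕ =>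
      p x - MvPolynomial.C (PowerSeries.coeff x.2 (Gv x.1.1 psU K)))
    refine ⟨F, fun y hy x => ?_⟩
    have h1 := hF (fun i => (y i : ℚ)) (by
      intro x hx
      rw [map_sub, MvPolynomial.eval_C, ← hp, hy x hx, sub_self]) x
    rw [map_sub, MvPolynomial.eval_C, ← hp, sub_eq_zero] at h1
    exact h1
  choose F hF using hF
  refine ⟨C, univ.sup fun σ => (F σ).sup Prod.snd, fun a ha1 ha2 => ?_⟩
  obtain ⟨l, hl, hne'⟩ := hC a ha1 ha2
  have hal : a.length = n := by rw [ha1, hlen]
  set b : Fin n → ℤ := fun i => a.get (Fin.cast hal.symm i) with hb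
  have e : List.ofFn b = a := by
    apply List.ext_get
    · simp [hal]
    · intro i h1 h2
      simp [hb]
  have hσ : ∀ i, (b i % 2).toNat < 2 := fun i => by omega
  set σ : Fin n → Fin 2 := fun i => ⟨(b i % 2).toNat, hσ i⟩ with hσ'
  have e2 : (fun i => ((σ i : ℕ) : ℤ) + 2 * (b i / 2)) = b := by
    funext i
    simp only [hσ']
    omega
  by_contra hcon
  push Not at hcon
  apply hne'
  apply laurent_ps
  rw [map_Gv, map_Gv, eval_tU]
  ext j
  have h2 := hF σ (fun i => b i / 2) (by
    intro x hx
    rw [e2, e]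
    refine hcon _ ((isVassiliev x.1.1 x.1.2 x.2).mono ?_)
    exact (Finset.le_sup (f := Prod.snd) hx).trans
      (Finset.le_sup (f := fun σ => (F σ).sup Prod.snd) (mem_univ σ))) (⟨l, hl⟩, j)
  rw [e2, e] at h2
  exact h2

end Pool.Agent.Helper77.ST
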