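import Mathlib
import Pool.Agent.Helper9.RTDefs

/-!
# The Reshetikhin-Turaev operators of diagrams at a general parameter

The same operators as in `Pool.Agent.Helper9.RTDefs` for the `N`-dimensional module of quantum
`sl(2)`, `N = 2 l + 1` odd, at a parameter `v` of a field at which the quantum integers
`[1], ..., [N - 1]` do not vanish.
-/

namespace Pool.Agent.Helper77.ST

open Finset
open Pool.Agent.Helper9.Kashaev (Piece Diagram)

/-- A parameter: the dimension `N = 2 l + 1` and an element `v` of a field at which the quantum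
integers `[1], ..., [N - 1]` do not vanish. -/
structure Par (F : Type*) [Field F] where
  l : ℕ
  v : F
  l1 : 1 ≤ l
  v0 : v ≠ 0
  q0 : ∀ m : ℕ, 0 < m → m ≤ 2 * l → v ^ m - v⁻¹ ^ m ≠ 0

variable {F : Type*} [Field F]

/-- the dimension of the module -/
def Par.N (P : Par F) : ℕ := 2 * P.l + 1

lemma Par.N_eq (P : Par F) : P.N = 2 * P.l + 1 := rfl

lemma Par.two_le (P : Par F) : 2 ≤ P.N := by have := P.l1; unfold Par.N; omega

/-- half of the weight of `e_i` -/
def hw (P : Par F) (i : ℕ) : ℤ := (P.l : ℤ) - i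

/-- the weight `N - 1 - 2 i` of the basis vector `e_i` -/
def wt (P : Par F) (i : ℕ) : ℤ := (P.N : ℤ) - 1 - 2 * i

lemma wt_eq_hw (P : Par F) (i : ℕ) : wt P i = 2 * hw P i := by
  unfold wt hw Par.N; push_cast; ring

/-- the quantum integer at an integer argument -/
noncomputable def qi (P : Par F) (x : ℤ) : F := (P.v ^ x - P.v ^ (-x)) / (P.v - (P.v)⁻¹)

/-- the quantum factorial -/
noncomputable def qfac (P : Par F) (m : ℕ) : F := ∏ t ∈ range m, qi P (t + 1 : ℕ)

/-- `E e_i = [i] [N - i] e_{i-1}` -/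
noncomputable def ecoef (P : Par F) (i : ℕ) : F := qi P i * qi P (P.N - i : ℕ)

/-- the coefficient of `e_{j+m} ⊗ e_{i-m}` in `R (e_i ⊗ e_j)` -/
noncomputable def posC (P : Par F) (i j m : ℕ) : F :=
  P.v ^ (2 * hw P (i - m) * hw P (j + m)) * P.v ^ (m * (m - 1) / 2) *
    ((P.v - (P.v)⁻¹) ^ m / qfac P m) * ∏ t ∈ range m, ecoef P (i - t)

/-- the coefficient of `e_{j-m} ⊗ e_{i+m}` in `R⁻¹ (e_i ⊗ e_j)` -/
noncomputable def negC (P : Par F) (i j m : ℕ) : F :=
  P.v ^ (-(2 * hw P i * hw P j)) * (-1) ^ m * (P.v)⁻¹ ^ (m * (m - 1) / 2) *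
    ((P.v - (P.v)⁻¹) ^ m / qfac P m) * ∏ t ∈ range m, ecoef P (j - t)

/-- the coefficients of the invariant vector -/
noncomputable def cupC (P : Par F) (i : ℕ) : F := (-1) ^ i * P.v ^ ((i : ℤ) * ((P.N : ℤ) - 2 - i))

/-- the coefficients of the invariant pairing -/
noncomputable def capC (P : Par F) (i : ℕ) : F := (cupC P (P.N - 1 - i))⁻¹

/-- the operator of an elementary piece with no strand to its left, on coordinates -/
noncomputable def piece (P : Par F) : Piece → (List ℕ → F) → List ℕ → F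
  | .cup, f, a :: b :: w => if a + b + 1 = P.N then cupC P a * f w else 0
  | .cup, _, _ => 0
  | .cap, f, w => ∑ a ∈ range P.N, capC P a * f (a :: (P.N - 1 - a) :: w)
  | .pos, f, a :: b :: w => ∑ m ∈ range P.N,
      if m ≤ a ∧ a < P.N ∧ b + m < P.N then
        posC P (b + m) (a - m) m * f ((b + m) :: (a - m) :: w) else 0
  | .pos, _, _ => 0
  | .neg, f, a :: b :: w => ∑ m ∈ range P.N,
      if m ≤ b ∧ b < P.N ∧ a + m < P.N then
        negC P (b - m) (a + m) m * f ((b - m) :: (a + m) :: w) else 0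
  | .neg, _, _ => 0

/-- the operator of an elementary piece with `k` strands to its left -/
noncomputable def slice (P : Par F) (p : Piece) : ℕ → (List ℕ → F) → List ℕ → F
  | 0, f, w => piece P p f w
  | _ + 1, _, [] => 0
  | k + 1, f, x :: w => slice P p k (fun u => f (x :: u)) w

/-- the operator of a diagram (the first piece acts first) -/
noncomputable def RT (P : Par F) : Diagram → (List ℕ → F) → List ℕ → F
  | [], f => f
  | s :: D, f => RT P D (slice P s.2 s.1 f)

/-- the basis vector of a word -/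
def ket (w : List ℕ) : List ℕ → F := fun u => if u = w then 1 else 0

/-! ### basic facts -/

lemma v_ne (P : Par F) : P.v ≠ 0 := P.v0

lemma vd_ne {P : Par F} : P.v - (P.v)⁻¹ ≠ 0 := by
  have := P.q0 1 (by norm_num) (by have := P.l1; omega)
  simpa using this

lemma vz (P : Par F) (x y : ℤ) : P.v ^ x * P.v ^ y = P.v ^ (x + y) :=
  (zpow_add₀ (v_ne P) x y).symm

lemma vz_ne (P : Par F) (x : ℤ) : P.v ^ x ≠ 0 := zpow_ne_zero _ (v_ne P)

lemma qi_zero (P : Par F) : qi P 0 = 0 := by simp [qi]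

lemma qi_one {P : Par F} : qi P 1 = 1 := by
  unfold qi
  simp only [zpow_one, zpow_neg]
  exact div_self vd_ne

lemma qi_neg (P : Par F) (x : ℤ) : qi P (-x) = - qi P x := by
  unfold qi; rw [neg_neg]; ring

lemma qi_ne {P : Par F} {x : ℤ} (h0 : 0 < x) (h1 : x < P.N) : qi P x ≠ 0 := by
  obtain ⟨m, rfl⟩ := Int.eq_ofNat_of_zero_le h0.le
  unfold qi
  apply div_ne_zero _ vd_ne
  have h2 : m ≤ 2 * P.l := by unfold Par.N at h1; push_cast at h1; omega
  have := P.q0 m (by exact_mod_cast h0) h2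
  simpa [zpow_neg, inv_pow] using this

lemma qi_mul_vd {P : Par F} (x : ℤ) :
    qi P x * (P.v - (P.v)⁻¹) = P.v ^ x - P.v ^ (-x) := by
  unfold qi; exact div_mul_cancel₀ _ vd_ne

/-- `[x] [N - x] - [y] [N - y] = [x - y] [N - x - y]` -/
lemma ecoef_sub {P : Par F} {x y : ℕ} (hx : x ≤ P.N) (hy : y ≤ P.N) :
    ecoef P x - ecoef P y = qi P ((x : ℤ) - y) * qi P ((P.N : ℤ) - x - y) := by
  have hd : P.v - (P.v)⁻¹ ≠ 0 := vd_ne
  unfold ecoef
  rw [Nat.cast_sub hx, Nat.cast_sub hy]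
  apply mul_right_cancel₀ (mul_ne_zero hd hd)
  have e : ∀ a b : ℤ, qi P a * qi P b * ((P.v - (P.v)⁻¹) * (P.v - (P.v)⁻¹)) =
      P.v ^ (a + b) - P.v ^ (a - b) - P.v ^ (b - a) + P.v ^ (-(a + b)) := by
    intro a b
    have h1 := qi_mul_vd (P := P) a
    have h2 := qi_mul_vd (P := P) b
    calc qi P a * qi P b * ((P.v - (P.v)⁻¹) * (P.v - (P.v)⁻¹)) =
        (qi P a * (P.v - (P.v)⁻¹)) * (qi P b * (P.v - (P.v)⁻¹)) := by ring
      _ = (P.v ^ a - P.v ^ (-a)) * (P.v ^ b - P.v ^ (-b)) := by rw [h1, h2]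
      _ = P.v ^ a * P.v ^ b - P.v ^ a * P.v ^ (-b) - P.v ^ b * P.v ^ (-a) +
          P.v ^ (-a) * P.v ^ (-b) := by ring
      _ = _ := by rw [vz, vz, vz, vz]; congr 2 <;> ring_nf
  rw [sub_mul, e, e, e]
  ring_nf

lemma ecoef_zero (P : Par F) : ecoef P 0 = 0 := by
  unfold ecoef; simp [qi_zero]

lemma ecoef_ge {P : Par F} {x : ℕ} (hx : P.N ≤ x) : ecoef P x = 0 := by
  unfold ecoef
  rw [Nat.sub_eq_zero_of_le hx]; simp [qi_zero]

lemma ecoef_ne {P : Par F} {x : ℕ} (h0 : 0 < x) (h1 : x < P.N) : ecoef P x ≠ 0 := by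
  unfold ecoef
  exact mul_ne_zero (qi_ne (by exact_mod_cast h0) (by exact_mod_cast h1))
    (qi_ne (by exact_mod_cast (by omega : 0 < P.N - x)) (by exact_mod_cast (by omega : P.N - x < P.N)))

lemma qfac_zero (P : Par F) : qfac P 0 = 1 := by simp [qfac]

lemma qfac_succ (P : Par F) (m : ℕ) : qfac P (m + 1) = qfac P m * qi P (m + 1) := by
  unfold qfac; rw [prod_range_succ]; push_cast; rfl

lemma qfac_ne {P : Par F} {m : ℕ} (hm : m < P.N) : qfac P m ≠ 0 := by
  unfold qfac
  rw [Finset.prod_ne_zero_iff]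
  intro t ht
  rw [mem_range] at ht
  exact qi_ne (by positivity) (by push_cast; omega)

/-- the factor `v ^ (m (m - 1) / 2) (v - v⁻¹) ^ m / [m]!` -/
noncomputable def kap (P : Par F) (m : ℕ) : F :=
  P.v ^ (m * (m - 1) / 2) * ((P.v - (P.v)⁻¹) ^ m / qfac P m)

lemma kap_zero (P : Par F) : kap P 0 = 1 := by simp [kap, qfac_zero]

lemma tri_succ (m : ℕ) : (m + 1) * (m + 1 - 1) / 2 = m * (m - 1) / 2 + m := by
  have h2 : m * (m - 1) % 2 = 0 := by
    rcases Nat.even_or_odd m with h | h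
    · obtain ⟨k, rfl⟩ := h
      rw [show (k + k) * (k + k - 1) = 2 * (k * (k + k - 1)) by ring]; omega
    · obtain ⟨k, rfl⟩ := h
      rw [show (2 * k + 1) * (2 * k + 1 - 1) = 2 * (k * (2 * k + 1)) by
        rw [show 2 * k + 1 - 1 = 2 * k by omega]; ring]; omega
  have h3 : (m + 1) * (m + 1 - 1) = m * (m - 1) + 2 * m := by
    rw [Nat.add_sub_cancel]
    rcases m with _ | m
    · rfl
    · rw [Nat.add_sub_cancel]; ring
  rw [h3]; omega

lemma kap_succ {P : Par F} (m : ℕ) (hm : m + 1 < P.N) :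
    kap P (m + 1) * qi P (m + 1) = kap P m * (P.v ^ m * (P.v - (P.v)⁻¹)) := by
  unfold kap
  have h4 : qfac P m ≠ 0 := qfac_ne (by omega)
  have h5 : qi P (m + 1) ≠ 0 := qi_ne (by positivity) (by exact_mod_cast hm)
  rw [tri_succ, qfac_succ, pow_add, pow_succ (P.v - (P.v)⁻¹)]
  field_simp

/-- the phase `v ^ (wt a * wt b / 2)` -/
noncomputable def tht (P : Par F) (a b : ℕ) : F := P.v ^ (2 * hw P a * hw P b)

lemma tht_symm (P : Par F) (a b : ℕ) : tht P a b = tht P b a := by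
  unfold tht; congr 1; ring

lemma tht_succ {P : Par F} (a b : ℕ) : tht P (a + 1) b = tht P a b * P.v ^ (-wt P b) := by
  unfold tht
  rw [vz, wt_eq_hw]
  congr 1
  unfold hw
  push_cast
  ring

lemma tht_succ_right {P : Par F} (a b : ℕ) :
    tht P a (b + 1) = tht P a b * P.v ^ (-wt P a) := by
  rw [tht_symm, tht_succ, tht_symm]

lemma tht_ne (P : Par F) (a b : ℕ) : tht P a b ≠ 0 := vz_ne _ _

/-- the product `ecoef (b+1) ⋯ ecoef (b+m)` -/
noncomputable def eta (P : Par F) (b m : ℕ) : F := ∏ t ∈ range m, ecoef P (b + 1 + t)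

lemma eta_zero (P : Par F) (b : ℕ) : eta P b 0 = 1 := by simp [eta]

lemma eta_succ (P : Par F) (b m : ℕ) : eta P b (m + 1) = eta P b m * ecoef P (b + m + 1) := by
  unfold eta; rw [prod_range_succ]; congr 2; ring

lemma eta_succ' (P : Par F) (b m : ℕ) : eta P b (m + 1) = ecoef P (b + 1) * eta P (b + 1) m := by
  unfold eta
  rw [prod_range_succ', mul_comm]
  congr 1
  apply prod_congr rfl
  intro t _
  congr 1; ring

lemma eta_eq_zero {P : Par F} {b m : ℕ} (hb : b < P.N) (h : P.N ≤ b + m) : eta P b m = 0 := by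
  unfold eta
  apply prod_eq_zero (i := P.N - b - 1)
  · rw [mem_range]; omega
  · rw [show b + 1 + (P.N - b - 1) = P.N by omega]; exact ecoef_ge le_rfl

/-- The coefficient in `R` of the output `e_a ⊗ e_b` from the input `e_{b+m} ⊗ e_{a-m}`. -/
noncomputable def rho (P : Par F) (a b m : ℕ) : F := tht P a b * kap P m * eta P b m

lemma posC_eq {P : Par F} {a b m : ℕ} (h : m ≤ a) : posC P (b + m) (a - m) m = rho P a b m := by
  unfold posC rho tht kap eta
  rw [Nat.add_sub_cancel, Nat.sub_add_cancel h, mul_assoc 2 (hw P b), mul_comm (hw P b),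
    ← mul_assoc 2]
  have : ∏ t ∈ range m, ecoef P (b + m - t) = ∏ t ∈ range m, ecoef P (b + 1 + t) := by
    rw [← prod_range_reflect]
    apply prod_congr rfl
    intro t ht
    rw [mem_range] at ht
    congr 1; omega
  rw [this]; ring

end Pool.Agent.Helper77.ST
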