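import Pool.Agent.Helper77.ST.GBasic

/-!
# The elementary pieces commute with the generators `E` and `F`
-/

namespace Pool.Agent.Helper77.ST

open Finset
open Pool.Agent.Helper9.Kashaev (Piece Diagram)

variable {F : Type*} [Field F]

/-! ### linearity -/

lemma piece_add (P : Par F) (p : Piece) (f g : List ℕ → F) (w : List ℕ) :
    piece P p (fun u => f u + g u) w = piece P p f w + piece P p g w := by
  cases p with
  | cup =>
    rcases w with _ | ⟨a, _ | ⟨b, w⟩⟩ <;> simp only [piece, add_zero]
    split_ifs <;> ring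
  | cap =>
    simp only [piece, mul_add, sum_add_distrib]
  | pos =>
    rcases w with _ | ⟨a, _ | ⟨b, w⟩⟩ <;> simp only [piece, add_zero]
    rw [← sum_add_distrib]
    apply sum_congr rfl
    intro m _
    split_ifs <;> ring
  | neg =>
    rcases w with _ | ⟨a, _ | ⟨b, w⟩⟩ <;> simp only [piece, add_zero]
    rw [← sum_add_distrib]
    apply sum_congr rfl
    intro m _
    split_ifs <;> ring

lemma piece_smul (P : Par F) (p : Piece) (c : F) (f : List ℕ → F) (w : List ℕ) :
    piece P p (fun u => c * f u) w = c * piece P p f w := by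
  cases p with
  | cup =>
    rcases w with _ | ⟨a, _ | ⟨b, w⟩⟩ <;> simp only [piece, mul_zero]
    split_ifs <;> ring
  | cap =>
    simp only [piece, mul_sum]
    apply sum_congr rfl
    intro m _
    ring
  | pos =>
    rcases w with _ | ⟨a, _ | ⟨b, w⟩⟩ <;> simp only [piece, mul_zero]
    rw [mul_sum]
    apply sum_congr rfl
    intro m _
    split_ifs <;> ring
  | neg =>
    rcases w with _ | ⟨a, _ | ⟨b, w⟩⟩ <;> simp only [piece, mul_zero]
    rw [mul_sum]
    apply sum_congr rfl
    intro m _
    split_ifs <;> ring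

lemma slice_add (P : Par F) (p : Piece) (k : ℕ) (f g : List ℕ → F) (w : List ℕ) :
    slice P p k (fun u => f u + g u) w = slice P p k f w + slice P p k g w := by
  induction k generalizing f g w with
  | zero => exact piece_add P p f g w
  | succ k ih =>
    rcases w with _ | ⟨x, w⟩
    · simp [slice]
    · simp only [slice]; exact ih _ _ _

lemma slice_smul (P : Par F) (p : Piece) (k : ℕ) (c : F) (f : List ℕ → F) (w : List ℕ) :
    slice P p k (fun u => c * f u) w = c * slice P p k f w := by
  induction k generalizing f w with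
  | zero => exact piece_smul P p c f w
  | succ k ih =>
    rcases w with _ | ⟨x, w⟩
    · simp [slice]
    · simp only [slice]; exact ih _ _

/-- slices as linear maps -/
noncomputable def sliceL (P : Par F) (p : Piece) (k : ℕ) : (List ℕ → F) →ₗ[F] (List ℕ → F) where
  toFun := slice P p k
  map_add' f g := by funext w; exact slice_add P p k f g w
  map_smul' c f := by funext w; exact slice_smul P p k c f w

lemma sliceL_apply (P : Par F) (p : Piece) (k : ℕ) (f : List ℕ → F) :
    sliceL P p k f = slice P p k f := rfl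

/-- the operator of a diagram as a linear map -/
noncomputable def RTL (P : Par F) : Diagram → (List ℕ → F) →ₗ[F] (List ℕ → F)
  | [] => LinearMap.id
  | s :: D => RTL P D ∘ₗ sliceL P s.2 s.1

lemma RTL_apply (P : Par F) (D : Diagram) (f : List ℕ → F) : RTL P D f = RT P D f := by
  induction D generalizing f with
  | nil => rfl
  | cons s D ih => simp only [RTL, RT, LinearMap.comp_apply, ih]; rfl

lemma RT_append (P : Par F) (D D' : Diagram) (f : List ℕ → F) :
    RT P (D ++ D') f = RT P D' (RT P D f) := by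
  induction D generalizing f with
  | nil => rfl
  | cons s D ih => simp only [List.cons_append, RT, ih]

lemma slice_zero_fun (P : Par F) (p : Piece) (k : ℕ) : slice P p k (fun _ => 0) = fun _ => 0 :=
  (sliceL P p k).map_zero

/-! ### the generators -/

/-- total weight of a word -/
def wtl (P : Par F) : List ℕ → ℤ
  | [] => 0
  | x :: w => wt P x + wtl P w

/-- the generator `F` on coordinates -/
noncomputable def Fop (P : Par F) : (List ℕ → F) → List ℕ → F
  | _, [] => 0
  | f, x :: w => (if 1 ≤ x ∧ x < P.N then f ((x - 1) :: w) else 0) +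
      P.v ^ (-wt P x) * Fop P (fun u => f (x :: u)) w

/-- the generator `E` on coordinates -/
noncomputable def Eop (P : Par F) : (List ℕ → F) → List ℕ → F
  | _, [] => 0
  | f, x :: w => ecoef P (x + 1) * P.v ^ (wtl P w) * f ((x + 1) :: w) +
      Eop P (fun u => f (x :: u)) w

lemma Fop_add (P : Par F) (f g : List ℕ → F) (w : List ℕ) :
    Fop P (fun u => f u + g u) w = Fop P f w + Fop P g w := by
  induction w generalizing f g with
  | nil => simp [Fop]
  | cons x w ih =>
    simp only [Fop]
    rw [ih]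
    split_ifs <;> ring

lemma Fop_smul (P : Par F) (c : F) (f : List ℕ → F) (w : List ℕ) :
    Fop P (fun u => c * f u) w = c * Fop P f w := by
  induction w generalizing f with
  | nil => simp [Fop]
  | cons x w ih =>
    simp only [Fop]
    rw [ih]
    split_ifs <;> ring

lemma Eop_add (P : Par F) (f g : List ℕ → F) (w : List ℕ) :
    Eop P (fun u => f u + g u) w = Eop P f w + Eop P g w := by
  induction w generalizing f g with
  | nil => simp [Eop]
  | cons x w ih =>
    simp only [Eop]
    rw [ih]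
    ring

lemma Eop_smul (P : Par F) (c : F) (f : List ℕ → F) (w : List ℕ) :
    Eop P (fun u => c * f u) w = c * Eop P f w := by
  induction w generalizing f with
  | nil => simp [Eop]
  | cons x w ih =>
    simp only [Eop]
    rw [ih]
    ring

/-- `F` as a linear map -/
noncomputable def FL (P : Par F) : (List ℕ → F) →ₗ[F] (List ℕ → F) where
  toFun := Fop P
  map_add' f g := by funext w; exact Fop_add P f g w
  map_smul' c f := by funext w; exact Fop_smul P c f w

/-- `E` as a linear map -/
noncomputable def EL (P : Par F) : (List ℕ → F) →ₗ[F] (List ℕ → F) where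
  toFun := Eop P
  map_add' f g := by funext w; exact Eop_add P f g w
  map_smul' c f := by funext w; exact Eop_smul P c f w

lemma FL_apply (P : Par F) (f : List ℕ → F) : FL P f = Fop P f := rfl
lemma EL_apply (P : Par F) (f : List ℕ → F) : EL P f = Eop P f := rfl

lemma Fop_sum {ι : Type*} (P : Par F) (s : Finset ι) (f : ι → List ℕ → F) (w : List ℕ) :
    Fop P (fun u => ∑ i ∈ s, f i u) w = ∑ i ∈ s, Fop P (f i) w := by
  have h := map_sum (FL P) f s
  have h2 := congrFun h w
  simp only [FL_apply, Finset.sum_apply] at h2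
  rw [← h2]
  congr 1
  funext u
  rw [Finset.sum_apply]

lemma Eop_sum {ι : Type*} (P : Par F) (s : Finset ι) (f : ι → List ℕ → F) (w : List ℕ) :
    Eop P (fun u => ∑ i ∈ s, f i u) w = ∑ i ∈ s, Eop P (f i) w := by
  have h := map_sum (EL P) f s
  have h2 := congrFun h w
  simp only [EL_apply, Finset.sum_apply] at h2
  rw [← h2]
  congr 1
  funext u
  rw [Finset.sum_apply]

lemma Fop_zero_fun (P : Par F) (w : List ℕ) : Fop P (fun _ => 0) w = 0 :=
  congrFun (FL P).map_zero w

lemma Eop_zero_fun (P : Par F) (w : List ℕ) : Eop P (fun _ => 0) w = 0 :=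
  congrFun (EL P).map_zero w

/-! ### crossings in a convenient form -/

lemma pos_apply {P : Par F} {a b : ℕ} (ha : a < P.N) (hb : b < P.N) (f : List ℕ → F) (w : List ℕ) :
    piece P .pos f (a :: b :: w) =
      ∑ m ∈ range (a + 1), rho P a b m * f ((b + m) :: (a - m) :: w) := by
  simp only [piece]
  have h1 : range (a + 1) ⊆ range P.N := by
    intro m hm; rw [mem_range] at *; omega
  rw [← sum_subset h1]
  · apply sum_congr rfl
    intro m hm
    rw [mem_range] at hm
    by_cases h : b + m < P.N
    · rw [if_pos ⟨by omega, ha, h⟩, posC_eq (by omega)]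
    · rw [if_neg (by omega)]
      unfold rho
      rw [eta_eq_zero hb (by omega)]; ring
  · intro m _ hm
    rw [mem_range] at hm
    rw [if_neg (by omega)]

lemma pos_apply_zero {P : Par F} {a b : ℕ} (h : ¬ (a < P.N ∧ b < P.N)) (f : List ℕ → F) (w : List ℕ) :
    piece P .pos f (a :: b :: w) = 0 := by
  simp only [piece]
  apply sum_eq_zero
  intro m _
  rw [if_neg]
  rintro ⟨_, h2, h3⟩
  exact h ⟨h2, by omega⟩

/-- the factor `(-1)^m v ^ (-m (m - 1) / 2) (v - v⁻¹) ^ m / [m]!` -/
noncomputable def kab (P : Par F) (m : ℕ) : F :=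
  (-1) ^ m * (P.v)⁻¹ ^ (m * (m - 1) / 2) * ((P.v - (P.v)⁻¹) ^ m / qfac P m)

lemma kab_zero (P : Par F) : kab P 0 = 1 := by simp [kab, qfac_zero]

lemma kab_succ {P : Par F} (m : ℕ) (hm : m + 1 < P.N) :
    kab P (m + 1) * qi P (m + 1) = - kab P m * (P.v ^ (-(m : ℤ)) * (P.v - (P.v)⁻¹)) := by
  have hk := kap_succ m hm
  have hv := v_ne P
  have e1 : ∀ j, kab P j = (-1) ^ j * ((P.v)⁻¹ ^ (j * (j - 1) / 2)) ^ 2 * kap P j := by
    intro j
    unfold kab kap
    have : (P.v)⁻¹ ^ (j * (j - 1) / 2) * P.v ^ (j * (j - 1) / 2) = 1 := by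
      rw [inv_pow, inv_mul_cancel₀ (pow_ne_zero _ hv)]
    linear_combination (-(-1) ^ j * (P.v)⁻¹ ^ (j * (j - 1) / 2) *
      ((P.v - (P.v)⁻¹) ^ j / qfac P j)) * this
  have h1 : (m + 1) * (m + 1 - 1) / 2 = m * (m - 1) / 2 + m := by
    have h2 : m * (m - 1) % 2 = 0 := by
      rcases Nat.even_or_odd m with h | h
      · obtain ⟨k, rfl⟩ := h
        rw [show (k + k) * (k + k - 1) = 2 * (k * (k + k - 1)) by ring]; omega
      · obtain ⟨k, rfl⟩ := h
        rw [show (2 * k + 1) * (2 * k + 1 - 1) = 2 * (k * (2 * k + 1)) by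
          rw [show 2 * k + 1 - 1 = 2 * k by omega]; ring]; omega
    have h3 : (m + 1) * (m + 1 - 1) = m * (m - 1) + 2 * m := by
      rw [Nat.add_sub_cancel]
      rcases m with _ | m
      · rfl
      · rw [Nat.add_sub_cancel]; ring
    rw [h3]; omega
  have h4 : (P.v)⁻¹ ^ m * P.v ^ m = 1 := by
    rw [inv_pow, inv_mul_cancel₀ (pow_ne_zero _ hv)]
  have h5 : P.v ^ (-(m : ℤ)) = (P.v)⁻¹ ^ m := by rw [zpow_neg, zpow_natCast, inv_pow]
  rw [e1, e1, h1, h5, pow_add, pow_succ]
  linear_combination ((-1) ^ m * (-1) * ((P.v)⁻¹ ^ (m * (m - 1) / 2) * (P.v)⁻¹ ^ m) ^ 2) * hk -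
    ((-1) ^ m * ((P.v)⁻¹ ^ (m * (m - 1) / 2)) ^ 2 * kap P m * (P.v)⁻¹ ^ m *
      (P.v - (P.v)⁻¹)) * h4

/-- The coefficient in `R⁻¹` of the output `e_a ⊗ e_b` from the input `e_{b-m} ⊗ e_{a+m}`. -/
noncomputable def nu (P : Par F) (a b m : ℕ) : F :=
  (tht P a b)⁻¹ * P.v ^ ((m : ℤ) * (wt P b - wt P a) + 2 * m ^ 2) * kab P m * eta P a m

lemma negC_eq {P : Par F} {a b m : ℕ} (h : m ≤ b) :
    negC P (b - m) (a + m) m = nu P a b m := by
  unfold negC nu kab eta
  have h1 : ∏ t ∈ range m, ecoef P (a + m - t) = ∏ t ∈ range m, ecoef P (a + 1 + t) := by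
    rw [← prod_range_reflect]
    apply prod_congr rfl
    intro t ht
    rw [mem_range] at ht
    congr 1; omega
  have h2 : P.v ^ (-(2 * hw P (b - m) * hw P (a + m))) =
      (tht P a b)⁻¹ * P.v ^ ((m : ℤ) * (wt P b - wt P a) + 2 * m ^ 2) := by
    unfold tht
    rw [← zpow_neg, vz]
    congr 1
    unfold wt hw Par.N
    push_cast [Nat.cast_sub h]
    ring
  rw [h1, h2]; ring

lemma neg_apply {P : Par F} {a b : ℕ} (ha : a < P.N) (hb : b < P.N) (f : List ℕ → F)
    (w : List ℕ) :
    piece P .neg f (a :: b :: w) =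
      ∑ m ∈ range (b + 1), nu P a b m * f ((b - m) :: (a + m) :: w) := by
  simp only [piece]
  have h1 : range (b + 1) ⊆ range P.N := by
    intro m hm; rw [mem_range] at *; omega
  rw [← sum_subset h1]
  · apply sum_congr rfl
    intro m hm
    rw [mem_range] at hm
    by_cases h : a + m < P.N
    · rw [if_pos ⟨by omega, hb, h⟩, negC_eq (by omega)]
    · rw [if_neg (by omega)]
      unfold nu
      rw [eta_eq_zero ha (by omega)]; ring
  · intro m _ hm
    rw [mem_range] at hm
    rw [if_neg (by omega)]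

lemma neg_apply_zero {P : Par F} {a b : ℕ} (h : ¬ (a < P.N ∧ b < P.N)) (f : List ℕ → F) (w : List ℕ) :
    piece P .neg f (a :: b :: w) = 0 := by
  simp only [piece]
  apply sum_eq_zero
  intro m _
  rw [if_neg]
  rintro ⟨_, h2, h3⟩
  exact h ⟨by omega, h2⟩

end Pool.Agent.Helper77.ST
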