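import Pool.Agent.Helper77.ST.GEquiv

/-!
# The elementary pieces commute with the generators `E` and `F` (continued)
-/

namespace Pool.Agent.Helper77.ST

open Finset
open Pool.Agent.Helper9.Kashaev (Piece Diagram)

variable {F : Type*} [Field F]

/-! ### scalar identities for the positive crossing -/

lemma kap_F {P : Par F} {b m : ℕ} (hm : m + 1 < P.N) (hb : b + m + 1 ≤ P.N) :
    kap P (m + 1) * (ecoef P (b + m + 1) - ecoef P b) =
      kap P m * (P.v ^ (wt P b) - P.v ^ (-wt P (b + m))) := by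
  rw [ecoef_sub hb (by omega)]
  have h1 : (((b + m + 1 : ℕ) : ℤ) - (b : ℤ)) = ((m : ℤ) + 1) := by push_cast; ring
  rw [h1, ← mul_assoc]
  have h3 := kap_succ m hm
  rw [h3]
  have h4 := qi_mul_vd (P := P) ((P.N : ℤ) - (b + m + 1 : ℕ) - b)
  have h5 : P.v ^ m = P.v ^ (m : ℤ) := (zpow_natCast _ _).symm
  have e1 : P.v ^ (m : ℤ) * P.v ^ ((P.N : ℤ) - (b + m + 1 : ℕ) - b) = P.v ^ (wt P b) := by
    rw [vz]; congr 1; unfold wt; push_cast; ring
  have e2 : P.v ^ (m : ℤ) * P.v ^ (-((P.N : ℤ) - (b + m + 1 : ℕ) - b)) =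
      P.v ^ (-wt P (b + m)) := by
    rw [vz]; congr 1; unfold wt; push_cast; ring
  rw [h5]
  linear_combination (kap P m * P.v ^ (m : ℤ)) * h4 + kap P m * e1 - kap P m * e2

lemma kap_E {P : Par F} {a m : ℕ} (hm : m + 1 < P.N) (ha : a + 1 ≤ P.N) (hma : m ≤ a) :
    kap P (m + 1) * (ecoef P (a + 1) - ecoef P (a - m)) =
      kap P m * (P.v ^ (wt P (a - m)) - P.v ^ (-wt P a)) := by
  rw [ecoef_sub ha (by omega)]
  have h1 : (((a + 1 : ℕ) : ℤ) - ((a - m : ℕ) : ℤ)) = ((m : ℤ) + 1) := by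
    push_cast [Nat.cast_sub hma]; ring
  rw [h1, ← mul_assoc, kap_succ m hm]
  have h4 := qi_mul_vd (P := P) ((P.N : ℤ) - (a + 1 : ℕ) - (a - m : ℕ))
  have h5 : P.v ^ m = P.v ^ (m : ℤ) := (zpow_natCast _ _).symm
  have e1 : P.v ^ (m : ℤ) * P.v ^ ((P.N : ℤ) - (a + 1 : ℕ) - (a - m : ℕ)) =
      P.v ^ (wt P (a - m)) * P.v ^ (-(2 * (a : ℤ) + 2 - 2 * (a - m : ℕ)) + 2 * m + 2) := by
    rw [vz, vz]; congr 1; unfold wt; push_cast [Nat.cast_sub hma]; ring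
  have e2 : P.v ^ (m : ℤ) * P.v ^ (-((P.N : ℤ) - (a + 1 : ℕ) - (a - m : ℕ))) =
      P.v ^ (-wt P a) := by
    rw [vz]; congr 1; unfold wt; push_cast [Nat.cast_sub hma]; ring
  have e3 : P.v ^ (-(2 * (a : ℤ) + 2 - 2 * (a - m : ℕ)) + 2 * m + 2) = 1 := by
    rw [show -(2 * (a : ℤ) + 2 - 2 * (a - m : ℕ)) + 2 * m + 2 = 0 by
      push_cast [Nat.cast_sub hma]; ring, zpow_zero]
  rw [h5]
  linear_combination (kap P m * P.v ^ (m : ℤ)) * h4 + kap P m * e1 - kap P m * e2 +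
    kap P m * P.v ^ (wt P (a - m)) * e3

lemma kab_F {P : Par F} {a m : ℕ} (hm : m + 1 < P.N) (ha : a + m + 1 ≤ P.N) :
    kab P (m + 1) * (ecoef P (a + m + 1) - ecoef P a) * P.v ^ (-wt P a + 2 * (m : ℤ)) =
      kab P m * (P.v ^ (-2 * wt P a + 2 * (m : ℤ)) - 1) := by
  rw [ecoef_sub ha (by omega)]
  have h1 : (((a + m + 1 : ℕ) : ℤ) - (a : ℤ)) = ((m : ℤ) + 1) := by push_cast; ring
  rw [h1, ← mul_assoc, kab_succ m hm]
  have h4 := qi_mul_vd (P := P) ((P.N : ℤ) - (a + m + 1 : ℕ) - a)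
  have e1 : P.v ^ (-(m : ℤ)) * P.v ^ ((P.N : ℤ) - (a + m + 1 : ℕ) - a) *
      P.v ^ (-wt P a + 2 * (m : ℤ)) = 1 := by
    rw [vz, vz, show -(m : ℤ) + ((P.N : ℤ) - (a + m + 1 : ℕ) - a) + (-wt P a + 2 * (m : ℤ)) = 0 by
      unfold wt; push_cast; ring, zpow_zero]
  have e2 : P.v ^ (-(m : ℤ)) * P.v ^ (-((P.N : ℤ) - (a + m + 1 : ℕ) - a)) *
      P.v ^ (-wt P a + 2 * (m : ℤ)) = P.v ^ (-2 * wt P a + 2 * (m : ℤ)) := by
    rw [vz, vz]; congr 1; unfold wt; push_cast; ring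
  linear_combination (-kab P m * P.v ^ (-(m : ℤ)) * P.v ^ (-wt P a + 2 * (m : ℤ))) * h4 -
    kab P m * e1 + kab P m * e2

lemma kab_E {P : Par F} {b m : ℕ} (hm : m + 1 < P.N) (hb : b + 1 ≤ P.N) (hmb : m ≤ b) :
    kab P (m + 1) * (ecoef P (b + 1) - ecoef P (b - m)) * P.v ^ (wt P b + 2 * (m : ℤ)) =
      kab P m * (1 - P.v ^ (2 * wt P b + 2 * (m : ℤ))) := by
  rw [ecoef_sub hb (by omega)]
  have h1 : (((b + 1 : ℕ) : ℤ) - ((b - m : ℕ) : ℤ)) = ((m : ℤ) + 1) := by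
    push_cast [Nat.cast_sub hmb]; ring
  rw [h1, ← mul_assoc, kab_succ m hm]
  have h4 := qi_mul_vd (P := P) ((P.N : ℤ) - (b + 1 : ℕ) - (b - m : ℕ))
  have e1 : P.v ^ (-(m : ℤ)) * P.v ^ ((P.N : ℤ) - (b + 1 : ℕ) - (b - m : ℕ)) *
      P.v ^ (wt P b + 2 * (m : ℤ)) = P.v ^ (2 * wt P b + 2 * (m : ℤ)) := by
    rw [vz, vz]; congr 1; unfold wt; push_cast [Nat.cast_sub hmb]; ring
  have e2 : P.v ^ (-(m : ℤ)) * P.v ^ (-((P.N : ℤ) - (b + 1 : ℕ) - (b - m : ℕ))) *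
      P.v ^ (wt P b + 2 * (m : ℤ)) = 1 := by
    rw [vz, vz, show -(m : ℤ) + -((P.N : ℤ) - (b + 1 : ℕ) - (b - m : ℕ)) +
      (wt P b + 2 * (m : ℤ)) = 0 by unfold wt; push_cast [Nat.cast_sub hmb]; ring, zpow_zero]
  linear_combination (-kab P m * P.v ^ (-(m : ℤ)) * P.v ^ (wt P b + 2 * (m : ℤ))) * h4 -
    kab P m * e1 + kab P m * e2

/-! ### the same for the coefficients of the crossings -/

lemma rho_F {P : Par F} {a b m : ℕ} (ha : a + 1 < P.N) (hb : b < P.N) (hm : m ≤ a) :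
    rho P (a + 1) b (m + 1) + rho P (a + 1) b m * P.v ^ (-wt P (b + m)) =
      rho P a b m + (if 1 ≤ b ∧ b < P.N then P.v ^ (-wt P (a + 1)) * rho P (a + 1) (b - 1) (m + 1)
        else 0) := by
  have key : (if 1 ≤ b ∧ b < P.N then P.v ^ (-wt P (a + 1)) * rho P (a + 1) (b - 1) (m + 1)
        else 0) = tht P (a + 1) b * kap P (m + 1) * (ecoef P b * eta P b m) := by
    rcases b with _ | b
    · rw [if_neg (by omega), ecoef_zero]; ring
    · rw [if_pos ⟨by omega, hb⟩]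
      unfold rho
      rw [Nat.add_sub_cancel, eta_succ', tht_succ_right (a + 1) b]
      ring
  rw [key]
  have ht : tht P a b = tht P (a + 1) b * P.v ^ (wt P b) := by
    rw [tht_succ, mul_assoc, vz, neg_add_cancel, zpow_zero, mul_one]
  unfold rho
  rw [ht, eta_succ]
  by_cases h : b + m < P.N
  · have := kap_F (b := b) (show m + 1 < P.N by omega) (by omega)
    linear_combination (tht P (a + 1) b * eta P b m) * this
  · rw [eta_eq_zero hb (by omega)]; ring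

lemma rho_E {P : Par F} {a b m : ℕ} (ha : a < P.N) (hb : b < P.N) (hm : m ≤ a) :
    ecoef P (a - m) * rho P a b (m + 1) + ecoef P (b + m + 1) * P.v ^ (wt P (a - m)) * rho P a b m
      = ecoef P (a + 1) * P.v ^ (wt P b) * rho P (a + 1) b (m + 1) +
        ecoef P (b + 1) * rho P a (b + 1) m := by
  unfold rho
  rw [tht_succ a b, tht_succ_right a b]
  have h1 : eta P b (m + 1) = ecoef P (b + 1) * eta P (b + 1) m := eta_succ' P b m
  have h2 : eta P b (m + 1) = eta P b m * ecoef P (b + m + 1) := eta_succ P b m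
  have h0 : P.v ^ (wt P b) * P.v ^ (-wt P b) = 1 := by rw [vz, add_neg_cancel, zpow_zero]
  by_cases h : b + (m + 1) < P.N
  · have := kap_E (m := m) (show m + 1 < P.N by omega) (show a + 1 ≤ P.N by omega) hm
    linear_combination (-tht P a b * eta P b (m + 1)) * this -
      (tht P a b * kap P m * P.v ^ (wt P (a - m))) * h2 +
      (tht P a b * kap P m * P.v ^ (-wt P a)) * h1 -
      (ecoef P (a + 1) * tht P a b * kap P (m + 1) * eta P b (m + 1)) * h0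
  · have h3 : eta P b (m + 1) = 0 := eta_eq_zero hb (by omega)
    rw [h3] at h1 h2 ⊢
    linear_combination (- tht P a b * kap P m * P.v ^ (wt P (a - m))) * h2 +
      (tht P a b * kap P m * P.v ^ (-wt P a)) * h1

lemma rho_E_zero {P : Par F} {a b : ℕ} :
    ecoef P (a + 1) * rho P a b 0 =
      ecoef P (a + 1) * P.v ^ (wt P b) * rho P (a + 1) b 0 := by
  unfold rho
  rw [tht_succ a b, eta_zero, kap_zero]
  have h0 : P.v ^ (wt P b) * P.v ^ (-wt P b) = 1 := by rw [vz, add_neg_cancel, zpow_zero]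
  linear_combination (-ecoef P (a + 1) * tht P a b) * h0

lemma nu_F {P : Par F} {a b m : ℕ} (ha : a < P.N) (hb : b + 1 < P.N) (hm : m ≤ b) :
    nu P a (b + 1) m + P.v ^ (-wt P (b - m)) * nu P a (b + 1) (m + 1) =
      (if 1 ≤ a ∧ a < P.N then nu P (a - 1) (b + 1) (m + 1) else 0) +
        P.v ^ (-wt P a) * nu P a b m := by
  have hwb : wt P (b + 1) = wt P b - 2 := by unfold wt; push_cast; ring
  have hwbm : wt P (b - m) = wt P b + 2 * m := by
    unfold wt; push_cast [Nat.cast_sub hm]; ring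
  have key : (if 1 ≤ a ∧ a < P.N then nu P (a - 1) (b + 1) (m + 1) else 0) =
      (tht P a (b + 1))⁻¹ * P.v ^ (-wt P (b + 1)) *
        P.v ^ (((m + 1 : ℕ) : ℤ) * (wt P (b + 1) - wt P a - 2) + 2 * ((m + 1 : ℕ) : ℤ) ^ 2) *
        kab P (m + 1) * (ecoef P a * eta P a m) := by
    rcases a with _ | a
    · rw [if_neg (by omega), ecoef_zero]; ring
    · rw [if_pos ⟨by omega, ha⟩]
      unfold nu
      have hwa : wt P (a + 1) = wt P a - 2 := by unfold wt; push_cast; ring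
      rw [Nat.add_sub_cancel, eta_succ', tht_succ a (b + 1), hwa, mul_inv]
      have h8 : (P.v ^ (-wt P (b + 1)))⁻¹ * P.v ^ (-wt P (b + 1)) = 1 :=
        inv_mul_cancel₀ (vz_ne _ _)
      have h9 : wt P (b + 1) - (wt P a - 2) - 2 = wt P (b + 1) - wt P a := by ring
      rw [h9]
      linear_combination (-(tht P a (b + 1))⁻¹ *
        P.v ^ (((m + 1 : ℕ) : ℤ) * (wt P (b + 1) - wt P a) + 2 * ((m + 1 : ℕ) : ℤ) ^ 2) *
        kab P (m + 1) * (ecoef P (a + 1) * eta P (a + 1) m)) * h8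
  rw [key]
  have ht : (tht P a b)⁻¹ = (tht P a (b + 1))⁻¹ * P.v ^ (-wt P a) := by
    rw [tht_succ_right a b, mul_inv, mul_assoc, inv_mul_cancel₀ (vz_ne _ _), mul_one]
  unfold nu
  rw [ht, eta_succ, hwb, hwbm]
  -- common factor
  set Y := P.v ^ ((m : ℤ) * (wt P b - 2 - wt P a) + 2 * (m : ℤ) ^ 2) with hY
  have e1 : P.v ^ (-(wt P b + 2 * (m : ℤ))) *
      P.v ^ (((m + 1 : ℕ) : ℤ) * (wt P b - 2 - wt P a) + 2 * ((m + 1 : ℕ) : ℤ) ^ 2) =
      Y * P.v ^ (-wt P a + 2 * (m : ℤ)) := by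
    rw [hY, vz, vz]; congr 1; push_cast; ring
  have e2 : P.v ^ (-(wt P b - 2)) *
      P.v ^ (((m + 1 : ℕ) : ℤ) * (wt P b - 2 - wt P a - 2) + 2 * ((m + 1 : ℕ) : ℤ) ^ 2) =
      Y * P.v ^ (-wt P a + 2 * (m : ℤ)) := by
    rw [hY, vz, vz]; congr 1; push_cast; ring
  have e3 : P.v ^ (-wt P a) * (P.v ^ (-wt P a) *
      P.v ^ ((m : ℤ) * (wt P b - wt P a) + 2 * (m : ℤ) ^ 2)) =
      Y * P.v ^ (-2 * wt P a + 2 * (m : ℤ)) := by
    rw [hY, vz, vz, vz]; congr 1; ring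
  by_cases h : a + m < P.N
  · have := kab_F (a := a) (show m + 1 < P.N by omega) (by omega)
    linear_combination (kab P (m + 1) * (tht P a (b + 1))⁻¹ * eta P a m *
        ecoef P (a + m + 1)) * e1 -
      ((tht P a (b + 1))⁻¹ * kab P (m + 1) * (ecoef P a * eta P a m)) * e2 -
      ((tht P a (b + 1))⁻¹ * kab P m * eta P a m) * e3 +
      (Y * (tht P a (b + 1))⁻¹ * eta P a m) * this
  · rw [eta_eq_zero ha (by omega)]; ring

lemma nu_F_zero {P : Par F} {a b : ℕ} (h : 1 ≤ a) :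
    P.v ^ (-wt P b) * nu P a b 0 = nu P (a - 1) b 0 := by
  obtain ⟨a, rfl⟩ : ∃ a', a = a' + 1 := ⟨a - 1, by omega⟩
  unfold nu
  rw [Nat.add_sub_cancel, tht_succ a b, mul_inv]
  simp only [Nat.cast_zero, zero_mul, ne_eq, OfNat.ofNat_ne_zero, not_false_eq_true, zero_pow,
    mul_zero, add_zero, zpow_zero, mul_one, kab_zero, eta_zero]
  have h8 : P.v ^ (-wt P b) * (P.v ^ (-wt P b))⁻¹ = 1 := mul_inv_cancel₀ (vz_ne _ _)
  linear_combination (tht P a b)⁻¹ * h8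

lemma nu_E {P : Par F} {a b m : ℕ} (ha : a < P.N) (hb : b < P.N) (hm : m ≤ b) :
    ecoef P (b - m) * P.v ^ (wt P (a + m + 1)) * nu P a b (m + 1) +
        ecoef P (a + m + 1) * nu P a b m =
      ecoef P (a + 1) * P.v ^ (wt P b) * nu P (a + 1) b m +
        ecoef P (b + 1) * nu P a (b + 1) (m + 1) := by
  have hwb : wt P (b + 1) = wt P b - 2 := by unfold wt; push_cast; ring
  have hwa : wt P (a + 1) = wt P a - 2 := by unfold wt; push_cast; ring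
  have hwam : wt P (a + m + 1) = wt P a - 2 * m - 2 := by unfold wt; push_cast; ring
  have h1 : eta P a (m + 1) = ecoef P (a + 1) * eta P (a + 1) m := eta_succ' P a m
  have h2 : eta P a (m + 1) = eta P a m * ecoef P (a + m + 1) := eta_succ P a m
  have ht1 : (tht P (a + 1) b)⁻¹ = (tht P a b)⁻¹ * P.v ^ (wt P b) := by
    rw [tht_succ a b, mul_inv, ← zpow_neg, neg_neg]
  have ht2 : (tht P a (b + 1))⁻¹ = (tht P a b)⁻¹ * P.v ^ (wt P a) := by
    rw [tht_succ_right a b, mul_inv, ← zpow_neg, neg_neg]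
  unfold nu
  rw [ht1, ht2, hwb, hwa, hwam]
  set Y := P.v ^ ((m : ℤ) * (wt P b - wt P a) + 2 * (m : ℤ) ^ 2) with hY
  have e1 : P.v ^ (wt P a - 2 * (m : ℤ) - 2) *
      P.v ^ (((m + 1 : ℕ) : ℤ) * (wt P b - wt P a) + 2 * ((m + 1 : ℕ) : ℤ) ^ 2) =
      Y * P.v ^ (wt P b + 2 * (m : ℤ)) := by
    rw [hY, vz, vz]; congr 1; push_cast; ring
  have e2 : P.v ^ (wt P b) * (P.v ^ (wt P b) *
      P.v ^ ((m : ℤ) * (wt P b - (wt P a - 2)) + 2 * (m : ℤ) ^ 2)) =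
      Y * P.v ^ (2 * wt P b + 2 * (m : ℤ)) := by
    rw [hY, vz, vz, vz]; congr 1; ring
  have e3 : P.v ^ (wt P a) *
      P.v ^ (((m + 1 : ℕ) : ℤ) * (wt P b - 2 - wt P a) + 2 * ((m + 1 : ℕ) : ℤ) ^ 2) =
      Y * P.v ^ (wt P b + 2 * (m : ℤ)) := by
    rw [hY, vz, vz]; congr 1; push_cast; ring
  by_cases h : a + (m + 1) < P.N
  · have := kab_E (P := P) (b := b) (m := m) (by omega) (by omega) hm
    linear_combination (ecoef P (b - m) * (tht P a b)⁻¹ * kab P (m + 1) * eta P a (m + 1)) * e1 -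
      ((tht P a b)⁻¹ * kab P m * (ecoef P (a + 1) * eta P (a + 1) m)) * e2 -
      (ecoef P (b + 1) * (tht P a b)⁻¹ * kab P (m + 1) * eta P a (m + 1)) * e3 -
      (Y * (tht P a b)⁻¹ * eta P a (m + 1)) * this +
      (Y * (tht P a b)⁻¹ * kab P m * P.v ^ (2 * wt P b + 2 * (m : ℤ))) * h1 -
      (Y * (tht P a b)⁻¹ * kab P m) * h2
  · have h3 : eta P a (m + 1) = 0 := eta_eq_zero ha (by omega)
    rw [h3] at h1 h2 ⊢
    linear_combination (-((tht P a b)⁻¹ * Y * kab P m)) * h2 +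
      ((tht P a b)⁻¹ * P.v ^ (wt P b) * (P.v ^ (wt P b) *
      P.v ^ ((m : ℤ) * (wt P b - (wt P a - 2)) + 2 * (m : ℤ) ^ 2)) * kab P m) * h1

lemma nu_E_zero {P : Par F} {a b : ℕ} :
    ecoef P (b + 1) * P.v ^ (wt P a) * nu P a b 0 = ecoef P (b + 1) * nu P a (b + 1) 0 := by
  unfold nu
  rw [tht_succ_right a b, mul_inv, ← zpow_neg, neg_neg]
  simp only [Nat.cast_zero, zero_mul, ne_eq, OfNat.ofNat_ne_zero, not_false_eq_true, zero_pow,
    mul_zero, add_zero, zpow_zero, mul_one, kab_zero, eta_zero]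
  ring

end Pool.Agent.Helper77.ST
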