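import Pool.Agent.Helper77.ST.GEquiv2

/-!
# The elementary pieces commute with the generators `E` and `F` (end)
-/

namespace Pool.Agent.Helper77.ST

open Finset
open Pool.Agent.Helper9.Kashaev (Piece Diagram)

variable {F : Type*} [Field F]

lemma piece_pos_F {P : Par F} (f : List ℕ → F) (w : List ℕ) :
    piece P .pos (Fop P f) w = Fop P (piece P .pos f) w := by
  rcases w with _ | ⟨a, _ | ⟨b, w⟩⟩
  · simp [piece, Fop]
  · simp [piece, Fop]
  by_cases hv : a < P.N ∧ b < P.N
  · obtain ⟨ha, hb⟩ := hv
    rw [pos_apply ha hb]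
    simp only [Fop]
    have h3 : Fop P (fun u => piece P .pos f (a :: b :: u)) w =
        ∑ m ∈ range (a + 1), rho P a b m * Fop P (fun u => f ((b + m) :: (a - m) :: u)) w := by
      have : (fun u => piece P .pos f (a :: b :: u)) =
          fun u => ∑ m ∈ range (a + 1), rho P a b m * f ((b + m) :: (a - m) :: u) := by
        funext u; exact pos_apply ha hb f u
      rw [this, Fop_sum]
      apply sum_congr rfl
      intro m _
      exact Fop_smul P _ _ w
    rw [h3]
    -- the third terms agree
    have hw : ∀ m ∈ range (a + 1), P.v ^ (-wt P (b + m)) * P.v ^ (-wt P (a - m)) =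
        P.v ^ (-wt P a) * P.v ^ (-wt P b) := by
      intro m hm
      rw [mem_range] at hm
      rw [vz, vz]
      congr 1
      unfold wt
      push_cast [Nat.cast_sub (show m ≤ a by omega)]
      ring
    have hthird : ∑ m ∈ range (a + 1), rho P a b m * (P.v ^ (-wt P (b + m)) *
        (P.v ^ (-wt P (a - m)) * Fop P (fun u => f ((b + m) :: (a - m) :: u)) w)) =
        P.v ^ (-wt P a) * (P.v ^ (-wt P b) * ∑ m ∈ range (a + 1), rho P a b m *
          Fop P (fun u => f ((b + m) :: (a - m) :: u)) w) := by
      rw [mul_sum, mul_sum]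
      apply sum_congr rfl
      intro m hm
      linear_combination (rho P a b m * Fop P (fun u => f ((b + m) :: (a - m) :: u)) w) * hw m hm
    have hsplit : ∑ m ∈ range (a + 1), rho P a b m *
        ((if 1 ≤ b + m ∧ b + m < P.N then f ((b + m - 1) :: (a - m) :: w) else 0) +
          P.v ^ (-wt P (b + m)) *
            ((if 1 ≤ a - m ∧ a - m < P.N then f ((b + m) :: (a - m - 1) :: w) else 0) +
              P.v ^ (-wt P (a - m)) * Fop P (fun u => f ((b + m) :: (a - m) :: u)) w)) =
        ∑ m ∈ range (a + 1), rho P a b m *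
          (if 1 ≤ b + m ∧ b + m < P.N then f ((b + m - 1) :: (a - m) :: w) else 0) +
        ∑ m ∈ range (a + 1), rho P a b m * P.v ^ (-wt P (b + m)) *
            (if 1 ≤ a - m ∧ a - m < P.N then f ((b + m) :: (a - m - 1) :: w) else 0) +
        ∑ m ∈ range (a + 1), rho P a b m * (P.v ^ (-wt P (b + m)) *
        (P.v ^ (-wt P (a - m)) * Fop P (fun u => f ((b + m) :: (a - m) :: u)) w)) := by
      rw [← sum_add_distrib, ← sum_add_distrib]
      apply sum_congr rfl
      intro m _
      ring
    rw [hsplit, hthird]
    -- the first two terms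
    have hS1 : ∀ m ∈ range (a + 1), rho P a b m *
          (if 1 ≤ b + m ∧ b + m < P.N then f ((b + m - 1) :: (a - m) :: w) else 0) =
          if 1 ≤ b + m then rho P a b m * f ((b + m - 1) :: (a - m) :: w) else 0 := by
      intro m _
      by_cases h1 : b + m < P.N
      · by_cases h2 : 1 ≤ b + m
        · rw [if_pos ⟨h2, h1⟩, if_pos h2]
        · rw [if_neg (by omega), if_neg h2, mul_zero]
      · rw [if_neg (by omega)]
        have : rho P a b m = 0 := by unfold rho; rw [eta_eq_zero hb (by omega)]; ring
        rw [this]; simp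
    rw [sum_congr rfl hS1]
    rcases a with _ | a
    · simp only [zero_add, range_one, sum_singleton, Nat.add_zero, Nat.sub_zero]
      rw [if_neg (show ¬ (1 ≤ 0 ∧ 0 < P.N) by omega), if_neg (show ¬ (1 ≤ 0 ∧ 0 < P.N) by omega)]
      by_cases hb1 : 1 ≤ b
      · rw [if_pos hb1, if_pos ⟨hb1, hb⟩, pos_apply ha (by omega)]
        simp only [zero_add, range_one, sum_singleton, Nat.add_zero, Nat.sub_zero]
        obtain ⟨b', rfl⟩ : ∃ b', b = b' + 1 := ⟨b - 1, by omega⟩
        unfold rho
        rw [Nat.add_sub_cancel, tht_succ_right 0 b', eta_zero, eta_zero]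
        ring
      · rw [if_neg hb1, if_neg (by omega)]; ring
    · rw [if_pos (show 1 ≤ a + 1 ∧ a + 1 < P.N from ⟨by omega, ha⟩), Nat.add_sub_cancel,
        pos_apply (by omega) hb, sum_range_succ' (fun m => if 1 ≤ b + m then
          rho P (a + 1) b m * f ((b + m - 1) :: (a + 1 - m) :: w) else 0),
        sum_range_succ (fun m => rho P (a + 1) b m * P.v ^ (-wt P (b + m)) *
            (if 1 ≤ a + 1 - m ∧ a + 1 - m < P.N then f ((b + m) :: (a + 1 - m - 1) :: w) else 0))]
      have hlast : (if 1 ≤ a + 1 - (a + 1) ∧ a + 1 - (a + 1) < P.N then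
          f ((b + (a + 1)) :: (a + 1 - (a + 1) - 1) :: w) else 0) = 0 := by
        rw [if_neg (by omega)]
      rw [hlast, mul_zero, add_zero]
      have hR2 : (if 1 ≤ b ∧ b < P.N then piece P .pos f ((a + 1) :: (b - 1) :: w) else 0) =
          ∑ m ∈ range (a + 1), (if 1 ≤ b ∧ b < P.N then rho P (a + 1) (b - 1) (m + 1) else 0) *
            f ((b + m) :: (a - m) :: w) +
          (if 1 ≤ b then rho P (a + 1) (b - 1) 0 * f ((b - 1) :: (a + 1) :: w) else 0) := by
        by_cases hb1 : 1 ≤ b
        · rw [if_pos ⟨hb1, hb⟩, pos_apply ha (by omega), sum_range_succ', if_pos hb1]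
          congr 1
          apply sum_congr rfl
          intro m hm
          rw [mem_range] at hm
          rw [if_pos ⟨hb1, hb⟩]
          congr 3
          · omega
          · congr 1
            omega
        · rw [if_neg (by omega), if_neg hb1]
          symm
          rw [add_zero]
          apply sum_eq_zero
          intro m _
          rw [if_neg (by omega), zero_mul]
      rw [hR2]
      have hzero : (if 1 ≤ b then rho P (a + 1) b 0 *
          f ((b - 1) :: (a + 1 - 0) :: w) else 0) = P.v ^ (-wt P (a + 1)) *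
          (if 1 ≤ b then rho P (a + 1) (b - 1) 0 * f ((b - 1) :: (a + 1) :: w) else 0) := by
        by_cases hb1 : 1 ≤ b
        · rw [if_pos hb1, if_pos hb1]
          obtain ⟨b', rfl⟩ : ∃ b', b = b' + 1 := ⟨b - 1, by omega⟩
          unfold rho
          rw [Nat.add_sub_cancel, tht_succ_right (a + 1) b', eta_zero, eta_zero]
          simp only [Nat.add_zero, Nat.sub_zero, Nat.add_sub_cancel]
          ring
        · rw [if_neg hb1, if_neg hb1]; ring
      rw [hzero]
      have hmain : ∑ m ∈ range (a + 1), (if 1 ≤ b + (m + 1) then rho P (a + 1) b (m + 1) *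
            f ((b + (m + 1) - 1) :: (a + 1 - (m + 1)) :: w) else 0) +
          ∑ m ∈ range (a + 1), rho P (a + 1) b m * P.v ^ (-wt P (b + m)) *
            (if 1 ≤ a + 1 - m ∧ a + 1 - m < P.N then f ((b + m) :: (a + 1 - m - 1) :: w) else 0) =
          ∑ m ∈ range (a + 1), rho P a b m * f ((b + m) :: (a - m) :: w) +
          P.v ^ (-wt P (a + 1)) * ∑ m ∈ range (a + 1),
            (if 1 ≤ b ∧ b < P.N then rho P (a + 1) (b - 1) (m + 1) else 0) *
            f ((b + m) :: (a - m) :: w) := by
        rw [mul_sum, ← sum_add_distrib, ← sum_add_distrib]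
        apply sum_congr rfl
        intro m hm
        rw [mem_range] at hm
        rw [if_pos (by omega), if_pos ⟨by omega, by omega⟩]
        have e1 : b + (m + 1) - 1 = b + m := by omega
        have e2 : a + 1 - (m + 1) = a - m := by omega
        have e3 : a + 1 - m - 1 = a - m := by omega
        rw [e1, e2, e3]
        have := rho_F (m := m) ha hb (by omega)
        by_cases hb1 : 1 ≤ b ∧ b < P.N
        · rw [if_pos hb1] at this ⊢
          linear_combination f ((b + m) :: (a - m) :: w) * this
        · rw [if_neg hb1] at this ⊢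
          linear_combination f ((b + m) :: (a - m) :: w) * this
      linear_combination hmain
  · rw [pos_apply_zero hv]
    simp only [Fop]
    have h3 : (fun u => piece P .pos f (a :: b :: u)) = fun _ => 0 := by
      funext u; exact pos_apply_zero hv f u
    rw [h3, Fop_zero_fun]
    have h1 : (if 1 ≤ a ∧ a < P.N then piece P .pos f ((a - 1) :: b :: w) else 0) = 0 := by
      split_ifs with h
      · exact pos_apply_zero (by omega) f w
      · rfl
    have h2 : (if 1 ≤ b ∧ b < P.N then piece P .pos f (a :: (b - 1) :: w) else 0) = 0 := by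
      split_ifs with h
      · exact pos_apply_zero (by omega) f w
      · rfl
    rw [h1, h2]; ring

lemma piece_pos_E {P : Par F} (f : List ℕ → F) (w : List ℕ) :
    piece P .pos (Eop P f) w = Eop P (piece P .pos f) w := by
  rcases w with _ | ⟨a, _ | ⟨b, w⟩⟩
  · simp [piece, Eop]
  · simp [piece, Eop]
  by_cases hv : a < P.N ∧ b < P.N
  · obtain ⟨ha, hb⟩ := hv
    rw [pos_apply ha hb]
    simp only [Eop, wtl]
    have h3 : Eop P (fun u => piece P .pos f (a :: b :: u)) w =
        ∑ m ∈ range (a + 1), rho P a b m * Eop P (fun u => f ((b + m) :: (a - m) :: u)) w := by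
      have : (fun u => piece P .pos f (a :: b :: u)) =
          fun u => ∑ m ∈ range (a + 1), rho P a b m * f ((b + m) :: (a - m) :: u) := by
        funext u; exact pos_apply ha hb f u
      rw [this, Eop_sum]
      apply sum_congr rfl
      intro m _
      exact Eop_smul P _ _ w
    rw [h3]
    have hP1 : ecoef P (a + 1) * piece P .pos f ((a + 1) :: b :: w) =
        ecoef P (a + 1) * ∑ m ∈ range (a + 2), rho P (a + 1) b m *
          f ((b + m) :: (a + 1 - m) :: w) := by
      by_cases h : a + 1 < P.N
      · rw [pos_apply h hb]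
      · rw [ecoef_ge (by omega)]; ring
    have hP2 : ecoef P (b + 1) * piece P .pos f (a :: (b + 1) :: w) =
        ecoef P (b + 1) * ∑ m ∈ range (a + 1), rho P a (b + 1) m *
          f ((b + 1 + m) :: (a - m) :: w) := by
      by_cases h : b + 1 < P.N
      · rw [pos_apply ha h]
      · rw [ecoef_ge (by omega)]; ring
    have hA : ∑ m ∈ range (a + 1), rho P a b m *
        (ecoef P (b + m + 1) * P.v ^ (wt P (a - m) + wtl P w) * f ((b + m + 1) :: (a - m) :: w) +
          (ecoef P (a - m + 1) * P.v ^ (wtl P w) * f ((b + m) :: (a - m + 1) :: w) +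
            Eop P (fun u => f ((b + m) :: (a - m) :: u)) w)) =
        P.v ^ (wtl P w) * (∑ m ∈ range (a + 1), (ecoef P (b + m + 1) * P.v ^ (wt P (a - m)) *
          rho P a b m) * f ((b + 1 + m) :: (a - m) :: w)) +
        P.v ^ (wtl P w) * (∑ m ∈ range (a + 1), (ecoef P (a + 1 - m) * rho P a b m) *
          f ((b + m) :: (a + 1 - m) :: w)) +
        ∑ m ∈ range (a + 1), rho P a b m * Eop P (fun u => f ((b + m) :: (a - m) :: u)) w := by
      rw [mul_sum, mul_sum, ← sum_add_distrib, ← sum_add_distrib]
      apply sum_congr rfl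
      intro m hm
      rw [mem_range] at hm
      have e1 : a - m + 1 = a + 1 - m := by omega
      have e2 : b + m + 1 = b + 1 + m := by ring
      rw [e1, ← vz, e2]
      ring
    rw [hA]
    -- rewrite the sums with the index shifted
    have hB : ∑ m ∈ range (a + 2), (ecoef P (a + 1) * P.v ^ (wt P b) * rho P (a + 1) b m) *
          f ((b + m) :: (a + 1 - m) :: w) +
        ∑ m ∈ range (a + 1), (ecoef P (b + 1) * rho P a (b + 1) m) *
          f ((b + 1 + m) :: (a - m) :: w) =
        ∑ m ∈ range (a + 1), (ecoef P (b + m + 1) * P.v ^ (wt P (a - m)) *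
          rho P a b m) * f ((b + 1 + m) :: (a - m) :: w) +
        ∑ m ∈ range (a + 1), (ecoef P (a + 1 - m) * rho P a b m) *
          f ((b + m) :: (a + 1 - m) :: w) := by
      have e3 : ∑ m ∈ range (a + 1), (ecoef P (a + 1 - m) * rho P a b m) *
          f ((b + m) :: (a + 1 - m) :: w) = ∑ m ∈ range (a + 2),
          (ecoef P (a + 1 - m) * rho P a b m) * f ((b + m) :: (a + 1 - m) :: w) := by
        rw [sum_range_succ _ (a + 1), Nat.sub_self, ecoef_zero]; ring
      rw [e3, sum_range_succ' _ (a + 1), sum_range_succ' _ (a + 1)]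
      have e4 : ecoef P (a + 1) * P.v ^ (wt P b) * rho P (a + 1) b 0 * f ((b + 0) ::
          (a + 1 - 0) :: w) = ecoef P (a + 1 - 0) * rho P a b 0 *
          f ((b + 0) :: (a + 1 - 0) :: w) := by
        rw [Nat.sub_zero, ← rho_E_zero]
      rw [e4]
      have e5 : ∑ m ∈ range (a + 1), (ecoef P (a + 1) * P.v ^ (wt P b) *
            rho P (a + 1) b (m + 1)) * f ((b + (m + 1)) :: (a + 1 - (m + 1)) :: w) +
          ∑ m ∈ range (a + 1), (ecoef P (b + 1) * rho P a (b + 1) m) *
          f ((b + 1 + m) :: (a - m) :: w) =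
          ∑ m ∈ range (a + 1), (ecoef P (b + m + 1) * P.v ^ (wt P (a - m)) *
          rho P a b m) * f ((b + 1 + m) :: (a - m) :: w) +
          ∑ m ∈ range (a + 1), (ecoef P (a + 1 - (m + 1)) * rho P a b (m + 1)) *
          f ((b + (m + 1)) :: (a + 1 - (m + 1)) :: w) := by
        rw [← sum_add_distrib, ← sum_add_distrib]
        apply sum_congr rfl
        intro m hm
        rw [mem_range] at hm
        have e6 : a + 1 - (m + 1) = a - m := by omega
        have e7 : b + (m + 1) = b + 1 + m := by ring
        rw [e6, e7]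
        have := rho_E (m := m) ha hb (by omega)
        linear_combination (- f ((b + 1 + m) :: (a - m) :: w)) * this
      linear_combination e5
    have hC1 : ∑ m ∈ range (a + 2), (ecoef P (a + 1) * P.v ^ (wt P b) * rho P (a + 1) b m) *
          f ((b + m) :: (a + 1 - m) :: w) = P.v ^ (wt P b) * (ecoef P (a + 1) *
          ∑ m ∈ range (a + 2), rho P (a + 1) b m * f ((b + m) :: (a + 1 - m) :: w)) := by
      rw [mul_sum, mul_sum]
      apply sum_congr rfl
      intro m _; ring
    have hC2 : ∑ m ∈ range (a + 1), (ecoef P (b + 1) * rho P a (b + 1) m) *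
          f ((b + 1 + m) :: (a - m) :: w) = ecoef P (b + 1) *
          ∑ m ∈ range (a + 1), rho P a (b + 1) m * f ((b + 1 + m) :: (a - m) :: w) := by
      rw [mul_sum]
      apply sum_congr rfl
      intro m _; ring
    rw [hC1, hC2, ← hP1, ← hP2] at hB
    rw [← vz]
    linear_combination (- P.v ^ (wtl P w)) * hB
  · rw [pos_apply_zero hv]
    simp only [Eop]
    have h3 : (fun u => piece P .pos f (a :: b :: u)) = fun _ => 0 := by
      funext u; exact pos_apply_zero hv f u
    rw [h3, Eop_zero_fun, pos_apply_zero (show ¬ (a + 1 < P.N ∧ b < P.N) by omega),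
      pos_apply_zero (show ¬ (a < P.N ∧ b + 1 < P.N) by omega)]
    ring

end Pool.Agent.Helper77.ST
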