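import Pool.Agent.Helper77.ST.GEquiv3

/-!
# The negative crossing, the cup and the cap commute with the generators
-/

namespace Pool.Agent.Helper77.ST

open Finset
open Pool.Agent.Helper9.Kashaev (Piece Diagram)

variable {F : Type*} [Field F]

lemma nu_zero_of_ge {P : Par F} {a b m : ℕ} (ha : a < P.N) (h : P.N ≤ a + m) : nu P a b m = 0 := by
  unfold nu; rw [eta_eq_zero ha h]; ring

lemma piece_neg_F {P : Par F} (f : List ℕ → F) (w : List ℕ) :
    piece P .neg (Fop P f) w = Fop P (piece P .neg f) w := by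
  rcases w with _ | ⟨a, _ | ⟨b, w⟩⟩
  · simp [piece, Fop]
  · simp [piece, Fop]
  by_cases hv : a < P.N ∧ b < P.N
  · obtain ⟨ha, hb⟩ := hv
    rw [neg_apply ha hb]
    simp only [Fop]
    have h3 : Fop P (fun u => piece P .neg f (a :: b :: u)) w =
        ∑ m ∈ range (b + 1), nu P a b m * Fop P (fun u => f ((b - m) :: (a + m) :: u)) w := by
      have : (fun u => piece P .neg f (a :: b :: u)) =
          fun u => ∑ m ∈ range (b + 1), nu P a b m * f ((b - m) :: (a + m) :: u) := by
        funext u; exact neg_apply ha hb f u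
      rw [this, Fop_sum]
      apply sum_congr rfl
      intro m _
      exact Fop_smul P _ _ w
    rw [h3]
    have hw : ∀ m ∈ range (b + 1), P.v ^ (-wt P (b - m)) * P.v ^ (-wt P (a + m)) =
        P.v ^ (-wt P a) * P.v ^ (-wt P b) := by
      intro m hm
      rw [mem_range] at hm
      rw [vz, vz]
      congr 1
      unfold wt
      push_cast [Nat.cast_sub (show m ≤ b by omega)]
      ring
    have hthird : ∑ m ∈ range (b + 1), nu P a b m * (P.v ^ (-wt P (b - m)) *
        (P.v ^ (-wt P (a + m)) * Fop P (fun u => f ((b - m) :: (a + m) :: u)) w)) =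
        P.v ^ (-wt P a) * (P.v ^ (-wt P b) * ∑ m ∈ range (b + 1), nu P a b m *
          Fop P (fun u => f ((b - m) :: (a + m) :: u)) w) := by
      rw [mul_sum, mul_sum]
      apply sum_congr rfl
      intro m hm
      linear_combination (nu P a b m * Fop P (fun u => f ((b - m) :: (a + m) :: u)) w) * hw m hm
    have hsplit : ∑ m ∈ range (b + 1), nu P a b m *
        ((if 1 ≤ b - m ∧ b - m < P.N then f ((b - m - 1) :: (a + m) :: w) else 0) +
          P.v ^ (-wt P (b - m)) *
            ((if 1 ≤ a + m ∧ a + m < P.N then f ((b - m) :: (a + m - 1) :: w) else 0) +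
              P.v ^ (-wt P (a + m)) * Fop P (fun u => f ((b - m) :: (a + m) :: u)) w)) =
        ∑ m ∈ range (b + 1), nu P a b m *
          (if 1 ≤ b - m ∧ b - m < P.N then f ((b - m - 1) :: (a + m) :: w) else 0) +
        ∑ m ∈ range (b + 1), nu P a b m * P.v ^ (-wt P (b - m)) *
            (if 1 ≤ a + m ∧ a + m < P.N then f ((b - m) :: (a + m - 1) :: w) else 0) +
        ∑ m ∈ range (b + 1), nu P a b m * (P.v ^ (-wt P (b - m)) *
        (P.v ^ (-wt P (a + m)) * Fop P (fun u => f ((b - m) :: (a + m) :: u)) w)) := by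
      rw [← sum_add_distrib, ← sum_add_distrib]
      apply sum_congr rfl
      intro m _
      ring
    rw [hsplit, hthird]
    have hS2 : ∀ m ∈ range (b + 1), nu P a b m * P.v ^ (-wt P (b - m)) *
          (if 1 ≤ a + m ∧ a + m < P.N then f ((b - m) :: (a + m - 1) :: w) else 0) =
          if 1 ≤ a + m then nu P a b m * P.v ^ (-wt P (b - m)) *
            f ((b - m) :: (a + m - 1) :: w) else 0 := by
      intro m _
      by_cases h1 : a + m < P.N
      · by_cases h2 : 1 ≤ a + m
        · rw [if_pos ⟨h2, h1⟩, if_pos h2]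
        · rw [if_neg (by omega), if_neg h2, mul_zero]
      · rw [if_neg (by omega), nu_zero_of_ge ha (by omega)]; simp
    rw [sum_congr rfl hS2]
    rcases b with _ | b
    · simp only [zero_add, range_one, sum_singleton, Nat.add_zero, Nat.sub_zero]
      rw [if_neg (show ¬ (1 ≤ 0 ∧ 0 < P.N) by omega), if_neg (show ¬ (1 ≤ 0 ∧ 0 < P.N) by omega)]
      by_cases ha1 : 1 ≤ a
      · rw [if_pos ha1, if_pos ⟨ha1, ha⟩, neg_apply (by omega) hb]
        simp only [zero_add, range_one, sum_singleton, Nat.add_zero, Nat.sub_zero]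
        rw [← nu_F_zero ha1]
        ring
      · rw [if_neg ha1, if_neg (by omega)]; ring
    · rw [if_pos (show 1 ≤ b + 1 ∧ b + 1 < P.N from ⟨by omega, hb⟩), Nat.add_sub_cancel,
        neg_apply ha (by omega), sum_range_succ' (fun m => if 1 ≤ a + m then
          nu P a (b + 1) m * P.v ^ (-wt P (b + 1 - m)) *
            f ((b + 1 - m) :: (a + m - 1) :: w) else 0),
        sum_range_succ (fun m => nu P a (b + 1) m *
          (if 1 ≤ b + 1 - m ∧ b + 1 - m < P.N then f ((b + 1 - m - 1) :: (a + m) :: w) else 0))]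
      have hlast : (if 1 ≤ b + 1 - (b + 1) ∧ b + 1 - (b + 1) < P.N then
          f ((b + 1 - (b + 1) - 1) :: (a + (b + 1)) :: w) else 0) = 0 := by
        rw [if_neg (by omega)]
      rw [hlast, mul_zero, add_zero]
      have hR1 : (if 1 ≤ a ∧ a < P.N then piece P .neg f ((a - 1) :: (b + 1) :: w) else 0) =
          ∑ m ∈ range (b + 1), (if 1 ≤ a ∧ a < P.N then nu P (a - 1) (b + 1) (m + 1) else 0) *
            f ((b - m) :: (a + m) :: w) +
          (if 1 ≤ a then nu P (a - 1) (b + 1) 0 * f ((b + 1) :: (a - 1) :: w) else 0) := by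
        by_cases ha1 : 1 ≤ a
        · rw [if_pos ⟨ha1, ha⟩, neg_apply (by omega) hb, sum_range_succ', if_pos ha1]
          congr 1
          apply sum_congr rfl
          intro m hm
          rw [mem_range] at hm
          rw [if_pos ⟨ha1, ha⟩]
          congr 3
          · omega
          · congr 1
            omega
        · rw [if_neg (by omega), if_neg ha1]
          symm
          rw [add_zero]
          apply sum_eq_zero
          intro m _
          rw [if_neg (by omega), zero_mul]
      rw [hR1]
      have hzero : (if 1 ≤ a + 0 then nu P a (b + 1) 0 * P.v ^ (-wt P (b + 1 - 0)) *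
          f ((b + 1 - 0) :: (a + 0 - 1) :: w) else 0) =
          (if 1 ≤ a then nu P (a - 1) (b + 1) 0 * f ((b + 1) :: (a - 1) :: w) else 0) := by
        by_cases ha1 : 1 ≤ a
        · rw [if_pos (show 1 ≤ a + 0 from ha1), if_pos ha1, ← nu_F_zero ha1, Nat.sub_zero,
            Nat.add_zero]
          ring
        · rw [if_neg (show ¬ 1 ≤ a + 0 from ha1), if_neg ha1]
      rw [hzero]
      have hmain : ∑ m ∈ range (b + 1), (if 1 ≤ a + (m + 1) then nu P a (b + 1) (m + 1) *
            P.v ^ (-wt P (b + 1 - (m + 1))) *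
            f ((b + 1 - (m + 1)) :: (a + (m + 1) - 1) :: w) else 0) +
          ∑ m ∈ range (b + 1), nu P a (b + 1) m *
            (if 1 ≤ b + 1 - m ∧ b + 1 - m < P.N then f ((b + 1 - m - 1) :: (a + m) :: w) else 0) =
          P.v ^ (-wt P a) * ∑ m ∈ range (b + 1), nu P a b m * f ((b - m) :: (a + m) :: w) +
          ∑ m ∈ range (b + 1),
            (if 1 ≤ a ∧ a < P.N then nu P (a - 1) (b + 1) (m + 1) else 0) *
            f ((b - m) :: (a + m) :: w) := by
        rw [mul_sum, ← sum_add_distrib, ← sum_add_distrib]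
        apply sum_congr rfl
        intro m hm
        rw [mem_range] at hm
        rw [if_pos (by omega), if_pos ⟨by omega, by omega⟩]
        have e1 : a + (m + 1) - 1 = a + m := by omega
        have e2 : b + 1 - (m + 1) = b - m := by omega
        have e3 : b + 1 - m - 1 = b - m := by omega
        rw [e1, e2, e3]
        have := nu_F (m := m) ha hb (by omega)
        by_cases ha1 : 1 ≤ a ∧ a < P.N
        · rw [if_pos ha1] at this ⊢
          linear_combination f ((b - m) :: (a + m) :: w) * this
        · rw [if_neg ha1] at this ⊢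
          linear_combination f ((b - m) :: (a + m) :: w) * this
      linear_combination hmain
  · rw [neg_apply_zero hv]
    simp only [Fop]
    have h3 : (fun u => piece P .neg f (a :: b :: u)) = fun _ => 0 := by
      funext u; exact neg_apply_zero hv f u
    rw [h3, Fop_zero_fun]
    have h1 : (if 1 ≤ a ∧ a < P.N then piece P .neg f ((a - 1) :: b :: w) else 0) = 0 := by
      split_ifs with h
      · exact neg_apply_zero (by omega) f w
      · rfl
    have h2 : (if 1 ≤ b ∧ b < P.N then piece P .neg f (a :: (b - 1) :: w) else 0) = 0 := by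
      split_ifs with h
      · exact neg_apply_zero (by omega) f w
      · rfl
    rw [h1, h2]; ring

lemma piece_neg_E {P : Par F} (f : List ℕ → F) (w : List ℕ) :
    piece P .neg (Eop P f) w = Eop P (piece P .neg f) w := by
  rcases w with _ | ⟨a, _ | ⟨b, w⟩⟩
  · simp [piece, Eop]
  · simp [piece, Eop]
  by_cases hv : a < P.N ∧ b < P.N
  · obtain ⟨ha, hb⟩ := hv
    rw [neg_apply ha hb]
    simp only [Eop, wtl]
    have h3 : Eop P (fun u => piece P .neg f (a :: b :: u)) w =
        ∑ m ∈ range (b + 1), nu P a b m * Eop P (fun u => f ((b - m) :: (a + m) :: u)) w := by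
      have : (fun u => piece P .neg f (a :: b :: u)) =
          fun u => ∑ m ∈ range (b + 1), nu P a b m * f ((b - m) :: (a + m) :: u) := by
        funext u; exact neg_apply ha hb f u
      rw [this, Eop_sum]
      apply sum_congr rfl
      intro m _
      exact Eop_smul P _ _ w
    rw [h3]
    have hP1 : ecoef P (a + 1) * piece P .neg f ((a + 1) :: b :: w) =
        ecoef P (a + 1) * ∑ m ∈ range (b + 1), nu P (a + 1) b m *
          f ((b - m) :: (a + 1 + m) :: w) := by
      by_cases h : a + 1 < P.N
      · rw [neg_apply h hb]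
      · rw [ecoef_ge (by omega)]; ring
    have hP2 : ecoef P (b + 1) * piece P .neg f (a :: (b + 1) :: w) =
        ecoef P (b + 1) * ∑ m ∈ range (b + 2), nu P a (b + 1) m *
          f ((b + 1 - m) :: (a + m) :: w) := by
      by_cases h : b + 1 < P.N
      · rw [neg_apply ha h]
      · rw [ecoef_ge (by omega)]; ring
    have hA : ∑ m ∈ range (b + 1), nu P a b m *
        (ecoef P (b - m + 1) * P.v ^ (wt P (a + m) + wtl P w) * f ((b - m + 1) :: (a + m) :: w) +
          (ecoef P (a + m + 1) * P.v ^ (wtl P w) * f ((b - m) :: (a + m + 1) :: w) +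
            Eop P (fun u => f ((b - m) :: (a + m) :: u)) w)) =
        P.v ^ (wtl P w) * (∑ m ∈ range (b + 1), (ecoef P (b + 1 - m) * P.v ^ (wt P (a + m)) *
          nu P a b m) * f ((b + 1 - m) :: (a + m) :: w)) +
        P.v ^ (wtl P w) * (∑ m ∈ range (b + 1), (ecoef P (a + m + 1) * nu P a b m) *
          f ((b - m) :: (a + 1 + m) :: w)) +
        ∑ m ∈ range (b + 1), nu P a b m * Eop P (fun u => f ((b - m) :: (a + m) :: u)) w := by
      rw [mul_sum, mul_sum, ← sum_add_distrib, ← sum_add_distrib]
      apply sum_congr rfl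
      intro m hm
      rw [mem_range] at hm
      have e1 : b - m + 1 = b + 1 - m := by omega
      have e2 : a + 1 + m = a + m + 1 := by ring
      rw [e1, ← vz, e2]
      ring
    rw [hA]
    have hB : ∑ m ∈ range (b + 1), (ecoef P (a + 1) * P.v ^ (wt P b) * nu P (a + 1) b m) *
          f ((b - m) :: (a + 1 + m) :: w) +
        ∑ m ∈ range (b + 2), (ecoef P (b + 1) * nu P a (b + 1) m) *
          f ((b + 1 - m) :: (a + m) :: w) =
        ∑ m ∈ range (b + 1), (ecoef P (b + 1 - m) * P.v ^ (wt P (a + m)) *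
          nu P a b m) * f ((b + 1 - m) :: (a + m) :: w) +
        ∑ m ∈ range (b + 1), (ecoef P (a + m + 1) * nu P a b m) *
          f ((b - m) :: (a + 1 + m) :: w) := by
      have e3 : ∑ m ∈ range (b + 1), (ecoef P (b + 1 - m) * P.v ^ (wt P (a + m)) *
          nu P a b m) * f ((b + 1 - m) :: (a + m) :: w) = ∑ m ∈ range (b + 2),
          (ecoef P (b + 1 - m) * P.v ^ (wt P (a + m)) *
          nu P a b m) * f ((b + 1 - m) :: (a + m) :: w) := by
        rw [sum_range_succ _ (b + 1), Nat.sub_self, ecoef_zero]; ring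
      rw [e3, sum_range_succ' _ (b + 1), sum_range_succ' _ (b + 1)]
      have e4 : ecoef P (b + 1) * nu P a (b + 1) 0 * f ((b + 1 - 0) ::
          (a + 0) :: w) = ecoef P (b + 1 - 0) * P.v ^ (wt P (a + 0)) * nu P a b 0 *
          f ((b + 1 - 0) :: (a + 0) :: w) := by
        rw [Nat.sub_zero, ← nu_E_zero]
        rfl
      rw [e4]
      have e5 : ∑ m ∈ range (b + 1), (ecoef P (a + 1) * P.v ^ (wt P b) * nu P (a + 1) b m) *
            f ((b - m) :: (a + 1 + m) :: w) +
          ∑ m ∈ range (b + 1), (ecoef P (b + 1) * nu P a (b + 1) (m + 1)) *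
            f ((b + 1 - (m + 1)) :: (a + (m + 1)) :: w) =
          ∑ m ∈ range (b + 1), (ecoef P (b + 1 - (m + 1)) * P.v ^ (wt P (a + (m + 1))) *
            nu P a b (m + 1)) * f ((b + 1 - (m + 1)) :: (a + (m + 1)) :: w) +
          ∑ m ∈ range (b + 1), (ecoef P (a + m + 1) * nu P a b m) *
            f ((b - m) :: (a + 1 + m) :: w) := by
        rw [← sum_add_distrib, ← sum_add_distrib]
        apply sum_congr rfl
        intro m hm
        rw [mem_range] at hm
        have e6 : b + 1 - (m + 1) = b - m := by omega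
        have e7 : a + (m + 1) = a + m + 1 := by ring
        have e8 : a + 1 + m = a + m + 1 := by ring
        rw [e6, e7, e8]
        have := nu_E (m := m) ha hb (by omega)
        linear_combination (- f ((b - m) :: (a + m + 1) :: w)) * this
      linear_combination e5
    have hC1 : ∑ m ∈ range (b + 1), (ecoef P (a + 1) * P.v ^ (wt P b) * nu P (a + 1) b m) *
          f ((b - m) :: (a + 1 + m) :: w) = P.v ^ (wt P b) * (ecoef P (a + 1) *
          ∑ m ∈ range (b + 1), nu P (a + 1) b m * f ((b - m) :: (a + 1 + m) :: w)) := by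
      rw [mul_sum, mul_sum]
      apply sum_congr rfl
      intro m _; ring
    have hC2 : ∑ m ∈ range (b + 2), (ecoef P (b + 1) * nu P a (b + 1) m) *
          f ((b + 1 - m) :: (a + m) :: w) = ecoef P (b + 1) *
          ∑ m ∈ range (b + 2), nu P a (b + 1) m * f ((b + 1 - m) :: (a + m) :: w) := by
      rw [mul_sum]
      apply sum_congr rfl
      intro m _; ring
    rw [hC1, hC2, ← hP1, ← hP2] at hB
    rw [← vz]
    linear_combination (- P.v ^ (wtl P w)) * hB
  · rw [neg_apply_zero hv]
    simp only [Eop]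
    have h3 : (fun u => piece P .neg f (a :: b :: u)) = fun _ => 0 := by
      funext u; exact neg_apply_zero hv f u
    rw [h3, Eop_zero_fun, neg_apply_zero (show ¬ (a + 1 < P.N ∧ b < P.N) by omega),
      neg_apply_zero (show ¬ (a < P.N ∧ b + 1 < P.N) by omega)]
    ring

/-! ### cup and cap -/

lemma cupC_succ {P : Par F} (i : ℕ) : cupC P (i + 1) = - P.v ^ (wt P (i + 1)) * cupC P i := by
  unfold cupC
  have : P.v ^ (((i + 1 : ℕ) : ℤ) * ((P.N : ℤ) - 2 - ((i + 1 : ℕ) : ℤ))) =
      P.v ^ (wt P (i + 1)) * P.v ^ ((i : ℤ) * ((P.N : ℤ) - 2 - i)) := by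
    rw [vz]; congr 1; unfold wt; push_cast; ring
  rw [this, pow_succ]; ring

lemma cupC_ne (P : Par F) (i : ℕ) : cupC P i ≠ 0 := by
  unfold cupC
  exact mul_ne_zero (pow_ne_zero _ (by norm_num)) (vz_ne _ _)

lemma capC_succ {P : Par F} {i : ℕ} (h : i + 1 < P.N) : capC P (i + 1) = - P.v ^ (-wt P i) * capC P i := by
  unfold capC
  obtain ⟨j, hj⟩ : ∃ j, P.N - 1 - i = j + 1 := ⟨P.N - 1 - i - 1, by omega⟩
  have hj' : P.N - 1 - (i + 1) = j := by omega
  rw [hj, hj', cupC_succ]
  have h1 : wt P (j + 1) = - wt P i := by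
    unfold wt
    have : ((j + 1 : ℕ) : ℤ) = (P.N : ℤ) - 1 - i := by omega
    rw [this]; ring
  have h2 := cupC_ne P j
  have h3 := vz_ne P (-wt P i)
  rw [h1]
  field_simp

lemma wt_add_wt {P : Par F} {a b : ℕ} (h : a + b + 1 = P.N) : wt P a + wt P b = 0 := by
  unfold wt; rw [← h]; push_cast; ring

lemma piece_cup_F {P : Par F} (f : List ℕ → F) (w : List ℕ) :
    piece P .cup (Fop P f) w = Fop P (piece P .cup f) w := by
  rcases w with _ | ⟨a, _ | ⟨b, w⟩⟩
  · simp [piece, Fop]
  · simp [piece, Fop]
  simp only [piece, Fop]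
  by_cases h : a + b + 1 = P.N
  · have h3 : Fop P (fun u => if a + b + 1 = P.N then cupC P a * f u else 0) w =
        cupC P a * Fop P f w := by
      have : (fun u => if a + b + 1 = P.N then cupC P a * f u else 0) =
          fun u => cupC P a * f u := by funext u; rw [if_pos h]
      rw [this, Fop_smul]
    have h0 : P.v ^ (-wt P a) * P.v ^ (-wt P b) = 1 := by
      rw [vz, ← neg_add, wt_add_wt h, neg_zero, zpow_zero]
    rw [if_pos h, h3]
    have h1 : (if 1 ≤ a ∧ a < P.N then (if a - 1 + b + 1 = P.N then cupC P (a - 1) * f w else 0)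
        else 0) = 0 := by
      split_ifs <;> first | rfl | omega
    have h2 : (if 1 ≤ b ∧ b < P.N then (if a + (b - 1) + 1 = P.N then cupC P a * f w else 0)
        else 0) = 0 := by
      split_ifs <;> first | rfl | omega
    rw [h1, h2]
    linear_combination (-cupC P a * Fop P f w) * h0
  · have h3 : Fop P (fun u => if a + b + 1 = P.N then cupC P a * f u else 0) w = 0 := by
      have : (fun u => if a + b + 1 = P.N then cupC P a * f u else 0) = fun _ => 0 := by
        funext u; rw [if_neg h]
      rw [this, Fop_zero_fun]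
    rw [if_neg h, h3]
    by_cases h' : a + b = P.N ∧ 1 ≤ a ∧ 1 ≤ b
    · obtain ⟨h1, h2, h4⟩ := h'
      rw [if_pos (show 1 ≤ a ∧ a < P.N by omega), if_pos (show a - 1 + b + 1 = P.N by omega),
        if_pos (show 1 ≤ b ∧ b < P.N by omega), if_pos (show a + (b - 1) + 1 = P.N by omega)]
      obtain ⟨i, rfl⟩ : ∃ i, a = i + 1 := ⟨a - 1, by omega⟩
      rw [Nat.add_sub_cancel, cupC_succ]
      have h5 : P.v ^ (-wt P (i + 1)) * P.v ^ (wt P (i + 1)) = 1 := by
        rw [vz, neg_add_cancel, zpow_zero]
      linear_combination (cupC P i * f w) * h5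
    · have h1 : (if 1 ≤ a ∧ a < P.N then (if a - 1 + b + 1 = P.N then cupC P (a - 1) * f w else 0)
          else 0) = 0 := by
        split_ifs <;> first | rfl | omega
      have h2 : (if 1 ≤ b ∧ b < P.N then (if a + (b - 1) + 1 = P.N then cupC P a * f w else 0)
          else 0) = 0 := by
        split_ifs <;> first | rfl | omega
      rw [h1, h2]; ring

lemma piece_cap_F {P : Par F} (f : List ℕ → F) (w : List ℕ) :
    piece P .cap (Fop P f) w = Fop P (piece P .cap f) w := by
  obtain ⟨M, hM⟩ : ∃ M, P.N = M + 1 := ⟨2 * P.l, rfl⟩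
  have hR : Fop P (piece P .cap f) w = ∑ a ∈ range (M + 1), capC P a *
      Fop P (fun u => f (a :: (M - a) :: u)) w := by
    have : piece P .cap f = fun u => ∑ a ∈ range (M + 1), capC P a *
        f (a :: (M - a) :: u) := by
      funext u; simp only [piece, hM, Nat.add_sub_cancel]
    rw [this, Fop_sum]
    apply sum_congr rfl
    intro a _
    exact Fop_smul _ _ _ _
  rw [hR]
  simp only [piece, Fop, hM, Nat.add_sub_cancel]
  have hw : ∀ a ∈ range (M + 1), P.v ^ (-wt P a) *
      P.v ^ (-wt P (M - a)) = 1 := by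
    intro a ha
    rw [mem_range] at ha
    rw [vz, ← neg_add, wt_add_wt (by omega), neg_zero, zpow_zero]
  have h1 : ∑ a ∈ range (M + 1), capC P a *
      ((if 1 ≤ a ∧ a < M + 1 then f ((a - 1) :: (M - a) :: w) else 0) +
        P.v ^ (-wt P a) *
          ((if 1 ≤ M - a ∧ M - a < M + 1 then f (a :: (M - a - 1) :: w) else 0) +
            P.v ^ (-wt P (M - a)) *
              Fop P (fun u => f (a :: (M - a) :: u)) w)) =
      ∑ a ∈ range (M + 1), capC P a *
        (if 1 ≤ a ∧ a < M + 1 then f ((a - 1) :: (M - a) :: w) else 0) +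
      ∑ a ∈ range (M + 1), capC P a * P.v ^ (-wt P a) *
        (if 1 ≤ M - a ∧ M - a < M + 1 then f (a :: (M - a - 1) :: w) else 0) +
      ∑ a ∈ range (M + 1), capC P a *
        Fop P (fun u => f (a :: (M - a) :: u)) w := by
    rw [← sum_add_distrib, ← sum_add_distrib]
    apply sum_congr rfl
    intro a ha
    linear_combination (capC P a * Fop P (fun u => f (a :: (M - a) :: u)) w) *
      hw a ha
  rw [h1, sum_range_succ' (fun a => capC P a *
        (if 1 ≤ a ∧ a < M + 1 then f ((a - 1) :: (M - a) :: w) else 0)),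
    sum_range_succ (fun a => capC P a * P.v ^ (-wt P a) *
        (if 1 ≤ M - a ∧ M - a < M + 1 then f (a :: (M - a - 1) :: w) else 0))]
  rw [if_neg (show ¬ (1 ≤ 0 ∧ 0 < M + 1) by omega),
    if_neg (show ¬ (1 ≤ M - M ∧ M - M < M + 1) by omega)]
  have h2 : ∑ a ∈ range M, capC P (a + 1) *
        (if 1 ≤ a + 1 ∧ a + 1 < M + 1 then f ((a + 1 - 1) :: (M - (a + 1)) :: w) else 0) +
      ∑ a ∈ range M, capC P a * P.v ^ (-wt P a) *
        (if 1 ≤ M - a ∧ M - a < M + 1 then f (a :: (M - a - 1) :: w) else 0) = 0 := by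
    rw [← sum_add_distrib]
    apply sum_eq_zero
    intro a ha
    rw [mem_range] at ha
    rw [if_pos (by omega), if_pos (by omega), capC_succ (by omega), Nat.add_sub_cancel]
    have e1 : M - (a + 1) = M - a - 1 := by omega
    rw [e1]; ring
  linear_combination h2

lemma piece_F {P : Par F} (p : Piece) (f : List ℕ → F) (w : List ℕ) :
    piece P p (Fop P f) w = Fop P (piece P p f) w := by
  cases p with
  | cup => exact piece_cup_F f w
  | cap => exact piece_cap_F f w
  | pos => exact piece_pos_F f w
  | neg => exact piece_neg_F f w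

lemma slice_F {P : Par F} (p : Piece) (k : ℕ) (f : List ℕ → F) :
    slice P p k (Fop P f) = Fop P (slice P p k f) := by
  induction k generalizing f with
  | zero => funext w; exact piece_F p f w
  | succ k ih =>
    funext w
    rcases w with _ | ⟨x, w⟩
    · simp [slice, Fop]
    · simp only [slice, Fop]
      have h1 : (fun u => (if 1 ≤ x ∧ x < P.N then f ((x - 1) :: u) else 0) +
          P.v ^ (-wt P x) * Fop P (fun u => f (x :: u)) u) =
          fun u => (fun u => if 1 ≤ x ∧ x < P.N then f ((x - 1) :: u) else 0) u +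
            (fun u => P.v ^ (-wt P x) * Fop P (fun u => f (x :: u)) u) u := rfl
      rw [h1, slice_add, slice_smul, ih]
      congr 1
      split_ifs with h
      · rfl
      · exact congrFun (slice_zero_fun P p k) w

/-- The operator of a diagram commutes with `F`. -/
lemma RT_F {P : Par F} (D : Diagram) (f : List ℕ → F) :
    RT P D (Fop P f) = Fop P (RT P D f) := by
  induction D generalizing f with
  | nil => rfl
  | cons s D ih => simp only [RT]; rw [slice_F, ih]

end Pool.Agent.Helper77.ST
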