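import Pool.Agent.Helper77.ST.GEquiv4

/-!
# Weights, the commutator of `E` and `F`, and nilpotency
-/

namespace Pool.Agent.Helper77.ST

open Finset
open Pool.Agent.Helper9.Kashaev (Piece Diagram)

variable {F : Type*} [Field F]

lemma piece_wtl {P : Par F} (p : Piece) (φ : ℤ → F) (g : List ℕ → F) (w : List ℕ) :
    piece P p (fun u => φ (wtl P u) * g u) w = φ (wtl P w) * piece P p g w := by
  cases p with
  | cup =>
    rcases w with _ | ⟨a, _ | ⟨b, w⟩⟩
    · simp [piece]
    · simp [piece]
    simp only [piece]
    split_ifs with h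
    · have : wtl P (a :: b :: w) = wtl P w := by
        simp only [wtl]; have := wt_add_wt h; linarith
      rw [this]; ring
    · ring
  | cap =>
    simp only [piece, mul_sum]
    apply sum_congr rfl
    intro a ha
    rw [mem_range] at ha
    have : wtl P (a :: (P.N - 1 - a) :: w) = wtl P w := by
      simp only [wtl]
      have := wt_add_wt (P := P) (a := a) (b := P.N - 1 - a) (by omega)
      linarith
    rw [this]; ring
  | pos =>
    rcases w with _ | ⟨a, _ | ⟨b, w⟩⟩
    · simp [piece]
    · simp [piece]
    simp only [piece, mul_sum]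
    apply sum_congr rfl
    intro m _
    split_ifs with h
    · have : wtl P ((b + m) :: (a - m) :: w) = wtl P (a :: b :: w) := by
        simp only [wtl, wt]
        push_cast [Nat.cast_sub h.1]
        ring
      rw [this]; ring
    · ring
  | neg =>
    rcases w with _ | ⟨a, _ | ⟨b, w⟩⟩
    · simp [piece]
    · simp [piece]
    simp only [piece, mul_sum]
    apply sum_congr rfl
    intro m _
    split_ifs with h
    · have : wtl P ((b - m) :: (a + m) :: w) = wtl P (a :: b :: w) := by
        simp only [wtl, wt]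
        push_cast [Nat.cast_sub h.1]
        ring
      rw [this]; ring
    · ring

lemma slice_wtl {P : Par F} (p : Piece) (k : ℕ) (φ : ℤ → F) (g : List ℕ → F) (w : List ℕ) :
    slice P p k (fun u => φ (wtl P u) * g u) w = φ (wtl P w) * slice P p k g w := by
  induction k generalizing φ g w with
  | zero => exact piece_wtl p φ g w
  | succ k ih =>
    rcases w with _ | ⟨x, w⟩
    · simp [slice]
    · simp only [slice, wtl]
      exact ih (fun y => φ (wt P x + y)) _ _

lemma piece_cup_E {P : Par F} (f : List ℕ → F) (w : List ℕ) :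
    piece P .cup (Eop P f) w = Eop P (piece P .cup f) w := by
  rcases w with _ | ⟨a, _ | ⟨b, w⟩⟩
  · simp [piece, Eop]
  · simp [piece, Eop]
  simp only [piece, Eop, wtl]
  have h3 : Eop P (fun u => if a + b + 1 = P.N then cupC P a * f u else 0) w =
      if a + b + 1 = P.N then cupC P a * Eop P f w else 0 := by
    split_ifs with h
    · exact Eop_smul _ _ _ _
    · exact Eop_zero_fun _ _
  rw [h3]
  by_cases h : a + b + 2 = P.N
  · rw [if_neg (show ¬ a + b + 1 = P.N by omega), if_pos (show a + 1 + b + 1 = P.N by omega),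
      if_pos (show a + (b + 1) + 1 = P.N by omega), cupC_succ]
    have h1 : ecoef P (a + 1) = ecoef P (b + 1) := by
      unfold ecoef
      rw [show P.N - (a + 1) = b + 1 by omega, show P.N - (b + 1) = a + 1 by omega]; ring
    have h2 : P.v ^ (wt P b + wtl P w) * P.v ^ (wt P (a + 1)) = P.v ^ (wtl P w) := by
      rw [vz]; congr 1
      have := wt_add_wt (P := P) (a := a + 1) (b := b) (by omega)
      linarith
    rw [h1]
    linear_combination (ecoef P (b + 1) * cupC P a * f w) * h2
  · rw [if_neg (show ¬ a + 1 + b + 1 = P.N by omega), if_neg (show ¬ a + (b + 1) + 1 = P.N by omega)]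
    ring

lemma piece_cap_E {P : Par F} (f : List ℕ → F) (w : List ℕ) :
    piece P .cap (Eop P f) w = Eop P (piece P .cap f) w := by
  obtain ⟨M, hM⟩ : ∃ M, P.N = M + 1 := ⟨2 * P.l, rfl⟩
  have hR : Eop P (piece P .cap f) w = ∑ a ∈ range (M + 1), capC P a *
      Eop P (fun u => f (a :: (M - a) :: u)) w := by
    have : piece P .cap f = fun u => ∑ a ∈ range (M + 1), capC P a *
        f (a :: (M - a) :: u) := by
      funext u; simp only [piece, hM, Nat.add_sub_cancel]
    rw [this, Eop_sum]
    apply sum_congr rfl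
    intro a _
    exact Eop_smul _ _ _ _
  rw [hR]
  simp only [piece, Eop, wtl, hM, Nat.add_sub_cancel]
  have h1 : ∑ a ∈ range (M + 1), capC P a *
      (ecoef P (a + 1) * P.v ^ (wt P (M - a) + wtl P w) *
          f ((a + 1) :: (M - a) :: w) +
        (ecoef P (M - a + 1) * P.v ^ (wtl P w) *
          f (a :: (M - a + 1) :: w) +
            Eop P (fun u => f (a :: (M - a) :: u)) w)) =
      ∑ a ∈ range (M + 1), capC P a *
        (ecoef P (a + 1) * P.v ^ (wt P (M - a) + wtl P w) *
          f ((a + 1) :: (M - a) :: w)) +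
      ∑ a ∈ range (M + 1), capC P a *
        (ecoef P (M - a + 1) * P.v ^ (wtl P w) *
          f (a :: (M - a + 1) :: w)) +
      ∑ a ∈ range (M + 1), capC P a *
        Eop P (fun u => f (a :: (M - a) :: u)) w := by
    rw [← sum_add_distrib, ← sum_add_distrib]
    apply sum_congr rfl
    intro a _
    ring
  rw [h1, sum_range_succ (fun a => capC P a *
        (ecoef P (a + 1) * P.v ^ (wt P (M - a) + wtl P w) *
          f ((a + 1) :: (M - a) :: w))),
    sum_range_succ' (fun a => capC P a *
        (ecoef P (M - a + 1) * P.v ^ (wtl P w) *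
          f (a :: (M - a + 1) :: w)))]
  rw [ecoef_ge (show P.N ≤ M + 1 by omega), ecoef_ge (show P.N ≤ M - 0 + 1 by omega)]
  have h2 : ∑ a ∈ range M, capC P a *
        (ecoef P (a + 1) * P.v ^ (wt P (M - a) + wtl P w) *
          f ((a + 1) :: (M - a) :: w)) +
      ∑ a ∈ range M, capC P (a + 1) *
        (ecoef P (M - (a + 1) + 1) * P.v ^ (wtl P w) *
          f ((a + 1) :: (M - (a + 1) + 1) :: w)) = 0 := by
    rw [← sum_add_distrib]
    apply sum_eq_zero
    intro a ha
    rw [mem_range] at ha
    rw [capC_succ (show a + 1 < P.N by omega)]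
    have e1 : M - (a + 1) + 1 = M - a := by omega
    rw [e1]
    have e2 : ecoef P (M - a) = ecoef P (a + 1) := by
      unfold ecoef
      rw [show P.N - (M - a) = a + 1 by omega, show P.N - (a + 1) = M - a by omega]; ring
    have e3 : wt P (M - a) = - wt P a := by
      have := wt_add_wt (P := P) (a := a) (b := M - a) (by omega)
      linarith
    rw [e2, e3, ← vz]
    ring
  linear_combination h2

lemma piece_E {P : Par F} (p : Piece) (f : List ℕ → F) (w : List ℕ) :
    piece P p (Eop P f) w = Eop P (piece P p f) w := by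
  cases p with
  | cup => exact piece_cup_E f w
  | cap => exact piece_cap_E f w
  | pos => exact piece_pos_E f w
  | neg => exact piece_neg_E f w

lemma slice_E {P : Par F} (p : Piece) (k : ℕ) (f : List ℕ → F) :
    slice P p k (Eop P f) = Eop P (slice P p k f) := by
  induction k generalizing f with
  | zero => funext w; exact piece_E p f w
  | succ k ih =>
    funext w
    rcases w with _ | ⟨x, w⟩
    · simp [slice, Eop]
    · simp only [slice, Eop]
      have h1 : (fun u => ecoef P (x + 1) * P.v ^ (wtl P u) * f ((x + 1) :: u) +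
          Eop P (fun u => f (x :: u)) u) =
          fun u => (fun u => (fun y => ecoef P (x + 1) * P.v ^ y) (wtl P u) *
            (fun u => f ((x + 1) :: u)) u) u + (fun u => Eop P (fun u => f (x :: u)) u) u := rfl
      rw [h1, slice_add]
      exact congrArg₂ (· + ·) (slice_wtl (P := P) p k (fun y => ecoef P (x + 1) * P.v ^ y)
        (fun u => f ((x + 1) :: u)) w) (congrFun (ih _) w)

lemma RT_E {P : Par F} (D : Diagram) (f : List ℕ → F) :
    RT P D (Eop P f) = Eop P (RT P D f) := by
  induction D generalizing f with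
  | nil => rfl
  | cons s D ih => simp only [RT]; rw [slice_E, ih]

lemma RT_wtl {P : Par F} (D : Diagram) (φ : ℤ → F) (g : List ℕ → F) :
    RT P D (fun u => φ (wtl P u) * g u) = fun w => φ (wtl P w) * RT P D g w := by
  induction D generalizing g with
  | nil => rfl
  | cons s D ih =>
    simp only [RT]
    have : slice P s.2 s.1 (fun u => φ (wtl P u) * g u) =
        fun w => φ (wtl P w) * slice P s.2 s.1 g w := by
      funext w; exact slice_wtl _ _ _ _ _
    rw [this, ih]

/-! ### the generators change the weight -/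

lemma Eop_wtl {P : Par F} (φ : ℤ → F) (g : List ℕ → F) (w : List ℕ) :
    Eop P (fun u => φ (wtl P u) * g u) w = φ (wtl P w - 2) * Eop P g w := by
  induction w generalizing φ g with
  | nil => simp [Eop]
  | cons x w ih =>
    simp only [Eop, wtl]
    rw [ih (fun y => φ (wt P x + y)) (fun u => g (x :: u))]
    have e1 : wt P (x + 1) + wtl P w = wt P x + wtl P w - 2 := by unfold wt; push_cast; ring
    have e2 : wt P x + (wtl P w - 2) = wt P x + wtl P w - 2 := by ring
    rw [e1, e2]; ring

lemma Fop_wtl {P : Par F} (φ : ℤ → F) (g : List ℕ → F) (w : List ℕ) :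
    Fop P (fun u => φ (wtl P u) * g u) w = φ (wtl P w + 2) * Fop P g w := by
  induction w generalizing φ g with
  | nil => simp [Fop]
  | cons x w ih =>
    simp only [Fop, wtl]
    rw [ih (fun y => φ (wt P x + y)) (fun u => g (x :: u))]
    have e2 : wt P x + (wtl P w + 2) = wt P x + wtl P w + 2 := by ring
    rw [e2]
    split_ifs with h
    · have e1 : wt P (x - 1) + wtl P w = wt P x + wtl P w + 2 := by
        unfold wt; push_cast [Nat.cast_sub h.1]; ring
      rw [e1]; ring
    · ring

/-- the commutator of `E` and `F` -/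
lemma EF_comm {P : Par F} (f : List ℕ → F)
    (hf : ∀ w, (∃ x ∈ w, P.N ≤ x) → f w = 0) (w : List ℕ) :
    Eop P (Fop P f) w - Fop P (Eop P f) w = qi P (wtl P w) * f w := by
  induction w generalizing f with
  | nil => simp [Eop, Fop, wtl, qi_zero]
  | cons x w ih =>
    simp only [Eop, Fop, wtl]
    have ih' := ih (fun u => f (x :: u)) (by
      rintro u ⟨y, hy, hy'⟩
      exact hf _ ⟨y, List.mem_cons_of_mem _ hy, hy'⟩)
    have h1 : Eop P (fun u => (if 1 ≤ x ∧ x < P.N then f ((x - 1) :: u) else 0) +
        P.v ^ (-wt P x) * Fop P (fun u => f (x :: u)) u) w =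
        (if 1 ≤ x ∧ x < P.N then Eop P (fun u => f ((x - 1) :: u)) w else 0) +
        P.v ^ (-wt P x) * Eop P (Fop P (fun u => f (x :: u))) w := by
      rw [Eop_add P (fun u => if 1 ≤ x ∧ x < P.N then f ((x - 1) :: u) else 0)
        (fun u => P.v ^ (-wt P x) * Fop P (fun u => f (x :: u)) u), Eop_smul]
      congr 1
      split_ifs
      · rfl
      · exact Eop_zero_fun _ _
    have h2 : Fop P (fun u => ecoef P (x + 1) * P.v ^ (wtl P u) * f ((x + 1) :: u) +
        Eop P (fun u => f (x :: u)) u) w =
        ecoef P (x + 1) * P.v ^ (wtl P w + 2) * Fop P (fun u => f ((x + 1) :: u)) w +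
        Fop P (Eop P (fun u => f (x :: u))) w := by
      rw [Fop_add P (fun u => ecoef P (x + 1) * P.v ^ (wtl P u) * f ((x + 1) :: u))
        (fun u => Eop P (fun u => f (x :: u)) u)]
      congr 1
      exact Fop_wtl (fun y => ecoef P (x + 1) * P.v ^ y) (fun u => f ((x + 1) :: u)) w
    rw [h1, h2]
    -- now algebra
    have e1 : P.v ^ (wtl P w) * P.v ^ (-wt P (x + 1)) =
        P.v ^ (-wt P x) * P.v ^ (wtl P w + 2) := by
      rw [vz, vz]; congr 1; unfold wt; push_cast; ring
    have hq : qi P (wt P x + wtl P w) =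
        qi P (wt P x) * P.v ^ (wtl P w) + P.v ^ (-wt P x) * qi P (wtl P w) := by
      unfold qi
      rw [neg_add, ← vz, ← vz]
      field_simp
      ring
    have hA : ecoef P (x + 1) * (if 1 ≤ x + 1 ∧ x + 1 < P.N then f ((x + 1 - 1) :: w) else 0) -
        (if 1 ≤ x ∧ x < P.N then ecoef P (x - 1 + 1) * f ((x - 1 + 1) :: w) else 0) =
        qi P (wt P x) * f (x :: w) := by
      by_cases hx : x < P.N
      · have hec : ecoef P (x + 1) - ecoef P x = qi P (wt P x) := by
          rw [ecoef_sub (by omega) hx.le]
          have e3 : ((x + 1 : ℕ) : ℤ) - (x : ℤ) = 1 := by push_cast; ring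
          have e4 : (P.N : ℤ) - ((x + 1 : ℕ) : ℤ) - (x : ℤ) = wt P x := by
            unfold wt; push_cast; ring
          rw [e3, e4, qi_one, one_mul]
        have hB : (if 1 ≤ x ∧ x < P.N then ecoef P (x - 1 + 1) * f ((x - 1 + 1) :: w) else 0) =
            ecoef P x * f (x :: w) := by
          by_cases h0 : 1 ≤ x
          · rw [if_pos ⟨h0, hx⟩, Nat.sub_add_cancel h0]
          · rw [if_neg (by omega), show x = 0 by omega, ecoef_zero, zero_mul]
        have hC : ecoef P (x + 1) *
            (if 1 ≤ x + 1 ∧ x + 1 < P.N then f ((x + 1 - 1) :: w) else 0) =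
            ecoef P (x + 1) * f (x :: w) := by
          by_cases h0 : x + 1 < P.N
          · rw [if_pos ⟨by omega, h0⟩, Nat.add_sub_cancel]
          · rw [ecoef_ge (by omega)]; ring
        rw [hB, hC, ← hec]; ring
      · rw [if_neg (by omega), if_neg (by omega), hf (x :: w) ⟨x, by simp, by omega⟩]; ring
    have hif : (if 1 ≤ x ∧ x < P.N then ecoef P (x - 1 + 1) * P.v ^ (wtl P w) *
        f ((x - 1 + 1) :: w) + Eop P (fun u => f ((x - 1) :: u)) w else 0) =
        P.v ^ (wtl P w) * (if 1 ≤ x ∧ x < P.N then ecoef P (x - 1 + 1) * f ((x - 1 + 1) :: w)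
          else 0) + (if 1 ≤ x ∧ x < P.N then Eop P (fun u => f ((x - 1) :: u)) w else 0) := by
      split_ifs <;> ring
    rw [hif, hq]
    linear_combination (P.v ^ (wtl P w)) * hA + (P.v ^ (-wt P x)) * ih' +
      (ecoef P (x + 1) * Fop P (fun u => f ((x + 1) :: u)) w) * e1

end Pool.Agent.Helper77.ST
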