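import Pool.Agent.Helper77.ST.GWf
import Pool.Agent.Helper77.ST.GQBin

/-!
# A strand passes over two strands, and back
-/

namespace Pool.Agent.Helper77.ST

open Finset
open Pool.Agent.Helper9.Kashaev (Piece Diagram)

variable {F : Type*} [Field F]

lemma natp_FL_one {P : Par F} (l : ℕ) (h : List ℕ → F) {b : ℕ} (hb : b < P.N) :
    (FL P ^ l) h [b] = if l ≤ b then h [b - l] else 0 := by
  induction l generalizing h with
  | zero => simp
  | succ l ih =>
    rw [pow_succ, Module.End.mul_apply, ih]
    by_cases h1 : l ≤ b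
    · rw [if_pos h1]
      show Fop P h [b - l] = _
      simp only [Fop, mul_zero, add_zero]
      by_cases h2 : l + 1 ≤ b
      · rw [if_pos ⟨by omega, by omega⟩, if_pos h2]
        congr 2
      · rw [if_neg (by omega), if_neg h2]
    · rw [if_neg h1, if_neg (by omega)]

lemma natp_EL_one {P : Par F} (l : ℕ) (h : List ℕ → F) (b : ℕ) :
    (EL P ^ l) h [b] = eta P b l * h [b + l] := by
  induction l generalizing h with
  | zero => simp [eta_zero]
  | succ l ih =>
    rw [pow_succ, Module.End.mul_apply, ih]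
    show eta P b l * Eop P h [b + l] = _
    simp only [Eop, wtl, zpow_zero, add_zero, mul_one]
    rw [eta_succ, ← mul_assoc]
    rfl

lemma natp_FL_two {P : Par F} {m : ℕ} (hm : m ≤ P.N) (g : List ℕ → F) {a b : ℕ}
    (ha : a < P.N) (hb : b < P.N) :
    (FL P ^ m) g [a, b] = ∑ j ∈ range (m + 1), P.v ^ ((j : ℤ) * ((m : ℤ) - j)) * qb P m j *
      (if j ≤ a then P.v ^ (-(((m - j : ℕ) : ℤ) * wt P (a - j))) *
        (if m - j ≤ b then g [a - j, b - (m - j)] else 0) else 0) := by
  rw [FL_eq, q_binomial (Or.inr rfl) (FP P) (FQ P) FQ_FP m hm]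
  rw [LinearMap.sum_apply, Finset.sum_apply]
  apply sum_congr rfl
  intro j hj
  rw [LinearMap.smul_apply, Pi.smul_apply, smul_eq_mul, Module.End.mul_apply, inv_zpow', neg_neg]
  congr 1
  have h1 : (FP P ^ j) ((FQ P ^ (m - j)) g) [a, b] =
      if j ≤ a then (FQ P ^ (m - j)) g [a - j, b] else 0 := by
    rcases j with _ | j
    · simp
    · rw [FP_pow]
      by_cases h : j + 1 ≤ a
      · rw [if_pos ⟨h, ha⟩, if_pos h]
      · rw [if_neg (by omega), if_neg h]
  rw [h1]
  by_cases h : j ≤ a
  · rw [if_pos h, if_pos h, FQ_pow, natp_FL_one _ _ hb]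
  · rw [if_neg h, if_neg h]

lemma natp_EL_two {P : Par F} {m : ℕ} (hm : m ≤ P.N) (g : List ℕ → F) (a b : ℕ) :
    (EL P ^ m) g [a, b] = ∑ j ∈ range (m + 1), P.v ^ (-((j : ℤ) * ((m : ℤ) - j))) * qb P m j *
      (eta P a j * P.v ^ ((j : ℤ) * wt P b) * (eta P b (m - j) * g [a + j, b + (m - j)])) := by
  rw [EL_eq, q_binomial (Or.inl rfl) (EP P) (EQ P) EQ_EP m hm]
  rw [LinearMap.sum_apply, Finset.sum_apply]
  apply sum_congr rfl
  intro j hj
  rw [LinearMap.smul_apply, Pi.smul_apply, smul_eq_mul, Module.End.mul_apply]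
  congr 1
  rw [EP_pow, EQ_pow, natp_EL_one]
  simp [wtl]

lemma natp_kap {P : Par F} {m1 m2 : ℕ} (h : m1 + m2 < P.N) :
    kap P m1 * kap P m2 =
      kap P (m1 + m2) * (P.v ^ (-((m1 : ℤ) * m2)) * qb P (m1 + m2) m1) := by
  have e1 : ∀ m : ℕ, (m + 1) * (m + 1 - 1) / 2 = m * (m - 1) / 2 + m := by
    intro m
    have := Nat.choose_two_right (m + 1)
    have h2 := Nat.choose_two_right m
    rw [← this, ← h2, Nat.choose_succ_succ', Nat.choose_one_right, add_comm]
  have e2 : (m1 + m2) * (m1 + m2 - 1) / 2 =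
      m1 * (m1 - 1) / 2 + m2 * (m2 - 1) / 2 + m1 * m2 := by
    induction m2 with
    | zero => simp
    | succ m ih =>
      have ih := ih (by omega)
      rw [show m1 + (m + 1) = (m1 + m) + 1 by ring, e1, ih, e1]
      ring
  have h1 := qb_mul (P := P) (m1 + m2) m1 (by omega)
  rw [Nat.add_sub_cancel_left] at h1
  have q1 : qfac P m1 ≠ 0 := qfac_ne (by omega)
  have q2 : qfac P m2 ≠ 0 := qfac_ne (by omega)
  have q3 : qfac P (m1 + m2) ≠ 0 := qfac_ne (by omega)
  have hv : P.v ^ (m1 * m2) * P.v ^ (-((m1 : ℤ) * m2)) = 1 := by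
    rw [← zpow_natCast, vz]; push_cast; rw [add_neg_cancel, zpow_zero]
  have h2 : qb P (m1 + m2) m1 = qfac P (m1 + m2) / (qfac P m1 * qfac P m2) := by
    rw [← h1]; field_simp
  unfold kap
  rw [e2, h2, pow_add, pow_add, pow_add]
  generalize P.v - (P.v)⁻¹ = z at *
  generalize P.v ^ (m1 * (m1 - 1) / 2) = A at *
  generalize P.v ^ (m2 * (m2 - 1) / 2) = B at *
  generalize P.v ^ (m1 * m2) = C at *
  generalize P.v ^ (-((m1 : ℤ) * m2)) = D at *
  have h3 : A * B * C * (z ^ m1 * z ^ m2 / qfac P (m1 + m2)) *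
      (D * (qfac P (m1 + m2) / (qfac P m1 * qfac P m2))) =
      (C * D) * (A * B * (z ^ m1 * z ^ m2) / (qfac P m1 * qfac P m2)) := by
    field_simp
  rw [h3, hv]
  field_simp

lemma natp_tht {P : Par F} (a i m : ℕ) :
    tht P a (i + m) = tht P a i * P.v ^ (-((m : ℤ) * wt P a)) := by
  induction m with
  | zero => simp
  | succ m ih =>
    rw [← add_assoc, tht_succ_right, ih, mul_assoc, vz]
    congr 2; push_cast; ring

/-- sums over two indices, by the sum of the indices -/
lemma natp_sum {P : Par F} {A B : ℕ} (T : ℕ → ℕ → F) (h : ∀ x y, P.N ≤ x + y → T x y = 0) :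
    ∑ y ∈ range B, ∑ x ∈ range A, T x y = ∑ m ∈ range P.N, ∑ j ∈ range (m + 1),
      if j < A ∧ m - j < B then T j (m - j) else 0 := by
  have h1 := sum_range_diag_flip P.N (fun x y => if x < A ∧ y < B then T x y else 0)
  rw [h1, sum_comm]
  have e : ∀ x, ∑ y ∈ range (P.N - x), (if x < A ∧ y < B then T x y else 0) =
      if x < A then ∑ y ∈ range B, T x y else 0 := by
    intro x
    by_cases hx : x < A
    · rw [if_pos hx]
      have e1 : ∑ y ∈ range (P.N - x), (if x < A ∧ y < B then T x y else 0) =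
          ∑ y ∈ (range (P.N - x)).filter (fun y => y < B), T x y := by
        rw [sum_filter]
        apply sum_congr rfl
        intro y _
        by_cases hy : y < B
        · rw [if_pos ⟨hx, hy⟩, if_pos hy]
        · rw [if_neg (by tauto), if_neg hy]
      rw [e1]
      apply sum_subset
      · intro y hy
        rw [mem_filter] at hy
        exact mem_range.mpr hy.2
      · intro y hy hy2
        apply h
        rw [mem_filter, mem_range] at hy2
        rw [mem_range] at hy
        by_contra h3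
        exact hy2 ⟨by omega, hy⟩
    · rw [if_neg hx]
      apply sum_eq_zero
      intro y _
      rw [if_neg (by tauto)]
  simp only [e]
  have e2 : ∑ x ∈ range P.N, (if x < A then ∑ y ∈ range B, T x y else 0) =
      ∑ x ∈ (range P.N).filter (fun x => x < A), ∑ y ∈ range B, T x y := by
    rw [sum_filter]
  rw [e2]
  symm
  apply sum_subset
  · intro y hy
    rw [mem_filter] at hy
    exact mem_range.mpr hy.2
  · intro x hx hx2
    apply sum_eq_zero
    intro y _
    apply h
    rw [mem_filter, mem_range] at hx2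
    rw [mem_range] at hx
    by_contra h3
    exact hx2 ⟨by omega, hx⟩

/-- `e_i` from the left over two strands; `kap P m * eta P i m` are the coefficients -/
theorem nat_over {P : Par F} {f : List ℕ → F} (hf : Sup P 3 f) {a b i : ℕ} (ha : a < P.N)
    (hb : b < P.N) (hi : i < P.N) :
    RT P [(0, .pos), (1, .pos)] f [a, b, i] = ∑ m ∈ range P.N, kap P m * eta P i m *
      (tht P i a * tht P i b) * ((FL P ^ m) (fun u => f ((i + m) :: u))) [a, b] := by
  have e1 : RT P [(0, .pos), (1, .pos)] f [a, b, i] = piece P .pos (fun u =>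
      piece P .pos f (a :: u)) [b, i] := rfl
  rw [e1, pos_apply hb hi]
  have e2 : ∑ m ∈ range (b + 1), rho P b i m * piece P .pos f (a :: (i + m) :: (b - m) :: []) =
      ∑ y ∈ range (b + 1), ∑ x ∈ range (a + 1),
        rho P b i y * (rho P a (i + y) x * f [i + y + x, a - x, b - y]) := by
    apply sum_congr rfl
    intro y _
    by_cases hy : i + y < P.N
    · rw [pos_apply ha hy, mul_sum]
    · have : rho P b i y = 0 := by
        unfold rho; rw [eta_eq_zero hi (by omega)]; ring
      simp [this]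
  rw [e2]
  have e3 := natp_sum (P := P) (A := a + 1) (B := b + 1)
    (fun x y => rho P b i y * (rho P a (i + y) x * f [i + y + x, a - x, b - y])) (by
      intro x y hxy
      rcases Nat.lt_or_ge (i + y) P.N with h | h
      · have : rho P a (i + y) x = 0 := by
          unfold rho; rw [eta_eq_zero h (by omega)]; ring
        simp [this]
      · have : rho P b i y = 0 := by
          unfold rho; rw [eta_eq_zero hi (by omega)]; ring
        simp [this])
  rw [e3]
  apply sum_congr rfl
  intro m hm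
  rw [mem_range] at hm
  rw [natp_FL_two hm.le _ ha hb, mul_sum]
  apply sum_congr rfl
  intro j hj
  rw [mem_range] at hj
  obtain ⟨l, rfl⟩ : ∃ l, m = j + l := ⟨m - j, by omega⟩
  rw [Nat.add_sub_cancel_left]
  by_cases h1 : j ≤ a
  swap
  · rw [if_neg (by omega), if_neg h1]; ring
  by_cases h2 : l ≤ b
  swap
  · rw [if_neg (by omega), if_pos h1, if_neg h2]; ring
  rw [if_pos ⟨by omega, by omega⟩, if_pos h1, if_pos h2]
  unfold rho
  have k1 := natp_kap (P := P) (m1 := j) (m2 := l) hm
  have k2 := natp_tht (P := P) a i l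
  have k3 : eta P i (j + l) = eta P i l * eta P (i + l) j := by
    unfold eta
    rw [add_comm j l, prod_range_add]
    congr 1
    apply prod_congr rfl
    intro t _
    congr 1; ring
  have k4 : wt P (a - j) = wt P a + 2 * j := by
    unfold wt; push_cast [Nat.cast_sub h1]; ring
  have k5 : i + l + j = i + (j + l) := by ring
  rw [k2, k3, k4, k5, tht_symm P b i, tht_symm P a i]
  have k6 : P.v ^ (((j : ℤ)) * (((j + l : ℕ) : ℤ) - j)) *
      P.v ^ (-(((l : ℕ) : ℤ) * (wt P a + 2 * j))) = P.v ^ (-((l : ℤ) * wt P a)) *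
        P.v ^ (-((j : ℤ) * l)) := by
    rw [vz, vz]; congr 1; push_cast; ring
  linear_combination (tht P i b * eta P i l * tht P i a * P.v ^ (-((l : ℤ) * wt P a)) *
    eta P (i + l) j * f [i + (j + l), a - j, b - l]) * k1 -
    (kap P (j + l) * (eta P i l * eta P (i + l) j) * (tht P i a * tht P i b) * qb P (j + l) j *
      f [i + (j + l), a - j, b - l]) * k6

/-- `e_i` back from the right under two strands -/
theorem nat_under {P : Par F} {f : List ℕ → F} (hf : Sup P 3 f) {a b i : ℕ} (ha : a < P.N)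
    (hb : b < P.N) (hi : i < P.N) :
    RT P [(1, .pos), (0, .pos)] f [i, a, b] = ∑ m ∈ range (i + 1), kap P m *
      (tht P i a * tht P i b) * ((EL P ^ m) (fun u => f (u ++ [i - m]))) [a, b] := by
  have e1 : RT P [(1, .pos), (0, .pos)] f [i, a, b] =
      piece P .pos (slice P .pos 1 f) [i, a, b] := rfl
  rw [e1, pos_apply hi ha]
  have e2 : ∑ m ∈ range (i + 1), rho P i a m * slice P .pos 1 f ((a + m) :: (i - m) :: [b]) =
      ∑ x ∈ range (i + 1), ∑ y ∈ range (i + 1 - x),
        rho P i a x * (rho P (i - x) b y * f [a + x, b + y, i - x - y]) := by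
    apply sum_congr rfl
    intro x hx
    rw [mem_range] at hx
    have e3 : slice P .pos 1 f ((a + x) :: (i - x) :: [b]) =
      piece P .pos (fun u => f ((a + x) :: u)) [i - x, b] := rfl
    rw [e3, pos_apply (by omega) hb, mul_sum, show i - x + 1 = i + 1 - x by omega]
  rw [e2, ← sum_range_diag_flip (i + 1)
    (fun x y => rho P i a x * (rho P (i - x) b y * f [a + x, b + y, i - x - y]))]
  apply sum_congr rfl
  intro m hm
  rw [mem_range] at hm
  rw [natp_EL_two (by omega) _ a b, mul_sum]
  apply sum_congr rfl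
  intro j hj
  rw [mem_range] at hj
  obtain ⟨l, rfl⟩ : ∃ l, m = j + l := ⟨m - j, by omega⟩
  rw [Nat.add_sub_cancel_left]
  have k0 : [a + j, b + l] ++ [i - (j + l)] = [a + j, b + l, i - j - l] := by
    simp [Nat.sub_sub]
  rw [k0]
  unfold rho
  have k1 := natp_kap (P := P) (m1 := j) (m2 := l) (by omega)
  have k2 : tht P i b = tht P (i - j) b * P.v ^ (-((j : ℤ) * wt P b)) := by
    have := natp_tht (P := P) b (i - j) j
    rw [Nat.sub_add_cancel (by omega), tht_symm P b i, tht_symm P b (i - j)] at this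
    exact this
  have k3 : P.v ^ (-((j : ℤ) * wt P b)) * P.v ^ ((j : ℤ) * wt P b) = 1 := by
    rw [vz, neg_add_cancel, zpow_zero]
  have k6 : P.v ^ (-((j : ℤ) * (((j + l : ℕ) : ℤ) - j))) = P.v ^ (-((j : ℤ) * l)) := by
    congr 1; push_cast; ring
  rw [k2, k6]
  linear_combination (tht P i a * eta P a j * tht P (i - j) b * eta P b l *
      f [a + j, b + l, i - j - l]) * k1 -
    (kap P (j + l) * tht P i a * tht P (i - j) b * P.v ^ (-((j : ℤ) * l)) * qb P (j + l) j *
      eta P a j * eta P b l * f [a + j, b + l, i - j - l]) * k3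

end Pool.Agent.Helper77.ST
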