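import Pool.Agent.Helper77.ST.GEquiv5

/-!
# Supports
-/

namespace Pool.Agent.Helper77.ST

open Finset
open Pool.Agent.Helper9.Kashaev (Piece Diagram)

variable {F : Type*} [Field F]

/-- functions supported on words of `n` letters `< P.N` -/
def Sup (P : Par F) (n : ℕ) (f : List ℕ → F) : Prop :=
  ∀ w, ¬ (w.length = n ∧ ∀ x ∈ w, x < P.N) → f w = 0

lemma Sup.cons {P : Par F} {n : ℕ} {f : List ℕ → F} (hf : Sup P (n + 1) f) (x : ℕ) :
    Sup P n (fun u => f (x :: u)) := by
  intro w hw
  apply hf
  rintro ⟨h1, h2⟩
  apply hw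
  refine ⟨by simpa using h1, fun y hy => h2 y (List.mem_cons_of_mem _ hy)⟩

lemma Sup.cons_zero {P : Par F} {n : ℕ} {f : List ℕ → F} (hf : Sup P n f) {x : ℕ} (hx : P.N ≤ x) :
    (fun u => f (x :: u)) = fun _ => 0 := by
  funext w
  apply hf
  rintro ⟨_, h2⟩
  have := h2 x (by simp)
  omega

lemma Sup.cons_zero' {P : Par F} {f : List ℕ → F} (hf : Sup P 0 f) (x : ℕ) :
    (fun u => f (x :: u)) = fun _ => 0 := by
  funext w
  apply hf
  rintro ⟨h1, _⟩
  simp at h1

lemma Sup_E {P : Par F} : ∀ (w : List ℕ) (n : ℕ) (f : List ℕ → F), Sup P n f →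
    ¬ (w.length = n ∧ ∀ x ∈ w, x < P.N) → Eop P f w = 0 := by
  intro w
  induction w with
  | nil => intro n f _ _; simp [Eop]
  | cons x w ih =>
    intro n f hf hw
    simp only [Eop]
    have h1 : f ((x + 1) :: w) = 0 := by
      apply hf
      rintro ⟨h1, h2⟩
      apply hw
      refine ⟨by simpa using h1, ?_⟩
      intro y hy
      rcases List.mem_cons.mp hy with rfl | hy
      · have := h2 (y + 1) (by simp); omega
      · exact h2 y (List.mem_cons_of_mem _ hy)
    have h2 : Eop P (fun u => f (x :: u)) w = 0 := by
      rcases n with _ | n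
      · rw [hf.cons_zero', Eop_zero_fun]
      · by_cases hx : x < P.N
        · apply ih n _ (hf.cons x)
          rintro ⟨h1, h2⟩
          apply hw
          refine ⟨by simp [h1], ?_⟩
          intro y hy
          rcases List.mem_cons.mp hy with rfl | hy
          · exact hx
          · exact h2 y hy
        · rw [hf.cons_zero (by omega), Eop_zero_fun]
    rw [h1, h2]; ring

lemma Sup.Eo {P : Par F} {n : ℕ} {f : List ℕ → F} (hf : Sup P n f) : Sup P n (Eop P f) :=
  fun w hw => Sup_E w n f hf hw

lemma Sup_F {P : Par F} : ∀ (w : List ℕ) (n : ℕ) (f : List ℕ → F), Sup P n f →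
    ¬ (w.length = n ∧ ∀ x ∈ w, x < P.N) → Fop P f w = 0 := by
  intro w
  induction w with
  | nil => intro n f _ _; simp [Fop]
  | cons x w ih =>
    intro n f hf hw
    simp only [Fop]
    have h1 : (if 1 ≤ x ∧ x < P.N then f ((x - 1) :: w) else 0) = 0 := by
      split_ifs with hx
      · apply hf
        rintro ⟨h1, h2⟩
        apply hw
        refine ⟨by simpa using h1, ?_⟩
        intro y hy
        rcases List.mem_cons.mp hy with rfl | hy
        · exact hx.2
        · exact h2 y (List.mem_cons_of_mem _ hy)
      · rfl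
    have h2 : Fop P (fun u => f (x :: u)) w = 0 := by
      rcases n with _ | n
      · rw [hf.cons_zero', Fop_zero_fun]
      · by_cases hx : x < P.N
        · apply ih n _ (hf.cons x)
          rintro ⟨h1, h2⟩
          apply hw
          refine ⟨by simp [h1], ?_⟩
          intro y hy
          rcases List.mem_cons.mp hy with rfl | hy
          · exact hx
          · exact h2 y hy
        · rw [hf.cons_zero (by omega), Fop_zero_fun]
    rw [h1, h2]; ring

lemma Sup.Fo {P : Par F} {n : ℕ} {f : List ℕ → F} (hf : Sup P n f) : Sup P n (Fop P f) :=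
  fun w hw => Sup_F w n f hf hw

lemma slice_pos_Sup {P : Par F} (k : ℕ) : ∀ (w : List ℕ) (n : ℕ) (f : List ℕ → F), Sup P n f →
    ¬ (w.length = n ∧ ∀ x ∈ w, x < P.N) → slice P .pos k f w = 0 := by
  induction k with
  | zero =>
    intro w n f hf hw
    rcases w with _ | ⟨a, _ | ⟨b, w⟩⟩
    · simp [slice, piece]
    · simp [slice, piece]
    simp only [slice, piece]
    apply sum_eq_zero
    intro m _
    split_ifs with h
    · have : f ((b + m) :: (a - m) :: w) = 0 := by
        apply hf
        rintro ⟨h1, h2⟩
        apply hw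
        refine ⟨by simpa using h1, ?_⟩
        intro y hy
        simp only [List.mem_cons] at hy h2
        rcases hy with rfl | rfl | hy
        · exact h.2.1
        · omega
        · exact h2 y (Or.inr (Or.inr hy))
      rw [this, mul_zero]
    · rfl
  | succ k ih =>
    intro w n f hf hw
    rcases w with _ | ⟨x, w⟩
    · simp [slice]
    simp only [slice]
    rcases n with _ | n
    · rw [hf.cons_zero']; exact congrFun (slice_zero_fun _ _ _) w
    · by_cases hx : x < P.N
      · apply ih w n _ (hf.cons x)
        rintro ⟨h1, h2⟩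
        apply hw
        refine ⟨by simp [h1], ?_⟩
        intro y hy
        rcases List.mem_cons.mp hy with rfl | hy
        · exact hx
        · exact h2 y hy
      · rw [hf.cons_zero (by omega)]; exact congrFun (slice_zero_fun _ _ _) w

lemma slice_neg_Sup {P : Par F} (k : ℕ) : ∀ (w : List ℕ) (n : ℕ) (f : List ℕ → F), Sup P n f →
    ¬ (w.length = n ∧ ∀ x ∈ w, x < P.N) → slice P .neg k f w = 0 := by
  induction k with
  | zero =>
    intro w n f hf hw
    rcases w with _ | ⟨a, _ | ⟨b, w⟩⟩
    · simp [slice, piece]
    · simp [slice, piece]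
    simp only [slice, piece]
    apply sum_eq_zero
    intro m _
    split_ifs with h
    · have : f ((b - m) :: (a + m) :: w) = 0 := by
        apply hf
        rintro ⟨h1, h2⟩
        apply hw
        refine ⟨by simpa using h1, ?_⟩
        intro y hy
        simp only [List.mem_cons] at hy h2
        rcases hy with rfl | rfl | hy
        · omega
        · exact h.2.1
        · exact h2 y (Or.inr (Or.inr hy))
      rw [this, mul_zero]
    · rfl
  | succ k ih =>
    intro w n f hf hw
    rcases w with _ | ⟨x, w⟩
    · simp [slice]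
    simp only [slice]
    rcases n with _ | n
    · rw [hf.cons_zero']; exact congrFun (slice_zero_fun _ _ _) w
    · by_cases hx : x < P.N
      · apply ih w n _ (hf.cons x)
        rintro ⟨h1, h2⟩
        apply hw
        refine ⟨by simp [h1], ?_⟩
        intro y hy
        rcases List.mem_cons.mp hy with rfl | hy
        · exact hx
        · exact h2 y hy
      · rw [hf.cons_zero (by omega)]; exact congrFun (slice_zero_fun _ _ _) w

lemma slice_cup_Sup {P : Par F} (k : ℕ) : ∀ (w : List ℕ) (n : ℕ) (f : List ℕ → F), Sup P n f →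
    ¬ (w.length = n + 2 ∧ ∀ x ∈ w, x < P.N) → slice P .cup k f w = 0 := by
  induction k with
  | zero =>
    intro w n f hf hw
    rcases w with _ | ⟨a, _ | ⟨b, w⟩⟩
    · simp [slice, piece]
    · simp [slice, piece]
    simp only [slice, piece]
    split_ifs with h
    · have : f w = 0 := by
        apply hf
        rintro ⟨h1, h2⟩
        apply hw
        refine ⟨by simpa using h1, ?_⟩
        intro y hy
        simp only [List.mem_cons] at hy
        rcases hy with rfl | rfl | hy
        · omega
        · omega
        · exact h2 y hy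
      rw [this, mul_zero]
    · rfl
  | succ k ih =>
    intro w n f hf hw
    rcases w with _ | ⟨x, w⟩
    · simp [slice]
    simp only [slice]
    rcases n with _ | n
    · rw [hf.cons_zero']; exact congrFun (slice_zero_fun _ _ _) w
    · by_cases hx : x < P.N
      · apply ih w n _ (hf.cons x)
        rintro ⟨h1, h2⟩
        apply hw
        refine ⟨by simp [h1], ?_⟩
        intro y hy
        rcases List.mem_cons.mp hy with rfl | hy
        · exact hx
        · exact h2 y hy
      · rw [hf.cons_zero (by omega)]; exact congrFun (slice_zero_fun _ _ _) w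

lemma slice_cap_Sup {P : Par F} (k : ℕ) : ∀ (w : List ℕ) (n : ℕ) (f : List ℕ → F), Sup P n f →
    ¬ (w.length + 2 = n ∧ ∀ x ∈ w, x < P.N) → slice P .cap k f w = 0 := by
  induction k with
  | zero =>
    intro w n f hf hw
    simp only [slice, piece]
    apply sum_eq_zero
    intro a ha
    have : f (a :: (P.N - 1 - a) :: w) = 0 := by
      apply hf
      rintro ⟨h1, h2⟩
      apply hw
      simp only [List.length_cons, List.mem_cons] at h1 h2
      exact ⟨by omega, fun y hy => h2 y (Or.inr (Or.inr hy))⟩
    rw [this, mul_zero]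
  | succ k ih =>
    intro w n f hf hw
    rcases w with _ | ⟨x, w⟩
    · simp [slice]
    simp only [slice]
    rcases n with _ | n
    · rw [hf.cons_zero']; exact congrFun (slice_zero_fun _ _ _) w
    · by_cases hx : x < P.N
      · apply ih w n _ (hf.cons x)
        rintro ⟨h1, h2⟩
        apply hw
        simp only [List.length_cons]
        refine ⟨by omega, ?_⟩
        intro y hy
        rcases List.mem_cons.mp hy with rfl | hy
        · exact hx
        · exact h2 y hy
      · rw [hf.cons_zero (by omega)]; exact congrFun (slice_zero_fun _ _ _) w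

lemma Sup.pos {P : Par F} {n : ℕ} {f : List ℕ → F} (hf : Sup P n f) (k : ℕ) :
    Sup P n (slice P .pos k f) := fun w hw => slice_pos_Sup k w n f hf hw

lemma Sup.neg {P : Par F} {n : ℕ} {f : List ℕ → F} (hf : Sup P n f) (k : ℕ) :
    Sup P n (slice P .neg k f) := fun w hw => slice_neg_Sup k w n f hf hw

lemma Sup.cup {P : Par F} {n : ℕ} {f : List ℕ → F} (hf : Sup P n f) (k : ℕ) :
    Sup P (n + 2) (slice P .cup k f) := fun w hw => slice_cup_Sup k w n f hf hw

lemma Sup.cap {P : Par F} {n : ℕ} {f : List ℕ → F} (hf : Sup P (n + 2) f) (k : ℕ) :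
    Sup P n (slice P .cap k f) := fun w hw =>
  slice_cap_Sup k w (n + 2) f hf (fun h => hw ⟨by omega, h.2⟩)

lemma Sup_ket {P : Par F} {w : List ℕ} (hw : ∀ x ∈ w, x < P.N) : Sup P w.length (ket w) := by
  intro u hu
  unfold ket
  rw [if_neg]
  rintro rfl
  exact hu ⟨rfl, hw⟩

/-- `RT D (ket [0])` is a multiple of `ket [0]` if `D` preserves one-letter functions -/
lemma RT_ket_zero {P : Par F} (D : Diagram) (hD : Sup P 1 (RT P D (ket [0]))) :
    RT P D (ket [0]) = fun w => RT P D (ket [0]) [0] * ket [0] w := by
  have hφ : ∀ φ : ℤ → F, ∀ w, φ (wtl P w) * RT P D (ket [0]) w =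
      φ (wt P 0) * RT P D (ket [0]) w := by
    intro φ w
    have h1 := congrFun (RT_wtl (P := P) D φ (ket [0])) w
    have h2 : (fun u => φ (wtl P u) * ket [0] u) = φ (wt P 0) • ket [0] := by
      funext u
      simp only [ket, Pi.smul_apply, smul_eq_mul]
      split_ifs with h
      · rw [h]; simp [wtl]
      · simp
    rw [h2, ← RTL_apply, map_smul, RTL_apply] at h1
    simpa using h1.symm
  funext w
  by_cases hw : w = [0]
  · subst hw; simp [ket]
  · unfold ket
    rw [if_neg hw, mul_zero]
    by_cases h1 : w.length = 1 ∧ ∀ x ∈ w, x < P.N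
    · obtain ⟨x, rfl⟩ := List.length_eq_one_iff.mp h1.1
      have hx : x ≠ 0 := fun h => hw (by rw [h])
      have := hφ (fun y => if y = wt P 0 then 1 else 0) [x]
      have h3 : wtl P [x] ≠ wt P 0 := by
        simp only [wtl, wt]; push_cast; omega
      rw [if_neg h3, if_pos rfl] at this
      unfold ket at this
      linear_combination -this
    · exact hD w h1

lemma Fop_ket_nil (P : Par F) (w : List ℕ) : Fop P (ket []) w = 0 := by
  rcases w with _ | ⟨x, w⟩
  · simp [Fop]
  · simp only [Fop]
    have h1 : (fun u => (ket [] (x :: u) : F)) = fun _ => 0 := by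
      funext u; simp [ket]
    rw [h1, Fop_zero_fun]
    simp [ket]

lemma Fop_ket {P : Par F} {i : ℕ} (hi : i + 1 < P.N) : Fop P (ket [i]) = ket [i + 1] := by
  funext w
  rcases w with _ | ⟨x, w⟩
  · simp [Fop, ket]
  · simp only [Fop]
    have h1 : Fop P (fun u => ket [i] (x :: u)) w = 0 := by
      by_cases hx : x = i
      · have : (fun u => (ket [i] (x :: u) : F)) = ket [] := by
          funext u; simp [ket, hx]
        rw [this, Fop_ket_nil]
      · have : (fun u => (ket [i] (x :: u) : F)) = fun _ => 0 := by
          funext u; simp [ket, hx]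
        rw [this, Fop_zero_fun]
    rw [h1]
    simp only [ket, List.cons.injEq, mul_zero, add_zero]
    by_cases hx : x = i + 1
    · subst hx
      rw [if_pos ⟨by omega, hi⟩, Nat.add_sub_cancel]
      simp
    · by_cases h2 : 1 ≤ x ∧ x < P.N
      · rw [if_pos h2, if_neg (by omega), if_neg (by omega)]
      · rw [if_neg h2, if_neg (by omega)]


end Pool.Agent.Helper77.ST
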