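import Pool.Agent.Helper77.ST.GSupp
import Pool.Agent.Helper77.ST.Defs

/-!
# Diagram calculus
-/

namespace Pool.Agent.Helper77.ST

open Finset
open Pool.Agent.Helper9.Kashaev (Piece Diagram)

variable {F : Type*} [Field F]

/-- shift by `k` strands -/
def sh (k : ℕ) (D : Diagram) : Diagram := D.map (fun s => (s.1 + k, s.2))

theorem wf_append {n m l : ℕ} {D D' : Diagram} (h : wf n D m) (h' : wf m D' l) :
    wf n (D ++ D') l := by
  induction D generalizing n with
  | nil => simp only [wf] at h; subst h; exact h'
  | cons s D ih =>
    obtain ⟨k, p⟩ := s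
    cases p with
    | cup => exact ⟨h.1, ih h.2⟩
    | cap => exact ⟨h.1, ih h.2⟩
    | pos => exact ⟨h.1, ih h.2⟩
    | neg => exact ⟨h.1, ih h.2⟩

theorem wf_sh {n m : ℕ} {D : Diagram} (h : wf n D m) (k : ℕ) : wf (n + k) (sh k D) (m + k) := by
  induction D generalizing n with
  | nil => simp only [wf, sh, List.map_nil] at h ⊢; omega
  | cons s D ih =>
    obtain ⟨j, p⟩ := s
    have e : sh k ((j, p) :: D) = (j + k, p) :: sh k D := rfl
    rw [e]
    cases p with
    | cup =>
      simp only [wf] at h ⊢
      refine ⟨by omega, ?_⟩
      have := ih h.2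
      rwa [show n + 2 + k = n + k + 2 by ring] at this
    | cap =>
      simp only [wf] at h ⊢
      refine ⟨by omega, ?_⟩
      have := ih h.2
      rwa [show n - 2 + k = n + k - 2 by omega] at this
    | pos =>
      simp only [wf] at h ⊢
      exact ⟨by omega, ih h.2⟩
    | neg =>
      simp only [wf] at h ⊢
      exact ⟨by omega, ih h.2⟩

lemma h96_wf_replicate {n k : ℕ} (hk : k + 2 ≤ n) {p : Piece} (hp : p = .pos ∨ p = .neg) (r : ℕ) :
    wf n (List.replicate r (k, p)) n := by
  induction r with
  | zero => rfl
  | succ r ih =>
    rw [List.replicate_succ]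
    rcases hp with rfl | rfl
    · exact ⟨hk, ih⟩
    · exact ⟨hk, ih⟩

/-! ### locality -/

lemma h96_congr_cup {P : Par F} (k : ℕ) : ∀ (n : ℕ), k ≤ n → ∀ f g : List ℕ → F,
    (∀ u : List ℕ, u.length = n → f u = g u) →
    ∀ u : List ℕ, u.length = n + 2 → slice P .cup k f u = slice P .cup k g u := by
  induction k with
  | zero =>
    intro n _ f g hfg u hu
    rcases u with _ | ⟨a, _ | ⟨b, w⟩⟩
    · rfl
    · rfl
    simp only [slice, piece]
    rw [hfg w (by simpa using hu)]
  | succ k ih =>
    intro n hk f g hfg u hu
    rcases u with _ | ⟨x, w⟩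
    · rfl
    simp only [slice]
    apply ih (n - 1) (by omega)
    · intro v hv
      apply hfg
      rw [List.length_cons]; omega
    · rw [List.length_cons] at hu; omega

lemma h96_congr_cap {P : Par F} (k : ℕ) : ∀ (n : ℕ), k ≤ n → ∀ f g : List ℕ → F,
    (∀ u : List ℕ, u.length = n + 2 → f u = g u) →
    ∀ u : List ℕ, u.length = n → slice P .cap k f u = slice P .cap k g u := by
  induction k with
  | zero =>
    intro n _ f g hfg u hu
    simp only [slice, piece]
    apply sum_congr rfl
    intro a _
    rw [hfg _ (by simpa using hu)]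
  | succ k ih =>
    intro n hk f g hfg u hu
    rcases u with _ | ⟨x, w⟩
    · rfl
    simp only [slice]
    apply ih (n - 1) (by omega)
    · intro v hv
      apply hfg
      rw [List.length_cons]; omega
    · rw [List.length_cons] at hu; omega

lemma h96_congr_cr {P : Par F} {p : Piece} (hp : p = .pos ∨ p = .neg) (k : ℕ) :
    ∀ (n : ℕ), ∀ f g : List ℕ → F, (∀ u : List ℕ, u.length = n → f u = g u) →
    ∀ u : List ℕ, u.length = n → slice P p k f u = slice P p k g u := by
  induction k with
  | zero =>
    intro n f g hfg u hu
    rcases hp with rfl | rfl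
    · rcases u with _ | ⟨a, _ | ⟨b, w⟩⟩
      · rfl
      · rfl
      simp only [slice, piece]
      apply sum_congr rfl
      intro m _
      rw [hfg ((b + m) :: (a - m) :: w) (by simpa using hu)]
    · rcases u with _ | ⟨a, _ | ⟨b, w⟩⟩
      · rfl
      · rfl
      simp only [slice, piece]
      apply sum_congr rfl
      intro m _
      rw [hfg ((b - m) :: (a + m) :: w) (by simpa using hu)]
  | succ k ih =>
    intro n f g hfg u hu
    rcases u with _ | ⟨x, w⟩
    · rfl
    simp only [slice]
    rw [List.length_cons] at hu
    apply ih (n - 1)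
    · intro v hv
      apply hfg
      rw [List.length_cons]; omega
    · omega

/-- the value on words of length `m` depends only on the values on words of length `n` -/
theorem RT_congr {P : Par F} {n m : ℕ} {D : Diagram} (h : wf n D m) {f g : List ℕ → F}
    (hfg : ∀ u : List ℕ, u.length = n → f u = g u) :
    ∀ u : List ℕ, u.length = m → RT P D f u = RT P D g u := by
  induction D generalizing n f g with
  | nil =>
    simp only [wf] at h
    subst h
    exact hfg
  | cons s D ih =>
    obtain ⟨k, p⟩ := s
    simp only [RT]
    cases p with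
    | cup => exact ih h.2 (h96_congr_cup k n h.1 f g hfg)
    | cap =>
      simp only [wf] at h
      apply ih h.2
      apply h96_congr_cap k (n - 2) (by omega)
      intro u hu
      exact hfg u (by omega)
    | pos => exact ih h.2 (h96_congr_cr (Or.inl rfl) k n f g hfg)
    | neg => exact ih h.2 (h96_congr_cr (Or.inr rfl) k n f g hfg)

theorem RT_left {P : Par F} (D : Diagram) (f : List ℕ → F) (x : ℕ) (u : List ℕ) :
    RT P (sh 1 D) f (x :: u) = RT P D (fun w => f (x :: w)) u := by
  induction D generalizing f with
  | nil => rfl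
  | cons s D ih =>
    have e : sh 1 (s :: D) = (s.1 + 1, s.2) :: sh 1 D := rfl
    rw [e]
    simp only [RT]
    rw [ih]
    rfl

lemma h96_right_cup {P : Par F} (k : ℕ) (f : List ℕ → F) (u w : List ℕ) (hu : k + 2 ≤ u.length) :
    slice P .cup k f (u ++ w) = slice P .cup k (fun u' => f (u' ++ w)) u := by
  induction k generalizing f u with
  | zero =>
    rcases u with _ | ⟨a, _ | ⟨b, u⟩⟩
    · simp at hu
    · simp at hu
    simp only [List.cons_append, slice, piece]
  | succ k ih =>
    rcases u with _ | ⟨x, u⟩
    · simp at hu
    simp only [List.cons_append, slice]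
    rw [ih _ _ (by rw [List.length_cons] at hu; omega)]

lemma h96_right_cap {P : Par F} (k : ℕ) (f : List ℕ → F) (u w : List ℕ) (hu : k ≤ u.length) :
    slice P .cap k f (u ++ w) = slice P .cap k (fun u' => f (u' ++ w)) u := by
  induction k generalizing f u with
  | zero => simp only [slice, piece, List.cons_append]
  | succ k ih =>
    rcases u with _ | ⟨x, u⟩
    · simp at hu
    simp only [List.cons_append, slice]
    rw [ih _ _ (by rw [List.length_cons] at hu; omega)]

lemma h96_right_cr {P : Par F} {p : Piece} (hp : p = .pos ∨ p = .neg) (k : ℕ) (f : List ℕ → F)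
    (u w : List ℕ) (hu : k + 2 ≤ u.length) :
    slice P p k f (u ++ w) = slice P p k (fun u' => f (u' ++ w)) u := by
  induction k generalizing f u with
  | zero =>
    rcases u with _ | ⟨a, _ | ⟨b, u⟩⟩
    · simp at hu
    · simp at hu
    rcases hp with rfl | rfl
    · simp only [List.cons_append, slice, piece]
    · simp only [List.cons_append, slice, piece]
  | succ k ih =>
    rcases u with _ | ⟨x, u⟩
    · simp at hu
    simp only [List.cons_append, slice]
    rw [ih _ _ (by rw [List.length_cons] at hu; omega)]

theorem RT_right {P : Par F} {n m : ℕ} {D : Diagram} (h : wf n D m) (f : List ℕ → F) (u w : List ℕ)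
    (hu : u.length = m) : RT P D f (u ++ w) = RT P D (fun u' => f (u' ++ w)) u := by
  induction D generalizing n f with
  | nil => rfl
  | cons s D ih =>
    obtain ⟨k, p⟩ := s
    simp only [RT]
    cases p with
    | cup =>
      simp only [wf] at h
      rw [ih h.2]
      exact RT_congr h.2 (fun v hv => h96_right_cup k f v w (by omega)) u hu
    | cap =>
      simp only [wf] at h
      rw [ih h.2]
      exact RT_congr h.2 (fun v hv => h96_right_cap k f v w (by omega)) u hu
    | pos =>
      simp only [wf] at h
      rw [ih h.2]
      exact RT_congr h.2 (fun v hv => h96_right_cr (Or.inl rfl) k f v w (by omega)) u hu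
    | neg =>
      simp only [wf] at h
      rw [ih h.2]
      exact RT_congr h.2 (fun v hv => h96_right_cr (Or.inr rfl) k f v w (by omega)) u hu

theorem RT_Sup {P : Par F} {n m : ℕ} {D : Diagram} (h : wf n D m) {f : List ℕ → F} (hf : Sup P n f) :
    Sup P m (RT P D f) := by
  induction D generalizing n f with
  | nil => simp only [wf] at h; subst h; exact hf
  | cons s D ih =>
    obtain ⟨k, p⟩ := s
    cases p with
    | cup => exact ih h.2 (hf.cup k)
    | cap =>
      simp only [wf] at h
      refine ih h.2 ?_
      apply Sup.cap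
      rwa [show n - 2 + 2 = n by omega]
    | pos => exact ih h.2 (hf.pos k)
    | neg => exact ih h.2 (hf.neg k)

/-! ### straightening -/

theorem zig1 {P : Par F} {n : ℕ} {f : List ℕ → F} (hf : Sup P n f) {k : ℕ} (hk : k < n) :
    slice P .cap (k + 1) (slice P .cup k f) = f := by
  induction k generalizing n f with
  | zero =>
    funext u
    rcases u with _ | ⟨x, w⟩
    · simp only [slice]
      rw [hf]
      rintro ⟨h1, _⟩
      rw [List.length_nil] at h1; omega
    · simp only [slice, piece]
      by_cases hx : x < P.N
      · rw [sum_eq_single (P.N - 1 - x)]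
        · rw [if_pos (by omega)]
          have e : P.N - 1 - (P.N - 1 - x) = x := by omega
          rw [e]
          unfold capC
          rw [e]
          field_simp [cupC_ne P x]
        · intro a ha hne
          rw [mem_range] at ha
          rw [if_neg (by omega), mul_zero]
        · intro h
          exact absurd (mem_range.mpr (by omega)) h
      · have h1 : f (x :: w) = 0 := by
          apply hf
          rintro ⟨_, h2⟩
          exact hx (h2 x (by simp))
        rw [h1]
        apply sum_eq_zero
        intro a ha
        rw [if_neg (by omega), mul_zero]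
  | succ k ih =>
    funext u
    rcases u with _ | ⟨x, w⟩
    · rw [hf]
      · rfl
      rintro ⟨h1, _⟩
      rw [List.length_nil] at h1; omega
    · obtain ⟨n, rfl⟩ : ∃ n', n = n' + 1 := ⟨n - 1, by omega⟩
      have := congrFun (ih (hf.cons x) (by omega)) w
      exact this

theorem zig2 {P : Par F} {n : ℕ} {f : List ℕ → F} (hf : Sup P n f) {k : ℕ} (hk : k < n) :
    slice P .cap k (slice P .cup (k + 1) f) = f := by
  induction k generalizing n f with
  | zero =>
    funext u
    simp only [slice, piece]
    rcases u with _ | ⟨y, w⟩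
    · simp only [slice, piece, mul_zero, sum_const_zero]
      rw [hf]
      rintro ⟨h1, _⟩
      rw [List.length_nil] at h1; omega
    · simp only [slice, piece]
      by_cases hy : y < P.N
      · rw [sum_eq_single y]
        · rw [if_pos (by omega)]
          unfold capC
          field_simp [cupC_ne P (P.N - 1 - y)]
        · intro a ha hne
          rw [mem_range] at ha
          rw [if_neg (by omega), mul_zero]
        · intro h
          exact absurd (mem_range.mpr hy) h
      · have h1 : f (y :: w) = 0 := by
          apply hf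
          rintro ⟨_, h2⟩
          exact hy (h2 y (by simp))
        rw [h1]
        apply sum_eq_zero
        intro a ha
        rw [mem_range] at ha
        rw [if_neg (by omega), mul_zero]
  | succ k ih =>
    funext u
    rcases u with _ | ⟨x, w⟩
    · rw [hf]
      · rfl
      rintro ⟨h1, _⟩
      rw [List.length_nil] at h1; omega
    · obtain ⟨n, rfl⟩ : ∃ n', n = n' + 1 := ⟨n - 1, by omega⟩
      have := congrFun (ih (hf.cons x) (by omega)) w
      exact this

/-! ### sliding a turned tangle -/

lemma h96_cup3 {P : Par F} (g : List ℕ → F) (x y z : ℕ) (w : List ℕ) :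
    slice P .cup 3 g ([x, y, z] ++ w) = piece P .cup (fun v => g ([x, y, z] ++ v)) w := rfl

/-- a minimum on the right commutes with a diagram on three strands -/
lemma h96_far {P : Par F} {D : Diagram} (h : wf 3 D 3) {g : List ℕ → F} (hg : Sup P 3 g)
    (h5 : wf 5 D 5) : RT P D (slice P .cup 3 g) = slice P .cup 3 (RT P D g) := by
  have hS1 : Sup P 5 (RT P D (slice P .cup 3 g)) := RT_Sup h5 (hg.cup 3)
  have hS2 : Sup P 5 (slice P .cup 3 (RT P D g)) := (RT_Sup h hg).cup 3
  funext u
  by_cases hu : u.length = 5 ∧ ∀ x ∈ u, x < P.N
  · obtain ⟨x, y, z, a, b, rfl⟩ : ∃ x y z a b, u = [x, y, z, a, b] := by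
      rcases u with _ | ⟨x, _ | ⟨y, _ | ⟨z, _ | ⟨a, _ | ⟨b, _ | ⟨c, u⟩⟩⟩⟩⟩⟩ <;> simp at hu
      exact ⟨x, y, z, a, b, rfl⟩
    have e : [x, y, z, a, b] = [x, y, z] ++ [a, b] := rfl
    have h1 := RT_right (P := P) h (slice P .cup 3 g) [x, y, z] [a, b] rfl
    have h2 := RT_congr (P := P) h (f := fun u' => slice P .cup 3 g (u' ++ [a, b]))
      (g := fun u' => (if a + b + 1 = P.N then cupC P a else 0) * g u') (by
        intro v hv
        obtain ⟨x', y', z', rfl⟩ := List.length_eq_three.mp hv
        simp only [h96_cup3, piece, List.append_nil]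
        split_ifs <;> simp) [x, y, z] rfl
    rw [e, h1, h2]
    have h3 : RT P D (fun u' => (if a + b + 1 = P.N then cupC P a else 0) * g u') =
        (if a + b + 1 = P.N then cupC P a else 0) • RT P D g := by
      rw [← RTL_apply, ← RTL_apply, ← map_smul]; rfl
    rw [h3]
    simp only [h96_cup3, piece, List.append_nil, Pi.smul_apply, smul_eq_mul]
    split_ifs <;> simp
  · rw [hS1 u hu, hS2 u hu]

lemma h96_wf_right {n m : ℕ} {D : Diagram} (h : wf n D m) (j : ℕ) : wf (n + j) D (m + j) := by
  induction D generalizing n with
  | nil => simp only [wf] at h ⊢; omega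
  | cons s D ih =>
    obtain ⟨k, p⟩ := s
    cases p with
    | cup =>
      simp only [wf] at h ⊢
      refine ⟨by omega, ?_⟩
      have := ih h.2
      rwa [show n + 2 + j = n + j + 2 by ring] at this
    | cap =>
      simp only [wf] at h ⊢
      refine ⟨by omega, ?_⟩
      have := ih h.2
      rwa [show n - 2 + j = n + j - 2 by omega] at this
    | pos =>
      simp only [wf] at h ⊢
      exact ⟨by omega, ih h.2⟩
    | neg =>
      simp only [wf] at h ⊢
      exact ⟨by omega, ih h.2⟩


end Pool.Agent.Helper77.ST
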