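import Pool.Agent.Helper77.ST.Defs
import Pool.Agent.Helper10.FA.Borromean

/-!
# The hypotheses of the theorem are satisfiable

The pattern with two vertices and four edges between them has an angle assignment with
`0 < n < π / 2`, and all its diagrams with even numbers `2 k`, `2 l` of crossings (double twist
knots) are diagrams of knots.
-/

namespace Pool.Agent.Helper77.ST

open Pool.Agent.Helper9.Kashaev (Piece Diagram)
open Pool.Agent.Helper9.FA

lemma arc_two (p : Piece) (hp : p = .pos ∨ p = .neg) (c : ℕ) (L R : List ℕ) (k x y : ℕ)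
    (h : L.drop k = x :: y :: R) (D : Diagram) (hD : Arc c L D) :
    Arc c L ((k, p) :: (k, p) :: D) := by
  have hk : (L.take k).length = k := by
    rw [List.length_take]
    have : (L.drop k).length ≠ 0 := by rw [h]; simp
    rw [List.length_drop] at this
    omega
  have e : L.take k ++ x :: y :: R = L := by rw [← h, List.take_append_drop]
  rcases hp with rfl | rfl
  all_goals
    simp only [Arc, h]
    rw [List.drop_append_of_le_length (by omega), List.drop_of_length_le (by omega),
      List.nil_append]
    simp only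
    rw [List.take_append_of_le_length (by omega), List.take_of_length_le (by omega), e]
    exact hD

lemma arc_even (c : ℕ) (L R : List ℕ) (k x y : ℕ) (h : L.drop k = x :: y :: R) (D : Diagram)
    (hD : Arc c L D) (m : ℤ) : Arc c L (twists k (2 * m) ++ D) := by
  unfold twists
  have h1 : (2 * m).natAbs = 2 * m.natAbs := by omega
  rw [h1]
  have hp : ∀ p : Piece, p = .pos ∨ p = .neg → ∀ n : ℕ,
      Arc c L (List.replicate (2 * n) (k, p) ++ D) := by
    intro p hp n
    induction n with
    | zero => simpa using hD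
    | succ n ih =>
      rw [show 2 * (n + 1) = 2 * n + 1 + 1 by ring, List.replicate_succ, List.replicate_succ,
        List.cons_append, List.cons_append]
      exact arc_two p hp c L R k x y h _ ih
  apply hp
  split_ifs
  · exact Or.inl rfl
  · exact Or.inr rfl

/-- the pattern of the double twist knots -/
def dtPat : List (Item Unit) := [.cup 1, .box 0 (), .box 1 (), .cap 0]

theorem dt_isKnot (k l : ℤ) : IsKnot (tw dtPat [2 * k, 2 * l]) := by
  show Arc 1 [0] _
  have h0 : Arc 2 [0, 1, 1] ([(0, .cap)] : Diagram) := by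
    simp [Arc]
  have h1 := arc_even 2 [0, 1, 1] [] 1 1 1 rfl _ h0 l
  have h2 := arc_even 2 [0, 1, 1] [1] 0 0 1 rfl _ h1 k
  show Arc 1 [0] ((1, Piece.cup) :: (twists 0 (2 * k) ++ (twists 1 (2 * l) ++ [(0, .cap)])))
  refine ⟨by simp, ?_⟩
  simpa using h2

theorem hypotheses_satisfiable : ∃ cs : List (Cor ℝ), Ang dtPat [0, 0] cs ∧
    (∀ c ∈ cs, c.Strict) ∧ cs ≠ [] ∧ cs.length = 2 ∧
      ∀ k l : ℤ, IsKnot (tw dtPat [2 * k, 2 * l]) :=
  ⟨[Pool.Agent.Helper10.FA.borC1, Pool.Agent.Helper10.FA.borC2],
    (Pool.Agent.Helper10.FA.borromean_ang () ()).1, (Pool.Agent.Helper10.FA.borromean_ang () ()).2,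
    by simp, rfl, dt_isKnot⟩

end Pool.Agent.Helper77.ST
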