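import Pool.Agent.Helper77.ST.GDefs

/-!
# Module KWF: knot diagrams
-/

namespace Pool.Agent.Helper77.ST

open Pool.Agent.Helper9.Kashaev (Piece Diagram)

lemma Arc.wf_length : ∀ (D : Diagram) (c : ℕ) (L : List ℕ), Arc c L D → wf L.length D 1 := by
  intro D
  induction D with
  | nil => intro c L h; exact h
  | cons s D ih =>
    obtain ⟨k, p⟩ := s
    intro c L h
    cases p with
    | cup =>
      obtain ⟨h1, h2⟩ := h
      refine ⟨h1, ?_⟩
      have h3 := ih _ _ h2
      have e : (L.take k ++ c :: c :: L.drop k).length = L.length + 2 := by
        simp only [List.length_append, List.length_cons, List.length_take, List.length_drop]
        omega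
      rwa [e] at h3
    | cap =>
      simp only [Arc] at h
      split at h
      · rename_i x y R hR
        have hl := congrArg List.length hR
        simp only [List.length_drop, List.length_cons] at hl
        refine ⟨by omega, ?_⟩
        have h3 := ih _ _ h.2
        have e : ((L.take k ++ R).map fun z => if z = y then x else z).length = L.length - 2 := by
          simp only [List.length_map, List.length_append, List.length_take]
          omega
        rwa [e] at h3
      · exact h.elim
    | pos =>
      simp only [Arc] at h
      split at h
      · rename_i x y R hR
        have hl := congrArg List.length hR
        simp only [List.length_drop, List.length_cons] at hl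
        refine ⟨by omega, ?_⟩
        have h3 := ih _ _ h
        have e : (L.take k ++ y :: x :: R).length = L.length := by
          simp only [List.length_append, List.length_cons, List.length_take]
          omega
        rwa [e] at h3
      · exact h.elim
    | neg =>
      simp only [Arc] at h
      split at h
      · rename_i x y R hR
        have hl := congrArg List.length hR
        simp only [List.length_drop, List.length_cons] at hl
        refine ⟨by omega, ?_⟩
        have h3 := ih _ _ h
        have e : (L.take k ++ y :: x :: R).length = L.length := by
          simp only [List.length_append, List.length_cons, List.length_take]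
          omega
        rwa [e] at h3
      · exact h.elim

theorem IsKnot.wf {D : Diagram} (h : IsKnot D) : wf 1 D 1 := Arc.wf_length D 1 [0] h

/-- the identity is a knot -/
theorem isKnot_nil : IsKnot [] := rfl

end Pool.Agent.Helper77.ST
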