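import Pool.Agent.Helper77.ST.GDefs

/-!
# Module LSUB: a common subsequence
-/

namespace Pool.Agent.Helper77.ST

open Finset
open Pool.Agent.Helper9.Kashaev (Piece Diagram)
open Pool.Agent.Helper9.FA (Item twists)

open Filter in
theorem lsub_one (x : ℕ → ℤ) : ∃ φ : ℕ → ℕ, StrictMono φ ∧
    ((∃ c, ∀ m, x (φ m) = c) ∨ Tendsto (fun m => x (φ m)) atTop atTop ∨
      Tendsto (fun m => x (φ m)) atTop atBot) := by
  by_cases hc : ∃ c, ∃ᶠ m in atTop, x m = c
  · obtain ⟨c, hc⟩ := hc
    obtain ⟨φ, h1, h2⟩ := extraction_of_frequently_atTop hc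
    exact ⟨φ, h1, Or.inl ⟨c, h2⟩⟩
  · push Not at hc
    have hfin : ∀ S : Finset ℤ, ∀ᶠ m in atTop, x m ∉ S := by
      intro S
      have : ∀ᶠ m in atTop, ∀ c ∈ S, ¬ x m = c :=
        (Filter.eventually_all_finset S).2 fun c _ => by
          simpa [Filter.Frequently] using hc c
      filter_upwards [this] with m hm hmS
      exact hm _ hmS rfl
    by_cases hp : ∃ᶠ m in atTop, 0 ≤ x m
    · obtain ⟨φ, h1, h2⟩ := extraction_of_frequently_atTop hp
      refine ⟨φ, h1, Or.inr (Or.inl ?_)⟩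
      rw [tendsto_atTop]
      intro b
      have h3 := h1.tendsto_atTop.eventually (hfin (Finset.Ico 0 b))
      filter_upwards [h3] with m hm
      have h4 := h2 m
      simp only [Finset.mem_Ico, not_and, not_lt] at hm
      exact hm h4
    · have hp' : ∀ᶠ m in atTop, x m < 0 := by
        simpa [Filter.Frequently] using hp
      refine ⟨id, strictMono_id, Or.inr (Or.inr ?_)⟩
      rw [tendsto_atBot]
      intro b
      filter_upwards [hp', hfin (Finset.Ioc b 0)] with m h1 h2
      simp only [Finset.mem_Ioc, not_and, not_le, id] at h2 ⊢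
      by_contra h3
      push Not at h3
      have := h2 h3
      omega

open Filter in
theorem exists_subseq {κ : Type} [Fintype κ] (x : κ → ℕ → ℤ) : ∃ φ : ℕ → ℕ, StrictMono φ ∧
    ∀ i, (∃ c, ∀ m, x i (φ m) = c) ∨ Tendsto (fun m => x i (φ m)) atTop atTop ∨
      Tendsto (fun m => x i (φ m)) atTop atBot := by
  classical
  have key : ∀ S : Finset κ, ∃ φ : ℕ → ℕ, StrictMono φ ∧
      ∀ i ∈ S, (∃ c, ∀ m, x i (φ m) = c) ∨ Tendsto (fun m => x i (φ m)) atTop atTop ∨
      Tendsto (fun m => x i (φ m)) atTop atBot := by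
    intro S
    induction S using Finset.induction_on with
    | empty => exact ⟨id, strictMono_id, fun i hi => absurd hi (by simp)⟩
    | insert a S ha ih =>
      obtain ⟨φ, h1, h2⟩ := ih
      obtain ⟨ψ, h3, h4⟩ := lsub_one fun m => x a (φ m)
      refine ⟨fun m => φ (ψ m), h1.comp h3, fun i hi => ?_⟩
      rcases Finset.mem_insert.1 hi with rfl | hi
      · exact h4
      · rcases h2 i hi with ⟨c, hc⟩ | h | h
        · exact Or.inl ⟨c, fun m => hc (ψ m)⟩
        · exact Or.inr (Or.inl (h.comp h3.tendsto_atTop))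
        · exact Or.inr (Or.inr (h.comp h3.tendsto_atTop))
  obtain ⟨φ, h1, h2⟩ := key Finset.univ
  exact ⟨φ, h1, fun i => h2 i (Finset.mem_univ i)⟩

end Pool.Agent.Helper77.ST
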