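import Pool.Agent.Helper77.ST.LDom
import Pool.Agent.Helper77.ST.LSub

/-!
# Module LCON: an exponential set contains an affine subspace
-/

namespace Pool.Agent.Helper77.ST

open Finset
open Pool.Agent.Helper9.Kashaev (Piece Diagram)
open Pool.Agent.Helper9.FA (Item twists)

/-- two exponents which agree on `V` -/
def lconRel {n : ℕ} {ι : Type} (V : Submodule ℚ (Fin n → ℚ)) (e : ι → Fin n → ℤ) (i j : ι) : Prop :=
  ∀ z ∈ V, ∑ k, (e i k : ℚ) * z k = ∑ k, (e j k : ℚ) * z k

/-- If the points `a 0, a 1, ...` of the exponential set `Z` lie in `b + V` and no integral linear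
form that is not constant on `V` takes the same value at infinitely many of them, then `Z` contains
all points of `b + V` with the parities of `b`. -/
theorem expSet_affine {n : ℕ} {Z : Set (Fin n → ℤ)} (hZ : ExpSet Z) (V : Submodule ℚ (Fin n → ℚ))
    (b : Fin n → ℤ) (a : ℕ → Fin n → ℤ) (haZ : ∀ m, a m ∈ Z) (ha2 : ∀ m i, a m i % 2 = b i % 2)
    (haV : ∀ m, (fun i => (a m i : ℚ) - b i) ∈ V)
    (hgen : ∀ (ε : Fin n → ℤ) (c : ℤ), (∃ y ∈ V, ∑ i, (ε i : ℚ) * y i ≠ 0) →
      {m | ∑ i, ε i * a m i = c}.Finite)
    (y : Fin n → ℤ) (hy2 : ∀ i, y i % 2 = b i % 2) (hyV : (fun i => (y i : ℚ) - b i) ∈ V) :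
    y ∈ Z := by
  classical
  obtain ⟨ι, hι, e, C, hC, hZ⟩ := hZ
  obtain ⟨φ, hφ, hsub⟩ := exists_subseq (fun (p : ι × ι) m => ∑ k, (e p.1 k - e p.2 k) * a m k)
  let S : Setoid ι :=
    { r := lconRel V e
      iseqv := ⟨fun i z _ => rfl, fun h z hz => (h z hz).symm,
        fun h h' z hz => (h z hz).trans (h' z hz)⟩ }
  have : Fintype (Quotient S) := Fintype.ofFinite _
  -- the value of exponents in one class differs by a constant
  have hcl : ∀ (i j : ι), lconRel V e i j → ∀ z : Fin n → ℤ, (fun i => (z i : ℚ) - b i) ∈ V →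
      ∑ k, e i k * z k - ∑ k, e j k * z k = ∑ k, e i k * b k - ∑ k, e j k * b k := by
    intro i j hij z hz
    have h1 := hij _ hz
    have h2 : ((∑ k, e i k * z k - ∑ k, e j k * z k : ℤ) : ℚ) =
        ((∑ k, e i k * b k - ∑ k, e j k * b k : ℤ) : ℚ) := by
      push_cast
      simp only [mul_sub, Finset.sum_sub_distrib] at h1
      linarith
    exact_mod_cast h2
  rw [hZ]
  intro v hv
  have hv0 : v ≠ 0 := by linarith
  let s : Quotient S → ℝ := fun q => ∑ i with (Quotient.mk S i) = q,
    C v b i * v ^ (∑ k, e i k * b k - ∑ k, e (Quotient.out q) k * b k)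
  have hval : ∀ z : Fin n → ℤ, (∀ i, z i % 2 = b i % 2) → (fun i => (z i : ℚ) - b i) ∈ V →
      ∑ i, C v z i * v ^ (∑ k, e i k * z k) = ∑ q, s q * v ^ (∑ k, e (Quotient.out q) k * z k) := by
    intro z hz2 hzV
    rw [← Finset.sum_fiberwise Finset.univ (fun i => (Quotient.mk S i))]
    refine Finset.sum_congr rfl fun q _ => ?_
    simp only [s]
    rw [Finset.sum_mul]
    refine Finset.sum_congr rfl fun i hi => ?_
    have hq : (Quotient.mk S i) = q := (Finset.mem_filter.1 hi).2
    have hr : lconRel V e i (Quotient.out q) := by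
      have h1 : Quotient.mk S i = Quotient.mk S (Quotient.out q) := by rw [hq, Quotient.out_eq]
      exact Quotient.exact h1
    rw [← hcl i _ hr z hzV, mul_assoc, ← zpow_add₀ hv0, sub_add_cancel, hC v z b hz2]
  have hs : ∀ q, s q = 0 := by
    refine exp_dom (fun q m => ∑ k, e (Quotient.out q) k * a (φ m) k) s v hv ?_ ?_
    · intro q q' hqq
      have hdiff : ∀ m, ∑ k, e (Quotient.out q) k * a (φ m) k - ∑ k, e (Quotient.out q') k * a (φ m) k
          = ∑ k, (e (Quotient.out q) k - e (Quotient.out q') k) * a (φ m) k := by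
        intro m
        rw [← Finset.sum_sub_distrib]
        exact Finset.sum_congr rfl fun k _ => by ring
      simp only [hdiff]
      rcases hsub (Quotient.out q, Quotient.out q') with ⟨c, hc⟩ | h | h
      · exfalso
        apply hqq
        have hinf : ¬ {m | ∑ k, (e (Quotient.out q) k - e (Quotient.out q') k) * a m k = c}.Finite := by
          intro hfin
          exact Set.infinite_range_of_injective hφ.injective
            (hfin.subset (by rintro _ ⟨m, rfl⟩; exact hc m))
        have hrel : lconRel V e (Quotient.out q) (Quotient.out q') := by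
          by_contra hne
          apply hinf
          refine hgen (fun k => e (Quotient.out q) k - e (Quotient.out q') k) c ?_
          unfold lconRel at hne
          push Not at hne
          obtain ⟨z, hz, hne⟩ := hne
          refine ⟨z, hz, fun h0 => hne ?_⟩
          push_cast at h0
          simp only [sub_mul, Finset.sum_sub_distrib] at h0
          linarith
        have h1 : Quotient.mk S (Quotient.out q) = Quotient.mk S (Quotient.out q') :=
          Quotient.sound hrel
        rwa [Quotient.out_eq, Quotient.out_eq] at h1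
      · exact Or.inl h
      · exact Or.inr h
    · intro m
      rw [← hval (a (φ m)) (ha2 (φ m)) (haV (φ m))]
      exact (hZ (a (φ m))).1 (haZ (φ m)) v hv
  rw [hval y hy2 hyV]
  exact Finset.sum_eq_zero fun q _ => by rw [hs, zero_mul]

end Pool.Agent.Helper77.ST
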