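import Pool.Agent.Helper77.ST.GDefs

/-!
# Module LDOM: domination
-/

namespace Pool.Agent.Helper77.ST

open Finset
open Pool.Agent.Helper9.Kashaev (Piece Diagram)
open Pool.Agent.Helper9.FA (Item twists)

open Filter in
theorem ldom_zpow_tendsto {v : ℝ} (hv : 1 < v) {y : ℕ → ℤ} (hy : Tendsto y atTop atBot) :
    Tendsto (fun m => v ^ y m) atTop (nhds 0) := by
  have hv0 : 0 < v := by linarith
  have hl : 0 < Real.log v := Real.log_pos hv
  have h1 : ∀ k : ℤ, v ^ k = Real.exp (Real.log v * (k : ℝ)) := by
    intro k
    rw [← Real.rpow_intCast, Real.rpow_def_of_pos hv0]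
  simp only [h1]
  have h2 : Tendsto (fun m => Real.log v * (y m : ℝ)) atTop atBot :=
    (tendsto_intCast_atBot_iff.2 hy).const_mul_atBot hl
  exact Real.tendsto_exp_atBot.comp h2

open Filter in
theorem ldom_max {κ : Type} (x : κ → ℕ → ℤ)
    (hx : ∀ i j, i ≠ j → Tendsto (fun m => x i m - x j m) atTop atTop ∨
      Tendsto (fun m => x i m - x j m) atTop atBot) (S : Finset κ) (hS : S.Nonempty) :
    ∃ i ∈ S, ∀ j ∈ S, j ≠ i → Tendsto (fun m => x j m - x i m) atTop atBot := by
  classical
  induction S using Finset.induction_on with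
  | empty => exact absurd hS (by simp)
  | insert a S ha ih =>
    rcases S.eq_empty_or_nonempty with rfl | hne
    · refine ⟨a, by simp, fun j hj hja => ?_⟩
      simp only [insert_empty_eq, mem_singleton] at hj
      exact absurd hj hja
    · obtain ⟨i, hi, hm⟩ := ih hne
      have hai : a ≠ i := fun h => ha (h ▸ hi)
      rcases hx a i hai with h | h
      · refine ⟨a, by simp, fun j hj hja => ?_⟩
        have hjS : j ∈ S := by
          rcases Finset.mem_insert.1 hj with h' | h'
          · exact absurd h' hja
          · exact h'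
        have h1 : Tendsto (fun m => x i m - x a m) atTop atBot := by
          have := tendsto_neg_atTop_atBot.comp h
          refine this.congr fun m => ?_
          simp
        by_cases hji : j = i
        · rw [hji]; exact h1
        · have h2 := (hm j hjS hji).atBot_add_atBot h1
          refine h2.congr fun m => ?_
          ring
      · refine ⟨i, Finset.mem_insert_of_mem hi, fun j hj hji => ?_⟩
        rcases Finset.mem_insert.1 hj with h' | h'
        · rw [h']; exact h
        · exact hm j h' hji

open Filter in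
theorem exp_dom {κ : Type} [Fintype κ] (x : κ → ℕ → ℤ) (s : κ → ℝ) (v : ℝ) (hv : 1 < v)
    (hx : ∀ i j, i ≠ j → Tendsto (fun m => x i m - x j m) atTop atTop ∨
      Tendsto (fun m => x i m - x j m) atTop atBot)
    (h0 : ∀ m, ∑ i, s i * v ^ x i m = 0) : ∀ i, s i = 0 := by
  classical
  by_contra hne
  push Not at hne
  obtain ⟨i0, hi0⟩ := hne
  have hv0 : v ≠ 0 := by linarith
  obtain ⟨i, hi, hm⟩ := ldom_max x hx (univ.filter fun i => s i ≠ 0) ⟨i0, by simp [hi0]⟩
  have hsi : s i ≠ 0 := (Finset.mem_filter.1 hi).2
  have h1 : ∀ m, ∑ j, s j * v ^ (x j m - x i m) = 0 := by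
    intro m
    have h2 : ∑ j, s j * v ^ (x j m - x i m) = (∑ j, s j * v ^ x j m) * v ^ (-x i m) := by
      rw [Finset.sum_mul]
      refine Finset.sum_congr rfl fun j _ => ?_
      rw [sub_eq_add_neg, zpow_add₀ hv0, mul_assoc]
    rw [h2, h0, zero_mul]
  have h3 : Tendsto (fun m => ∑ j, s j * v ^ (x j m - x i m)) atTop
      (nhds (∑ j, if j = i then s i else 0)) := by
    refine tendsto_finsetSum _ fun j _ => ?_
    by_cases hj : j = i
    · subst hj
      simp
    · rw [if_neg hj]
      by_cases hs : s j = 0
      · simp [hs]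
      · have h4 := ldom_zpow_tendsto hv (hm j (by simp [hs]) hj)
        simpa using h4.const_mul (s j)
  have h5 : Tendsto (fun m : ℕ => ∑ j, s j * v ^ (x j m - x i m)) atTop (nhds 0) := by
    refine Tendsto.congr (fun m => (h1 m).symm) tendsto_const_nhds
  have h6 := tendsto_nhds_unique h3 h5
  simp only [Finset.sum_ite_eq', Finset.mem_univ, if_true] at h6
  exact hsi h6

end Pool.Agent.Helper77.ST
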