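import Pool.Agent.Helper77.ST.GDefs

/-!
# Module MLOC: local identities hold in larger diagrams
-/

namespace Pool.Agent.Helper77.ST

open Finset
open Pool.Agent.Helper9.Kashaev (Piece Diagram)
open Pool.Agent.Helper9.FA (Item twists)

variable {F : Type*} [Field F]

lemma mloc_sh_zero (D : Diagram) : sh 0 D = D := by
  unfold sh; simp

lemma mloc_sh_succ (k : ℕ) (D : Diagram) : sh (k + 1) D = sh 1 (sh k D) := by
  unfold sh
  rw [List.map_map]
  apply List.map_congr_left
  intro s _
  simp only [Function.comp_apply]
  rw [add_assoc]

/-- a local linear relation holds with `k` more strands on the left and `r` more strands on the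
right -/
theorem local_sum {P : Par F} {n₀ m₀ : ℕ} {ι : Type*} (s : Finset ι) (c : ι → F)
    (D : ι → Diagram) (h : ∀ i ∈ s, wf n₀ (D i) m₀)
    (H : ∀ f : List ℕ → F, Sup P n₀ f → ∀ u, ∑ i ∈ s, c i * RT P (D i) f u = 0) (k r : ℕ)
    {g : List ℕ → F} (hg : Sup P (k + n₀ + r) g) (u : List ℕ) :
    ∑ i ∈ s, c i * RT P (sh k (D i)) g u = 0 := by
  induction k generalizing g u with
  | zero =>
    by_cases hu : u.length = m₀ + r
    · have hu1 : (u.take m₀).length = m₀ := by rw [List.length_take]; omega
      have hu2 : (u.drop m₀).length = r := by rw [List.length_drop]; omega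
      have e : u = u.take m₀ ++ u.drop m₀ := (List.take_append_drop m₀ u).symm
      have hs : Sup P n₀ (fun u' => g (u' ++ u.drop m₀)) := by
        intro w hw
        apply hg
        rintro ⟨h1, h2⟩
        apply hw
        rw [List.length_append, hu2] at h1
        exact ⟨by omega, fun x hx => h2 x (List.mem_append_left _ hx)⟩
      have := H _ hs (u.take m₀)
      rw [← this]
      apply sum_congr rfl
      intro i hi
      rw [mloc_sh_zero]
      conv_lhs => rw [e]
      rw [RT_right (h i hi) g _ _ hu1]
    · apply sum_eq_zero
      intro i hi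
      rw [mloc_sh_zero]
      have hw : wf (n₀ + r) (D i) (m₀ + r) := h96_wf_right (h i hi) r
      have hS : Sup P (m₀ + r) (RT P (D i) g) := by
        apply RT_Sup hw
        rwa [show n₀ + r = 0 + n₀ + r by ring]
      rw [hS u (fun hh => hu hh.1), mul_zero]
  | succ k ih =>
    rcases u with _ | ⟨x, u⟩
    · apply sum_eq_zero
      intro i hi
      have hw : wf (n₀ + (k + 1) + r) (sh (k + 1) (D i)) (m₀ + (k + 1) + r) :=
        h96_wf_right (wf_sh (h i hi) (k + 1)) r
      have hS : Sup P (m₀ + (k + 1) + r) (RT P (sh (k + 1) (D i)) g) := by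
        apply RT_Sup hw
        rwa [show n₀ + (k + 1) + r = k + 1 + n₀ + r by ring]
      rw [hS [] (fun hh => by have := hh.1; rw [List.length_nil] at this; omega), mul_zero]
    · have hg' : Sup P (k + n₀ + r) (fun w => g (x :: w)) := by
        apply Sup.cons
        rwa [show k + n₀ + r + 1 = k + 1 + n₀ + r by ring]
      rw [← ih hg' u]
      apply sum_congr rfl
      intro i _
      rw [mloc_sh_succ, RT_left]

/-- a local identity holds with `k` more strands on the left and `r` more strands on the right -/
theorem local_eq {P : Par F} {n₀ m₀ : ℕ} {D D' : Diagram} (h : wf n₀ D m₀) (h' : wf n₀ D' m₀) (c : F)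
    (H : ∀ f : List ℕ → F, Sup P n₀ f → RT P D f = fun u => c * RT P D' f u) (k r : ℕ)
    {g : List ℕ → F} (hg : Sup P (k + n₀ + r) g) :
    RT P (sh k D) g = fun u => c * RT P (sh k D') g u := by
  funext u
  have := local_sum (P := P) (n₀ := n₀) (m₀ := m₀) (Finset.univ : Finset Bool)
    (fun b => if b then 1 else -c) (fun b => if b then D else D')
    (by intro i _; cases i <;> simp [h, h'])
    (by
      intro f hf u
      rw [Fintype.sum_bool]
      simp only [if_true, Bool.false_eq_true, if_false]
      rw [H f hf]; ring) k r hg u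
  rw [Fintype.sum_bool] at this
  simp only [if_true, Bool.false_eq_true, if_false] at this
  linear_combination this

end Pool.Agent.Helper77.ST
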