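import Pool.Agent.Helper77.ST.MR2
import Pool.Agent.Helper77.ST.MLoc
import Pool.Agent.Helper77.ST.GNat

/-!
# Module MCAP: a strand passes a maximum
-/

namespace Pool.Agent.Helper77.ST

open Finset
open Pool.Agent.Helper9.Kashaev (Piece Diagram)
open Pool.Agent.Helper9.FA (Item twists)

variable {F : Type*} [Field F]

lemma mcap_EL_cap {P : Par F} (m : ℕ) (h : List ℕ → F) :
    piece P .cap ((EL P ^ m) h) = (EL P ^ m) (piece P .cap h) := by
  induction m generalizing h with
  | zero => rfl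
  | succ m ih =>
    rw [pow_succ, Module.End.mul_apply, Module.End.mul_apply, ih]
    congr 1
    funext w
    exact piece_E .cap h w

lemma mcap_FL_cap {P : Par F} (m : ℕ) (h : List ℕ → F) :
    piece P .cap ((FL P ^ m) h) = (FL P ^ m) (piece P .cap h) := by
  induction m generalizing h with
  | zero => rfl
  | succ m ih =>
    rw [pow_succ, Module.End.mul_apply, Module.End.mul_apply, ih]
    congr 1
    funext w
    exact piece_F .cap h w

lemma mcap_EL_nil {P : Par F} (m : ℕ) (h : List ℕ → F) : (EL P ^ (m + 1)) h [] = 0 := by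
  rw [pow_succ', Module.End.mul_apply, EL_apply]
  rfl

lemma mcap_FL_nil {P : Par F} (m : ℕ) (h : List ℕ → F) : (FL P ^ (m + 1)) h [] = 0 := by
  rw [pow_succ', Module.End.mul_apply, FL_apply]
  rfl

lemma mcap_tht {P : Par F} {i a : ℕ} (ha : a < P.N) : tht P i a * tht P i (P.N - 1 - a) = 1 := by
  unfold tht
  rw [vz]
  have : 2 * hw P i * hw P a + 2 * hw P i * hw P (P.N - 1 - a) = 0 := by
    have h : hw P (P.N - 1 - a) = - hw P a := by
      unfold hw Par.N
      unfold Par.N at ha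
      rw [Nat.cast_sub (by omega)]
      push_cast
      ring
    rw [h]; ring
  rw [this, zpow_zero]

/-- `slice .pos 1` after `slice .neg 1` -/
lemma mcap_r2_one {P : Par F} {g : List ℕ → F} (hg : Sup P 3 g) :
    slice P .pos 1 (slice P .neg 1 g) = g := by
  funext u
  rcases u with _ | ⟨x, u⟩
  · have : g [] = 0 := hg _ (by simp)
    rw [this]; rfl
  · have h := congrFun (r2_neg_pos (hg.cons x)) u
    exact h

lemma mcap_r2_zero {P : Par F} {g : List ℕ → F} (hg : Sup P 3 g) :
    slice P .pos 0 (slice P .neg 0 g) = g := by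
  have h := local_eq (P := P) (n₀ := 2) (m₀ := 2) (D := [(0, .neg), (0, .pos)]) (D' := [])
    (by simp [wf]) (by simp [wf]) 1
    (by
      intro f hf
      funext u
      rw [r2_neg_pos hf]
      simp [RT]) 0 1 (g := g) (by simpa using hg)
  have e : sh 0 [(0, Piece.neg), (0, Piece.pos)] = [(0, .neg), (0, .pos)] := rfl
  have e' : sh 0 ([] : Diagram) = [] := rfl
  rw [e, e'] at h
  have h2 : RT P [(0, .neg), (0, .pos)] g = slice P .pos 0 (slice P .neg 0 g) := rfl
  rw [← h2, h]
  funext u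
  simp [RT]

lemma mcap_under {P : Par F} {f : List ℕ → F} (hf : Sup P 3 f) :
    RT P [(1, .pos), (0, .pos), (1, .cap)] f = RT P [(0, .cap)] f := by
  have h1 : Sup P 1 (RT P [(1, .pos), (0, .pos), (1, .cap)] f) :=
    RT_Sup (n := 3) (by simp [wf]) hf
  have h2 : Sup P 1 (RT P [(0, .cap)] f) := RT_Sup (n := 3) (by simp [wf]) hf
  funext u
  by_cases hu : u.length = 1 ∧ ∀ x ∈ u, x < P.N
  swap
  · rw [h1 u hu, h2 u hu]
  obtain ⟨hl, hx⟩ := hu
  obtain ⟨i, rfl⟩ := List.length_eq_one_iff.mp hl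
  have hi : i < P.N := hx i (by simp)
  have e1 : RT P [(1, .pos), (0, .pos), (1, .cap)] f [i] =
      ∑ a ∈ range P.N, capC P a * RT P [(1, .pos), (0, .pos)] f [i, a, P.N - 1 - a] := rfl
  have e2 : RT P [(0, .cap)] f [i] = piece P .cap (fun u => f (u ++ [i])) [] := rfl
  rw [e1, e2]
  have e3 : ∀ a ∈ range P.N, capC P a * RT P [(1, .pos), (0, .pos)] f [i, a, P.N - 1 - a] =
      ∑ m ∈ range (i + 1), kap P m *
        (capC P a * ((EL P ^ m) (fun u => f (u ++ [i - m]))) [a, P.N - 1 - a]) := by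
    intro a ha
    rw [mem_range] at ha
    rw [nat_under hf ha (by omega) hi, mul_sum]
    apply sum_congr rfl
    intro m _
    rw [mcap_tht ha]
    ring
  rw [sum_congr rfl e3, sum_comm]
  have e4 : ∀ m, ∑ a ∈ range P.N, kap P m *
        (capC P a * ((EL P ^ m) (fun u => f (u ++ [i - m]))) [a, P.N - 1 - a]) =
      kap P m * (EL P ^ m) (piece P .cap (fun u => f (u ++ [i - m]))) [] := by
    intro m
    rw [← mul_sum, ← mcap_EL_cap]
    rfl
  rw [sum_congr rfl (fun m _ => e4 m), sum_range_succ']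
  rw [sum_eq_zero (fun m _ => by rw [mcap_EL_nil, mul_zero]), zero_add, kap_zero, one_mul]
  rfl

lemma mcap_over {P : Par F} {f : List ℕ → F} (hf : Sup P 3 f) :
    RT P [(0, .pos), (1, .pos), (0, .cap)] f = RT P [(1, .cap)] f := by
  have h1 : Sup P 1 (RT P [(0, .pos), (1, .pos), (0, .cap)] f) :=
    RT_Sup (n := 3) (by simp [wf]) hf
  have h2 : Sup P 1 (RT P [(1, .cap)] f) := RT_Sup (n := 3) (by simp [wf]) hf
  funext u
  by_cases hu : u.length = 1 ∧ ∀ x ∈ u, x < P.N
  swap
  · rw [h1 u hu, h2 u hu]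
  obtain ⟨hl, hx⟩ := hu
  obtain ⟨i, rfl⟩ := List.length_eq_one_iff.mp hl
  have hi : i < P.N := hx i (by simp)
  have e1 : RT P [(0, .pos), (1, .pos), (0, .cap)] f [i] =
      ∑ a ∈ range P.N, capC P a * RT P [(0, .pos), (1, .pos)] f [a, P.N - 1 - a, i] := rfl
  have e2 : RT P [(1, .cap)] f [i] = piece P .cap (fun u => f (i :: u)) [] := rfl
  rw [e1, e2]
  have e3 : ∀ a ∈ range P.N, capC P a * RT P [(0, .pos), (1, .pos)] f [a, P.N - 1 - a, i] =
      ∑ m ∈ range P.N, kap P m * eta P i m *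
        (capC P a * ((FL P ^ m) (fun u => f ((i + m) :: u))) [a, P.N - 1 - a]) := by
    intro a ha
    rw [mem_range] at ha
    rw [nat_over hf ha (by omega) hi, mul_sum]
    apply sum_congr rfl
    intro m _
    rw [mcap_tht ha]
    ring
  rw [sum_congr rfl e3, sum_comm]
  have e4 : ∀ m, ∑ a ∈ range P.N, kap P m * eta P i m *
        (capC P a * ((FL P ^ m) (fun u => f ((i + m) :: u))) [a, P.N - 1 - a]) =
      kap P m * eta P i m * (FL P ^ m) (piece P .cap (fun u => f ((i + m) :: u))) [] := by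
    intro m
    rw [← mul_sum, ← mcap_FL_cap]
    rfl
  obtain ⟨M, hM⟩ : ∃ M, P.N = M + 1 := ⟨2 * P.l, rfl⟩
  rw [sum_congr rfl (fun m _ => e4 m), hM, sum_range_succ']
  rw [sum_eq_zero (fun m _ => by rw [mcap_FL_nil, mul_zero]), zero_add, kap_zero, eta_zero,
    one_mul, one_mul]
  rfl

theorem cap_pos {P : Par F} {g : List ℕ → F} (hg : Sup P 3 g) :
    RT P [(0, .pos), (1, .cap)] g = RT P [(1, .neg), (0, .cap)] g := by
  have hf : Sup P 3 (slice P .neg 1 g) := RT_Sup (D := [(1, .neg)]) (n := 3) (by simp [wf]) hg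
  have h := mcap_under hf
  have e1 : RT P [(1, .pos), (0, .pos), (1, .cap)] (slice P .neg 1 g) =
      RT P [(0, .pos), (1, .cap)] (slice P .pos 1 (slice P .neg 1 g)) := rfl
  rw [e1, mcap_r2_one hg] at h
  exact h

theorem cap_neg {P : Par F} {g : List ℕ → F} (hg : Sup P 3 g) :
    RT P [(0, .neg), (1, .cap)] g = RT P [(1, .pos), (0, .cap)] g := by
  have hf : Sup P 3 (slice P .neg 0 g) := RT_Sup (D := [(0, .neg)]) (n := 3) (by simp [wf]) hg
  have h := mcap_over hf
  have e1 : RT P [(0, .pos), (1, .pos), (0, .cap)] (slice P .neg 0 g) =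
      RT P [(1, .pos), (0, .cap)] (slice P .pos 0 (slice P .neg 0 g)) := rfl
  rw [e1, mcap_r2_zero hg] at h
  exact h.symm

end Pool.Agent.Helper77.ST
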