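import Pool.Agent.Helper77.ST.MR2
import Pool.Agent.Helper77.ST.MLoc
import Pool.Agent.Helper77.ST.GNat

/-!
# Module MCUP: a strand passes a minimum
-/

namespace Pool.Agent.Helper77.ST

open Finset
open Pool.Agent.Helper9.Kashaev (Piece Diagram)
open Pool.Agent.Helper9.FA (Item twists)

variable {F : Type*} [Field F]

private lemma mcup_F {P : Par F} {h : List ℕ → F} (hh : Sup P 0 h) : Fop P h = fun _ => 0 := by
  funext w
  by_cases hw : w = []
  · subst hw; rfl
  · exact hh.Fo w (fun h1 => hw (List.length_eq_zero_iff.1 h1.1))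

private lemma mcup_E {P : Par F} {h : List ℕ → F} (hh : Sup P 0 h) : Eop P h = fun _ => 0 := by
  funext w
  by_cases hw : w = []
  · subst hw; rfl
  · exact hh.Eo w (fun h1 => hw (List.length_eq_zero_iff.1 h1.1))

private lemma mcup_FL {P : Par F} {h : List ℕ → F} (hh : Sup P 0 h) (m : ℕ) (w : List ℕ) :
    ((FL P ^ m) (piece P .cup h)) w = if m = 0 then piece P .cup h w else 0 := by
  rcases m with _ | m
  · simp
  · have h1 : FL P (piece P .cup h) = 0 := by
      rw [FL_apply]
      funext u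
      rw [← piece_F, mcup_F hh]
      exact congrFun (slice_zero_fun P .cup 0) u
    rw [if_neg (Nat.succ_ne_zero m), pow_succ, Module.End.mul_apply, h1, map_zero]
    rfl

private lemma mcup_EL {P : Par F} {h : List ℕ → F} (hh : Sup P 0 h) (m : ℕ) (w : List ℕ) :
    ((EL P ^ m) (piece P .cup h)) w = if m = 0 then piece P .cup h w else 0 := by
  rcases m with _ | m
  · simp
  · have h1 : EL P (piece P .cup h) = 0 := by
      rw [EL_apply]
      funext u
      rw [← piece_E, mcup_E hh]
      exact congrFun (slice_zero_fun P .cup 0) u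
    rw [if_neg (Nat.succ_ne_zero m), pow_succ, Module.End.mul_apply, h1, map_zero]
    rfl

private lemma mcup_tht {P : Par F} {a b i : ℕ} (h : a + b + 1 = P.N) :
    tht P i a * tht P i b = 1 := by
  unfold tht
  rw [vz]
  have h1 := wt_add_wt h
  rw [wt_eq_hw, wt_eq_hw] at h1
  have h2 : 2 * hw P i * hw P a + 2 * hw P i * hw P b = 0 := by
    linear_combination hw P i * h1
  rw [h2, zpow_zero]

private lemma mcup_words {P : Par F} {f g : List ℕ → F} (hf : Sup P 3 f) (hg : Sup P 3 g)
    (h : ∀ a b c, a < P.N → b < P.N → c < P.N → f [a, b, c] = g [a, b, c]) : f = g := by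
  funext w
  by_cases hw : w.length = 3 ∧ ∀ x ∈ w, x < P.N
  · obtain ⟨h1, h2⟩ := hw
    obtain ⟨a, b, c, rfl⟩ := List.length_eq_three.1 h1
    exact h a b c (h2 a (by simp)) (h2 b (by simp)) (h2 c (by simp))
  · rw [hf w hw, hg w hw]

private lemma mcup_one {P : Par F} {g : List ℕ → F} (hg : Sup P 1 g) :
    RT P [(1, .cup), (0, .pos), (1, .pos)] g = RT P [(0, .cup)] g := by
  have w1 : wf 1 [(1, .cup), (0, .pos), (1, .pos)] 3 := by simp [wf]
  have w2 : wf 1 [(0, .cup)] 3 := by simp [wf]
  refine mcup_words (RT_Sup w1 hg) (RT_Sup w2 hg) ?_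
  intro a b i ha hb hi
  have hs : Sup P 3 (slice P .cup 1 g) := hg.cup 1
  have h1 : RT P [(1, .cup), (0, .pos), (1, .pos)] g [a, b, i]
      = RT P [(0, .pos), (1, .pos)] (slice P .cup 1 g) [a, b, i] := rfl
  rw [h1, nat_over hs ha hb hi]
  have h2 : ∀ m, (fun u => slice P .cup 1 g ((i + m) :: u))
      = piece P .cup (fun u => g ((i + m) :: u)) := fun m => rfl
  have h3 : ∀ m, ((FL P ^ m) (fun u => slice P .cup 1 g ((i + m) :: u))) [a, b]
      = if m = 0 then piece P .cup (fun u => g ((i + m) :: u)) [a, b] else 0 := by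
    intro m
    rw [h2]
    exact mcup_FL (hg.cons (i + m)) m _
  rw [sum_congr rfl fun m _ => by rw [h3 m]]
  rw [sum_eq_single 0]
  · rw [if_pos rfl, kap_zero, eta_zero]
    have h4 : RT P [(0, .cup)] g [a, b, i] = if a + b + 1 = P.N then cupC P a * g [i] else 0 := rfl
    have h5 : piece P .cup (fun u => g ((i + 0) :: u)) [a, b]
        = if a + b + 1 = P.N then cupC P a * g [i] else 0 := rfl
    rw [h4, h5]
    split_ifs with h6
    · rw [mcup_tht h6]; ring
    · ring
  · intro m _ hm
    rw [if_neg hm, mul_zero]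
  · intro h
    exact absurd (mem_range.2 (by have := P.two_le; omega)) h

private lemma mcup_two {P : Par F} {g : List ℕ → F} (hg : Sup P 1 g) :
    RT P [(0, .cup), (1, .pos), (0, .pos)] g = RT P [(1, .cup)] g := by
  have w1 : wf 1 [(0, .cup), (1, .pos), (0, .pos)] 3 := by simp [wf]
  have w2 : wf 1 [(1, .cup)] 3 := by simp [wf]
  refine mcup_words (RT_Sup w1 hg) (RT_Sup w2 hg) ?_
  intro i a b hi ha hb
  have hs : Sup P 3 (slice P .cup 0 g) := hg.cup 0
  have h1 : RT P [(0, .cup), (1, .pos), (0, .pos)] g [i, a, b]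
      = RT P [(1, .pos), (0, .pos)] (slice P .cup 0 g) [i, a, b] := rfl
  rw [h1, nat_under hs ha hb hi]
  have hnil : g [] = 0 := hg [] (by simp)
  have h2 : ∀ j, (fun u => slice P .cup 0 g (u ++ [j]))
      = piece P .cup (fun u => g (u ++ [j])) := by
    intro j
    funext u
    rcases u with _ | ⟨x, _ | ⟨y, u⟩⟩
    · rfl
    · show piece P .cup g [x, j] = 0
      simp only [piece]
      rw [hnil, mul_zero, ite_self]
    · rfl
  have hh : ∀ j, Sup P 0 (fun u => g (u ++ [j])) := by
    intro j w hw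
    apply hg
    rintro ⟨h3, _⟩
    apply hw
    simp only [List.length_append, List.length_cons, List.length_nil] at h3
    have h4 : w = [] := List.length_eq_zero_iff.1 (by omega)
    subst h4
    simp
  have h3 : ∀ m, ((EL P ^ m) (fun u => slice P .cup 0 g (u ++ [i - m]))) [a, b]
      = if m = 0 then piece P .cup (fun u => g (u ++ [i - m])) [a, b] else 0 := by
    intro m
    rw [h2]
    exact mcup_EL (hh (i - m)) m _
  rw [sum_congr rfl fun m _ => by rw [h3 m]]
  rw [sum_eq_single 0]
  · rw [if_pos rfl, kap_zero]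
    have h4 : RT P [(1, .cup)] g [i, a, b] = if a + b + 1 = P.N then cupC P a * g [i] else 0 := rfl
    have h5 : piece P .cup (fun u => g (u ++ [i - 0])) [a, b]
        = if a + b + 1 = P.N then cupC P a * g [i] else 0 := rfl
    rw [h4, h5]
    split_ifs with h6
    · rw [mcup_tht h6]; ring
    · ring
  · intro m _ hm
    rw [if_neg hm, mul_zero]
  · intro h
    exact absurd (mem_range.2 (by omega)) h

theorem cup_pos {P : Par F} {g : List ℕ → F} (hg : Sup P 1 g) :
    RT P [(1, .cup), (0, .pos)] g = RT P [(0, .cup), (1, .neg)] g := by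
  have w1 : wf 1 [(1, .cup), (0, .pos)] 3 := by simp [wf]
  have hf : Sup P 3 (RT P [(1, .cup), (0, .pos)] g) := RT_Sup w1 hg
  have w2 : wf 2 [(0, .pos), (0, .neg)] 2 := by simp [wf]
  have w3 : wf 2 [] 2 := rfl
  have h1 := local_eq (P := P) w2 w3 1 (by
    intro f hf
    rw [r2_pos_neg hf]
    funext u
    rw [one_mul]
    rfl) 1 0 (g := RT P [(1, .cup), (0, .pos)] g) (by simpa using hf)
  have h2 : RT P (sh 1 [(0, .pos), (0, .neg)]) (RT P [(1, .cup), (0, .pos)] g)
      = slice P .neg 1 (RT P [(1, .cup), (0, .pos), (1, .pos)] g) := rfl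
  have h3 : (fun u => (1 : F) * RT P (sh 1 []) (RT P [(1, .cup), (0, .pos)] g) u)
      = RT P [(1, .cup), (0, .pos)] g := by
    funext u
    rw [one_mul]
    rfl
  rw [h2, h3, mcup_one hg] at h1
  exact h1.symm

theorem cup_neg {P : Par F} {g : List ℕ → F} (hg : Sup P 1 g) :
    RT P [(1, .cup), (0, .neg)] g = RT P [(0, .cup), (1, .pos)] g := by
  have w1 : wf 1 [(0, .cup), (1, .pos)] 3 := by simp [wf]
  have hf : Sup P 3 (RT P [(0, .cup), (1, .pos)] g) := RT_Sup w1 hg
  have w2 : wf 2 [(0, .pos), (0, .neg)] 2 := by simp [wf]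
  have w3 : wf 2 [] 2 := rfl
  have h1 := local_eq (P := P) w2 w3 1 (by
    intro f hf
    rw [r2_pos_neg hf]
    funext u
    rw [one_mul]
    rfl) 0 1 (g := RT P [(0, .cup), (1, .pos)] g) (by simpa using hf)
  have h2 : RT P (sh 0 [(0, .pos), (0, .neg)]) (RT P [(0, .cup), (1, .pos)] g)
      = slice P .neg 0 (RT P [(0, .cup), (1, .pos), (0, .pos)] g) := rfl
  have h3 : (fun u => (1 : F) * RT P (sh 0 []) (RT P [(0, .cup), (1, .pos)] g) u)
      = RT P [(0, .cup), (1, .pos)] g := by
    funext u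
    rw [one_mul]
    rfl
  rw [h2, h3, mcup_two hg] at h1
  exact h1

end Pool.Agent.Helper77.ST
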