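import Pool.Agent.Helper77.ST.GDefs

/-!
# Module MFAR: distant pieces change places
-/

namespace Pool.Agent.Helper77.ST

open Finset
open Pool.Agent.Helper9.Kashaev (Piece Diagram)
open Pool.Agent.Helper9.FA (Item twists)

variable {F : Type*} [Field F]

private lemma mfar_nil (P : Par F) (q : Piece) {l : ℕ} (hl : 1 ≤ l) (f : List ℕ → F) :
    slice P q l f [] = 0 := by
  obtain ⟨l, rfl⟩ := Nat.exists_eq_add_of_le' hl
  rfl

private lemma mfar_cons (P : Par F) (q : Piece) {l : ℕ} (hl : 1 ≤ l) (f : List ℕ → F) (x : ℕ)
    (w : List ℕ) : slice P q l f (x :: w) = slice P q (l - 1) (fun u => f (x :: u)) w := by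
  obtain ⟨l, rfl⟩ := Nat.exists_eq_add_of_le' hl
  rfl

/-- linearity for finite sums of guarded terms -/
private lemma mfar_sum (P : Par F) (q : Piece) (l : ℕ) {ι : Type*} (s : Finset ι) (c : ι → Prop)
    [DecidablePred c] (a : ι → F) (h : ι → List ℕ → F) (w : List ℕ) :
    slice P q l (fun u => ∑ i ∈ s, if c i then a i * h i u else 0) w
      = ∑ i ∈ s, if c i then a i * slice P q l (h i) w else 0 := by
  have h1 : (fun u => ∑ i ∈ s, if c i then a i * h i u else 0)
      = ∑ i ∈ s, (if c i then a i else 0) • h i := by
    funext u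
    rw [Finset.sum_apply]
    refine Finset.sum_congr rfl fun i _ => ?_
    by_cases hc : c i
    · simp [hc]
    · simp [hc]
  rw [h1, ← sliceL_apply, map_sum, Finset.sum_apply]
  refine Finset.sum_congr rfl fun i _ => ?_
  rw [map_smul, Pi.smul_apply, smul_eq_mul, sliceL_apply]
  by_cases hc : c i
  · simp [hc]
  · simp [hc]

private lemma mfar_guard (P : Par F) (q : Piece) (l : ℕ) (c : Prop) [Decidable c] (a : F)
    (h : List ℕ → F) (w : List ℕ) :
    slice P q l (fun u => if c then a * h u else 0) w = if c then a * slice P q l h w else 0 := by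
  have := mfar_sum P q l (Finset.univ : Finset Unit) (fun _ => c) (fun _ => a) (fun _ => h) w
  simpa using this

private lemma mfar_base (P : Par F) (p q : Piece) {l : ℕ} (h : nout p ≤ l) (g : List ℕ → F)
    (w : List ℕ) :
    slice P q l (piece P p g) w = piece P p (slice P q (l + nin p - nout p) g) w := by
  cases p with
  | cap =>
    simp only [nin, nout, Nat.sub_zero, piece]
    have h1 := mfar_sum P q l (range P.N) (fun _ => True) (fun a => capC P a)
      (fun a u => g (a :: (P.N - 1 - a) :: u)) w
    simp only [if_true] at h1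
    refine Eq.trans h1 ?_
    refine Finset.sum_congr rfl fun a _ => ?_
    rw [mfar_cons P q (by omega), mfar_cons P q (by omega)]
    rfl
  | cup =>
    simp only [nout] at h
    rcases w with _ | ⟨a, _ | ⟨b, w⟩⟩
    · rw [mfar_nil P q (by omega)]; rfl
    · rw [mfar_cons P q (by omega), mfar_nil P q (by omega)]; rfl
    · rw [mfar_cons P q (by omega), mfar_cons P q (by omega)]
      simp only [piece]
      rw [mfar_guard]
      rfl
  | pos =>
    simp only [nout] at h
    rcases w with _ | ⟨a, _ | ⟨b, w⟩⟩
    · rw [mfar_nil P q (by omega)]; rfl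
    · rw [mfar_cons P q (by omega), mfar_nil P q (by omega)]; rfl
    · rw [mfar_cons P q (by omega), mfar_cons P q (by omega)]
      simp only [piece]
      rw [mfar_sum]
      refine Finset.sum_congr rfl fun m _ => ?_
      simp only [nin, nout, Nat.add_sub_cancel]
      rw [mfar_cons P q (by omega), mfar_cons P q (by omega)]
  | neg =>
    simp only [nout] at h
    rcases w with _ | ⟨a, _ | ⟨b, w⟩⟩
    · rw [mfar_nil P q (by omega)]; rfl
    · rw [mfar_cons P q (by omega), mfar_nil P q (by omega)]; rfl
    · rw [mfar_cons P q (by omega), mfar_cons P q (by omega)]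
      simp only [piece]
      rw [mfar_sum]
      refine Finset.sum_congr rfl fun m _ => ?_
      simp only [nin, nout, Nat.add_sub_cancel]
      rw [mfar_cons P q (by omega), mfar_cons P q (by omega)]

private lemma mfar_slice (P : Par F) (p q : Piece) : ∀ (k l : ℕ) (_ : k + nout p ≤ l)
    (g : List ℕ → F) (w : List ℕ),
    slice P q l (slice P p k g) w = slice P p k (slice P q (l + nin p - nout p) g) w := by
  intro k
  induction k with
  | zero =>
    intro l h g w
    have h1 : slice P p 0 g = piece P p g := rfl
    rw [h1, mfar_base P p q (by omega)]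
    rfl
  | succ k ih =>
    intro l h g w
    rcases w with _ | ⟨x, w⟩
    · rw [mfar_nil P q (by omega), mfar_nil P p (by omega)]
    · rw [mfar_cons P q (by omega)]
      have h1 : (fun u => slice P p (k + 1) g (x :: u)) = slice P p k (fun u => g (x :: u)) := rfl
      have h2 : slice P p (k + 1) (slice P q (l + nin p - nout p) g) (x :: w)
          = slice P p k (fun u => slice P q (l + nin p - nout p) g (x :: u)) w := rfl
      have h3 : (fun u => slice P q (l + nin p - nout p) g (x :: u))
          = slice P q (l - 1 + nin p - nout p) (fun u => g (x :: u)) := by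
        funext u
        rw [mfar_cons P q (by omega)]
        congr 1
        omega
      rw [h1, h2, h3]
      exact ih (l - 1) (by omega) _ w

theorem far_move {P : Par F} {k l : ℕ} {p q : Piece} (h : k + nout p ≤ l) {n m : ℕ}
    (h1 : wf n [(k, p), (l, q)] m) {g : List ℕ → F} (hg : Sup P n g) :
    RT P [(k, p), (l, q)] g = RT P [(l + nin p - nout p, q), (k, p)] g := by
  funext w
  exact mfar_slice P p q k l h g w

end Pool.Agent.Helper77.ST
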