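import Pool.Agent.Helper77.ST.SKer
import Pool.Agent.Helper77.ST.MR2

/-!
# Module MR1: the first Reidemeister move
-/

namespace Pool.Agent.Helper77.ST

open Finset
open Pool.Agent.Helper9.Kashaev (Piece Diagram)
open Pool.Agent.Helper9.FA (Item twists)

variable {F : Type*} [Field F]

private lemma mr1_mu (P : Par F) : mu P (2 * P.l) = P.v ^ (-(2 * (P.l : ℤ) ^ 2 + 2 * P.l)) := by
  unfold mu
  rw [pow_mul, neg_one_sq, one_pow, one_mul]
  congr 1
  push_cast
  ring

private lemma mr1_mu_inv (P : Par F) :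
    (mu P (2 * P.l))⁻¹ = P.v ^ (2 * (P.l : ℤ) ^ 2 + 2 * P.l) := by
  rw [mr1_mu, zpow_neg, inv_inv]

private lemma mr1_cupE {P : Par F} {g : List ℕ → F} (hg : Sup P 0 g) :
    Eop P (slice P .cup 0 g) = fun _ => 0 := by
  rw [← slice_E]
  have h1 : Eop P g = fun _ => 0 := by
    funext w
    rcases w with _ | ⟨x, w⟩
    · simp [Eop]
    · exact hg.Eo _ (by simp)
  rw [h1, slice_zero_fun]

private lemma mr1_cup_lev {P : Par F} (g : List ℕ → F) (a b : ℕ) (h : a + b ≠ 2 * P.l) :
    slice P .cup 0 g [a, b] = 0 := by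
  simp only [slice, piece]
  rw [if_neg]
  unfold Par.N
  omega

theorem r1_cup_pos {P : Par F} {g : List ℕ → F} (hg : Sup P 0 g) :
    RT P [(0, .cup), (0, .pos)] g =
      fun u => P.v ^ (-(2 * (P.l : ℤ) ^ 2 + 2 * P.l)) * RT P [(0, .cup)] g u := by
  rw [← mr1_mu]
  exact pos_kerE (by unfold Par.N; omega) (hg.cup 0) (mr1_cupE hg) (mr1_cup_lev g)

theorem r1_cup_neg {P : Par F} {g : List ℕ → F} (hg : Sup P 0 g) :
    RT P [(0, .cup), (0, .neg)] g =
      fun u => P.v ^ (2 * (P.l : ℤ) ^ 2 + 2 * P.l) * RT P [(0, .cup)] g u := by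
  rw [← mr1_mu_inv]
  exact neg_kerE (by unfold Par.N; omega) (hg.cup 0) (mr1_cupE hg) (mr1_cup_lev g)

/-! ### caps -/

/-- the functional of a maximum -/
private noncomputable def mr1phi (P : Par F) (f : List ℕ → F) : F := slice P .cap 0 f []

private lemma mr1phi_eq (P : Par F) (f : List ℕ → F) :
    mr1phi P f = ∑ a ∈ range P.N, capC P a * f [a, P.N - 1 - a] := rfl

private lemma mr1phi_F (P : Par F) (f : List ℕ → F) : mr1phi P (Fop P f) = 0 := by
  unfold mr1phi
  rw [slice_F]
  simp [Fop]

private lemma mr1phi_posF (P : Par F) (f : List ℕ → F) :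
    mr1phi P (slice P .pos 0 (Fop P f)) = 0 := by
  rw [slice_F, mr1phi_F]

private lemma mr1_pos_ket (P : Par F) (a b c : ℕ) (hc : c < P.N) :
    slice P .pos 0 (ket [a, b]) [c, P.N - 1 - c] =
      ∑ m ∈ range (c + 1), rho P c (P.N - 1 - c) m *
        (if [P.N - 1 - c + m, c - m] = [a, b] then 1 else 0) := by
  have h2 := P.two_le
  exact pos_apply hc (by omega) (ket [a, b]) []

private lemma mr1phi_pos_ket_ne {P : Par F} {a b : ℕ} (h : a + b ≠ P.N - 1) :
    mr1phi P (slice P .pos 0 (ket [a, b])) = 0 := by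
  rw [mr1phi_eq]
  apply sum_eq_zero
  intro c hc
  rw [mem_range] at hc
  rw [mr1_pos_ket P a b c hc]
  rw [sum_eq_zero, mul_zero]
  intro m hm
  rw [mem_range] at hm
  rw [if_neg, mul_zero]
  intro he
  simp only [List.cons.injEq, and_true] at he
  omega

private lemma mr1phi_ket_ne {P : Par F} {a b : ℕ} (h : a + b ≠ P.N - 1) :
    mr1phi P (ket [a, b]) = 0 := by
  rw [mr1phi_eq]
  apply sum_eq_zero
  intro c hc
  rw [mem_range] at hc
  unfold ket
  rw [if_neg, mul_zero]
  intro he
  simp only [List.cons.injEq, and_true] at he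
  omega

private lemma mr1_capC_last (P : Par F) : capC P (P.N - 1) = 1 := by
  unfold capC
  rw [Nat.sub_self]
  unfold cupC
  simp

private lemma mr1_capC_zero (P : Par F) : capC P 0 = P.v ^ (2 * (P.l : ℤ)) := by
  unfold capC cupC Par.N
  rw [Nat.add_sub_cancel, Nat.sub_zero, pow_mul, neg_one_sq, one_pow, one_mul, ← zpow_neg]
  congr 1
  push_cast
  ring

private lemma mr1_zero (P : Par F) :
    mr1phi P (slice P .pos 0 (ket [0, P.N - 1])) =
      P.v ^ (-(2 * (P.l : ℤ) ^ 2 + 2 * P.l)) * mr1phi P (ket [0, P.N - 1]) := by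
  have h2 := P.two_le
  have e1 : mr1phi P (ket [0, P.N - 1]) = capC P 0 := by
    rw [mr1phi_eq, sum_eq_single 0]
    · simp [ket]
    · intro c _ hc
      unfold ket
      rw [if_neg, mul_zero]
      intro he
      simp only [List.cons.injEq, and_true] at he
      omega
    · intro h
      rw [mem_range] at h
      omega
  have e2 : mr1phi P (slice P .pos 0 (ket [0, P.N - 1])) = tht P (P.N - 1) 0 := by
    rw [mr1phi_eq, sum_eq_single (P.N - 1)]
    · rw [mr1_pos_ket P _ _ _ (by omega), mr1_capC_last, one_mul, sum_eq_single 0]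
      · rw [if_pos (by simp), mul_one, Nat.sub_self]
        unfold rho
        rw [kap_zero, eta_zero, mul_one, mul_one]
      · intro m hm hm0
        rw [mem_range] at hm
        rw [if_neg, mul_zero]
        intro he
        simp only [List.cons.injEq, and_true] at he
        omega
      · intro h
        simp at h
    · intro c hc hcn
      rw [mem_range] at hc
      rw [mr1_pos_ket P _ _ _ hc, sum_eq_zero, mul_zero]
      intro m hm
      rw [mem_range] at hm
      rw [if_neg, mul_zero]
      intro he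
      simp only [List.cons.injEq, and_true] at he
      omega
    · intro h
      rw [mem_range] at h
      omega
  rw [e1, e2, mr1_capC_zero, vz]
  unfold tht hw Par.N
  congr 1
  rw [Nat.add_sub_cancel]
  push_cast
  ring

private lemma mr1_Fket {P : Par F} {a b : ℕ} (ha : a + 1 < P.N) (hb : b + 1 < P.N) :
    Fop P (ket [a, b]) = fun u => ket [a + 1, b] u + P.v ^ (-wt P a) * ket [a, b + 1] u := by
  funext u
  rcases u with _ | ⟨x, u⟩
  · simp [Fop, ket]
  rcases u with _ | ⟨y, u⟩
  · simp [Fop, ket]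
  rcases u with _ | ⟨z, u⟩
  · simp only [Fop, ket, List.cons.injEq, and_true, mul_zero, add_zero]
    by_cases hx : x = a
    · subst hx
      have h1 : ¬ (x - 1 = x ∧ y = b) ∨ ¬ (1 ≤ x ∧ x < P.N) := by omega
      have h2 : (if 1 ≤ x ∧ x < P.N then (if x - 1 = x ∧ y = b then (1 : F) else 0) else 0) = 0 := by
        split_ifs with h3 h4
        · omega
        · rfl
        · rfl
      rw [h2, if_neg (by omega : ¬ (x = x + 1 ∧ y = b)), zero_add, zero_add]
      congr 1
      by_cases hy : y = b + 1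
      · subst hy
        rw [if_pos ⟨by omega, hb⟩, if_pos ⟨rfl, by omega⟩, if_pos ⟨rfl, rfl⟩]
      · rw [if_neg (by omega : ¬ (x = x ∧ y = b + 1))]
        split_ifs with h3 h4
        · omega
        · rfl
        · rfl
    · have h5 : (if 1 ≤ y ∧ y < P.N then (if x = a ∧ y - 1 = b then (1 : F) else 0) else 0) = 0 := by
        split_ifs with h3 h4
        · omega
        · rfl
        · rfl
      rw [h5, if_neg (by omega : ¬ (x = a ∧ y = b + 1)), mul_zero, add_zero]
      rw [mul_zero, add_zero]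
      by_cases hx1 : x = a + 1 ∧ y = b
      · rw [if_pos ⟨by omega, by omega⟩, if_pos ⟨by omega, by omega⟩, if_pos hx1]
      · rw [if_neg hx1]
        split_ifs with h3 h4
        · omega
        · rfl
        · rfl
  · have h0 : ∀ (c d : ℕ) (s : ℕ) (t : ℕ) (r : ℕ) (w : List ℕ),
        (if (s :: t :: r :: w : List ℕ) = [c, d] then (1 : F) else 0) = 0 := by
      intro c d s t r w
      rw [if_neg]
      simp
    have h3 : Fop P (fun u => ket [a, b] (x :: y :: u)) (z :: u) = 0 := by
      have h4 : (fun u => ket [a, b] (x :: y :: u)) =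
          fun u : List ℕ => (if x = a ∧ y = b then 1 else 0) * (ket [] u : F) := by
        funext u
        unfold ket
        by_cases h5 : x = a ∧ y = b
        · rw [if_pos h5, one_mul]
          simp [h5.1, h5.2]
        · rw [if_neg h5, zero_mul, if_neg]
          intro he
          simp only [List.cons.injEq] at he
          exact h5 ⟨he.1, he.2.1⟩
      rw [h4, Fop_smul, Fop_ket_nil, mul_zero]
    have h6 : Fop P (ket [a, b]) (x :: y :: z :: u) =
        (if 1 ≤ x ∧ x < P.N then ket [a, b] ((x - 1) :: y :: z :: u) else 0) +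
        P.v ^ (-wt P x) * ((if 1 ≤ y ∧ y < P.N then ket [a, b] (x :: (y - 1) :: z :: u) else 0) +
        P.v ^ (-wt P y) * Fop P (fun u => ket [a, b] (x :: y :: u)) (z :: u)) := rfl
    rw [h6, h3]
    unfold ket
    rw [h0, h0, h0, h0]
    simp

private lemma mr1_ket {P : Par F} : ∀ (a b : ℕ), a + b = P.N - 1 →
    mr1phi P (slice P .pos 0 (ket [a, b])) =
      P.v ^ (-(2 * (P.l : ℤ) ^ 2 + 2 * P.l)) * mr1phi P (ket [a, b]) := by
  intro a
  have h2 := P.two_le
  induction a with
  | zero =>
    intro b hb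
    rw [zero_add] at hb
    subst hb
    exact mr1_zero P
  | succ a ih =>
    intro b hb
    have h3 := ih (b + 1) (by omega)
    have h4 := mr1_Fket (P := P) (a := a) (b := b) (by omega) (by omega)
    have h5 := mr1phi_F P (ket [a, b])
    have h6 := mr1phi_posF P (ket [a, b])
    rw [h4] at h5 h6
    have e5 : mr1phi P (fun u => ket [a + 1, b] u + P.v ^ (-wt P a) * ket [a, b + 1] u) =
        mr1phi P (ket [a + 1, b]) + P.v ^ (-wt P a) * mr1phi P (ket [a, b + 1]) := by
      unfold mr1phi
      rw [slice_add, slice_smul]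
    have e6 : mr1phi P (slice P .pos 0
        (fun u => ket [a + 1, b] u + P.v ^ (-wt P a) * ket [a, b + 1] u)) =
        mr1phi P (slice P .pos 0 (ket [a + 1, b])) +
          P.v ^ (-wt P a) * mr1phi P (slice P .pos 0 (ket [a, b + 1])) := by
      have e7 : slice P .pos 0 (fun u => ket [a + 1, b] u + P.v ^ (-wt P a) * ket [a, b + 1] u) =
          fun w => slice P .pos 0 (ket [a + 1, b]) w +
            P.v ^ (-wt P a) * slice P .pos 0 (ket [a, b + 1]) w := by
        funext w
        rw [slice_add, slice_smul]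
      rw [e7]
      unfold mr1phi
      rw [slice_add, slice_smul]
    rw [e5] at h5
    rw [e6] at h6
    linear_combination h6 - P.v ^ (-(2 * (P.l : ℤ) ^ 2 + 2 * P.l)) * h5 - P.v ^ (-wt P a) * h3

private lemma mr1_lin {P : Par F} {g : List ℕ → F} (hg : Sup P 2 g) :
    g = ∑ a ∈ range P.N, ∑ b ∈ range P.N, g [a, b] • ket [a, b] := by
  funext w
  simp only [Finset.sum_apply, Pi.smul_apply, smul_eq_mul]
  by_cases hw : w.length = 2 ∧ ∀ x ∈ w, x < P.N
  · obtain ⟨h1, h2⟩ := hw
    obtain ⟨x, y, rfl⟩ := List.length_eq_two.mp h1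
    have hx := h2 x (by simp)
    have hy := h2 y (by simp)
    rw [sum_eq_single x, sum_eq_single y]
    · simp [ket]
    · intro b _ hb
      unfold ket
      rw [if_neg, mul_zero]
      intro he
      simp only [List.cons.injEq, and_true] at he
      exact hb he.2.symm
    · intro h
      exact absurd (mem_range.mpr hy) h
    · intro a _ ha
      apply sum_eq_zero
      intro b _
      unfold ket
      rw [if_neg, mul_zero]
      intro he
      simp only [List.cons.injEq, and_true] at he
      exact ha he.1.symm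
    · intro h
      exact absurd (mem_range.mpr hx) h
  · rw [hg w hw]
    symm
    apply sum_eq_zero
    intro a ha
    apply sum_eq_zero
    intro b hb
    rw [mem_range] at ha hb
    unfold ket
    rw [if_neg, mul_zero]
    rintro rfl
    apply hw
    refine ⟨rfl, ?_⟩
    intro x hx
    simp only [List.mem_cons, List.not_mem_nil, or_false] at hx
    rcases hx with rfl | rfl
    · exact ha
    · exact hb

private lemma mr1_phi {P : Par F} {g : List ℕ → F} (hg : Sup P 2 g) :
    mr1phi P (slice P .pos 0 g) =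
      P.v ^ (-(2 * (P.l : ℤ) ^ 2 + 2 * P.l)) * mr1phi P g := by
  have h1 : ∀ f, mr1phi P f = sliceL P .cap 0 f [] := fun f => rfl
  have h2 : ∀ f, mr1phi P (slice P .pos 0 f) = sliceL P .cap 0 (sliceL P .pos 0 f) [] :=
    fun f => rfl
  have h3 := mr1_lin hg
  rw [h1 g, h2 g, h3]
  simp only [map_sum, map_smul, Finset.sum_apply, Pi.smul_apply, smul_eq_mul, Finset.mul_sum]
  refine Finset.sum_congr rfl fun a _ => Finset.sum_congr rfl fun b _ => ?_
  have h4 : sliceL P .cap 0 (sliceL P .pos 0 (ket [a, b])) [] =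
      P.v ^ (-(2 * (P.l : ℤ) ^ 2 + 2 * P.l)) * sliceL P .cap 0 (ket [a, b]) [] := by
    rw [← h2, ← h1]
    by_cases hab : a + b = P.N - 1
    · exact mr1_ket a b hab
    · rw [mr1phi_pos_ket_ne hab, mr1phi_ket_ne hab, mul_zero]
  rw [h4]
  ring

theorem r1_cap_pos {P : Par F} {g : List ℕ → F} (hg : Sup P 2 g) :
    RT P [(0, .pos), (0, .cap)] g =
      fun u => P.v ^ (-(2 * (P.l : ℤ) ^ 2 + 2 * P.l)) * RT P [(0, .cap)] g u := by
  funext u
  show slice P .cap 0 (slice P .pos 0 g) u =
    P.v ^ (-(2 * (P.l : ℤ) ^ 2 + 2 * P.l)) * slice P .cap 0 g u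
  rcases u with _ | ⟨x, u⟩
  · exact mr1_phi hg
  · rw [Sup.cap (n := 0) (hg.pos 0) 0 (x :: u) (by simp), Sup.cap (n := 0) hg 0 (x :: u) (by simp),
      mul_zero]

theorem r1_cap_neg {P : Par F} {g : List ℕ → F} (hg : Sup P 2 g) :
    RT P [(0, .neg), (0, .cap)] g =
      fun u => P.v ^ (2 * (P.l : ℤ) ^ 2 + 2 * P.l) * RT P [(0, .cap)] g u := by
  have h1 := r1_cap_pos (hg.neg 0)
  have h2 : slice P .pos 0 (slice P .neg 0 g) = g := r2_neg_pos hg
  funext u
  have h3 := congrFun h1 u
  have h4 : RT P [(0, .pos), (0, .cap)] (slice P .neg 0 g) u = slice P .cap 0 g u := by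
    show slice P .cap 0 (slice P .pos 0 (slice P .neg 0 g)) u = _
    rw [h2]
  rw [h4] at h3
  have h5 : RT P [(0, .cap)] (slice P .neg 0 g) u = RT P [(0, .neg), (0, .cap)] g u := rfl
  rw [h5] at h3
  show _ = P.v ^ (2 * (P.l : ℤ) ^ 2 + 2 * P.l) * slice P .cap 0 g u
  rw [h3, ← mul_assoc, vz, add_neg_cancel, zpow_zero, one_mul]

end Pool.Agent.Helper77.ST
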