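import Pool.Agent.Helper77.ST.GDefs
import Pool.Agent.Helper77.ST.GNat

/-!
# Module MR3: the third Reidemeister move
-/

namespace Pool.Agent.Helper77.ST

open Finset
open Pool.Agent.Helper9.Kashaev (Piece Diagram)
open Pool.Agent.Helper9.FA (Item twists)

variable {F : Type*} [Field F]

lemma mr3_FL_pow {P : Par F} (p : Piece) (k m : ℕ) (f : List ℕ → F) :
    (FL P ^ m) (slice P p k f) = slice P p k ((FL P ^ m) f) := by
  induction m with
  | zero => rfl
  | succ m ih =>
    rw [pow_succ', Module.End.mul_apply, ih, Module.End.mul_apply, FL_apply, FL_apply]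
    exact (slice_F p k _).symm

lemma mr3_tht (P : Par F) {a b i j : ℕ} (h : j ≤ a) :
    tht P i (b + j) * tht P i (a - j) = tht P i a * tht P i b := by
  unfold tht
  rw [vz, vz]
  congr 1
  unfold hw
  push_cast [Nat.cast_sub h]
  ring

theorem r3_move {P : Par F} {g : List ℕ → F} (hg : Sup P 3 g) :
    RT P [(0, .pos), (1, .pos), (0, .pos)] g = RT P [(1, .pos), (0, .pos), (1, .pos)] g := by
  have hS1 : Sup P 3 (RT P [(0, .pos), (1, .pos), (0, .pos)] g) :=
    RT_Sup (n := 3) (m := 3) (by simp [wf]) hg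
  have hS2 : Sup P 3 (RT P [(1, .pos), (0, .pos), (1, .pos)] g) :=
    RT_Sup (n := 3) (m := 3) (by simp [wf]) hg
  funext w
  by_cases hw : w.length = 3 ∧ ∀ x ∈ w, x < P.N
  swap
  · rw [hS1 w hw, hS2 w hw]
  obtain ⟨hl, hN⟩ := hw
  obtain ⟨a, b, i, rfl⟩ := List.length_eq_three.mp hl
  have ha : a < P.N := hN a (by simp)
  have hb : b < P.N := hN b (by simp)
  have hi : i < P.N := hN i (by simp)
  have hR : RT P [(1, .pos), (0, .pos), (1, .pos)] g [a, b, i] =
      RT P [(0, .pos), (1, .pos)] (slice P .pos 1 g) [a, b, i] := rfl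
  have hL : RT P [(0, .pos), (1, .pos), (0, .pos)] g [a, b, i] =
      piece P .pos (RT P [(0, .pos), (1, .pos)] g) [a, b, i] := rfl
  rw [hR, hL, nat_over (hg.pos 1) ha hb hi, pos_apply ha hb]
  have e1 : ∀ m ∈ range P.N, kap P m * eta P i m * (tht P i a * tht P i b) *
      ((FL P ^ m) (fun u => slice P .pos 1 g ((i + m) :: u))) [a, b] =
      ∑ j ∈ range (a + 1), rho P a b j * (kap P m * eta P i m * (tht P i a * tht P i b) *
        ((FL P ^ m) (fun u => g ((i + m) :: u))) [b + j, a - j]) := by
    intro m _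
    have : (fun u => slice P .pos 1 g ((i + m) :: u)) =
        slice P .pos 0 (fun u => g ((i + m) :: u)) := rfl
    rw [this, mr3_FL_pow]
    show _ * piece P .pos ((FL P ^ m) (fun u => g ((i + m) :: u))) [a, b] = _
    rw [pos_apply ha hb, mul_sum]
    apply sum_congr rfl
    intro j _
    ring
  rw [sum_congr rfl e1, sum_comm]
  apply sum_congr rfl
  intro j hj
  rw [mem_range] at hj
  by_cases h : b + j < P.N
  · rw [nat_over hg h (by omega) hi, mul_sum]
    apply sum_congr rfl
    intro m _
    rw [mr3_tht P (by omega)]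
  · have : rho P a b j = 0 := by
      unfold rho; rw [eta_eq_zero hb (by omega)]; ring
    simp [this]

end Pool.Agent.Helper77.ST
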