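import Pool.Agent.Helper77.ST.MLoc
import Pool.Agent.Helper77.ST.MFar
import Pool.Agent.Helper77.ST.MR1
import Pool.Agent.Helper77.ST.MR2
import Pool.Agent.Helper77.ST.MR3
import Pool.Agent.Helper77.ST.MCup
import Pool.Agent.Helper77.ST.MCap

/-!
# Module MINV: invariance under all moves
-/

namespace Pool.Agent.Helper77.ST

open Finset
open Pool.Agent.Helper9.Kashaev (Piece Diagram)
open Pool.Agent.Helper9.FA (Item twists)

variable {F : Type*} [Field F]

theorem minv_split {n m : ℕ} {A B : Diagram} (h : wf n (A ++ B) m) :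
    ∃ l, wf n A l ∧ wf l B m := by
  induction A generalizing n with
  | nil => exact ⟨n, rfl, h⟩
  | cons s A ih =>
    obtain ⟨k, p⟩ := s
    cases p with
    | cup => obtain ⟨l, h1, h2⟩ := ih h.2; exact ⟨l, ⟨h.1, h1⟩, h2⟩
    | cap => obtain ⟨l, h1, h2⟩ := ih h.2; exact ⟨l, ⟨h.1, h1⟩, h2⟩
    | pos => obtain ⟨l, h1, h2⟩ := ih h.2; exact ⟨l, ⟨h.1, h1⟩, h2⟩
    | neg => obtain ⟨l, h1, h2⟩ := ih h.2; exact ⟨l, ⟨h.1, h1⟩, h2⟩

theorem minv_unique {n m m' : ℕ} {A : Diagram} (h : wf n A m) (h' : wf n A m') : m = m' := by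
  induction A generalizing n with
  | nil => simp only [wf] at h h'; omega
  | cons s A ih =>
    obtain ⟨k, p⟩ := s
    cases p with
    | cup => exact ih h.2 h'.2
    | cap => exact ih h.2 h'.2
    | pos => exact ih h.2 h'.2
    | neg => exact ih h.2 h'.2

/-- the exponent of a move -/
theorem minv_move {a b : Diagram} (h : Move a b) : ∃ e : ℤ, ∀ (P : Par F) (n m m' : ℕ)
    (g : List ℕ → F), wf n a m → wf n b m' → Sup P n g →
    RT P a g = fun u => P.v ^ (e * (2 * (P.l : ℤ) ^ 2 + 2 * P.l)) * RT P b g u := by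
  cases h with
  | zig1 k =>
    refine ⟨0, fun P n m m' g h1 h2 hg => ?_⟩
    simp only [wf] at h1
    simp only [zero_mul, zpow_zero, one_mul, RT]
    exact zig1 hg (by omega)
  | zig2 k =>
    refine ⟨0, fun P n m m' g h1 h2 hg => ?_⟩
    simp only [wf] at h1
    simp only [zero_mul, zpow_zero, one_mul, RT]
    exact zig2 hg (by omega)
  | cup1p k =>
    refine ⟨-1, fun P n m m' g h1 h2 hg => ?_⟩
    simp only [wf] at h1
    obtain ⟨r, rfl⟩ : ∃ r, n = k + 0 + r := ⟨n - k, by omega⟩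
    have := local_eq (P := P) (n₀ := 0) (m₀ := 2) (D := [(0, .cup), (0, .pos)])
      (D' := [(0, .cup)]) (by simp [wf]) (by simp [wf])
      (P.v ^ (-(2 * (P.l : ℤ) ^ 2 + 2 * P.l))) (fun f hf => r1_cup_pos hf) k r hg
    simpa only [sh, List.map_cons, List.map_nil, zero_add, neg_one_mul] using this
  | cup1n k =>
    refine ⟨1, fun P n m m' g h1 h2 hg => ?_⟩
    simp only [wf] at h1
    obtain ⟨r, rfl⟩ : ∃ r, n = k + 0 + r := ⟨n - k, by omega⟩
    have := local_eq (P := P) (n₀ := 0) (m₀ := 2) (D := [(0, .cup), (0, .neg)])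
      (D' := [(0, .cup)]) (by simp [wf]) (by simp [wf])
      (P.v ^ (2 * (P.l : ℤ) ^ 2 + 2 * P.l)) (fun f hf => r1_cup_neg hf) k r hg
    simpa only [sh, List.map_cons, List.map_nil, zero_add, one_mul] using this
  | cap1p k =>
    refine ⟨-1, fun P n m m' g h1 h2 hg => ?_⟩
    simp only [wf] at h1
    obtain ⟨r, rfl⟩ : ∃ r, n = k + 2 + r := ⟨n - (k + 2), by omega⟩
    have := local_eq (P := P) (n₀ := 2) (m₀ := 0) (D := [(0, .pos), (0, .cap)])
      (D' := [(0, .cap)]) (by simp [wf]) (by simp [wf])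
      (P.v ^ (-(2 * (P.l : ℤ) ^ 2 + 2 * P.l))) (fun f hf => r1_cap_pos hf) k r hg
    simpa only [sh, List.map_cons, List.map_nil, zero_add, neg_one_mul] using this
  | cap1n k =>
    refine ⟨1, fun P n m m' g h1 h2 hg => ?_⟩
    simp only [wf] at h1
    obtain ⟨r, rfl⟩ : ∃ r, n = k + 2 + r := ⟨n - (k + 2), by omega⟩
    have := local_eq (P := P) (n₀ := 2) (m₀ := 0) (D := [(0, .neg), (0, .cap)])
      (D' := [(0, .cap)]) (by simp [wf]) (by simp [wf])
      (P.v ^ (2 * (P.l : ℤ) ^ 2 + 2 * P.l)) (fun f hf => r1_cap_neg hf) k r hg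
    simpa only [sh, List.map_cons, List.map_nil, zero_add, one_mul] using this
  | r2pn k =>
    refine ⟨0, fun P n m m' g h1 h2 hg => ?_⟩
    simp only [wf] at h1
    obtain ⟨r, rfl⟩ : ∃ r, n = k + 2 + r := ⟨n - (k + 2), by omega⟩
    have := local_eq (P := P) (n₀ := 2) (m₀ := 2) (D := [(0, .pos), (0, .neg)])
      (D' := []) (by simp [wf]) (by simp [wf]) 1
      (fun f hf => by rw [r2_pos_neg hf]; simp only [RT, one_mul]) k r hg
    simpa only [sh, List.map_cons, List.map_nil, zero_add, zero_mul, zpow_zero] using this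
  | r2np k =>
    refine ⟨0, fun P n m m' g h1 h2 hg => ?_⟩
    simp only [wf] at h1
    obtain ⟨r, rfl⟩ : ∃ r, n = k + 2 + r := ⟨n - (k + 2), by omega⟩
    have := local_eq (P := P) (n₀ := 2) (m₀ := 2) (D := [(0, .neg), (0, .pos)])
      (D' := []) (by simp [wf]) (by simp [wf]) 1
      (fun f hf => by rw [r2_neg_pos hf]; simp only [RT, one_mul]) k r hg
    simpa only [sh, List.map_cons, List.map_nil, zero_add, zero_mul, zpow_zero] using this
  | r3 k =>
    refine ⟨0, fun P n m m' g h1 h2 hg => ?_⟩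
    simp only [wf] at h1
    obtain ⟨r, rfl⟩ : ∃ r, n = k + 3 + r := ⟨n - (k + 3), by omega⟩
    have := local_eq (P := P) (n₀ := 3) (m₀ := 3) (D := [(0, .pos), (1, .pos), (0, .pos)])
      (D' := [(1, .pos), (0, .pos), (1, .pos)]) (by simp [wf]) (by simp [wf]) 1
      (fun f hf => by rw [r3_move hf]; simp only [one_mul]) k r hg
    simpa only [sh, List.map_cons, List.map_nil, zero_add, zero_mul, zpow_zero, add_comm 1 k]
      using this
  | cup2p k =>
    refine ⟨0, fun P n m m' g h1 h2 hg => ?_⟩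
    simp only [wf] at h1
    obtain ⟨r, rfl⟩ : ∃ r, n = k + 1 + r := ⟨n - (k + 1), by omega⟩
    have := local_eq (P := P) (n₀ := 1) (m₀ := 3) (D := [(1, .cup), (0, .pos)])
      (D' := [(0, .cup), (1, .neg)]) (by simp [wf]) (by simp [wf]) 1
      (fun f hf => by rw [cup_pos hf]; simp only [one_mul]) k r hg
    simpa only [sh, List.map_cons, List.map_nil, zero_add, zero_mul, zpow_zero, add_comm 1 k]
      using this
  | cup2n k =>
    refine ⟨0, fun P n m m' g h1 h2 hg => ?_⟩
    simp only [wf] at h1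
    obtain ⟨r, rfl⟩ : ∃ r, n = k + 1 + r := ⟨n - (k + 1), by omega⟩
    have := local_eq (P := P) (n₀ := 1) (m₀ := 3) (D := [(1, .cup), (0, .neg)])
      (D' := [(0, .cup), (1, .pos)]) (by simp [wf]) (by simp [wf]) 1
      (fun f hf => by rw [cup_neg hf]; simp only [one_mul]) k r hg
    simpa only [sh, List.map_cons, List.map_nil, zero_add, zero_mul, zpow_zero, add_comm 1 k]
      using this
  | cap2p k =>
    refine ⟨0, fun P n m m' g h1 h2 hg => ?_⟩
    simp only [wf] at h1
    obtain ⟨r, rfl⟩ : ∃ r, n = k + 3 + r := ⟨n - (k + 3), by omega⟩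
    have := local_eq (P := P) (n₀ := 3) (m₀ := 1) (D := [(0, .pos), (1, .cap)])
      (D' := [(1, .neg), (0, .cap)]) (by simp [wf]) (by simp [wf]) 1
      (fun f hf => by rw [cap_pos hf]; simp only [one_mul]) k r hg
    simpa only [sh, List.map_cons, List.map_nil, zero_add, zero_mul, zpow_zero, add_comm 1 k]
      using this
  | cap2n k =>
    refine ⟨0, fun P n m m' g h1 h2 hg => ?_⟩
    simp only [wf] at h1
    obtain ⟨r, rfl⟩ : ∃ r, n = k + 3 + r := ⟨n - (k + 3), by omega⟩
    have := local_eq (P := P) (n₀ := 3) (m₀ := 1) (D := [(0, .neg), (1, .cap)])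
      (D' := [(1, .pos), (0, .cap)]) (by simp [wf]) (by simp [wf]) 1
      (fun f hf => by rw [cap_neg hf]; simp only [one_mul]) k r hg
    simpa only [sh, List.map_cons, List.map_nil, zero_add, zero_mul, zpow_zero, add_comm 1 k]
      using this
  | far k l p q h =>
    refine ⟨0, fun P n m m' g h1 h2 hg => ?_⟩
    rw [far_move h h1 hg]
    simp only [zero_mul, zpow_zero, one_mul]

theorem step_eq {D D' : Diagram} (h : Step D D') : ∃ e : ℤ, ∀ P : Par F,
    RT P D (ket [0]) [0] = P.v ^ (e * (2 * (P.l : ℤ) ^ 2 + 2 * P.l)) * RT P D' (ket [0]) [0] := by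
  obtain ⟨A, B, hm, h1, h2⟩ := h
  rename_i a b
  obtain ⟨e, he⟩ := minv_move (F := F) hm
  refine ⟨e, fun P => ?_⟩
  obtain ⟨m, g1, -⟩ := minv_split h1
  obtain ⟨n, g2, g3⟩ := minv_split g1
  obtain ⟨m', g1', -⟩ := minv_split h2
  obtain ⟨n', g2', g3'⟩ := minv_split g1'
  obtain rfl := minv_unique g2 g2'
  have hS : Sup P 1 (ket [0] : List ℕ → F) := by
    have := Sup_ket (P := P) (w := [0]) (F := F) (by
      intro x hx
      rw [List.mem_singleton] at hx
      subst hx
      unfold Par.N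
      omega)
    simpa using this
  have hf := RT_Sup g2 hS
  have key := he P n m m' _ g3 g3' hf
  rw [RT_append, RT_append, RT_append, RT_append, key]
  set c := P.v ^ (e * (2 * (P.l : ℤ) ^ 2 + 2 * P.l)) with hc
  have e1 : (fun u => c * RT P b (RT P A (ket [0])) u) = c • RT P b (RT P A (ket [0])) := rfl
  rw [e1, ← RTL_apply P B, map_smul, RTL_apply]
  rfl

theorem isotopic_eq {D D' : Diagram} (h : Isotopic D D') (P : Par F) :
    RT P D (ket [0]) [0] * RT P.inv D (ket [0]) [0] =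
      RT P D' (ket [0]) [0] * RT P.inv D' (ket [0]) [0] := by
  induction h with
  | rel D D' h =>
    obtain ⟨e, he⟩ := step_eq (F := F) h
    rw [he P, he P.inv]
    have e1 : P.inv.v = P.v⁻¹ := rfl
    have e2 : P.inv.l = P.l := rfl
    rw [e1, e2, inv_zpow]
    have h0 : P.v ^ (e * (2 * (P.l : ℤ) ^ 2 + 2 * P.l)) ≠ 0 := vz_ne P _
    rw [mul_mul_mul_comm, mul_inv_cancel₀ h0, one_mul]
  | refl D => rfl
  | symm D D' _ ih => exact ih.symm
  | trans D D' D'' _ _ ih ih' => exact ih.trans ih'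

end Pool.Agent.Helper77.ST
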