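import Pool.Agent.Helper77.FA.SPECA
import Pool.Agent.Helper74.FA.GAUSSW

/-!
# Module QGEN: powers of the matrix of a crossing at a general parameter
-/

namespace Pool.Agent.Helper77.ST

open Finset
open Pool.Agent.Helper9.Kashaev Pool.Agent.Helper9.TG
open Pool.Agent.Helper9 (TB.AM TB.lam TB.bb TB.mu)
open scoped Matrix

/-- eigenvectors at the parameter `M` -/
noncomputable def VM (N : ℕ) (M : ℝ) (k : ℕ) : Fin N → ℂ := fun t =>
  (∏ j ∈ range t, TB.bb M (j + 1 : ℕ)) * ∏ j ∈ Ico ((t : ℕ) + 1) N, (TB.lam M k - TB.lam M j)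

/-- the sum in the formula of Lagrange for divided differences -/
noncomputable def qgenL (x f : ℕ → ℂ) (S : Finset ℕ) : ℂ :=
  ∑ k ∈ S, f k * (∏ j ∈ S.erase k, (x k - x j))⁻¹

lemma qgenL_step (x f : ℕ → ℂ) {T : Finset ℕ} {a b : ℕ} (ha : a ∉ T) (hb : b ∉ T) (hab : a ≠ b)
    (hTa : ∀ k ∈ T, x k - x a ≠ 0) (hTb : ∀ k ∈ T, x k - x b ≠ 0) (hba : x b - x a ≠ 0) :
    qgenL x f (insert a (insert b T)) =
      (qgenL x f (insert b T) - qgenL x f (insert a T)) / (x b - x a) := by
  have hab' : x a - x b ≠ 0 := by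
    intro h
    apply hba
    linear_combination -h
  have haI : a ∉ insert b T := by simp [hab, ha]
  unfold qgenL
  rw [sum_insert haI, sum_insert hb, sum_insert hb, sum_insert ha]
  have e1 : (insert a (insert b T)).erase a = insert b T := erase_insert haI
  have e2 : (insert a (insert b T)).erase b = insert a T := by
    rw [erase_insert_of_ne hab, erase_insert hb]
  have e3 : (insert b T).erase b = T := erase_insert hb
  have e4 : (insert a T).erase a = T := erase_insert ha
  rw [e1, e2, e3, e4, prod_insert hb, prod_insert ha]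
  have h5 : ∑ k ∈ T, f k * (∏ j ∈ (insert a (insert b T)).erase k, (x k - x j))⁻¹ =
      (∑ k ∈ T, f k * (∏ j ∈ (insert b T).erase k, (x k - x j))⁻¹ -
        ∑ k ∈ T, f k * (∏ j ∈ (insert a T).erase k, (x k - x j))⁻¹) / (x b - x a) := by
    rw [← sum_sub_distrib, sum_div]
    refine sum_congr rfl fun k hk => ?_
    have hka : a ≠ k := fun h => ha (h ▸ hk)
    have hkb : b ≠ k := fun h => hb (h ▸ hk)
    rw [erase_insert_of_ne hka, erase_insert_of_ne hkb, erase_insert_of_ne hka,
      prod_insert, prod_insert, prod_insert]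
    · have h1 := hTa k hk
      have h2 := hTb k hk
      simp only [mul_inv]
      field_simp
      ring
    · exact fun h => ha (mem_of_mem_erase h)
    · exact fun h => hb (mem_of_mem_erase h)
    · intro h
      rw [mem_insert] at h
      rcases h with h | h
      · exact hab h
      · exact ha (mem_of_mem_erase h)
  rw [h5, mul_inv, mul_inv]
  field_simp
  ring

lemma qgen_dd (x f : ℕ → ℂ) (N : ℕ) (hx : ∀ a l : ℕ, l < a → a < N → x a ≠ x l) (n : ℕ) :
    ∀ l : ℕ, l + n < N → Pool.Agent.Helper9.TB.dd f x l n = qgenL x f (Ico l (l + n + 1)) := by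
  induction n with
  | zero =>
    intro l _
    simp [Pool.Agent.Helper9.TB.dd, qgenL]
  | succ n ih =>
    intro l hl
    simp only [Pool.Agent.Helper9.TB.dd]
    rw [ih (l + 1) (by omega), ih l (by omega)]
    have e1 : Ico (l + 1) (l + 1 + n + 1) = insert (l + n + 1) (Ico (l + 1) (l + n + 1)) := by
      ext z; simp only [mem_Ico, mem_insert]; omega
    have e2 : Ico l (l + n + 1) = insert l (Ico (l + 1) (l + n + 1)) := by
      ext z; simp only [mem_Ico, mem_insert]; omega
    have e3 : Ico l (l + (n + 1) + 1) =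
        insert l (insert (l + n + 1) (Ico (l + 1) (l + n + 1))) := by
      ext z; simp only [mem_Ico, mem_insert]; omega
    rw [e1, e2, e3, qgenL_step x f (by simp) (by simp) (by omega)]
    · intro k hk
      rw [mem_Ico] at hk
      exact sub_ne_zero.mpr (hx k l (by omega) (by omega))
    · intro k hk
      rw [mem_Ico] at hk
      exact sub_ne_zero.mpr (hx (l + n + 1) k (by omega) (by omega)).symm
    · exact sub_ne_zero.mpr (hx (l + n + 1) l (by omega) (by omega))

lemma qgen_ne {N : ℕ} {M : ℝ} (h1 : (N : ℝ) < M) (h2 : M < N + 1) : ∀ n : ℕ, M ≠ n := by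
  intro n hn
  rw [hn] at h1 h2
  have h3 : N < n := by exact_mod_cast h1
  have h4 : n < N + 1 := by exact_mod_cast h2
  omega

/-- for `N < M < N + 1` the nodes are different and the matrix is diagonalisable -/
theorem AM_pow_gen {N : ℕ} (hN : 2 ≤ N) {M : ℝ} (h1 : (N : ℝ) < M) (h2 : M < N + 1) (r : ℕ) :
    (TB.AM N M ^ r) *ᵥ e0 N = ∑ k ∈ range N,
      (TB.mu M k ^ r * (∏ j ∈ (range N).erase k, (TB.lam M k - TB.lam M j))⁻¹) • VM N M k := by
  have hM : (N : ℝ) < M + 1 := by linarith
  have hne := Pool.Agent.Helper9.TB.lam_ne hM (qgen_ne h1 h2)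
  funext t
  have ht := t.2
  have hL : ((TB.AM N M ^ r) *ᵥ e0 N) t = (TB.AM N M ^ r) t ⟨0, by omega⟩ := by
    show ∑ i, (TB.AM N M ^ r) t i * e0 N i = _
    rw [sum_eq_single (⟨0, by omega⟩ : Fin N)]
    · unfold e0
      simp
    · intro i _ hi
      unfold e0
      rw [if_neg, mul_zero]
      intro h
      exact hi (Fin.ext h)
    · intro h
      exact absurd (mem_univ _) h
  have h3 := Pool.Agent.Helper9.TB.AM_pow_entry hM (qgen_ne h1 h2) r t 0 (by omega)
  have e1 : (⟨0 + (t : ℕ), by omega⟩ : Fin N) = t := Fin.ext (by simp)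
  rw [e1] at h3
  rw [hL, h3, qgen_dd (TB.lam M) _ N hne t 0 (by omega)]
  rw [Finset.sum_apply]
  have e2 : ∏ k ∈ Ico (0 + 1) (0 + (t : ℕ) + 1), TB.bb M k =
      ∏ j ∈ range (t : ℕ), TB.bb M (j + 1 : ℕ) := by
    rw [prod_Ico_eq_prod_range]
    have : 0 + (t : ℕ) + 1 - (0 + 1) = t := by omega
    rw [this]
    refine prod_congr rfl fun j _ => ?_
    rw [show 0 + 1 + j = j + 1 by omega]
  rw [e2]
  unfold qgenL
  rw [mul_sum]
  have e3 : Ico 0 (0 + (t : ℕ) + 1) = range ((t : ℕ) + 1) := by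
    ext z; simp only [mem_Ico, mem_range]; omega
  rw [e3]
  have e4 : ∀ k ∈ range N, ((TB.mu M k ^ r *
      (∏ j ∈ (range N).erase k, (TB.lam M k - TB.lam M j))⁻¹) • VM N M k) t =
      if k ∈ range ((t : ℕ) + 1) then (∏ j ∈ range (t : ℕ), TB.bb M (j + 1 : ℕ)) *
        (TB.mu M k ^ r *
          (∏ j ∈ (range ((t : ℕ) + 1)).erase k, (TB.lam M k - TB.lam M j))⁻¹) else 0 := by
    intro k hk
    rw [mem_range] at hk
    rw [Pi.smul_apply, smul_eq_mul]
    unfold VM
    by_cases hkt : k < (t : ℕ) + 1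
    · rw [if_pos (mem_range.mpr hkt)]
      have e5 : (range N).erase k = ((range ((t : ℕ) + 1)).erase k) ∪ Ico ((t : ℕ) + 1) N := by
        ext z; simp only [mem_erase, mem_range, mem_union, mem_Ico]; omega
      have e6 : Disjoint ((range ((t : ℕ) + 1)).erase k) (Ico ((t : ℕ) + 1) N) := by
        rw [disjoint_left]
        intro z hz hz'
        simp only [mem_erase, mem_range] at hz
        simp only [mem_Ico] at hz'
        omega
      rw [e5, prod_union e6, mul_inv]
      have e7 : ∏ j ∈ Ico ((t : ℕ) + 1) N, (TB.lam M k - TB.lam M j) ≠ 0 := by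
        rw [prod_ne_zero_iff]
        intro j hj
        rw [mem_Ico] at hj
        exact sub_ne_zero.mpr (hne j k (by omega) (by omega)).symm
      generalize (∏ j ∈ Ico ((t : ℕ) + 1) N, (TB.lam M k - TB.lam M j)) = A at e7 ⊢
      field_simp
    · rw [if_neg (by simpa using hkt)]
      have e7 : ∏ j ∈ Ico ((t : ℕ) + 1) N, (TB.lam M k - TB.lam M j) = 0 :=
        prod_eq_zero (mem_Ico.mpr ⟨by omega, hk⟩) (sub_self _)
      rw [e7, mul_zero, mul_zero]
  rw [sum_congr rfl e4, sum_ite_mem]
  have e8 : range N ∩ range ((t : ℕ) + 1) = range ((t : ℕ) + 1) := by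
    ext z; simp only [mem_inter, mem_range]; omega
  rw [e8]

end Pool.Agent.Helper77.ST
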