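import Mathlib
import Pool.Agent.Helper77.ST.QGen
import Pool.Agent.Helper9.TB.Lim

/-!
# Module QLIM: the power `2 N` of the matrix of a crossing at the root of unity
-/

namespace Pool.Agent.Helper77.ST

open Finset Filter Topology
open Pool.Agent.Helper9.Kashaev Pool.Agent.Helper9.TG
open Pool.Agent.Helper9 (TB.AM TB.lam TB.lamR TB.bb TB.mu)
open Pool.Agent.Helper9.FA (betaw)
open Pool.Agent.Helper9.FA.Spec77 (Yv cheb_C_add_two cheb_C_eval bP dI Yv_eq)
open scoped Matrix

lemma qlim_key {N : ℕ} (hN : 2 ≤ N) (k : ℕ) (s : ℝ) :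
    (2 * Real.sin (N * s / 2)) ^ 2 =
      ∏ j ∈ range N, (2 * Real.cos (Real.pi * ((2 * k + 1) / N) + s) - TB.lamR N j) := by
  have hN0 : (N : ℝ) ≠ 0 := by positivity
  set φ : ℝ := Real.pi * ((2 * k + 1) / N) + s with hφ
  set z : ℂ := Complex.exp (φ * Complex.I) with hz
  have hz0 : z ≠ 0 := Complex.exp_ne_zero _
  have hzi : z⁻¹ = Complex.exp (-φ * Complex.I) := by
    rw [hz, ← Complex.exp_neg]
    congr 1
    ring
  have hzz : z + z⁻¹ = ((2 * Real.cos φ : ℝ) : ℂ) := by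
    push_cast
    rw [Complex.two_cos, hzi]
  have hzN : z ^ N + z⁻¹ ^ N = ((2 * Real.cos (N * φ) : ℝ) : ℂ) := by
    push_cast
    rw [Complex.two_cos, hzi, hz, ← Complex.exp_nat_mul, ← Complex.exp_nat_mul]
    congr 1
    · congr 1; ring
    · congr 1; ring
  have h := congrArg (Polynomial.eval (z + z⁻¹)) (cheb_C_add_two hN)
  rw [Polynomial.eval_add, cheb_C_eval N z hz0, Polynomial.eval_prod, hzN, hzz] at h
  have e2 : Polynomial.eval ((2 * Real.cos φ : ℝ) : ℂ) (2 : Polynomial ℂ) = 2 := by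
    rw [show (2 : Polynomial ℂ) = Polynomial.C 2 by rfl, Polynomial.eval_C]
  rw [e2] at h
  have h3 : ((2 * Real.cos (N * φ) + 2 : ℝ) : ℂ) =
      ((∏ j ∈ range N, (2 * Real.cos φ - TB.lamR N j) : ℝ) : ℂ) := by
    rw [Complex.ofReal_add, Complex.ofReal_prod]
    have e3 : ((2 : ℝ) : ℂ) = 2 := by norm_num
    rw [e3, h]
    refine prod_congr rfl fun j _ => ?_
    rw [Polynomial.eval_sub, Polynomial.eval_X, Polynomial.eval_C, Complex.ofReal_sub]
    rfl
  have h4 := Complex.ofReal_injective h3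
  rw [← h4]
  have e4 : N * φ = N * s + ((2 * k + 1 : ℕ) : ℝ) * Real.pi := by
    rw [hφ]
    push_cast
    field_simp
    ring
  have e5 : Real.cos (N * s) = 1 - 2 * Real.sin (N * s / 2) ^ 2 := by
    rw [show N * s = 2 * (N * s / 2) by ring, Real.cos_two_mul, Real.cos_sq']
    rw [show 2 * (N * s / 2) / 2 = N * s / 2 by ring]
    ring
  have e6 : ((-1 : ℝ)) ^ (2 * k + 1) = -1 := by
    rw [pow_succ, pow_mul]
    norm_num
  rw [e4, Real.cos_add_nat_mul_pi, e5, e6]
  ring

lemma qlim_lamR {N k : ℕ} (hk : k < N) : TB.lamR N (N - 1 - k : ℕ) = TB.lamR N k := by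
  have h := Pool.Agent.Helper9.TF.lam_reflect hk
  exact Complex.ofReal_injective h

/-- the product of the differences with the other nodes -/
lemma qlim_prod {N k : ℕ} (hN : 2 ≤ N) (hk : k < N) (hkk : 2 * k + 1 ≠ N) :
    (4 * Real.sin (Real.pi * ((2 * k + 1) / N)) ^ 2) *
      ∏ j ∈ ((range N).erase k).erase (N - 1 - k), (TB.lamR N k - TB.lamR N j) = (N : ℝ) ^ 2 := by
  set θ : ℝ := Real.pi * ((2 * k + 1) / N) with hθ
  set f : ℝ → ℝ := fun s => 2 * Real.sin (N * s / 2) with hf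
  set g : ℝ → ℝ := fun s => 2 * Real.cos (θ + s) with hg
  set Q : ℝ → ℝ := fun x => ∏ j ∈ ((range N).erase k).erase (N - 1 - k), (x - TB.lamR N j) with hQ
  have hg0 : g 0 = TB.lamR N k := by
    simp only [hg, add_zero, hθ]
    rfl
  have hf0 : f 0 = 0 := by simp [hf]
  have hfd : HasDerivAt f N 0 := by
    have h1 : HasDerivAt (fun s : ℝ => N * s / 2) ((N : ℝ) / 2) 0 := by
      have := ((hasDerivAt_id (0 : ℝ)).const_mul (N : ℝ)).div_const 2
      simpa using this
    have h2 := (h1.sin).const_mul 2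
    refine h2.congr_deriv ?_
    simp
    ring
  have hgd : HasDerivAt g (-(2 * Real.sin θ)) 0 := by
    have h1 : HasDerivAt (fun s : ℝ => θ + s) 1 0 := (hasDerivAt_id (0 : ℝ)).const_add θ
    have h2 := (h1.cos).const_mul 2
    refine h2.congr_deriv ?_
    simp
  have hfs := hasDerivAt_iff_tendsto_slope.mp hfd
  have hgs := hasDerivAt_iff_tendsto_slope.mp hgd
  have hQc : Continuous Q := by
    simp only [hQ]
    exact continuous_finsetProd _ fun j _ => continuous_id.sub continuous_const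
  have hgc : Tendsto g (𝓝[≠] 0) (𝓝 (TB.lamR N k)) := by
    rw [← hg0]
    exact hgd.continuousAt.tendsto.mono_left nhdsWithin_le_nhds
  have hL : Tendsto (fun s => (slope f 0 s) ^ 2) (𝓝[≠] 0) (𝓝 ((N : ℝ) ^ 2)) := hfs.pow 2
  have hR : Tendsto (fun s => (slope g 0 s) ^ 2 * Q (g s)) (𝓝[≠] 0)
      (𝓝 ((-(2 * Real.sin θ)) ^ 2 * Q (TB.lamR N k))) :=
    (hgs.pow 2).mul ((hQc.tendsto _).comp hgc)
  have heq : (fun s => (slope f 0 s) ^ 2) =ᶠ[𝓝[≠] 0] (fun s => (slope g 0 s) ^ 2 * Q (g s)) := by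
    filter_upwards [self_mem_nhdsWithin] with s _
    rw [slope_def_field, slope_def_field, hf0, hg0, sub_zero, sub_zero, div_pow, div_pow,
      div_mul_eq_mul_div]
    congr 1
    have h1 := qlim_key hN k s
    have h2 : (N - 1 - k) ∈ (range N).erase k := by
      rw [mem_erase, mem_range]
      omega
    rw [← mul_prod_erase (range N) _ (mem_range.mpr hk), ← mul_prod_erase _ _ h2, qlim_lamR hk] at h1
    show (2 * Real.sin (N * s / 2)) ^ 2 = _
    rw [h1]
    simp only [hg, hQ, hθ]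
    ring
  have h := tendsto_nhds_unique (hL.congr' heq) hR
  rw [h]
  simp only [hQ]
  ring

lemma qlim_sin_ne {N k : ℕ} (hk : k < N) (hkk : 2 * k + 1 ≠ N) :
    Real.sin (Real.pi * ((2 * k + 1) / N)) ≠ 0 := by
  have hN : (0 : ℝ) < N := by
    have : 0 < N := by omega
    exact_mod_cast this
  intro h
  rw [Real.sin_eq_zero_iff] at h
  obtain ⟨n, hn⟩ := h
  have h1 : (n : ℝ) = (2 * k + 1) / N := by
    have := mul_right_cancel₀ Real.pi_ne_zero (hn.trans (mul_comm _ _))
    exact this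
  rw [eq_div_iff hN.ne'] at h1
  have h2 : n * (N : ℤ) = 2 * k + 1 := by exact_mod_cast h1
  have h3 : (0 : ℤ) < n := by
    by_contra hcon
    push Not at hcon
    have : n * (N : ℤ) ≤ 0 := mul_nonpos_of_nonpos_of_nonneg hcon (by positivity)
    omega
  have h4 : n < 2 := by
    by_contra hcon
    push Not at hcon
    have : 2 * (N : ℤ) ≤ n * N := mul_le_mul_of_nonneg_right hcon (by positivity)
    omega
  have h5 : n = 1 := by omega
  rw [h5] at h2
  omega

lemma qlim_lamR_ne {N j k : ℕ} (hj : j < N) (hk : k < N) (hjk : j ≠ k) (h : j + k + 1 ≠ N) :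
    TB.lamR N k - TB.lamR N j ≠ 0 := by
  wlog hlt : j < k generalizing j k with H
  · intro h0
    exact H hk hj hjk.symm (by omega) (by omega) (by linarith)
  · rw [Pool.Agent.Helper9.TB.lamR_sub N k j hlt.le, neg_ne_zero]
    have hN : (0 : ℝ) < N := by
      have : 0 < N := by omega
      exact_mod_cast this
    apply mul_ne_zero
    · unfold Pool.Agent.Helper9.TB.sb
      apply mul_ne_zero two_ne_zero
      intro h0
      rw [Real.sin_eq_zero_iff] at h0
      obtain ⟨n, hn⟩ := h0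
      have h1 : (n : ℝ) = ((k + j + 1 : ℕ) : ℝ) / N := by
        have := mul_right_cancel₀ Real.pi_ne_zero (hn.trans (mul_comm _ _))
        exact this
      rw [eq_div_iff hN.ne'] at h1
      have h2 : n * (N : ℤ) = (k + j + 1 : ℕ) := by exact_mod_cast h1
      have h3 : (0 : ℤ) < n := by
        by_contra hcon
        push Not at hcon
        have : n * (N : ℤ) ≤ 0 := mul_nonpos_of_nonpos_of_nonneg hcon (by positivity)
        omega
      have h4 : n < 2 := by
        by_contra hcon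
        push Not at hcon
        have : 2 * (N : ℤ) ≤ n * N := mul_le_mul_of_nonneg_right hcon (by positivity)
        omega
      have h5 : n = 1 := by omega
      rw [h5] at h2
      omega
    · apply (Pool.Agent.Helper9.TB.sb_pos _ _).ne'
      · have : (0 : ℝ) < ((k - j : ℕ) : ℝ) := by exact_mod_cast (by omega : 0 < k - j)
        positivity
      · rw [div_lt_one hN]
        exact_mod_cast (by omega : k - j < N)

lemma qlim_lam_contAt {N : ℕ} (hN : 2 ≤ N) (k : ℕ) : ContinuousAt (fun M : ℝ => TB.lam M k) N := by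
  have hN0 : (N : ℝ) ≠ 0 := by positivity
  unfold Pool.Agent.Helper9.TB.lam Pool.Agent.Helper9.TB.lamR
  apply Complex.continuous_ofReal.continuousAt.comp
  fun_prop (disch := assumption)

lemma qlim_bb_contAt {N : ℕ} (hN : 2 ≤ N) (k : ℕ) : ContinuousAt (fun M : ℝ => TB.bb M k) N := by
  have hN0 : (N : ℝ) ≠ 0 := by positivity
  unfold Pool.Agent.Helper9.TB.bb Pool.Agent.Helper9.TB.sb
  apply Complex.continuous_ofReal.continuousAt.comp
  fun_prop (disch := assumption)

lemma qlim_VM_contAt {N : ℕ} (hN : 2 ≤ N) (k : ℕ) (t : Fin N) :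
    ContinuousAt (fun M : ℝ => VM N M k t) N := by
  unfold VM
  apply ContinuousAt.mul
  · exact tendsto_finsetProd _ fun j _ => qlim_bb_contAt hN _
  · exact tendsto_finsetProd _ fun j _ => (qlim_lam_contAt hN k).sub (qlim_lam_contAt hN j)

lemma qlim_VM_eq {N : ℕ} (k : ℕ) : VM N N k = Yv N k := by
  funext t
  rfl

lemma qlim_mu_pow (N : ℕ) (M : ℝ) (k : ℕ) : TB.mu M k ^ (2 * N) =
    Complex.exp (2 * Real.pi * Complex.I * N * (k * (k + 1)) * ((M⁻¹ : ℝ) : ℂ)) := by
  unfold Pool.Agent.Helper9.TB.mu Pool.Agent.Helper9.TB.ex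
  rw [mul_pow, ← pow_mul, mul_comm k (2 * N), mul_assoc 2 N k, pow_mul, neg_one_sq, one_pow, one_mul,
    ← Complex.exp_nat_mul]
  congr 1
  push_cast
  ring

lemma qlim_mu_one {N : ℕ} (hN : 2 ≤ N) (k : ℕ) : TB.mu N k ^ (2 * N) = 1 := by
  have hN0 : (N : ℂ) ≠ 0 := by
    have : (N : ℝ) ≠ 0 := by positivity
    exact_mod_cast this
  rw [qlim_mu_pow]
  have e : 2 * Real.pi * Complex.I * N * (k * (k + 1)) * (((N : ℝ)⁻¹ : ℝ) : ℂ) =
      ((k * (k + 1) : ℕ) : ℂ) * (2 * Real.pi * Complex.I) := by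
    push_cast
    field_simp
  rw [e, Complex.exp_nat_mul, Complex.exp_two_pi_mul_I, one_pow]

lemma qlim_mu_deriv {N : ℕ} (hN : 2 ≤ N) (k : ℕ) :
    HasDerivAt (fun M : ℝ => TB.mu M k ^ (2 * N))
      (-(2 * Real.pi * Complex.I * (k * (k + 1)) / N)) N := by
  have hN0 : (N : ℝ) ≠ 0 := by positivity
  have hN0' : (N : ℂ) ≠ 0 := by exact_mod_cast hN0
  have h1 : HasDerivAt (fun M : ℝ => ((M⁻¹ : ℝ) : ℂ)) ((-((N : ℝ) ^ 2)⁻¹ : ℝ) : ℂ) (N : ℝ) :=
    (hasDerivAt_inv hN0).ofReal_comp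
  have h2 := (h1.const_mul (2 * Real.pi * Complex.I * N * (k * (k + 1)))).cexp
  have h3 : (fun M : ℝ => TB.mu M k ^ (2 * N)) = fun M : ℝ =>
      Complex.exp (2 * Real.pi * Complex.I * N * (k * (k + 1)) * ((M⁻¹ : ℝ) : ℂ)) := by
    funext M
    exact qlim_mu_pow N M k
  rw [h3]
  convert h2 using 1
  rw [← qlim_mu_pow, qlim_mu_one hN, one_mul]
  push_cast
  field_simp

lemma qlim_lam_deriv {N k : ℕ} (hN : 2 ≤ N) (hk : k < N) :
    HasDerivAt (fun M : ℝ => TB.lam M k - TB.lam M (N - 1 - k : ℕ))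
      ((4 * Real.pi / N * Real.sin (Real.pi * ((2 * k + 1) / N)) : ℝ) : ℂ) N := by
  have hN0 : (N : ℝ) ≠ 0 := by positivity
  have h0 : ∀ c : ℝ, HasDerivAt (fun M : ℝ => 2 * Real.cos (Real.pi * (c / M)))
      (2 * Real.pi * c / N ^ 2 * Real.sin (Real.pi * (c / N))) (N : ℝ) := by
    intro c
    have h1 : HasDerivAt (fun M : ℝ => Real.pi * (c / M)) (Real.pi * (c * (-((N : ℝ) ^ 2)⁻¹)))
        (N : ℝ) := by
      have := ((hasDerivAt_inv hN0).const_mul c).const_mul Real.pi
      simpa only [div_eq_mul_inv] using this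
    have h2 := h1.cos.const_mul 2
    refine h2.congr_deriv ?_
    ring
  have h1 := (h0 (2 * k + 1)).sub (h0 (2 * ((N - 1 - k : ℕ) : ℝ) + 1))
  have e1 : ((N - 1 - k : ℕ) : ℝ) = N - 1 - k := by
    rw [Nat.sub_sub, Nat.cast_sub (by omega)]
    push_cast
    ring
  have e2 : Real.sin (Real.pi * ((2 * ((N - 1 - k : ℕ) : ℝ) + 1) / N)) =
      - Real.sin (Real.pi * ((2 * k + 1) / N)) := by
    rw [e1]
    have : Real.pi * ((2 * ((N : ℝ) - 1 - k) + 1) / N) =
        2 * Real.pi - Real.pi * ((2 * k + 1) / N) := by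
      field_simp
      ring
    rw [this, Real.sin_two_pi_sub]
  have h2 := h1.ofReal_comp
  convert h2 using 1
  · funext M
    unfold Pool.Agent.Helper9.TB.lam Pool.Agent.Helper9.TB.lamR
    simp only [Pi.sub_apply]
    push_cast
    ring
  · rw [e2, e1]
    congr 1
    field_simp
    ring

/-- the coefficients tend to a limit -/
lemma qlim_coef {N k : ℕ} (hN : 2 ≤ N) (hk : k < N) :
    Tendsto (fun M : ℝ => (TB.mu M k ^ (2 * N) - 1) *
      (∏ j ∈ (range N).erase k, (TB.lam M k - TB.lam M j))⁻¹) (𝓝[>] (N : ℝ))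
      (𝓝 (-(2 * Complex.I / N ^ 2 * (k * (k + 1)) *
        (Real.sin (Real.pi * ((2 * k + 1) / N)) : ℝ)))) := by
  have hN0 : (N : ℝ) ≠ 0 := by positivity
  have hN0' : (N : ℂ) ≠ 0 := by exact_mod_cast hN0
  have hmu := qlim_mu_deriv hN k
  have hle : (𝓝[>] (N : ℝ)) ≤ 𝓝[≠] (N : ℝ) := nhdsWithin_mono _ (by
    intro x hx
    exact ne_of_gt hx)
  by_cases hkk : 2 * k + 1 = N
  · have e1 : Real.sin (Real.pi * ((2 * k + 1) / N)) = 0 := by
      have : ((2 * k + 1 : ℝ) / N) = 1 := by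
        rw [← hkk]
        push_cast
        apply div_self
        positivity
      rw [this, mul_one, Real.sin_pi]
    rw [e1]
    have h1 : Tendsto (fun M : ℝ => TB.mu M k ^ (2 * N) - 1) (𝓝[>] (N : ℝ)) (𝓝 0) := by
      have := hmu.continuousAt.tendsto.sub_const 1
      simp only [qlim_mu_one hN, sub_self] at this
      exact this.mono_left nhdsWithin_le_nhds
    have h2 : Tendsto (fun M : ℝ => (∏ j ∈ (range N).erase k, (TB.lam M k - TB.lam M j))⁻¹)
        (𝓝[>] (N : ℝ)) (𝓝 (∏ j ∈ (range N).erase k, (TB.lam N k - TB.lam N j))⁻¹) := by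
      have h3 : Tendsto (fun M : ℝ => (∏ j ∈ (range N).erase k, (TB.lam M k - TB.lam M j)))
          (𝓝 (N : ℝ)) (𝓝 (∏ j ∈ (range N).erase k, (TB.lam N k - TB.lam N j))) :=
        tendsto_finsetProd _ fun j _ => (qlim_lam_contAt hN k).sub (qlim_lam_contAt hN j)
      refine (h3.inv₀ ?_).mono_left nhdsWithin_le_nhds
      rw [prod_ne_zero_iff]
      intro j hj
      rw [mem_erase, mem_range] at hj
      have h4 := qlim_lamR_ne hj.2 hk hj.1 (by omega)
      unfold Pool.Agent.Helper9.TB.lam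
      rw [← Complex.ofReal_sub]
      exact Complex.ofReal_ne_zero.mpr h4
    have h5 := h1.mul h2
    simpa using h5
  · have hlam := qlim_lam_deriv hN hk
    have hs := qlim_sin_ne hk hkk
    have h1 := (hasDerivAt_iff_tendsto_slope.mp hmu).mono_left hle
    have h2 := (hasDerivAt_iff_tendsto_slope.mp hlam).mono_left hle
    have hd : ((4 * Real.pi / N * Real.sin (Real.pi * ((2 * k + 1) / N)) : ℝ) : ℂ) ≠ 0 := by
      apply Complex.ofReal_ne_zero.mpr
      have := Real.pi_ne_zero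
      positivity
    set Q : ℝ → ℂ := fun M => ∏ j ∈ ((range N).erase k).erase (N - 1 - k),
      (TB.lam M k - TB.lam M j) with hQ
    have hQt : Tendsto Q (𝓝[>] (N : ℝ)) (𝓝 (Q N)) := by
      have : Tendsto Q (𝓝 (N : ℝ)) (𝓝 (Q N)) :=
        tendsto_finsetProd _ fun j _ => (qlim_lam_contAt hN k).sub (qlim_lam_contAt hN j)
      exact this.mono_left nhdsWithin_le_nhds
    have hp := qlim_prod hN hk hkk
    have hQN : Q N = ((N ^ 2 / (4 * Real.sin (Real.pi * ((2 * k + 1) / N)) ^ 2) : ℝ) : ℂ) := by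
      rw [← hp]
      have e : Q N = ((∏ j ∈ ((range N).erase k).erase (N - 1 - k),
          (TB.lamR N k - TB.lamR N j) : ℝ) : ℂ) := by
        simp only [hQ]
        unfold Pool.Agent.Helper9.TB.lam
        push_cast
        rfl
      rw [e]
      congr 1
      generalize Real.sin (Real.pi * ((2 * k + 1) / N)) = σ at hs ⊢
      field_simp
    have hQ0 : Q N ≠ 0 := by
      rw [hQN]
      apply Complex.ofReal_ne_zero.mpr
      positivity
    have h3 := (h1.mul (h2.inv₀ hd)).mul (hQt.inv₀ hQ0)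
    have heq : (fun M : ℝ => (TB.mu M k ^ (2 * N) - 1) *
        (∏ j ∈ (range N).erase k, (TB.lam M k - TB.lam M j))⁻¹) =ᶠ[𝓝[>] (N : ℝ)]
        (fun M => slope (fun M : ℝ => TB.mu M k ^ (2 * N)) N M *
          (slope (fun M : ℝ => TB.lam M k - TB.lam M (N - 1 - k : ℕ)) N M)⁻¹ * (Q M)⁻¹) := by
      filter_upwards [self_mem_nhdsWithin] with M hM
      have hMN : ((M - N : ℝ) : ℂ) ≠ 0 := by
        apply Complex.ofReal_ne_zero.mpr
        have : (N : ℝ) < M := hM
        linarith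
      have h5 : (N - 1 - k) ∈ (range N).erase k := by
        rw [mem_erase, mem_range]
        omega
      have h6 : TB.lam N k - TB.lam N (N - 1 - k : ℕ) = 0 := by
        rw [Pool.Agent.Helper9.TF.lam_reflect hk, sub_self]
      rw [← mul_prod_erase _ _ h5, slope_def_module, slope_def_module, qlim_mu_one hN, h6, sub_zero]
      simp only [Complex.real_smul]
      rw [mul_inv, mul_inv, Complex.ofReal_inv, inv_inv]
      simp only [hQ]
      field_simp
    refine (h3.congr' heq.symm).trans ?_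
    apply le_of_eq
    congr 1
    rw [hQN]
    have hs' : ((Real.sin (Real.pi * ((2 * k + 1) / N)) : ℝ) : ℂ) ≠ 0 :=
      Complex.ofReal_ne_zero.mpr hs
    have hpi : ((Real.pi : ℝ) : ℂ) ≠ 0 := Complex.ofReal_ne_zero.mpr Real.pi_ne_zero
    generalize Real.sin (Real.pi * ((2 * k + 1) / N)) = σ at hs' ⊢
    push_cast
    field_simp

lemma qlim_Yv {N k : ℕ} (hN : 2 ≤ N) (hk : k < N) : Yv N (N - 1 - k) = Yv N k := by
  funext t
  rw [Yv_eq hN hk, Yv_eq hN (by omega)]
  have e : N - 1 - (N - 1 - k) = k := by omega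
  rw [e]
  congr 2
  ring

theorem AM_pow_two_mul {N : ℕ} (hN : 2 ≤ N) : (TB.AM N N ^ (2 * N)) *ᵥ e0 N =
    e0 N + (Complex.I / N) • ∑ k ∈ range N, ((betaw N k : ℝ) : ℂ) • Yv N k := by
  have hN0 : (N : ℝ) ≠ 0 := by positivity
  have hN0' : (N : ℂ) ≠ 0 := by exact_mod_cast hN0
  -- the limit
  have key : (TB.AM N N ^ (2 * N)) *ᵥ e0 N - e0 N = ∑ k ∈ range N,
      (-(2 * Complex.I / N ^ 2 * (k * (k + 1)) *
        (Real.sin (Real.pi * ((2 * k + 1) / N)) : ℝ)) : ℂ) • Yv N k := by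
    funext t
    have hL : Tendsto (fun M : ℝ => ((TB.AM N M ^ (2 * N)) *ᵥ e0 N - e0 N) t) (𝓝[>] (N : ℝ))
        (𝓝 (((TB.AM N N ^ (2 * N)) *ᵥ e0 N - e0 N) t)) := by
      have h1 : ContinuousAt (fun M : ℝ => TB.AM N M) N :=
        Pool.Agent.Helper9.TB.AM_contAt (by omega)
      have h2 : ContinuousAt (fun M : ℝ => (TB.AM N M) ^ (2 * N)) N := h1.pow _
      have h3 : ContinuousAt (fun M : ℝ => ((TB.AM N M ^ (2 * N)) *ᵥ e0 N - e0 N) t) N := by
        have h4 : Continuous (fun A : Matrix (Fin N) (Fin N) ℂ => (A *ᵥ e0 N - e0 N) t) := by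
          have : Continuous (fun A : Matrix (Fin N) (Fin N) ℂ => A *ᵥ e0 N) :=
            Continuous.matrix_mulVec continuous_id continuous_const
          exact (continuous_apply t).comp (this.sub continuous_const)
        exact h4.continuousAt.comp h2
      exact h3.tendsto.mono_left nhdsWithin_le_nhds
    have hR : Tendsto (fun M : ℝ => ∑ k ∈ range N, ((TB.mu M k ^ (2 * N) - 1) *
        (∏ j ∈ (range N).erase k, (TB.lam M k - TB.lam M j))⁻¹) * VM N M k t) (𝓝[>] (N : ℝ))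
        (𝓝 (∑ k ∈ range N, (-(2 * Complex.I / N ^ 2 * (k * (k + 1)) *
          (Real.sin (Real.pi * ((2 * k + 1) / N)) : ℝ)) : ℂ) * Yv N k t)) := by
      apply tendsto_finsetSum
      intro k hk
      apply (qlim_coef hN (mem_range.mp hk)).mul
      have := (qlim_VM_contAt hN k t).tendsto
      rw [qlim_VM_eq] at this
      exact this.mono_left nhdsWithin_le_nhds
    have heq : (fun M : ℝ => ((TB.AM N M ^ (2 * N)) *ᵥ e0 N - e0 N) t) =ᶠ[𝓝[>] (N : ℝ)]
        (fun M : ℝ => ∑ k ∈ range N, ((TB.mu M k ^ (2 * N) - 1) *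
        (∏ j ∈ (range N).erase k, (TB.lam M k - TB.lam M j))⁻¹) * VM N M k t) := by
      have hlt : ∀ᶠ M : ℝ in 𝓝[>] (N : ℝ), M < (N : ℝ) + 1 :=
        (eventually_lt_nhds (by linarith : (N : ℝ) < N + 1)).filter_mono nhdsWithin_le_nhds
      filter_upwards [self_mem_nhdsWithin, hlt] with M hM hM2
      have h1 := congrFun (AM_pow_gen hN hM hM2 (2 * N)) t
      have h0 := congrFun (AM_pow_gen hN hM hM2 0) t
      simp only [pow_zero, Matrix.one_mulVec, one_mul] at h0
      rw [Pi.sub_apply, h1, h0, Finset.sum_apply, Finset.sum_apply, ← sum_sub_distrib]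
      refine sum_congr rfl fun k _ => ?_
      simp only [Pi.smul_apply, smul_eq_mul]
      ring
    have h := tendsto_nhds_unique (hL.congr' heq) hR
    rw [h, Finset.sum_apply]
    refine sum_congr rfl fun k _ => ?_
    simp only [Pi.smul_apply, smul_eq_mul]
  -- symmetrisation
  set a : ℕ → ℂ := fun k => (-(2 * Complex.I / N ^ 2 * (k * (k + 1)) *
        (Real.sin (Real.pi * ((2 * k + 1) / N)) : ℝ)) : ℂ) with ha
  have h1 : ∑ k ∈ range N, a k • Yv N k = ∑ k ∈ range N, a (N - 1 - k) • Yv N k := by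
    rw [← sum_range_reflect]
    refine sum_congr rfl fun k hk => ?_
    rw [qlim_Yv hN (mem_range.mp hk)]
  have h2 : ∀ k ∈ range N, a k + a (N - 1 - k) = 2 * (Complex.I / N * ((betaw N k : ℝ) : ℂ)) := by
    intro k hk
    rw [mem_range] at hk
    have e1 : ((N - 1 - k : ℕ) : ℝ) = N - 1 - k := by
      rw [Nat.sub_sub, Nat.cast_sub (by omega)]
      push_cast
      ring
    have e1' : ((N - 1 - k : ℕ) : ℂ) = N - 1 - k := by
      have := congrArg (fun x : ℝ => (x : ℂ)) e1
      simpa using this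
    have e2 : Real.sin (Real.pi * ((2 * ((N - 1 - k : ℕ) : ℝ) + 1) / N)) =
        - Real.sin (Real.pi * ((2 * k + 1) / N)) := by
      rw [e1]
      have : Real.pi * ((2 * ((N : ℝ) - 1 - k) + 1) / N) =
          2 * Real.pi - Real.pi * ((2 * k + 1) / N) := by
        field_simp
        ring
      rw [this, Real.sin_two_pi_sub]
    simp only [ha]
    rw [e2, e1']
    unfold Pool.Agent.Helper9.FA.betaw
    rw [mul_div_assoc Real.pi (2 * (k : ℝ) + 1) (N : ℝ)]
    generalize Real.sin (Real.pi * ((2 * k + 1) / N)) = σ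
    push_cast
    field_simp
    ring
  have h3 : (2 : ℂ) • ∑ k ∈ range N, a k • Yv N k =
      (2 : ℂ) • ((Complex.I / N) • ∑ k ∈ range N, ((betaw N k : ℝ) : ℂ) • Yv N k) := by
    rw [two_smul]
    nth_rewrite 2 [h1]
    rw [← sum_add_distrib, smul_sum, smul_sum]
    refine sum_congr rfl fun k hk => ?_
    rw [← add_smul, h2 k hk, smul_smul, smul_smul]
    congr 1
    ring
  have h4 := smul_right_injective (Fin N → ℂ) (two_ne_zero : (2 : ℂ) ≠ 0) h3
  rw [← h4, ← key]
  abel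

end Pool.Agent.Helper77.ST
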