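import Pool.Agent.Helper74.FA.GAUSSW

/-!
# Module QLOW: a lower bound for `G0b`
-/

namespace Pool.Agent.Helper77.ST

open Finset
open Pool.Agent.Helper9.FA

namespace H6L

open Pool.Agent.Helper9 (TB.sf TB.sb TB.sf_succ TB.sf_pos)

/-- a lower bound of the sine -/
theorem sin_low {N x : ℕ} (h0 : 0 < x) (h1 : x < N) : 2 / (N : ℝ) ≤ Real.sin (Real.pi * x / N) := by
  have hpi := Real.pi_pos
  have hN : (0 : ℝ) < N := by exact_mod_cast (by omega : 0 < N)
  have key : ∀ y : ℕ, 0 < y → 2 * y ≤ N → 2 / (N : ℝ) ≤ Real.sin (Real.pi * y / N) := by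
    intro y hy0 hy1
    have hy0' : (1 : ℝ) ≤ y := by exact_mod_cast hy0
    have hy1' : 2 * (y : ℝ) ≤ N := by exact_mod_cast hy1
    have h2 := Real.mul_le_sin (x := Real.pi * y / N) (by positivity) (by
      rw [div_le_div_iff₀ hN (by norm_num)]
      nlinarith)
    refine le_trans ?_ h2
    have e : 2 / Real.pi * (Real.pi * y / N) = 2 * y / N := by
      field_simp
    rw [e]
    exact div_le_div_of_nonneg_right (by linarith) hN.le
  by_cases h : 2 * x ≤ N
  · exact key x h0 h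
  · have h3 := key (N - x) (by omega) (by omega)
    have e : Real.pi * ((N - x : ℕ) : ℝ) / N = Real.pi - Real.pi * x / N := by
      rw [Nat.cast_sub h1.le]
      field_simp
    rwa [e, Real.sin_pi_sub] at h3

theorem betaw_low {N k : ℕ} (hk : k < N) (h : 2 * k + 1 ≠ N) : 2 / (N : ℝ) ≤ betaw N k := by
  have hN : (0 : ℝ) < N := by exact_mod_cast (by omega : 0 < N)
  have h2N : (0 : ℝ) < 2 / N := by positivity
  unfold betaw
  rcases Nat.lt_or_gt_of_ne h with h | h
  · have h1 := sin_low (N := N) (x := 2 * k + 1) (by omega) h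
    push_cast at h1
    have h2 : (1 : ℝ) ≤ (N : ℝ) - 1 - 2 * k := by
      have : ((2 * k + 1 + 1 : ℕ) : ℝ) ≤ N := by exact_mod_cast (by omega : 2 * k + 1 + 1 ≤ N)
      push_cast at this
      linarith
    calc 2 / (N : ℝ) = 1 * (2 / N) := by ring
      _ ≤ _ := mul_le_mul h2 h1 h2N.le (by linarith)
  · have h1 := sin_low (N := N) (x := 2 * k + 1 - N) (by omega) (by omega)
    have e : Real.pi * ((2 * k + 1 - N : ℕ) : ℝ) / N = Real.pi * (2 * k + 1) / N - Real.pi := by
      rw [Nat.cast_sub (by omega)]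
      push_cast
      field_simp
    rw [e, Real.sin_sub_pi] at h1
    have h2 : (1 : ℝ) ≤ -((N : ℝ) - 1 - 2 * k) := by
      have : ((N : ℕ) : ℝ) ≤ ((2 * k : ℕ) : ℝ) := by exact_mod_cast (by omega : N ≤ 2 * k)
      push_cast at this
      linarith
    calc 2 / (N : ℝ) = 1 * (2 / N) := by ring
      _ ≤ (-((N : ℝ) - 1 - 2 * k)) * (-Real.sin (Real.pi * (2 * k + 1) / N)) :=
        mul_le_mul h2 h1 h2N.le (by linarith)
      _ = _ := by ring

/-- a term away from the middle -/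
theorem term_le {N n k : ℕ} (hk : k < N) (h : 2 * k + 1 ≠ N) :
    bn N k n * bn N (N - 1 - k) n ≤ (N : ℝ) / 2 * G0b N n := by
  have hN : (0 : ℝ) < N := by exact_mod_cast (by omega : 0 < N)
  have h1 := betaw_low hk h
  have h2 := w_nonneg n hk
  have h3 : betaw N k * (bn N k n * bn N (N - 1 - k) n) ≤ G0b N n := by
    unfold G0b
    apply single_le_sum (f := fun k => betaw N k * (bn N k n * bn N (N - 1 - k) n))
      (fun i hi => mul_nonneg (betaw_nonneg (mem_range.mp hi)) (w_nonneg n (mem_range.mp hi)))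
      (mem_range.mpr hk)
  calc bn N k n * bn N (N - 1 - k) n = (N : ℝ) / 2 * (2 / N * (bn N k n * bn N (N - 1 - k) n)) := by
        field_simp
    _ ≤ (N : ℝ) / 2 * (betaw N k * (bn N k n * bn N (N - 1 - k) n)) := by
        apply mul_le_mul_of_nonneg_left _ (by positivity)
        exact mul_le_mul_of_nonneg_right h1 h2
    _ ≤ _ := mul_le_mul_of_nonneg_left h3 (by positivity)

theorem bn_succ {N a b : ℕ} (h : b ≤ a) (h2 : a + 1 < N) :
    bn N (a + 1) b * TB.sb ((a + 1 - b : ℕ) / N) = bn N a b * TB.sb ((a + 1 : ℕ) / N) := by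
  unfold bn
  rw [if_pos h, if_pos (by omega), TB.sf_succ, show a + 1 - b = (a - b) + 1 by omega, TB.sf_succ]
  have p1 : TB.sf N b ≠ 0 := (TB.sf_pos (by exact_mod_cast (by omega : b < N))).ne'
  have p2 : TB.sf N (a - b) ≠ 0 := (TB.sf_pos (by exact_mod_cast (by omega : a - b < N))).ne'
  have p3 : TB.sb (((a - b + 1 : ℕ) : ℝ) / N) ≠ 0 := by
    have hN : (0 : ℝ) < N := by exact_mod_cast (by omega : 0 < N)
    apply ne_of_gt
    apply Pool.Agent.Helper9.TB.sb_pos (by positivity)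
    rw [div_lt_one hN]
    exact_mod_cast (by omega : a - b + 1 < N)
  field_simp

theorem mid_le {c n : ℕ} (h : n + 1 ≤ c) :
    bn (2 * c + 1) c n * bn (2 * c + 1) c n ≤ ((2 * c + 1 : ℕ) : ℝ) / 2 *
      (bn (2 * c + 1) (c - 1) n * bn (2 * c + 1) (c + 1) n) := by
  obtain ⟨d, rfl⟩ : ∃ d, c = d + 1 := ⟨c - 1, by omega⟩
  rw [Nat.add_sub_cancel]
  set N := 2 * (d + 1) + 1 with hNdef
  have hN : (0 : ℝ) < N := by exact_mod_cast (by omega : 0 < N)
  have e1 := bn_succ (N := N) (a := d) (b := n) (by omega) (by omega)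
  have e2 := bn_succ (N := N) (a := d + 1) (b := n) (by omega) (by omega)
  have es : TB.sb (((d + 1 + 1 : ℕ) : ℝ) / N) = TB.sb (((d + 1 : ℕ) : ℝ) / N) := by
    unfold Pool.Agent.Helper9.TB.sb
    congr 1
    rw [← Real.sin_pi_sub]
    congr 1
    have : (N : ℝ) = ((d + 1 + 1 : ℕ) : ℝ) + ((d + 1 : ℕ) : ℝ) := by
      rw [← Nat.cast_add]; congr 1; omega
    field_simp
    rw [this]; ring
  rw [es] at e2
  have ps : 0 < TB.sb (((d + 1 : ℕ) : ℝ) / N) := by
    apply Pool.Agent.Helper9.TB.sb_pos (by positivity)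
    rw [div_lt_one hN]
    exact_mod_cast (by omega : d + 1 < N)
  have pa : 0 < TB.sb (((d + 1 - n : ℕ) : ℝ) / N) := by
    apply Pool.Agent.Helper9.TB.sb_pos
    · have : (0 : ℝ) < ((d + 1 - n : ℕ) : ℝ) := by exact_mod_cast (by omega : 0 < d + 1 - n)
      positivity
    · rw [div_lt_one hN]
      exact_mod_cast (by omega : d + 1 - n < N)
  have la : 4 / (N : ℝ) ≤ TB.sb (((d + 1 - n : ℕ) : ℝ) / N) := by
    have := sin_low (N := N) (x := d + 1 - n) (by omega) (by omega)
    unfold Pool.Agent.Helper9.TB.sb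
    rw [← mul_div_assoc]
    calc 4 / (N : ℝ) = 2 * (2 / N) := by ring
      _ ≤ _ := mul_le_mul_of_nonneg_left this (by norm_num)
  have ub : TB.sb (((d + 1 + 1 - n : ℕ) : ℝ) / N) ≤ 2 := by
    unfold Pool.Agent.Helper9.TB.sb
    have := Real.sin_le_one (Real.pi * (((d + 1 + 1 - n : ℕ) : ℝ) / N))
    linarith
  have b0 : 0 ≤ bn N d n := by
    unfold bn
    rw [if_pos (by omega)]
    have p1 : 0 < TB.sf N d := (TB.sf_pos (by exact_mod_cast (by omega : d < N)))
    have p2 : 0 < TB.sf N n := (TB.sf_pos (by exact_mod_cast (by omega : n < N)))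
    have p3 : 0 < TB.sf N (d - n) := (TB.sf_pos (by exact_mod_cast (by omega : d - n < N)))
    positivity
  have b1 : 0 ≤ bn N (d + 1 + 1) n := by
    unfold bn
    rw [if_pos (by omega)]
    have p1 : 0 < TB.sf N (d + 1 + 1) :=
      (TB.sf_pos (by exact_mod_cast (by omega : d + 1 + 1 < N)))
    have p2 : 0 < TB.sf N n := (TB.sf_pos (by exact_mod_cast (by omega : n < N)))
    have p3 : 0 < TB.sf N (d + 1 + 1 - n) :=
      (TB.sf_pos (by exact_mod_cast (by omega : d + 1 + 1 - n < N)))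
    positivity
  generalize TB.sb (((d + 1 + 1 - n : ℕ) : ℝ) / N) = B at e2 ub
  generalize TB.sb (((d + 1 : ℕ) : ℝ) / N) = S at e1 e2 ps
  generalize TB.sb (((d + 1 - n : ℕ) : ℝ) / N) = A at e1 pa la
  generalize bn N d n = x at e1 b0 ⊢
  generalize bn N (d + 1) n = y at e1 e2 ⊢
  generalize bn N (d + 1 + 1) n = z at e2 b1 ⊢
  -- y A = x S, z B = y S
  have e3 : S * A * (y * y) = S * B * (x * z) := by
    calc S * A * (y * y) = (y * A) * (y * S) := by ring
      _ = (x * S) * (z * B) := by rw [e1, ← e2]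
      _ = _ := by ring
  have e4 : A * (y * y) = B * (x * z) := by
    have := e3
    rw [mul_assoc, mul_assoc S B] at this
    exact mul_left_cancel₀ ps.ne' this
  have hxz : 0 ≤ x * z := mul_nonneg b0 b1
  have hyy : 0 ≤ y * y := mul_self_nonneg y
  have h5 : 4 / (N : ℝ) * (y * y) ≤ 2 * (x * z) :=
    calc 4 / (N : ℝ) * (y * y) ≤ A * (y * y) := mul_le_mul_of_nonneg_right la hyy
      _ = B * (x * z) := e4
      _ ≤ 2 * (x * z) := mul_le_mul_of_nonneg_right ub hxz
  calc y * y = (N : ℝ) / 4 * (4 / (N : ℝ) * (y * y)) := by field_simp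
    _ ≤ (N : ℝ) / 4 * (2 * (x * z)) := mul_le_mul_of_nonneg_left h5 (by positivity)
    _ = (N : ℝ) / 2 * (x * z) := by ring

end H6L

open H6L in
theorem G0b_lower : ∃ K : ℝ, 0 < K ∧ ∀ N n : ℕ, 2 * n + 2 ≤ N →
    G0 N n ≤ K * (N : ℝ) ^ 6 * G0b N n := by
  refine ⟨1, one_pos, fun N n h => ?_⟩
  have hN : (2 : ℝ) ≤ N := by exact_mod_cast (by omega : 2 ≤ N)
  have hb := G0b_nonneg N n
  have key : ∀ k ∈ range N, bn N k n * bn N (N - 1 - k) n ≤ (N : ℝ) ^ 2 * G0b N n := by
    intro k hk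
    rw [mem_range] at hk
    by_cases hm : 2 * k + 1 = N
    · have h1 := mid_le (c := k) (n := n) (by omega)
      have h2 := term_le (N := N) (n := n) (k := k - 1) (by omega) (by omega)
      rw [show N - 1 - (k - 1) = k + 1 by omega] at h2
      rw [show N - 1 - k = k by omega]
      rw [hm] at h1
      calc bn N k n * bn N k n ≤ (N : ℝ) / 2 * (bn N (k - 1) n * bn N (k + 1) n) := h1
        _ ≤ (N : ℝ) / 2 * ((N : ℝ) / 2 * G0b N n) := mul_le_mul_of_nonneg_left h2 (by positivity)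
        _ = (N : ℝ) ^ 2 / 4 * G0b N n := by ring
        _ ≤ _ := by
          apply mul_le_mul_of_nonneg_right _ hb
          nlinarith
    · refine (term_le hk hm).trans ?_
      apply mul_le_mul_of_nonneg_right _ hb
      nlinarith
  have h3 : G0 N n ≤ N * ((N : ℝ) ^ 2 * G0b N n) := by
    unfold G0
    refine (sum_le_sum key).trans ?_
    rw [sum_const, card_range, nsmul_eq_mul]
  refine h3.trans ?_
  rw [one_mul]
  calc (N : ℝ) * ((N : ℝ) ^ 2 * G0b N n) = (N : ℝ) ^ 3 * G0b N n := by ring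
    _ ≤ (N : ℝ) ^ 6 * G0b N n := by
      apply mul_le_mul_of_nonneg_right _ hb
      exact pow_le_pow_right₀ (by linarith) (by norm_num)

end Pool.Agent.Helper77.ST
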