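import Pool.Agent.Helper77.ST.SPoly
import Pool.Agent.Helper77.ST.MR2
import Pool.Agent.Helper77.ST.MLoc

/-!
# Module SEXP: powers of a crossing
-/

namespace Pool.Agent.Helper77.ST

open Finset
open Pool.Agent.Helper9.Kashaev (Piece Diagram)
open Pool.Agent.Helper9.FA (Item twists)

variable {F : Type*} [Field F]

private theorem sexp_rep (P : Par F) (p : Piece) (k : ℕ) : ∀ (i : ℕ) (g : List ℕ → F),
    RT P (List.replicate i (k, p)) g = ((sliceL P p k) ^ i) g := by
  intro i
  induction i with
  | zero => intro g; simp [RT]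
  | succ i IH =>
    intro g
    rw [List.replicate_succ, pow_succ]
    simp only [RT]
    rw [IH]
    rfl

private theorem sexp_sh (k i : ℕ) (p : Piece) :
    sh k (List.replicate i (0, p)) = List.replicate i (k, p) := by
  simp [sh]

private theorem sexp_pow_Sup {P : Par F} {n k : ℕ} {g : List ℕ → F} (hg : Sup P n g) (i : ℕ) :
    Sup P n (((sliceL P .pos k) ^ i) g) := by
  induction i with
  | zero => simpa using hg
  | succ i IH =>
    rw [pow_succ', Module.End.mul_apply]
    exact IH.pos k

open Polynomial in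
private theorem sexp_aeval_Sup {P : Par F} {n k : ℕ} {g : List ℕ → F} (hg : Sup P n g) (q : F[X]) :
    Sup P n (aeval (sliceL P .pos k) q g) := by
  intro w hw
  rw [aeval_eq_sum_range, LinearMap.sum_apply, Finset.sum_apply]
  apply Finset.sum_eq_zero
  intro i _
  rw [LinearMap.smul_apply, Pi.smul_apply, sexp_pow_Sup hg i w hw, smul_zero]

open Polynomial in
private theorem sexp_ann {P : Par F} {n k : ℕ} (hk : k + 2 ≤ n) {g : List ℕ → F} (hg : Sup P n g) :
    aeval (sliceL P .pos k) (∏ j ∈ range P.N, (X - C (mu P j))) g = 0 := by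
  set p : F[X] := ∏ j ∈ range P.N, (X - C (mu P j)) with hp
  have hH : ∀ f : List ℕ → F, Sup P 2 f → ∀ u,
      ∑ i ∈ range (p.natDegree + 1), p.coeff i * RT P (List.replicate i (0, .pos)) f u = 0 := by
    intro f hf u
    have h := congrFun (pos_poly hf) u
    rw [← hp, aeval_eq_sum_range, LinearMap.sum_apply, Finset.sum_apply, Pi.zero_apply] at h
    rw [← h]
    apply Finset.sum_congr rfl
    intro i _
    rw [sexp_rep, LinearMap.smul_apply, Pi.smul_apply, smul_eq_mul]
  obtain ⟨r, rfl⟩ : ∃ r, n = k + 2 + r := ⟨n - (k + 2), by omega⟩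
  funext u
  have h := local_sum (range (p.natDegree + 1)) (fun i => p.coeff i)
    (fun i => List.replicate i (0, .pos)) (fun i _ => h96_wf_replicate (by omega) (Or.inl rfl) i)
    hH k r hg u
  rw [aeval_eq_sum_range, LinearMap.sum_apply, Finset.sum_apply]
  rw [Pi.zero_apply, ← h]
  apply Finset.sum_congr rfl
  intro i _
  rw [sexp_sh, sexp_rep, LinearMap.smul_apply, Pi.smul_apply, smul_eq_mul]

private theorem sexp_inv {P : Par F} {n k : ℕ} (hk : k + 2 ≤ n) {g : List ℕ → F} (hg : Sup P n g) :
    sliceL P .neg k (sliceL P .pos k g) = g := by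
  obtain ⟨r, rfl⟩ : ∃ r, n = k + 2 + r := ⟨n - (k + 2), by omega⟩
  have h := local_eq (P := P) (n₀ := 2) (m₀ := 2) (D := [(0, .pos), (0, .neg)]) (D' := [])
    ⟨by omega, by omega, rfl⟩ rfl 1 (fun f hf => by rw [r2_pos_neg hf]; funext u; simp [RT]) k r hg
  have e1 : RT P (sh k [(0, .pos), (0, .neg)]) g = sliceL P .neg k (sliceL P .pos k g) := by
    simp [sh, RT, sliceL_apply]
  rw [e1] at h
  rw [h]
  funext u
  simp [sh, RT]

private theorem sexp_mu_ne (P : Par F) (j : ℕ) : mu P j ≠ 0 := by
  unfold mu
  exact mul_ne_zero (pow_ne_zero _ (by norm_num)) (zpow_ne_zero _ P.v0)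

open Polynomial in
theorem twists_exp {P : Par F} (hμ : ∀ i < P.N, ∀ j < P.N, mu P i = mu P j → i = j)
    {n k : ℕ} (hk : k + 2 ≤ n) {g : List ℕ → F} (hg : Sup P n g) :
    ∃ h : Fin P.N → List ℕ → F, (∀ j, Sup P n (h j)) ∧
      ∀ a : ℤ, RT P (twists k a) g = fun u => ∑ j : Fin P.N, mu P j ^ a * h j u := by
  set T := sliceL P .pos k with hT
  set h : ℕ → List ℕ → F := fun j => aeval T (Lagrange.basis (range P.N) (mu P) j) g with hh
  have hSup : ∀ j, Sup P n (h j) := fun j => sexp_aeval_Sup hg _
  have hinj : Set.InjOn (mu P) (range P.N : Set ℕ) := by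
    intro i hi j hj hij
    exact hμ i (by simpa using hi) j (by simpa using hj) hij
  have hne : (range P.N).Nonempty := by
    rw [Finset.nonempty_range_iff]
    have := P.two_le
    omega
  have hsum : ∑ j ∈ range P.N, h j = g := by
    have e := Lagrange.sum_basis hinj hne
    have : aeval T (∑ j ∈ range P.N, Lagrange.basis (range P.N) (mu P) j) g = g := by
      rw [e, map_one]; rfl
    rw [map_sum, LinearMap.sum_apply] at this
    exact this
  have heig : ∀ j < P.N, T (h j) = mu P j • h j := by
    intro j hj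
    have hfac : (X - C (mu P j)) * Lagrange.basis (range P.N) (mu P) j =
        (∏ i ∈ (range P.N).erase j, C ((mu P j - mu P i)⁻¹)) * ∏ i ∈ range P.N, (X - C (mu P i)) := by
      rw [← Finset.mul_prod_erase (range P.N) (fun i => (X - C (mu P i) : F[X]))
        (Finset.mem_range.mpr hj)]
      unfold Lagrange.basis Lagrange.basisDivisor
      rw [Finset.prod_mul_distrib]
      ring
    have h0 : aeval T ((X - C (mu P j)) * Lagrange.basis (range P.N) (mu P) j) g = 0 := by
      rw [hfac, map_mul, Module.End.mul_apply, sexp_ann hk hg, map_zero]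
    rw [map_mul, Module.End.mul_apply, map_sub, aeval_X, aeval_C, LinearMap.sub_apply,
      Module.algebraMap_end_apply] at h0
    exact sub_eq_zero.mp h0
  have hpos : ∀ j < P.N, ∀ m : ℕ, (T ^ m) (h j) = mu P j ^ m • h j := by
    intro j hj m
    induction m with
    | zero => simp
    | succ m IH =>
      rw [pow_succ', Module.End.mul_apply, IH, map_smul, heig j hj, smul_smul, pow_succ]
  have hneg1 : ∀ j < P.N, sliceL P .neg k (h j) = (mu P j)⁻¹ • h j := by
    intro j hj
    have e := sexp_inv hk (hSup j)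
    rw [← hT, heig j hj, map_smul] at e
    have := congrArg (fun f => (mu P j)⁻¹ • f) e
    simp only [smul_smul, inv_mul_cancel₀ (sexp_mu_ne P j), one_smul] at this
    exact this
  have hneg : ∀ j < P.N, ∀ m : ℕ, ((sliceL P .neg k) ^ m) (h j) = ((mu P j)⁻¹) ^ m • h j := by
    intro j hj m
    induction m with
    | zero => simp
    | succ m IH =>
      rw [pow_succ', Module.End.mul_apply, IH, map_smul, hneg1 j hj, smul_smul, pow_succ]
  refine ⟨fun j => h j, fun j => hSup j, ?_⟩
  intro a
  have key : RT P (twists k a) g = ∑ j ∈ range P.N, mu P j ^ a • h j := by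
    conv_lhs => rw [← hsum]
    rw [← RTL_apply, map_sum]
    apply Finset.sum_congr rfl
    intro j hj
    have hj' := Finset.mem_range.mp hj
    rw [RTL_apply]
    unfold twists
    rw [sexp_rep]
    by_cases ha : 0 < a
    · rw [if_pos ha, ← hT, hpos j hj']
      congr 1
      rw [← zpow_natCast]
      congr 1
      omega
    · rw [if_neg ha, hneg j hj']
      congr 1
      rw [← zpow_natCast, inv_zpow, ← zpow_neg]
      congr 1
      omega
  rw [key]
  funext u
  rw [Finset.sum_apply, Finset.sum_range]
  rfl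

end Pool.Agent.Helper77.ST
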