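import Pool.Agent.Helper77.ST.GDefs

/-!
# Module SKER: the crossings on highest weight vectors
-/

namespace Pool.Agent.Helper77.ST

open Finset
open Pool.Agent.Helper9.Kashaev (Piece Diagram)
open Pool.Agent.Helper9.FA (Item twists)

variable {F : Type*} [Field F]

lemma sker_E (P : Par F) (f : List ℕ → F) (a b : ℕ) :
    Eop P f [a, b] = ecoef P (a + 1) * P.v ^ (wt P b) * f [a + 1, b] +
      ecoef P (b + 1) * f [a, b + 1] := by
  simp [Eop, wtl]

lemma sker_eta {P : Par F} {b m : ℕ} (h : b + m < P.N) : eta P b m ≠ 0 := by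
  unfold eta
  rw [Finset.prod_ne_zero_iff]
  intro t ht
  rw [mem_range] at ht
  exact ecoef_ne (by omega) (by omega)

lemma sker_rel {P : Par F} {j : ℕ} (hj : j < P.N) {f : List ℕ → F}
    (hE : Eop P f = fun _ => 0) (a : ℕ) (ha : a ≤ j) :
    eta P 0 a * f [a, j - a] =
      (-1) ^ a * P.v ^ (-((a : ℤ) * (P.N - 2 * j + a))) * eta P (j - a) a * f [0, j] := by
  induction a with
  | zero => simp [eta_zero]
  | succ a ih =>
    have h1 := ih (by omega)
    obtain ⟨b, hb⟩ : ∃ b, j = a + 1 + b := ⟨j - (a + 1), by omega⟩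
    have hb1 : j - (a + 1) = b := by omega
    have hb2 : j - a = b + 1 := by omega
    rw [hb2] at h1
    rw [hb1]
    have h2 := congrFun hE [a, b]
    rw [sker_E] at h2
    have h3 : ecoef P (a + 1) * f [a + 1, b] =
        -(P.v ^ (-wt P b) * ecoef P (b + 1) * f [a, b + 1]) := by
      have h4 : P.v ^ (-wt P b) * P.v ^ (wt P b) = 1 := by rw [vz]; simp
      linear_combination P.v ^ (-wt P b) * h2 - (ecoef P (a + 1) * f [a + 1, b]) * h4
    have h5 : P.v ^ (-((((a + 1 : ℕ) : ℤ)) * (P.N - 2 * j + ((a + 1 : ℕ) : ℤ)))) =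
        P.v ^ (-((a : ℤ) * (P.N - 2 * j + a))) * P.v ^ (-wt P b) := by
      rw [vz]
      congr 1
      unfold wt
      rw [hb]
      push_cast
      ring
    rw [h5, eta_succ, zero_add, eta_succ' P b a, pow_succ]
    linear_combination (eta P 0 a) * h3 - P.v ^ (-wt P b) * ecoef P (b + 1) * h1

/-- a highest weight vector of level `j` is determined by its coordinate `[0, j]` -/
lemma sker_zero {P : Par F} {j : ℕ} (hj : j < P.N) {f : List ℕ → F} (hf : Sup P 2 f)
    (hE : Eop P f = fun _ => 0) (hlev : ∀ a b : ℕ, a + b ≠ j → f [a, b] = 0)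
    (h0 : f [0, j] = 0) : f = fun _ => 0 := by
  funext w
  by_cases hw : w.length = 2
  · obtain ⟨a, b, rfl⟩ := List.length_eq_two.1 hw
    by_cases hab : a + b = j
    · have h1 := sker_rel hj hE a (by omega)
      rw [h0, mul_zero] at h1
      have h2 : j - a = b := by omega
      rw [h2] at h1
      exact (mul_eq_zero.1 h1).resolve_left (sker_eta (by omega))
    · exact hlev a b hab
  · exact hf w (fun h => hw h.1)

lemma sker_last {P : Par F} {j : ℕ} (hj : j < P.N) {f : List ℕ → F}
    (hE : Eop P f = fun _ => 0) :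
    f [j, 0] = (-1) ^ j * P.v ^ (-((j : ℤ) * (P.N - j))) * f [0, j] := by
  have h1 := sker_rel hj hE j le_rfl
  rw [Nat.sub_self] at h1
  have h2 : eta P 0 j ≠ 0 := sker_eta (by omega)
  apply mul_left_cancel₀ h2
  rw [h1]
  have h3 : (-((j : ℤ) * (P.N - 2 * j + j))) = -((j : ℤ) * (P.N - j)) := by ring
  rw [h3]
  ring

lemma sker_comb {P : Par F} {j : ℕ} (p : Piece) (hp : p = .pos ∨ p = .neg)
    {g : List ℕ → F} (hg : Sup P 2 g)
    (hE : Eop P g = fun _ => 0) (hlev : ∀ a b : ℕ, a + b ≠ j → g [a, b] = 0) (c : F) :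
    Sup P 2 (fun u => slice P p 0 g u + c * g u) ∧
      Eop P (fun u => slice P p 0 g u + c * g u) = (fun _ => 0) ∧
      ∀ a b : ℕ, a + b ≠ j → slice P p 0 g [a, b] + c * g [a, b] = 0 := by
  refine ⟨?_, ?_, ?_⟩
  · intro w hw
    have h1 : slice P p 0 g w = 0 := by
      rcases hp with rfl | rfl
      · exact hg.pos 0 w hw
      · exact hg.neg 0 w hw
    change slice P p 0 g w + c * g w = 0
    rw [h1, hg w hw]
    simp
  · funext w
    rw [Eop_add, Eop_smul, ← slice_E, hE, slice_zero_fun]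
    simp
  · intro a b hab
    rw [hlev a b hab, mul_zero, add_zero]
    change piece P p g [a, b] = 0
    by_cases h : a < P.N ∧ b < P.N
    · rcases hp with rfl | rfl
      · rw [pos_apply h.1 h.2]
        refine Finset.sum_eq_zero fun m hm => ?_
        rw [mem_range] at hm
        rw [hlev _ _ (by omega), mul_zero]
      · rw [neg_apply h.1 h.2]
        refine Finset.sum_eq_zero fun m hm => ?_
        rw [mem_range] at hm
        rw [hlev _ _ (by omega), mul_zero]
    · rcases hp with rfl | rfl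
      · exact pos_apply_zero h _ _
      · exact neg_apply_zero h _ _

lemma sker_mu {P : Par F} {j : ℕ} :
    mu P j = (-1) ^ j * (tht P 0 j * P.v ^ (-((j : ℤ) * (P.N - j)))) := by
  unfold mu tht
  rw [vz]
  congr 2
  unfold hw Par.N
  push_cast
  ring

lemma sker_mu_ne (P : Par F) (j : ℕ) : mu P j ≠ 0 := by
  unfold mu
  exact mul_ne_zero (pow_ne_zero _ (by norm_num)) (vz_ne P _)

theorem pos_kerE {P : Par F} {j : ℕ} (hj : j < P.N) {g : List ℕ → F} (hg : Sup P 2 g)
    (hE : Eop P g = fun _ => 0) (hlev : ∀ a b : ℕ, a + b ≠ j → g [a, b] = 0) :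
    slice P .pos 0 g = fun u => mu P j * g u := by
  obtain ⟨h1, h2, h3⟩ := sker_comb .pos (Or.inl rfl) hg hE hlev (-mu P j)
  have h0 : slice P .pos 0 g [0, j] + -mu P j * g [0, j] = 0 := by
    change piece P .pos g [0, j] + _ = 0
    have hN : 0 < P.N := by have := P.two_le; omega
    rw [pos_apply hN hj]
    simp only [zero_add, range_one, sum_singleton, add_zero, Nat.sub_zero]
    rw [sker_last hj hE, sker_mu]
    unfold rho
    rw [kap_zero, eta_zero]
    ring
  have h4 := sker_zero hj h1 h2 h3 h0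
  funext u
  have h5 : slice P _ 0 g u + _ * g u = 0 := congrFun h4 u
  linear_combination h5

theorem neg_kerE {P : Par F} {j : ℕ} (hj : j < P.N) {g : List ℕ → F} (hg : Sup P 2 g)
    (hE : Eop P g = fun _ => 0) (hlev : ∀ a b : ℕ, a + b ≠ j → g [a, b] = 0) :
    slice P .neg 0 g = fun u => (mu P j)⁻¹ * g u := by
  obtain ⟨h1, h2, h3⟩ := sker_comb .neg (Or.inr rfl) hg hE hlev (-(mu P j)⁻¹)
  have hN : 0 < P.N := by have := P.two_le; omega
  have h0 : slice P .neg 0 g [j, 0] + -(mu P j)⁻¹ * g [j, 0] = 0 := by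
    change piece P .neg g [j, 0] + _ = 0
    rw [neg_apply hj hN]
    simp only [zero_add, range_one, sum_singleton, add_zero, Nat.sub_zero]
    rw [sker_last hj hE, sker_mu]
    unfold nu
    rw [kab_zero, eta_zero, tht_symm P j 0]
    have e1 := tht_ne P 0 j
    have e2 := vz_ne P (-((j : ℤ) * (P.N - j)))
    have e3 : ((-1 : F)) ^ j ≠ 0 := pow_ne_zero _ (by norm_num)
    simp only [CharP.cast_eq_zero, zero_mul, ne_eq, OfNat.ofNat_ne_zero, not_false_eq_true,
      zero_pow, mul_zero, add_zero, zpow_zero, mul_one]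
    field_simp
    ring
  have h00 : slice P .neg 0 g [0, j] + -(mu P j)⁻¹ * g [0, j] = 0 := by
    have h4 := sker_last (f := fun u => slice P .neg 0 g u + -(mu P j)⁻¹ * g u) hj h2
    rw [h0] at h4
    have e2 := vz_ne P (-((j : ℤ) * (P.N - j)))
    have e3 : ((-1 : F)) ^ j ≠ 0 := pow_ne_zero _ (by norm_num)
    exact (mul_eq_zero.1 h4.symm).resolve_left (mul_ne_zero e3 e2)
  have h4 := sker_zero hj h1 h2 h3 h00
  funext u
  have h5 : slice P _ 0 g u + _ * g u = 0 := congrFun h4 u
  linear_combination h5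

end Pool.Agent.Helper77.ST
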