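import Pool.Agent.Helper77.ST.SKer

/-!
# Module SPOLY: the polynomial identity of a crossing
-/

namespace Pool.Agent.Helper77.ST

open Finset
open Pool.Agent.Helper9.Kashaev (Piece Diagram)
open Pool.Agent.Helper9.FA (Item twists)

variable {F : Type*} [Field F]

/-- invariant vectors in three strands -/
structure SpH (P : Par F) (f : List ℕ → F) : Prop where
  sup : Sup P 3 f
  kerE : Eop P f = fun _ => 0
  lev : ∀ a b c : ℕ, a + b + c ≠ P.N - 1 → f [a, b, c] = 0

lemma spoly_H_add {P : Par F} {f g : List ℕ → F} (hf : SpH P f) (hg : SpH P g) :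
    SpH P (fun u => f u + g u) where
  sup := fun u hu => by
    show f u + g u = 0
    rw [hf.sup u hu, hg.sup u hu, add_zero]
  kerE := by
    funext u
    rw [Eop_add, hf.kerE, hg.kerE]
    simp
  lev := fun a b c h => by rw [hf.lev a b c h, hg.lev a b c h, add_zero]

lemma spoly_H_smul {P : Par F} {f : List ℕ → F} (c : F) (hf : SpH P f) :
    SpH P (fun u => c * f u) where
  sup := fun u hu => by
    show c * f u = 0
    rw [hf.sup u hu, mul_zero]
  kerE := by
    funext u
    rw [Eop_smul, hf.kerE]
    simp
  lev := fun a b d h => by rw [hf.lev a b d h, mul_zero]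

lemma spoly_H_pos {P : Par F} {f : List ℕ → F} (hf : SpH P f) : SpH P (slice P .pos 0 f) where
  sup := hf.sup.pos 0
  kerE := by
    rw [← slice_E, hf.kerE, slice_zero_fun]
  lev := fun a b c h => by
    change piece P .pos f [a, b, c] = 0
    by_cases hab : a < P.N ∧ b < P.N
    · rw [pos_apply hab.1 hab.2]
      refine Finset.sum_eq_zero fun m hm => ?_
      rw [mem_range] at hm
      rw [hf.lev _ _ _ (by omega), mul_zero]
    · exact pos_apply_zero hab _ _

open Polynomial in
/-- the partial products -/
noncomputable def spM (P : Par F) (k : ℕ) : Module.End F (List ℕ → F) :=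
  aeval (sliceL P .pos 0) (∏ j ∈ range k, (X - C (mu P j)))

lemma spM_zero (P : Par F) (f : List ℕ → F) : spM P 0 f = f := by
  simp [spM]

lemma spM_succ (P : Par F) (k : ℕ) (f : List ℕ → F) :
    spM P (k + 1) f = fun u => slice P .pos 0 (spM P k f) u + (-mu P k) * spM P k f u := by
  unfold spM
  rw [prod_range_succ, mul_comm, map_mul, Module.End.mul_apply, map_sub, Polynomial.aeval_X,
    Polynomial.aeval_C]
  funext u
  simp only [LinearMap.sub_apply, Module.algebraMap_end_apply, Pi.sub_apply, Pi.smul_apply,
    smul_eq_mul, sliceL_apply]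
  ring

/-- the last coordinate is fixed -/
noncomputable def spR (c : ℕ) : Module.End F (List ℕ → F) where
  toFun f := fun u => if u.length = 2 then f (u ++ [c]) else 0
  map_add' f g := by
    funext u
    by_cases hu : u.length = 2 <;> simp [hu]
  map_smul' a f := by
    funext u
    by_cases hu : u.length = 2 <;> simp [hu]

lemma spR_apply (c : ℕ) (f : List ℕ → F) (u : List ℕ) :
    spR c f u = if u.length = 2 then f (u ++ [c]) else 0 := rfl

lemma spR_two (c : ℕ) (f : List ℕ → F) (a b : ℕ) : spR c f [a, b] = f [a, b, c] := rfl

lemma spR_pos (P : Par F) (c : ℕ) (f : List ℕ → F) :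
    slice P .pos 0 (spR c f) = spR c (slice P .pos 0 f) := by
  funext u
  change piece P .pos (spR c f) u = _
  match u with
  | [] => simp [piece, spR_apply]
  | [a] => simp [piece, spR_apply]
  | a :: b :: w =>
    by_cases hw : w = []
    · subst hw
      rw [spR_two]
      change _ = piece P .pos f [a, b, c]
      by_cases hab : a < P.N ∧ b < P.N
      · rw [pos_apply hab.1 hab.2, pos_apply hab.1 hab.2]
        rfl
      · rw [pos_apply_zero hab, pos_apply_zero hab]
    · have hl : ∀ x y : ℕ, ¬ (x :: y :: w).length = 2 := by
        intro x y h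
        apply hw
        simpa using h
      rw [spR_apply, if_neg (hl a b)]
      by_cases hab : a < P.N ∧ b < P.N
      · rw [pos_apply hab.1 hab.2]
        refine Finset.sum_eq_zero fun m _ => ?_
        rw [spR_apply, if_neg (hl _ _), mul_zero]
      · exact pos_apply_zero hab _ _

lemma spoly_comm (P : Par F) (k : ℕ) (A : Module.End F (List ℕ → F))
    (hA : ∀ f, A (slice P .pos 0 f) = slice P .pos 0 (A f)) (f : List ℕ → F) :
    spM P k (A f) = A (spM P k f) := by
  induction k with
  | zero => rw [spM_zero, spM_zero]
  | succ k ih =>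
    have e : ∀ h : List ℕ → F, (fun u => slice P .pos 0 h u + (-mu P k) * h u) =
        slice P .pos 0 h + (-mu P k) • h := fun h => rfl
    rw [spM_succ, spM_succ, e, e, ih, map_add, map_smul, hA]

lemma spoly_H_spM {P : Par F} {f : List ℕ → F} (hf : SpH P f) (k : ℕ) : SpH P (spM P k f) := by
  induction k with
  | zero => rwa [spM_zero]
  | succ k ih =>
    rw [spM_succ]
    exact spoly_H_add (spoly_H_pos ih) (spoly_H_smul (-mu P k) ih)

lemma spoly_last {P : Par F} {f : List ℕ → F} (hf : SpH P f) (c : ℕ) :
    Sup P 2 (spR c f) := by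
  intro u hu
  rw [spR_apply]
  by_cases h : u.length = 2
  · rw [if_pos h]
    apply hf.sup
    rintro ⟨-, h2⟩
    exact hu ⟨h, fun x hx => h2 x (by simp [hx])⟩
  · rw [if_neg h]

lemma spoly_kill {P : Par F} {f : List ℕ → F} (hf : SpH P f) (k : ℕ) (hk : k ≤ P.N) :
    ∀ c, P.N ≤ c + k → spR c (spM P k f) = fun _ => 0 := by
  induction k with
  | zero =>
    intro c hc
    rw [spM_zero]
    funext u
    rw [spR_apply]
    split_ifs with h
    · apply hf.sup
      rintro ⟨-, h2⟩
      have := h2 c (by simp)
      omega
    · rfl
  | succ k ih =>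
    intro c hc
    have e : spR c (spM P (k + 1) f) = fun u =>
        slice P .pos 0 (spR c (spM P k f)) u + (-mu P k) * spR c (spM P k f) u := by
      have e1 : ∀ h : List ℕ → F, (fun u => slice P .pos 0 h u + (-mu P k) * h u) =
        slice P .pos 0 h + (-mu P k) • h := fun h => rfl
      rw [spM_succ, e1, e1, map_add, map_smul, spR_pos]
    rw [e]
    by_cases hc2 : P.N ≤ c + k
    · rw [ih (by omega) c hc2, slice_zero_fun]
      funext u
      simp
    · have hH := spoly_H_spM hf k
      have hE : Eop P (spR c (spM P k f)) = fun _ => 0 := by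
        funext w
        by_cases hw : w.length = 2
        · obtain ⟨a, b, rfl⟩ := List.length_eq_two.1 hw
          have h1 := congrFun hH.kerE [a, b, c]
          have h2 : spM P k f [a, b, c + 1] = 0 := by
            have := congrFun (ih (by omega) (c + 1) (by omega)) [a, b]
            rw [spR_two] at this
            exact this
          have h3 : Eop P (spM P k f) [a, b, c] =
              P.v ^ (wt P c) * Eop P (spR c (spM P k f)) [a, b] +
                ecoef P (c + 1) * spM P k f [a, b, c + 1] := by
            simp only [Eop, wtl, spR_apply, List.length_cons, List.length_nil, add_zero,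
              zpow_zero, mul_one, Nat.reduceAdd, if_true, List.cons_append, List.nil_append]
            rw [zpow_add₀ (v_ne P)]
            ring
          rw [h3, h2, mul_zero, add_zero] at h1
          exact (mul_eq_zero.1 h1).resolve_left (vz_ne P _)
        · exact (spoly_last hH c).Eo w (fun h => hw h.1)
      have hkc := pos_kerE (P := P) (j := k) (by omega) (spoly_last hH c) hE (by
        intro a b hab
        rw [spR_two]
        exact hH.lev a b c (by omega))
      rw [hkc]
      funext u
      ring

lemma spoly_H_zero {P : Par F} {f : List ℕ → F} (hf : SpH P f) : spM P P.N f = fun _ => 0 := by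
  funext u
  by_cases hu : u.length = 3
  · obtain ⟨a, b, c, rfl⟩ := List.length_eq_three.1 hu
    have := congrFun (spoly_kill hf P.N le_rfl c (by omega)) [a, b]
    rw [spR_two] at this
    exact this
  · exact (spoly_H_spM hf P.N).sup u (fun h => hu h.1)

lemma spoly_base (P : Par F) : SpH P (slice P .cup 1 (ket [0])) := by
  have hN := P.two_le
  have hk : Sup P 1 (ket [0] : List ℕ → F) := by
    apply Sup_ket (w := [0])
    intro x hx
    simp only [List.mem_cons, List.not_mem_nil, or_false] at hx
    omega
  refine ⟨hk.cup 1, ?_, ?_⟩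
  · rw [← slice_E]
    have : Eop P (ket [0]) = fun _ => 0 := by
      funext w
      by_cases hw : w.length = 1
      · obtain ⟨x, rfl⟩ := List.length_eq_one_iff.1 hw
        simp [Eop, ket]
      · exact hk.Eo w (fun h => hw h.1)
    rw [this, slice_zero_fun]
  · intro a b c h
    simp only [slice, piece, ket]
    split_ifs with h1 h2
    · simp only [List.cons.injEq, and_true] at h2
      omega
    · simp
    · rfl

lemma spoly_ket (P : Par F) (i : ℕ) (hi : i < P.N) :
    spM P P.N (slice P .cup 1 (ket [i])) = fun _ => 0 := by
  induction i with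
  | zero => exact spoly_H_zero (spoly_base P)
  | succ i ih =>
    have hFL : ∀ f, FL P (slice P .pos 0 f) = slice P .pos 0 (FL P f) := by
      intro f
      rw [FL_apply, FL_apply, slice_F]
    rw [← Fop_ket hi, slice_F, ← FL_apply, spoly_comm P P.N (FL P) hFL, ih (by omega)]
    exact map_zero _

lemma spoly_two (P : Par F) {i j : ℕ} (hi : i < P.N) (hj : j < P.N) :
    spM P P.N (ket [i, j]) = fun _ => 0 := by
  have h1 : spR (P.N - 1 - j) (slice P .cup 1 (ket [i])) = cupC P j • ket [i, j] := by
    funext u
    rw [spR_apply, Pi.smul_apply, smul_eq_mul]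
    split_ifs with hu
    · obtain ⟨x, y, rfl⟩ := List.length_eq_two.mp hu
      simp only [List.cons_append, List.nil_append, slice, piece, ket, List.cons.injEq, and_true]
      by_cases hy : y = j
      · subst hy
        rw [if_pos (by omega)]
        by_cases hx : x = i
        · simp [hx]
        · simp [hx]
      · rw [if_neg (by omega), if_neg (fun h => hy h.2), mul_zero]
    · simp only [ket]
      rw [if_neg, mul_zero]
      rintro rfl
      exact hu rfl
  have h2 : cupC P j • spM P P.N (ket [i, j]) = 0 := by
    rw [← map_smul, ← h1, spoly_comm P P.N (spR (P.N - 1 - j)) (fun f => (spR_pos P _ f).symm),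
      spoly_ket P i hi]
    exact map_zero _
  rcases smul_eq_zero.1 h2 with h3 | h3
  · exact absurd h3 (cupC_ne P j)
  · exact h3

lemma spoly_expand {P : Par F} {f : List ℕ → F} (hf : Sup P 2 f) :
    f = ∑ i ∈ range P.N, ∑ j ∈ range P.N, f [i, j] • ket [i, j] := by
  funext u
  simp only [Finset.sum_apply, Pi.smul_apply, smul_eq_mul]
  by_cases hu : u.length = 2 ∧ ∀ x ∈ u, x < P.N
  · obtain ⟨x, y, rfl⟩ := List.length_eq_two.mp hu.1
    have hx : x < P.N := hu.2 x (by simp)
    have hy : y < P.N := hu.2 y (by simp)
    rw [sum_eq_single x, sum_eq_single y]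
    · simp [ket]
    · intro j _ hj
      simp only [ket]
      rw [if_neg (fun h => hj (by simpa using h.symm)), mul_zero]
    · intro hh; exact absurd (mem_range.mpr hy) hh
    · intro i _ hi
      apply sum_eq_zero
      intro j _
      simp only [ket]
      rw [if_neg, mul_zero]
      intro h
      simp only [List.cons.injEq] at h
      exact hi h.1.symm
    · intro hh; exact absurd (mem_range.mpr hx) hh
  · rw [hf u hu]
    symm
    apply sum_eq_zero
    intro i hi
    apply sum_eq_zero
    intro j hj
    rw [mem_range] at hi hj
    simp only [ket]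
    rw [if_neg, mul_zero]
    rintro rfl
    apply hu
    refine ⟨rfl, ?_⟩
    intro x hx
    simp only [List.mem_cons, List.not_mem_nil, or_false] at hx
    rcases hx with rfl | rfl <;> assumption

open Polynomial in
theorem pos_poly {P : Par F} {g : List ℕ → F} (hg : Sup P 2 g) :
    aeval (sliceL P .pos 0) (∏ j ∈ range P.N, (X - C (mu P j))) g = 0 := by
  change spM P P.N g = 0
  rw [spoly_expand hg, map_sum]
  refine Finset.sum_eq_zero fun i hi => ?_
  rw [map_sum]
  refine Finset.sum_eq_zero fun j hj => ?_
  rw [mem_range] at hi hj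
  rw [map_smul, spoly_two P hi hj]
  exact smul_zero _

end Pool.Agent.Helper77.ST
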