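import Mathlib
import Pool.Agent.Helper9.FA.ZDefs
import Pool.Agent.Helper77.ST.SExp

/-!
# Module STW: the value as a sum of exponentials
-/

namespace Pool.Agent.Helper77.ST

open Finset
open Pool.Agent.Helper9.Kashaev (Piece Diagram)
open Pool.Agent.Helper9.FA (Item twists)

variable {F : Type*} [Field F]

open Pool.Agent.Helper9.FA (wfP labels)

private lemma stw_lin (P : Par F) (D : Diagram) {ι : Type*} (s : Finset ι) (c : ι → F)
    (h : ι → List ℕ → F) (u : List ℕ) :
    RT P D (fun w => ∑ j ∈ s, c j * h j w) u = ∑ j ∈ s, c j * RT P D (h j) u := by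
  have h1 : (fun w => ∑ j ∈ s, c j * h j w) = ∑ j ∈ s, c j • h j := by
    funext w
    simp [Finset.sum_apply]
  rw [h1, ← RTL_apply, map_sum, Finset.sum_apply]
  refine Finset.sum_congr rfl fun j _ => ?_
  rw [map_smul, Pi.smul_apply, smul_eq_mul, RTL_apply]

theorem tw_exp {P : Par F} (hμ : ∀ i < P.N, ∀ j < P.N, mu P i = mu P j → i = j)
    (S : List (Item Unit)) {n m : ℕ} (hS : wfP n S m) {g : List ℕ → F} (hg : Sup P n g)
    (u : List ℕ) : ∃ c : (Fin (labels S).length → Fin P.N) → F,
      ∀ a : Fin (labels S).length → ℤ,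
        RT P (tw S (List.ofFn a)) g u = ∑ x, c x * ∏ i, mu P (x i) ^ a i := by
  induction S generalizing n g with
  | nil =>
    refine ⟨fun _ => g u, fun a => ?_⟩
    have h0 : tw ([] : List (Item Unit)) (List.ofFn a) = [] := rfl
    rw [h0]
    show g u = ∑ x : Fin 0 → Fin P.N, g u * ∏ i : Fin 0, mu P (x i) ^ a i
    simp
  | cons it S ih =>
    cases it with
    | cup k =>
      obtain ⟨hk, hS'⟩ := hS
      exact ih hS' (hg.cup k)
    | cap k =>
      obtain ⟨hk, hS'⟩ := hS
      obtain ⟨n', rfl⟩ : ∃ n', n = n' + 2 := ⟨n - 2, by omega⟩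
      exact ih hS' (hg.cap k)
    | box k e =>
      obtain ⟨hk, hS'⟩ := hS
      obtain ⟨h, hh, hexp⟩ := twists_exp hμ hk hg
      choose c hc using fun j => ih hS' (hh j)
      show ∃ c : (Fin ((labels S).length + 1) → Fin P.N) → F,
        ∀ a : Fin ((labels S).length + 1) → ℤ,
          RT P (tw (.box k e :: S) (List.ofFn a)) g u = ∑ x, c x * ∏ i, mu P (x i) ^ a i
      refine ⟨fun x => c (x 0) (fun i => x i.succ), fun a => ?_⟩
      have h1 : tw (.box k e :: S) (List.ofFn a) =
          twists k (a 0) ++ tw S (List.ofFn fun i : Fin (labels S).length => a i.succ) := by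
        have h2 : List.ofFn a = a 0 :: List.ofFn fun i : Fin (labels S).length => a i.succ :=
          List.ofFn_succ
        rw [h2]
        rfl
      rw [h1, RT_append, hexp, stw_lin]
      have h3 : ∀ j : Fin P.N, RT P (tw S (List.ofFn fun i : Fin (labels S).length => a i.succ))
          (h j) u = ∑ x, c j x * ∏ i, mu P (x i) ^ a i.succ := fun j => hc j _
      simp_rw [h3]
      rw [← (Fin.consEquiv fun _ : Fin ((labels S).length + 1) => Fin P.N).sum_comp,
        Fintype.sum_prod_type]
      refine Finset.sum_congr rfl fun j _ => ?_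
      rw [Finset.mul_sum]
      refine Finset.sum_congr rfl fun x _ => ?_
      rw [Fin.prod_univ_succ]
      simp only [Fin.consEquiv_apply, Fin.cons_zero, Fin.cons_succ]
      ring

end Pool.Agent.Helper77.ST
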